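import Pool.Agent.TBG.Stmts

/-!
# Three-body Bose gases (MP_80dc41_mp): module IBP, integration by parts
-/

set_option autoImplicit false

open MeasureTheory Filter Topology
open scoped ContDiff

namespace Pool.Agent.TBG

namespace IBP_

theorem main (W : Type) [NormedAddCommGroup W] [NormedSpace ℝ W] [FiniteDimensional ℝ W]
    [MeasurableSpace W] [BorelSpace W] (μ : Measure W) [μ.IsAddHaarMeasure] (f g : W → ℝ) (v : W)
    (hf : ContDiff ℝ 1 f) (hg : ContDiff ℝ 1 g) (hc : HasCompactSupport f) :
    ∫ x, f x * dv v g x ∂μ = - ∫ x, dv v f x * g x ∂μ := by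
  have hcf : Continuous (fun x => fderiv ℝ f x v) :=
    (hf.continuous_fderiv (by norm_num)).clm_apply continuous_const
  have hcg : Continuous (fun x => fderiv ℝ g x v) :=
    (hg.continuous_fderiv (by norm_num)).clm_apply continuous_const
  have hcs : HasCompactSupport (fun x => fderiv ℝ f x v) := hc.fderiv_apply (𝕜 := ℝ) v
  unfold dv
  refine integral_mul_fderiv_eq_neg_fderiv_mul_of_integrable ?_ ?_ ?_ ?_ ?_
  · exact (hcf.mul hg.continuous).integrable_of_hasCompactSupport hcs.mul_right
  · exact (hf.continuous.mul hcg).integrable_of_hasCompactSupport hc.mul_right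
  · exact (hf.continuous.mul hg.continuous).integrable_of_hasCompactSupport hc.mul_right
  · intro x _
    exact hf.differentiable (by norm_num) x
  · intro x _
    exact hg.differentiable (by norm_num) x

end IBP_

/-- integration by parts -/
theorem ibp_proof : Stmt_IBP := by
  intro W _ _ _ _ _ μ _ f g v hf hg hc
  refine ⟨?_, IBP_.main W μ f g v hf hg hc⟩
  have h := IBP_.main W μ f (fun _ => 1) v hf contDiff_const hc
  have h0 : ∀ x : W, dv v (fun _ : W => (1 : ℝ)) x = 0 := by
    intro x
    simp [dv]
  simp only [h0, mul_zero, mul_one, integral_zero] at h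
  linarith

end Pool.Agent.TBG
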