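import Pool.Agent.TBG.Stmts

/-!
# Three-body Bose gases (MP_80dc41_mp): sums over sorted triples and permutations
-/

set_option autoImplicit false

namespace Pool.Agent.TBG

namespace PRM_

variable {N : ℕ}

/-- sorted triples -/
noncomputable def s (i j k : Fin N) : ℝ := if i < j ∧ j < k then 1 else 0

/-- distinct triples -/
noncomputable def d (i j k : Fin N) : ℝ := if i ≠ j ∧ j ≠ k ∧ i ≠ k then 1 else 0

theorem six_nat (a b c : ℕ) :
    (if a < b ∧ b < c then (1 : ℝ) else 0) + (if a < c ∧ c < b then (1 : ℝ) else 0) +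
      (if b < a ∧ a < c then (1 : ℝ) else 0) + (if b < c ∧ c < a then (1 : ℝ) else 0) +
      (if c < a ∧ a < b then (1 : ℝ) else 0) + (if c < b ∧ b < a then (1 : ℝ) else 0) =
    if a ≠ b ∧ b ≠ c ∧ a ≠ c then 1 else 0 := by
  split_ifs <;> first | (exfalso; omega) | norm_num

theorem six (i j k : Fin N) :
    s i j k + s i k j + s j i k + s j k i + s k i j + s k j i = d i j k := by
  unfold s d
  have h := six_nat (i : ℕ) (j : ℕ) (k : ℕ)
  simpa only [Fin.lt_def, ne_eq, Fin.ext_iff] using h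

theorem sum_trip (g : Fin N → Fin N → Fin N → ℝ) :
    ∑ t ∈ trip (Finset.univ : Finset (Fin N)), g t.1 t.2.1 t.2.2 =
      ∑ i, ∑ j, ∑ k, s i j k * g i j k := by
  unfold trip s
  rw [Finset.sum_filter, Finset.sum_product]
  refine Finset.sum_congr rfl fun i _ => ?_
  rw [Finset.sum_product]
  refine Finset.sum_congr rfl fun j _ => Finset.sum_congr rfl fun k _ => ?_
  dsimp only
  split_ifs
  · rw [one_mul]
  · rw [zero_mul]

theorem main6 (g : Fin N → Fin N → Fin N → ℝ) (h1 : ∀ i j k, g i j k = g i k j)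
    (h2 : ∀ i j k, g i j k = g j i k) :
    6 * ∑ i, ∑ j, ∑ k, s i j k * g i j k = ∑ i, ∑ j, ∑ k, d i j k * g i j k := by
  have e1 : ∑ i, ∑ j, ∑ k, s i k j * g i j k = ∑ i, ∑ j, ∑ k, s i j k * g i j k := by
    refine Finset.sum_congr rfl fun i _ => ?_
    rw [Finset.sum_comm]
    refine Finset.sum_congr rfl fun j _ => Finset.sum_congr rfl fun k _ => ?_
    rw [h1]
  have e2 : ∑ i, ∑ j, ∑ k, s j i k * g i j k = ∑ i, ∑ j, ∑ k, s i j k * g i j k := by
    rw [Finset.sum_comm]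
    refine Finset.sum_congr rfl fun i _ => Finset.sum_congr rfl fun j _ =>
      Finset.sum_congr rfl fun k _ => ?_
    rw [h2]
  have e3 : ∑ i, ∑ j, ∑ k, s j k i * g i j k = ∑ i, ∑ j, ∑ k, s i j k * g i j k := by
    rw [Finset.sum_comm]
    refine Finset.sum_congr rfl fun i _ => ?_
    rw [Finset.sum_comm]
    refine Finset.sum_congr rfl fun j _ => Finset.sum_congr rfl fun k _ => ?_
    rw [h2 k i j, h1 i k j]
  have e4 : ∑ i, ∑ j, ∑ k, s k i j * g i j k = ∑ i, ∑ j, ∑ k, s i j k * g i j k := by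
    have e : ∀ i : Fin N, ∑ j, ∑ k, s k i j * g i j k = ∑ k, ∑ j, s k i j * g i j k :=
      fun i => Finset.sum_comm
    rw [Finset.sum_congr rfl fun i _ => e i, Finset.sum_comm]
    refine Finset.sum_congr rfl fun i _ => Finset.sum_congr rfl fun j _ =>
      Finset.sum_congr rfl fun k _ => ?_
    rw [h1 j k i, h2 j i k]
  have e5 : ∑ i, ∑ j, ∑ k, s k j i * g i j k = ∑ i, ∑ j, ∑ k, s i j k * g i j k := by
    have e : ∀ i : Fin N, ∑ j, ∑ k, s k j i * g i j k = ∑ k, ∑ j, s k j i * g i j k :=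
      fun i => Finset.sum_comm
    rw [Finset.sum_congr rfl fun i _ => e i, Finset.sum_comm]
    refine Finset.sum_congr rfl fun i _ => ?_
    rw [Finset.sum_comm]
    refine Finset.sum_congr rfl fun j _ => Finset.sum_congr rfl fun k _ => ?_
    rw [h1 k j i, h2 k i j, h1 i k j]
  have e6 : ∑ i, ∑ j, ∑ k, d i j k * g i j k =
      ∑ i, ∑ j, ∑ k, s i j k * g i j k + ∑ i, ∑ j, ∑ k, s i k j * g i j k +
      ∑ i, ∑ j, ∑ k, s j i k * g i j k + ∑ i, ∑ j, ∑ k, s j k i * g i j k +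
      ∑ i, ∑ j, ∑ k, s k i j * g i j k + ∑ i, ∑ j, ∑ k, s k j i * g i j k := by
    simp only [← Finset.sum_add_distrib]
    refine Finset.sum_congr rfl fun i _ => Finset.sum_congr rfl fun j _ =>
      Finset.sum_congr rfl fun k _ => ?_
    rw [← six]
    ring
  rw [e6, e1, e2, e3, e4, e5]
  ring

theorem d_perm (σ : Equiv.Perm (Fin N)) (i j k : Fin N) : d (σ i) (σ j) (σ k) = d i j k := by
  unfold d
  simp only [ne_eq, EmbeddingLike.apply_eq_iff_eq]

end PRM_

open PRM_ in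
theorem prm_proof : Stmt_PRM := by
  intro N g σ h1 h2
  have a1 := main6 g h1 h2
  have a2 := main6 (fun i j k => g (σ i) (σ j) (σ k)) (fun i j k => h1 _ _ _)
    (fun i j k => h2 _ _ _)
  have a3 : ∑ i, ∑ j, ∑ k, d i j k * g (σ i) (σ j) (σ k) = ∑ i, ∑ j, ∑ k, d i j k * g i j k := by
    rw [← Equiv.sum_comp σ (fun i => ∑ j, ∑ k, d i j k * g i j k)]
    refine Finset.sum_congr rfl fun i _ => ?_
    rw [← Equiv.sum_comp σ (fun j => ∑ k, d (σ i) j k * g (σ i) j k)]
    refine Finset.sum_congr rfl fun j _ => ?_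
    rw [← Equiv.sum_comp σ (fun k => d (σ i) (σ j) k * g (σ i) (σ j) k)]
    refine Finset.sum_congr rfl fun k _ => ?_
    rw [d_perm]
  rw [sum_trip (fun i j k => g (σ i) (σ j) (σ k)), sum_trip g]
  rw [a3] at a2
  linarith

end Pool.Agent.TBG
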