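import Pool.Agent.TBG.Stmts

/-!
# Squad TBG (MP_80dc41_mp), module ADM: the potential `VV φ` is admissible
-/

set_option autoImplicit false

open MeasureTheory Filter Topology
open scoped ContDiff

namespace Pool.Agent.TBG

namespace ADM_

theorem dv_smooth {W : Type} [NormedAddCommGroup W] [NormedSpace ℝ W] (v : W) (f : W → ℝ)
    (hf : ContDiff ℝ ∞ f) : ContDiff ℝ ∞ (dv v f) := by
  unfold dv
  exact (hf.fderiv_right (m := ∞) (by simp)).clm_apply contDiff_const

theorem Lap_cont (φ : E × E → ℝ) (hφ : ContDiff ℝ ∞ φ) : Continuous (Lap φ) := by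
  unfold Lap
  refine continuous_finsetSum _ (fun m _ => continuous_finsetSum _ (fun c _ => ?_))
  exact (dv_smooth _ _ (dv_smooth _ _ hφ)).continuous

end ADM_

theorem adm_proof (hLTR : Stmt_LTR) : Stmt_ADM := by
  intro φ hφ
  have hφc : Continuous φ := hφ.smooth.continuous
  have hwc : Continuous (ww φ) := (ADM_.Lap_cont φ hφ.smooth).neg
  have hpos : ∀ z, 0 < 1 - φ z := fun z => by have := hφ.le_half z; linarith
  obtain ⟨R, hR⟩ := hφ.supp
  have hwR : ∀ z, R < ‖z‖ → ww φ z = 0 := by
    intro z hz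
    unfold ww
    rw [hR z hz, neg_zero]
  have hws : HasCompactSupport (ww φ) := by
    apply HasCompactSupport.intro (isCompact_closedBall (0 : E × E) R)
    intro z hz
    apply hwR
    rw [mem_closedBall_zero_iff, not_le] at hz
    exact hz
  have hw0 : ∀ z, 0 ≤ ww φ z := by
    intro z
    have := hφ.sup z
    unfold ww
    linarith
  have hVR : ∀ z : E × E, R < ‖z‖ → VV φ z.1 z.2 = 0 := by
    intro z hz
    unfold VV
    rw [show ww φ (z.1, z.2) = 0 from hwR z hz, zero_div]
  have hVc : Continuous (fun z : E × E => VV φ z.1 z.2) := by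
    unfold VV
    exact hwc.div (continuous_const.sub hφc) (fun z => (hpos z).ne')
  have hVs : HasCompactSupport (fun z : E × E => VV φ z.1 z.2) := by
    apply HasCompactSupport.intro (isCompact_closedBall (0 : E × E) R)
    intro z hz
    apply hVR
    rw [mem_closedBall_zero_iff, not_le] at hz
    exact hz
  obtain ⟨-, -, hsw, hsc⟩ := hLTR φ hφ.smooth
  have hL1 : ∀ x y : E, Lap φ (x, y) = Lap φ (y, x) := by
    intro x y
    have h1 : (fun z : E × E => φ (z.2, z.1)) = φ := by
      funext z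
      exact (hφ.sy1 z.1 z.2).symm
    have h2 := (hsw (x, y)).1
    rw [h1] at h2
    exact h2
  have hL2 : ∀ x y : E, Lap φ (x, y) = Lap φ (-x, y - x) := by
    intro x y
    have h1 : (fun z : E × E => φ (-z.1, z.2 - z.1)) = φ := by
      funext z
      exact (hφ.sy2 z.1 z.2).symm
    have h2 := (hsc (x, y)).1
    rw [h1] at h2
    exact h2
  have hV1 : ∀ x y, VV φ x y = VV φ y x := by
    intro x y
    unfold VV ww
    rw [hL1 x y, hφ.sy1 x y]
  have hV2 : ∀ x y, VV φ x y = VV φ (-x) (y - x) := by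
    intro x y
    unfold VV ww
    rw [hL2 x y, hφ.sy2 x y]
  refine ⟨⟨hVc.measurable, ?_, ?_, ?_, hV1, ?_⟩, hVc, hwc, hws, hw0, ?_, hVs⟩
  · intro x y
    exact div_nonneg (hw0 _) (hpos _).le
  · obtain ⟨C, hC⟩ := hVc.bounded_above_of_compact_support hVs
    refine ⟨C, fun x y => ?_⟩
    exact le_trans (le_abs_self _) (hC (x, y))
  · refine ⟨R, fun x y h => hVR (x, y) ?_⟩
    rw [Prod.norm_def]
    exact lt_max_iff.mpr h
  · intro x y z
    constructor
    · rw [hV2 (x - y) (x - z)]
      congr 1 <;> abel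
    · rw [hV1 (y - x) (y - z), hV2 (y - z) (y - x)]
      congr 1 <;> abel
  · intro z
    unfold VV
    exact div_mul_cancel₀ _ (hpos z).ne'

end Pool.Agent.TBG
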