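import Pool.Agent.TBG.Stmts

/-!
# Three-body Bose gases (MP_80dc41_mp): module LPC, chain rules
-/

set_option autoImplicit false

open MeasureTheory Filter Topology
open scoped ContDiff

namespace Pool.Agent.TBG

namespace LPC_

lemma dT {T : ℝ → ℝ} {I : Set ℝ} (hI : IsOpen I) (hT : ContDiffOn ℝ ∞ T I) :
    ContDiffOn ℝ ∞ (deriv T) I :=
  hT.deriv_of_isOpen hI (by simp)

lemma hasD {T : ℝ → ℝ} {I : Set ℝ} (hI : IsOpen I) (hT : ContDiffOn ℝ ∞ T I) {x : ℝ}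
    (hx : x ∈ I) : HasDerivAt T (deriv T x) x :=
  ((hT.differentiableOn (by simp)).differentiableAt (hI.mem_nhds hx)).hasDerivAt

lemma chain {T : ℝ → ℝ} {φ : E × E → ℝ} {I : Set ℝ} (hI : IsOpen I) (hT : ContDiffOn ℝ ∞ T I)
    (hφ : ContDiff ℝ ∞ φ) (hm : ∀ z, φ z ∈ I) (z : E × E) :
    HasFDerivAt (fun z => T (φ z)) (deriv T (φ z) • fderiv ℝ φ z) z :=
  (hasD hI hT (hm z)).comp_hasFDerivAt z ((hφ.differentiable (by simp)) z).hasFDerivAt

lemma chain_dv {T : ℝ → ℝ} {φ : E × E → ℝ} {I : Set ℝ} (hI : IsOpen I)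
    (hT : ContDiffOn ℝ ∞ T I) (hφ : ContDiff ℝ ∞ φ) (hm : ∀ z, φ z ∈ I) (v z : E × E) :
    dv v (fun z => T (φ z)) z = deriv T (φ z) * dv v φ z := by
  unfold dv
  rw [(chain hI hT hφ hm z).fderiv]
  simp

lemma dv_smooth {φ : E × E → ℝ} (hφ : ContDiff ℝ ∞ φ) (v : E × E) :
    ContDiff ℝ ∞ (dv v φ) :=
  (hφ.fderiv_right (m := ∞) (by simp)).clm_apply contDiff_const

lemma second {T : ℝ → ℝ} {φ : E × E → ℝ} {I : Set ℝ} (hI : IsOpen I)
    (hT : ContDiffOn ℝ ∞ T I) (hφ : ContDiff ℝ ∞ φ) (hm : ∀ z, φ z ∈ I) (v z : E × E) :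
    dv v (dv v (fun z => T (φ z))) z =
      deriv T (φ z) * dv v (dv v φ) z + deriv (deriv T) (φ z) * (dv v φ z) ^ 2 := by
  have h1 : dv v (fun z => T (φ z)) = fun z => deriv T (φ z) * dv v φ z :=
    funext fun z => chain_dv hI hT hφ hm v z
  rw [h1]
  have h2 := chain hI (dT hI hT) hφ hm z
  have h3 : HasFDerivAt (dv v φ) (fderiv ℝ (dv v φ) z) z :=
    (((dv_smooth hφ v).differentiable (by simp)) z).hasFDerivAt
  have h4 := h2.mul h3
  have h5 : dv v (fun z => deriv T (φ z) * dv v φ z) z =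
      (deriv T (φ z) • fderiv ℝ (dv v φ) z +
        dv v φ z • (deriv (deriv T) (φ z) • fderiv ℝ φ z)) v := by
    have h6 : fderiv ℝ (fun z => deriv T (φ z) * dv v φ z) z =
        deriv T (φ z) • fderiv ℝ (dv v φ) z +
          dv v φ z • (deriv (deriv T) (φ z) • fderiv ℝ φ z) := h4.fderiv
    show fderiv ℝ (fun z => deriv T (φ z) * dv v φ z) z v = _
    rw [h6]
  rw [h5]
  simp only [ContinuousLinearMap.add_apply, ContinuousLinearMap.smul_apply, smul_eq_mul]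
  show deriv T (φ z) * dv v (dv v φ) z + dv v φ z * (deriv (deriv T) (φ z) * dv v φ z) = _
  ring

end LPC_

open LPC_ in
theorem lpc_proof : Stmt_LPC := by
  intro T φ I hI hT hφ hm z
  refine ⟨hT.comp_contDiff hφ hm, fun v => chain_dv hI hT hφ hm v z, ?_, ?_⟩
  · unfold gsq
    simp only [chain_dv hI hT hφ hm, mul_pow, Finset.mul_sum]
  · unfold Lap gsq
    simp only [second hI hT hφ hm, Finset.mul_sum, Finset.sum_add_distrib]

end Pool.Agent.TBG
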