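import Pool.Agent.TBG.Stmts

/-!
# Three-body Bose gases (MP_80dc41_mp): module LSU, sums and multiples
-/

set_option autoImplicit false

open MeasureTheory Filter Topology
open scoped ContDiff

namespace Pool.Agent.TBG

namespace LSU_

theorem smooth_dv (v : E × E) (φ : E × E → ℝ) (h : ContDiff ℝ ∞ φ) : ContDiff ℝ ∞ (dv v φ) := by
  have h1 : ContDiff ℝ ∞ (fderiv ℝ φ) := h.fderiv_right (by norm_cast)
  exact h1.clm_apply contDiff_const

theorem dv_sum (ι : Type) (s : Finset ι) (φ : ι → E × E → ℝ) (h : ∀ j, ContDiff ℝ ∞ (φ j)) (v : E × E) :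
    dv v (fun z => ∑ j ∈ s, φ j z) = fun z => ∑ j ∈ s, dv v (φ j) z := by
  funext z
  unfold dv
  rw [fderiv_fun_sum (fun j _ => ((h j).differentiable (by norm_num)) z)]
  simp

theorem dv_aff (φ : E × E → ℝ) (a b : ℝ) (h : ContDiff ℝ ∞ φ) (v : E × E) :
    dv v (fun z => a + b * φ z) = fun z => b * dv v φ z := by
  funext z
  unfold dv
  rw [fderiv_const_add, fderiv_const_mul ((h.differentiable (by norm_num)) z)]
  simp

theorem dv_mul (φ : E × E → ℝ) (b : ℝ) (h : ContDiff ℝ ∞ φ) (v : E × E) :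
    dv v (fun z => b * φ z) = fun z => b * dv v φ z := by
  funext z
  unfold dv
  rw [fderiv_const_mul ((h.differentiable (by norm_num)) z)]
  simp

end LSU_

/-- sums and multiples -/
theorem lsu_proof : Stmt_LSU := by
  refine ⟨?_, ?_⟩
  · intro ι s φ h z
    refine ⟨?_, ?_⟩
    · unfold Lap
      have h2 : ∀ m c : Fin 3, dv (dr m c) (dv (dr m c) (fun z => ∑ j ∈ s, φ j z)) z
          = ∑ j ∈ s, dv (dr m c) (dv (dr m c) (φ j)) z := by
        intro m c
        rw [LSU_.dv_sum ι s φ h, LSU_.dv_sum ι s (fun j => dv (dr m c) (φ j)) (fun j => LSU_.smooth_dv _ _ (h j))]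
      simp only [h2]
      calc ∑ m : Fin 3, ∑ c : Fin 3, ∑ j ∈ s, dv (dr m c) (dv (dr m c) (φ j)) z
          = ∑ m : Fin 3, ∑ j ∈ s, ∑ c : Fin 3, dv (dr m c) (dv (dr m c) (φ j)) z := by
            refine Finset.sum_congr rfl fun m _ => ?_
            exact Finset.sum_comm
        _ = _ := Finset.sum_comm
    · unfold gsq
      have h2 : ∀ m c : Fin 3, (dv (dr m c) (fun z => ∑ j ∈ s, φ j z) z) ^ 2
          ≤ (s.card : ℝ) * ∑ j ∈ s, (dv (dr m c) (φ j) z) ^ 2 := by
        intro m c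
        rw [LSU_.dv_sum ι s φ h]
        exact sq_sum_le_card_mul_sum_sq
      calc ∑ m : Fin 3, ∑ c : Fin 3, (dv (dr m c) (fun z => ∑ j ∈ s, φ j z) z) ^ 2
          ≤ ∑ m : Fin 3, ∑ c : Fin 3, (s.card : ℝ) * ∑ j ∈ s, (dv (dr m c) (φ j) z) ^ 2 :=
            Finset.sum_le_sum fun m _ => Finset.sum_le_sum fun c _ => h2 m c
        _ = (s.card : ℝ) * ∑ m : Fin 3, ∑ c : Fin 3, ∑ j ∈ s, (dv (dr m c) (φ j) z) ^ 2 := by
            simp only [Finset.mul_sum]
        _ = (s.card : ℝ) * ∑ m : Fin 3, ∑ j ∈ s, ∑ c : Fin 3, (dv (dr m c) (φ j) z) ^ 2 := by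
            congr 1
            refine Finset.sum_congr rfl fun m _ => ?_
            exact Finset.sum_comm
        _ = _ := by
            congr 1
            exact Finset.sum_comm
  · intro φ a b h z
    refine ⟨?_, ?_⟩
    · unfold Lap
      have h2 : ∀ m c : Fin 3, dv (dr m c) (dv (dr m c) (fun z => a + b * φ z)) z
          = b * dv (dr m c) (dv (dr m c) φ) z := by
        intro m c
        rw [LSU_.dv_aff φ a b h, LSU_.dv_mul (dv (dr m c) φ) b (LSU_.smooth_dv _ _ h)]
      simp only [h2, Finset.mul_sum]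
    · unfold gsq
      simp only [LSU_.dv_aff φ a b h, mul_pow, Finset.mul_sum]

end Pool.Agent.TBG
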