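import Pool.Agent.TBG.Stmts

set_option autoImplicit false

open MeasureTheory Filter Topology
open scoped ContDiff

namespace Pool.Agent.TBG

namespace LTR_

theorem dv_comp {A : E × E → E × E} {L : E × E →L[ℝ] E × E} (hA : ∀ z, HasFDerivAt A L z)
    {φ : E × E → ℝ} (hφ : Differentiable ℝ φ) (v z : E × E) :
    dv v (fun z => φ (A z)) z = dv (L v) φ (A z) := by
  unfold dv
  have h := (hφ (A z)).hasFDerivAt.comp z (hA z)
  have h2 : HasFDerivAt (fun z => φ (A z)) ((fderiv ℝ φ (A z)).comp L) z := h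
  rw [h2.fderiv]
  rfl

theorem dv_diff {φ : E × E → ℝ} (hφ : ContDiff ℝ ∞ φ) (v : E × E) :
    ContDiff ℝ ∞ (dv v φ) := by
  unfold dv
  have h : ContDiff ℝ ∞ (fderiv ℝ φ) := hφ.fderiv_right (by simp)
  exact h.clm_apply contDiff_const

theorem dv2_comp {A : E × E → E × E} {L : E × E →L[ℝ] E × E} (hA : ∀ z, HasFDerivAt A L z)
    {φ : E × E → ℝ} (hφ : ContDiff ℝ ∞ φ) (v z : E × E) :
    dv v (dv v (fun z => φ (A z))) z = dv (L v) (dv (L v) φ) (A z) := by
  have h1 : dv v (fun z => φ (A z)) = fun z => dv (L v) φ (A z) := by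
    funext w
    exact dv_comp hA (hφ.differentiable (by simp)) v w
  rw [h1]
  exact dv_comp hA ((dv_diff hφ (L v)).differentiable (by simp)) v z

theorem lap_comp {A : E × E → E × E} {L : E × E →L[ℝ] E × E} (hA : ∀ z, HasFDerivAt A L z)
    {φ : E × E → ℝ} (hφ : ContDiff ℝ ∞ φ) (z : E × E) :
    Lap (fun z => φ (A z)) z = ∑ m, ∑ c, dv (L (dr m c)) (dv (L (dr m c)) φ) (A z) := by
  unfold Lap
  exact Finset.sum_congr rfl fun m _ => Finset.sum_congr rfl fun c _ => dv2_comp hA hφ _ z

theorem gsq_comp {A : E × E → E × E} {L : E × E →L[ℝ] E × E} (hA : ∀ z, HasFDerivAt A L z)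
    {φ : E × E → ℝ} (hφ : ContDiff ℝ ∞ φ) (z : E × E) :
    gsq (fun z => φ (A z)) z = ∑ m, ∑ c, (dv (L (dr m c)) φ (A z)) ^ 2 := by
  unfold gsq
  exact Finset.sum_congr rfl fun m _ => Finset.sum_congr rfl fun c _ => by
    rw [dv_comp hA (hφ.differentiable (by simp))]

theorem dv_smul (r : ℝ) (v : E × E) (φ : E × E → ℝ) : dv (r • v) φ = fun z => r * dv v φ z := by
  funext z
  unfold dv
  simp

theorem dv_const_mul (r : ℝ) (v : E × E) {φ : E × E → ℝ} (hφ : Differentiable ℝ φ) (z : E × E) :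
    dv v (fun z => r * φ z) z = r * dv v φ z := by
  unfold dv
  rw [fderiv_const_mul (hφ z)]
  simp

end LTR_

open LTR_ in
theorem LTR_proof : Stmt_LTR := by
  intro φ hφ
  refine ⟨fun c z => ?_, fun r z => ?_, fun z => ?_, fun z => ?_⟩
  · have hA : ∀ z : E × E, HasFDerivAt (fun z => z - c) (ContinuousLinearMap.id ℝ (E × E)) z :=
      fun z => (hasFDerivAt_id z).sub_const c
    refine ⟨?_, ?_⟩
    · rw [lap_comp hA hφ]; rfl
    · rw [gsq_comp hA hφ]; rfl
  · have hA : ∀ z : E × E, HasFDerivAt (fun z => r • z) (r • ContinuousLinearMap.id ℝ (E × E)) z :=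
      fun z => (hasFDerivAt_id z).const_smul r
    refine ⟨?_, ?_⟩
    · rw [lap_comp hA hφ]
      unfold Lap
      rw [Finset.mul_sum]
      refine Finset.sum_congr rfl fun m _ => ?_
      rw [Finset.mul_sum]
      refine Finset.sum_congr rfl fun c _ => ?_
      have e : (r • ContinuousLinearMap.id ℝ (E × E)) (dr m c) = r • dr m c := rfl
      rw [e, dv_smul r (dr m c) φ, dv_smul r (dr m c)]
      show r * dv (dr m c) (fun z => r * dv (dr m c) φ z) (r • z) = _
      rw [dv_const_mul r (dr m c) ((dv_diff hφ (dr m c)).differentiable (by simp))]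
      ring
    · rw [gsq_comp hA hφ]
      unfold gsq
      rw [Finset.mul_sum]
      refine Finset.sum_congr rfl fun m _ => ?_
      rw [Finset.mul_sum]
      refine Finset.sum_congr rfl fun c _ => ?_
      have e : (r • ContinuousLinearMap.id ℝ (E × E)) (dr m c) = r • dr m c := rfl
      rw [e, dv_smul r (dr m c) φ]
      ring
  · let L : E × E →L[ℝ] E × E := (ContinuousLinearMap.snd ℝ E E).prod (ContinuousLinearMap.fst ℝ E E)
    have hA : ∀ z : E × E, HasFDerivAt (fun z : E × E => (z.2, z.1)) L z := fun z => L.hasFDerivAt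
    have e0 : ∀ c, L (dr 0 c) = dr 0 c := fun c => by simp [L, dr]
    have e1 : ∀ c, L (dr 1 c) = dr 2 c := fun c => by simp [L, dr]
    have e2 : ∀ c, L (dr 2 c) = dr 1 c := fun c => by simp [L, dr]
    refine ⟨?_, ?_⟩
    · rw [lap_comp hA hφ]
      unfold Lap
      simp only [Fin.sum_univ_three (fun m => _), e0, e1, e2]
      ring
    · rw [gsq_comp hA hφ]
      unfold gsq
      simp only [Fin.sum_univ_three (fun m => _), e0, e1, e2]
      ring
  · let L : E × E →L[ℝ] E × E := (-ContinuousLinearMap.fst ℝ E E).prod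
      (ContinuousLinearMap.snd ℝ E E - ContinuousLinearMap.fst ℝ E E)
    have hA : ∀ z : E × E, HasFDerivAt (fun z : E × E => (-z.1, z.2 - z.1)) L z :=
      fun z => L.hasFDerivAt
    have e0 : ∀ c, L (dr 0 c) = dr 1 c := fun c => by simp [L, dr]
    have e1 : ∀ c, L (dr 1 c) = dr 0 c := fun c => by simp [L, dr]
    have e2 : ∀ c, L (dr 2 c) = dr 2 c := fun c => by simp [L, dr]
    refine ⟨?_, ?_⟩
    · rw [lap_comp hA hφ]
      unfold Lap
      simp only [Fin.sum_univ_three (fun m => _), e0, e1, e2]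
      ring
    · rw [gsq_comp hA hφ]
      unfold gsq
      simp only [Fin.sum_univ_three (fun m => _), e0, e1, e2]
      ring

end Pool.Agent.TBG
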