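import Pool.Agent.TBG.Stmts

set_option autoImplicit false

open MeasureTheory Filter Topology
open scoped ContDiff

namespace Pool.Agent.TBG

namespace QFO_

theorem inner_ev (x : E) (c : Fin 3) : inner ℝ x (ev c) = x c := by
  unfold ev
  rw [EuclideanSpace.inner_single_right]
  simp

theorem dr0 (c : Fin 3) : dr 0 c = (ev c, ev c) := rfl

theorem dr1 (c : Fin 3) : dr 1 c = (-ev c, 0) := rfl

theorem dr2 (c : Fin 3) : dr 2 c = (0, -ev c) := rfl

theorem norm_ev (c : Fin 3) : ‖ev c‖ = 1 := by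
  unfold ev
  rw [EuclideanSpace.norm_single]
  simp

theorem dvQ (v : E × E) : dv v QQ = fun z =>
    2 / 3 * (inner ℝ z.1 v.1 + inner ℝ z.2 v.2 + inner ℝ (z.1 - z.2) (v.1 - v.2)) := by
  funext z
  unfold dv
  have h1 : HasFDerivAt (fun z : E × E => ‖z.1‖ ^ 2)
      (2 • (innerSL ℝ z.1).comp (ContinuousLinearMap.fst ℝ E E)) z := by
    have := (hasFDerivAt_fst (𝕜 := ℝ) (E := E) (F := E) (p := z)).norm_sq
    simpa using this
  have h2 : HasFDerivAt (fun z : E × E => ‖z.2‖ ^ 2)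
      (2 • (innerSL ℝ z.2).comp (ContinuousLinearMap.snd ℝ E E)) z := by
    have := (hasFDerivAt_snd (𝕜 := ℝ) (E := E) (F := E) (p := z)).norm_sq
    simpa using this
  have h3 : HasFDerivAt (fun z : E × E => ‖z.1 - z.2‖ ^ 2)
      (2 • (innerSL ℝ (z.1 - z.2)).comp (ContinuousLinearMap.fst ℝ E E - ContinuousLinearMap.snd ℝ E E)) z := by
    have := ((hasFDerivAt_fst (𝕜 := ℝ) (E := E) (F := E) (p := z)).sub
      (hasFDerivAt_snd (𝕜 := ℝ) (E := E) (F := E) (p := z))).norm_sq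
    simpa using this
  have h : HasFDerivAt QQ _ z := ((h1.add h2).add h3).mul_const (3⁻¹ : ℝ) |>.congr_of_eventuallyEq
    (Eventually.of_forall (fun w => by simp [QQ, div_eq_mul_inv]))
  rw [h.fderiv]
  simp only [ContinuousLinearMap.smul_apply, ContinuousLinearMap.add_apply, ContinuousLinearMap.coe_comp',
    Function.comp_apply, innerSL_apply_apply, ContinuousLinearMap.coe_fst', ContinuousLinearMap.coe_snd',
    ContinuousLinearMap.sub_apply, ContinuousLinearMap.coe_sub', Pi.sub_apply, smul_eq_mul, nsmul_eq_mul]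
  push_cast
  ring

theorem dvdvQ (v z : E × E) : dv v (dv v QQ) z =
    2 / 3 * (‖v.1‖ ^ 2 + ‖v.2‖ ^ 2 + ‖v.1 - v.2‖ ^ 2) := by
  rw [dvQ]
  unfold dv
  have h1 : HasFDerivAt (fun z : E × E => inner ℝ z.1 v.1)
      ((innerSL ℝ v.1).comp (ContinuousLinearMap.fst ℝ E E)) z := by
    have := ((innerSL ℝ v.1).comp (ContinuousLinearMap.fst ℝ E E)).hasFDerivAt (x := z)
    refine this.congr_of_eventuallyEq (Eventually.of_forall (fun w => ?_))
    simp [real_inner_comm]
  have h2 : HasFDerivAt (fun z : E × E => inner ℝ z.2 v.2)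
      ((innerSL ℝ v.2).comp (ContinuousLinearMap.snd ℝ E E)) z := by
    have := ((innerSL ℝ v.2).comp (ContinuousLinearMap.snd ℝ E E)).hasFDerivAt (x := z)
    refine this.congr_of_eventuallyEq (Eventually.of_forall (fun w => ?_))
    simp [real_inner_comm]
  have h3 : HasFDerivAt (fun z : E × E => inner ℝ (z.1 - z.2) (v.1 - v.2))
      ((innerSL ℝ (v.1 - v.2)).comp (ContinuousLinearMap.fst ℝ E E - ContinuousLinearMap.snd ℝ E E)) z := by
    have := ((innerSL ℝ (v.1 - v.2)).comp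
      (ContinuousLinearMap.fst ℝ E E - ContinuousLinearMap.snd ℝ E E)).hasFDerivAt (x := z)
    refine this.congr_of_eventuallyEq (Eventually.of_forall (fun w => ?_))
    show inner ℝ (w.1 - w.2) (v.1 - v.2) = inner ℝ (v.1 - v.2) (w.1 - w.2)
    exact real_inner_comm _ _
  have h := ((h1.add h2).add h3).const_mul (2 / 3 : ℝ)
  have h' : HasFDerivAt (fun z : E × E => 2 / 3 * (inner ℝ z.1 v.1 + inner ℝ z.2 v.2 +
    inner ℝ (z.1 - z.2) (v.1 - v.2))) _ z := h
  rw [h'.fderiv]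
  simp only [ContinuousLinearMap.smul_apply, ContinuousLinearMap.add_apply, ContinuousLinearMap.coe_comp',
    Function.comp_apply, innerSL_apply_apply, ContinuousLinearMap.coe_fst', ContinuousLinearMap.coe_snd',
    ContinuousLinearMap.sub_apply, ContinuousLinearMap.coe_sub', Pi.sub_apply, smul_eq_mul,
    real_inner_self_eq_norm_sq]

theorem nsq (x : E) : ‖x‖ ^ 2 = ∑ c, x c ^ 2 := by
  rw [EuclideanSpace.norm_sq_eq]
  simp

theorem QQeq (x y : E) : QQ (x, y) = ∑ c, (2 / 3 * (x c ^ 2 + y c ^ 2 - x c * y c)) := by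
  unfold QQ
  simp only [nsq]
  rw [← Finset.sum_add_distrib, ← Finset.sum_add_distrib, Finset.sum_div]
  refine Finset.sum_congr rfl (fun c _ => ?_)
  simp only [PiLp.sub_apply]
  ring

end QFO_

open QFO_ in
theorem qfo_proof : Stmt_QFO := by
  have hle : ∀ x y : E, ‖x‖ ^ 2 + ‖y‖ ^ 2 ≤ 3 * QQ (x, y) := by
    intro x y
    simp only [QQ]
    nlinarith [sq_nonneg ‖x - y‖]
  have hnn : ∀ z : E × E, 0 ≤ QQ z := by
    intro z
    unfold QQ
    positivity
  refine ⟨?_, ?_, ?_, ?_, ?_, ?_⟩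
  · unfold QQ
    exact (((contDiff_fst.norm_sq ℝ).add (contDiff_snd.norm_sq ℝ)).add
      ((contDiff_fst.sub contDiff_snd).norm_sq ℝ)).div_const 3
  · rintro ⟨x, y⟩
    rw [QQeq]
    unfold gsq
    rw [Fin.sum_univ_three, ← Finset.sum_add_distrib, ← Finset.sum_add_distrib, Finset.mul_sum]
    refine Finset.sum_congr rfl (fun c _ => ?_)
    simp only [dvQ, dr0, dr1, dr2]
    norm_num [inner_ev, inner_neg_right]
    ring
  · intro z
    unfold Lap
    rw [Fin.sum_univ_three]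
    simp only [dvdvQ, dr0, dr1, dr2]
    norm_num [norm_ev]
  · rintro ⟨x, y⟩
    refine ⟨hnn _, ?_, ?_⟩
    · have h1 : ‖x‖ ≤ ‖(x, y)‖ := norm_fst_le (x, y)
      have h2 : ‖y‖ ≤ ‖(x, y)‖ := norm_snd_le (x, y)
      have h3 : ‖x - y‖ ^ 2 ≤ 2 * ‖x‖ ^ 2 + 2 * ‖y‖ ^ 2 := by
        have := parallelogram_law_with_norm ℝ x y
        nlinarith [sq_nonneg ‖x + y‖]
      have h1' : ‖x‖ ^ 2 ≤ ‖(x, y)‖ ^ 2 := by gcongr
      have h2' : ‖y‖ ^ 2 ≤ ‖(x, y)‖ ^ 2 := by gcongr
      simp only [QQ]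
      linarith
    · have h := hle x y
      have : ‖(x, y)‖ ^ 2 ≤ ‖x‖ ^ 2 + ‖y‖ ^ 2 := by
        rw [Prod.norm_mk]
        rcases le_total ‖x‖ ‖y‖ with h | h
        · rw [max_eq_right h]; nlinarith [sq_nonneg ‖x‖]
        · rw [max_eq_left h]; nlinarith [sq_nonneg ‖y‖]
      linarith
  · intro x y
    constructor
    · unfold QQ
      simp only
      rw [norm_sub_rev y x]
      ring
    · unfold QQ
      simp only
      rw [norm_neg, norm_sub_rev y x, show -x - (y - x) = -y by abel, norm_neg]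
      ring
  · intro x y
    refine ⟨?_, ?_, ?_⟩
    · nlinarith [hle x y, sq_nonneg ‖y‖]
    · nlinarith [hle x y, sq_nonneg ‖x‖]
    · simp only [QQ]
      nlinarith [sq_nonneg ‖x‖, sq_nonneg ‖y‖]

end Pool.Agent.TBG
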