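import Pool.Agent.TBG.Stmts

set_option autoImplicit false

open MeasureTheory Filter Topology
open scoped ContDiff

namespace Pool.Agent.TBG

namespace SCL_

theorem bound {W : Type} [NormedAddCommGroup W] [NormedSpace ℝ W] (s : ℝ) (hs : 0 < s) (z : W) :
    1 + ‖s • z‖ ≤ max 1 s * (1 + ‖z‖) := by
  rw [norm_smul, Real.norm_of_nonneg hs.le]
  have h1 : 1 ≤ max 1 s := le_max_left _ _
  have h2 : s ≤ max 1 s := le_max_right _ _
  nlinarith [norm_nonneg z]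

theorem bound' {W : Type} [NormedAddCommGroup W] [NormedSpace ℝ W] (r : ℝ) (hr : 0 < r) (z : W) :
    1 + ‖z‖ ≤ max 1 r * (1 + ‖r⁻¹ • z‖) := by
  have := bound r hr (r⁻¹ • z)
  rwa [smul_inv_smul₀ hr.ne'] at this

theorem intE (f : E → ℝ) (r : ℝ) (hr : 0 < r) : ∫ y : E, f (r⁻¹ • y) = r ^ 3 * ∫ y : E, f y := by
  rw [Measure.integral_comp_smul volume f r⁻¹]
  rw [finrank_euclideanSpace, Fintype.card_fin, smul_eq_mul, inv_pow, inv_inv, abs_of_pos (by positivity)]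

theorem intEE (f : E × E → ℝ) (r : ℝ) (hr : 0 < r) : ∫ y : E × E, f (r⁻¹ • y) = r ^ 6 * ∫ y : E × E, f y := by
  haveI : (volume : Measure (E × E)).IsAddHaarMeasure :=
    inferInstanceAs ((volume : Measure E).prod (volume : Measure E)).IsAddHaarMeasure
  rw [Measure.integral_comp_smul volume f r⁻¹]
  rw [Module.finrank_prod, finrank_euclideanSpace, Fintype.card_fin, smul_eq_mul, inv_pow, inv_inv,
    abs_of_pos (by positivity)]

end SCL_

open SCL_ in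
theorem scl_proof (hLTR : Stmt_LTR) : Stmt_SCL := by
  intro φ r hr hφ
  obtain ⟨_, hsc, _, _⟩ := hLTR φ hφ.smooth
  have hs : 0 < r⁻¹ := inv_pos.mpr hr
  have hpos : ∀ z, 0 ≤ φ z := by
    obtain ⟨c, hc, h⟩ := hφ.low
    intro z
    have h1 := h z
    have h2 : 0 < (1 + ‖z‖) ^ 4 := by positivity
    by_contra hcon
    push Not at hcon
    nlinarith [mul_neg_of_pos_of_neg h2 hcon]
  have hgn : ∀ (g : E × E → ℝ) z, 0 ≤ gsq g z := by
    intro g z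
    unfold gsq
    positivity
  have hww : ∀ z, ww (fun z => φ (r⁻¹ • z)) z = r⁻¹ ^ 2 * ww φ (r⁻¹ • z) := by
    intro z
    unfold ww
    rw [(hsc r⁻¹ z).1]
    ring
  refine ⟨?_, ?_, ?_⟩
  · refine ⟨?_, ?_, ?_, ?_, ?_, ?_, ?_, ?_, ?_⟩
    · exact hφ.smooth.comp (contDiff_const_smul _)
    · intro x y
      exact hφ.sy1 _ _
    · intro x y
      show φ (r⁻¹ • x, r⁻¹ • y) = φ (r⁻¹ • (-x), r⁻¹ • (y - x))
      rw [smul_neg, smul_sub]
      exact hφ.sy2 _ _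
    · intro z
      exact hφ.le_half _
    · obtain ⟨c, hc, h⟩ := hφ.low
      have hM : 0 < max 1 r⁻¹ := lt_of_lt_of_le one_pos (le_max_left _ _)
      refine ⟨c / (max 1 r⁻¹) ^ 4, by positivity, fun z => ?_⟩
      rw [div_le_iff₀ (by positivity)]
      calc c ≤ (1 + ‖r⁻¹ • z‖) ^ 4 * φ (r⁻¹ • z) := h _
        _ ≤ (max 1 r⁻¹ * (1 + ‖z‖)) ^ 4 * φ (r⁻¹ • z) := by
          have := bound r⁻¹ hs z
          have hp := hpos (r⁻¹ • z)
          gcongr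
        _ = (1 + ‖z‖) ^ 4 * φ (r⁻¹ • z) * (max 1 r⁻¹) ^ 4 := by ring
    · obtain ⟨C, h⟩ := hφ.upp
      refine ⟨(max 1 r) ^ 4 * C, fun z => ?_⟩
      calc (1 + ‖z‖) ^ 4 * φ (r⁻¹ • z) ≤ (max 1 r * (1 + ‖r⁻¹ • z‖)) ^ 4 * φ (r⁻¹ • z) := by
            have := bound' r hr z
            have hp := hpos (r⁻¹ • z)
            gcongr
        _ = (max 1 r) ^ 4 * ((1 + ‖r⁻¹ • z‖) ^ 4 * φ (r⁻¹ • z)) := by ring
        _ ≤ (max 1 r) ^ 4 * C := by
            have := h (r⁻¹ • z)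
            have hM : 0 < max 1 r := lt_of_lt_of_le one_pos (le_max_left _ _)
            gcongr
    · obtain ⟨C, h⟩ := hφ.grad
      refine ⟨(max 1 r) ^ 10 * (r⁻¹ ^ 2 * C), fun z => ?_⟩
      rw [(hsc r⁻¹ z).2]
      calc (1 + ‖z‖) ^ 10 * (r⁻¹ ^ 2 * gsq φ (r⁻¹ • z))
          ≤ (max 1 r * (1 + ‖r⁻¹ • z‖)) ^ 10 * (r⁻¹ ^ 2 * gsq φ (r⁻¹ • z)) := by
            have := bound' r hr z
            have hp := hgn φ (r⁻¹ • z)
            gcongr
        _ = (max 1 r) ^ 10 * (r⁻¹ ^ 2 * ((1 + ‖r⁻¹ • z‖) ^ 10 * gsq φ (r⁻¹ • z))) := by ring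
        _ ≤ (max 1 r) ^ 10 * (r⁻¹ ^ 2 * C) := by
            have := h (r⁻¹ • z)
            have hM : 0 < max 1 r := lt_of_lt_of_le one_pos (le_max_left _ _)
            gcongr
    · intro z
      rw [(hsc r⁻¹ z).1]
      have := hφ.sup (r⁻¹ • z)
      nlinarith [sq_nonneg r⁻¹, mul_nonneg (sq_nonneg r⁻¹) (neg_nonneg.mpr this)]
    · obtain ⟨R, h⟩ := hφ.supp
      refine ⟨r * R, fun z hz => ?_⟩
      rw [(hsc r⁻¹ z).1, h, mul_zero]
      rw [norm_smul, Real.norm_of_nonneg hs.le, inv_mul_eq_div, lt_div_iff₀ hr]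
      linarith
  · simp_rw [hww]
    rw [integral_const_mul, intEE (ww φ) r hr]
    field_simp
  · unfold gam
    have h1 : ∀ z : E × E, ww (fun z => φ (r⁻¹ • z)) z * ∫ y : E, (fun z => φ (r⁻¹ • z)) (z.1, y) =
        (r⁻¹ ^ 2 * r ^ 3) * (fun w : E × E => ww φ w * ∫ y : E, φ (w.1, y)) (r⁻¹ • z) := by
      intro z
      rw [hww]
      have : ∫ y : E, (fun z => φ (r⁻¹ • z)) (z.1, y) = r ^ 3 * ∫ y : E, φ (r⁻¹ • z.1, y) :=
        intE (fun y => φ (r⁻¹ • z.1, y)) r hr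
      rw [this]
      show _ = (r⁻¹ ^ 2 * r ^ 3) * (ww φ (r⁻¹ • z) * ∫ y : E, φ (r⁻¹ • z.1, y))
      ring
    simp_rw [h1]
    rw [integral_const_mul, intEE (fun w : E × E => ww φ w * ∫ y : E, φ (w.1, y)) r hr]
    field_simp

end Pool.Agent.TBG
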