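import Pool.Agent.TBG.Stmts

/-!
# TBG, module ABD: `A(x)` is bounded uniformly in the truncation
-/

set_option autoImplicit false

open MeasureTheory Filter Topology
open scoped ContDiff

namespace Pool.Agent.TBG

theorem abd_proof (hFDJ : Stmt_FDJ) (hINT : Stmt_INT) : Stmt_ABD := by
  intro φ hφ
  obtain ⟨C, hC⟩ := hφ.upp
  refine ⟨∫ y : E, 2 * C * ((1 + ‖y‖) ^ 4)⁻¹, fun δ hδ x => ?_⟩
  obtain ⟨hJ, hf⟩ := hFDJ φ δ hφ hδ
  unfold AA
  refine integral_mono_of_nonneg (Eventually.of_forall fun y => ?_) (hINT.2.1.const_mul (2 * C))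
    (Eventually.of_forall fun y => ?_)
  · show (0 : ℝ) ≤ aa (fd δ φ) (x, y)
    unfold aa
    have h1 := hJ.half_le (x, y)
    have h2 := hJ.le_one (x, y)
    nlinarith
  · show aa (fd δ φ) (x, y) ≤ 2 * C * ((1 + ‖y‖) ^ 4)⁻¹
    unfold aa
    have h1 := hJ.half_le (x, y)
    have h2 := hJ.le_one (x, y)
    obtain ⟨h3, h4, -⟩ := hf (x, y)
    have h5 : ‖y‖ ≤ ‖((x, y) : E × E)‖ := by
      rw [Prod.norm_def]
      exact le_max_right _ _
    have h6 : 0 < (1 + ‖y‖) ^ 4 := by positivity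
    have h7 : (1 + ‖y‖) ^ 4 * φ (x, y) ≤ C := by
      refine le_trans (mul_le_mul_of_nonneg_right ?_ h3) (hC (x, y))
      exact pow_le_pow_left₀ (by positivity) (by linarith) 4
    have h8 : φ (x, y) ≤ C * ((1 + ‖y‖) ^ 4)⁻¹ := by
      rw [← div_eq_mul_inv, le_div_iff₀ h6]
      linarith
    have h9 : 1 - fd δ φ (x, y) ^ 2 ≤ 2 * φ (x, y) := by nlinarith
    linarith

end Pool.Agent.TBG
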