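import Pool.Agent.TBG.Stmts

/-!
# Squad TBG, module BER: the error of the lower bound tends to 0.
-/

set_option autoImplicit false

open MeasureTheory Filter Topology
open scoped ContDiff

namespace Pool.Agent.TBG

namespace BER_

lemma pos {φ : E × E → ℝ} (h : Scat φ) (z : E × E) : 0 < φ z := by
  obtain ⟨c, hc, hl⟩ := h.low
  have h1 := hl z
  have h2 : (0 : ℝ) < (1 + ‖z‖) ^ 4 := by positivity
  by_contra hn
  push Not at hn
  have h3 : (1 + ‖z‖) ^ 4 * φ z ≤ 0 := mul_nonpos_of_nonneg_of_nonpos h2.le hn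
  linarith

lemma gsq_nonneg (φ : E × E → ℝ) (z : E × E) : 0 ≤ gsq φ z := by
  unfold gsq
  exact Finset.sum_nonneg fun _ _ => Finset.sum_nonneg fun _ _ => sq_nonneg _

lemma cont_gsq {φ : E × E → ℝ} (h : ContDiff ℝ ∞ φ) : Continuous (gsq φ) := by
  unfold gsq dv
  refine continuous_finsetSum _ fun m _ => continuous_finsetSum _ fun c _ => ?_
  exact ((h.continuous_fderiv (by simp)).clm_apply continuous_const).pow 2

/-- the bound of the second term -/
lemma mid {T2 φz g n δ C c C' : ℝ} (hn : 0 ≤ n) (hc : 0 < c) (hT : 0 ≤ T2)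
    (hg : 0 ≤ g) (hsup : φz < δ ∨ 2 * δ < φz → T2 = 0) (hC : δ * T2 ≤ C) (hlow : c ≤ (1 + n) ^ 4 * φz)
    (hgr : (1 + n) ^ 10 * g ≤ C') : T2 * g ≤ 2 * |C| * |C'| / c * ((1 + n) ^ 6)⁻¹ := by
  have hn1 : (0 : ℝ) < 1 + n := by linarith
  have hn4 : (0 : ℝ) < (1 + n) ^ 4 := by positivity
  have hn6 : (0 : ℝ) < (1 + n) ^ 6 := by positivity
  have hn10 : (0 : ℝ) < (1 + n) ^ 10 := by positivity
  by_cases hs : φz < δ ∨ 2 * δ < φz
  · rw [hsup hs, zero_mul]
    positivity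
  · push Not at hs
    obtain ⟨h1, h2⟩ := hs
    -- c ≤ (1+n)^4 * 2δ
    have h3 : c ≤ (1 + n) ^ 4 * (2 * δ) := hlow.trans (mul_le_mul_of_nonneg_left h2 hn4.le)
    have h4 : c * T2 ≤ 2 * |C| * (1 + n) ^ 4 := by
      calc c * T2 ≤ (1 + n) ^ 4 * (2 * δ) * T2 := mul_le_mul_of_nonneg_right h3 hT
        _ = 2 * (1 + n) ^ 4 * (δ * T2) := by ring
        _ ≤ 2 * (1 + n) ^ 4 * |C| := by
            apply mul_le_mul_of_nonneg_left (hC.trans (le_abs_self C)) (by positivity)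
        _ = 2 * |C| * (1 + n) ^ 4 := by ring
    have h5 : (1 + n) ^ 10 * g ≤ |C'| := hgr.trans (le_abs_self C')
    have h6 : (c * T2) * ((1 + n) ^ 10 * g) ≤ (2 * |C| * (1 + n) ^ 4) * |C'| :=
      mul_le_mul h4 h5 (by positivity) (by positivity)
    rw [← div_eq_mul_inv, le_div_iff₀ hn6, le_div_iff₀ hc]
    have h7 : (T2 * g * (1 + n) ^ 6 * c) * (1 + n) ^ 4 ≤ (2 * |C| * |C'|) * (1 + n) ^ 4 := by
      calc (T2 * g * (1 + n) ^ 6 * c) * (1 + n) ^ 4 = (c * T2) * ((1 + n) ^ 10 * g) := by ring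
        _ ≤ (2 * |C| * (1 + n) ^ 4) * |C'| := h6
        _ = (2 * |C| * |C'|) * (1 + n) ^ 4 := by ring
    exact le_of_mul_le_mul_right h7 hn4

end BER_

open BER_ in
theorem ber_proof (hTDL : Stmt_TDL) (hKPO : Stmt_KPO) (hADM : Stmt_ADM) (hINT : Stmt_INT)
    (_hFDJ : Stmt_FDJ) : Stmt_BER := by
  intro φ ζ hφ hζ
  obtain ⟨hT, C, hC⟩ := hTDL
  obtain ⟨hadm, hVc, hwc, hws, hw0, -, hVs⟩ := hADM φ hφ
  obtain ⟨-, -, hint, hconj⟩ := hINT
  obtain ⟨c, hc, hlow⟩ := hφ.low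
  obtain ⟨C', hgr⟩ := hφ.grad
  have hV0 : ∀ z : E × E, 0 ≤ VV φ z.1 z.2 := fun z => hadm.nonneg z.1 z.2
  set K : ℝ := 2 * |C| * |C'| / c with hK
  -- the bound of the bracket
  have hB : ∀ δ : ℝ, 0 < δ → ∀ z : E × E,
      0 ≤ VV φ z.1 z.2 * fd δ φ z - Lap (fd δ φ) z ∧
      VV φ z.1 z.2 * fd δ φ z - Lap (fd δ φ) z ≤ ww φ z + K * ((1 + ‖z‖) ^ 6)⁻¹ + VV φ z.1 z.2 := by
    intro δ hδ z
    obtain ⟨h1, h2, -⟩ := hKPO φ δ hφ hδ
    refine ⟨h2 z, ?_⟩
    rw [h1 z]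
    obtain ⟨-, hd, -, hu, hdd, hdz⟩ := hT δ hδ
    have hp := pos hφ z
    have e1 : (1 - deriv (Td δ) (φ z)) * ww φ z ≤ ww φ z := by
      have : 0 ≤ deriv (Td δ) (φ z) := by
        rw [hd]; exact Real.smoothTransition.nonneg _
      nlinarith [hw0 z, mul_nonneg this (hw0 z)]
    have e2 : deriv (deriv (Td δ)) (φ z) * gsq φ z ≤ K * ((1 + ‖z‖) ^ 6)⁻¹ :=
      mid (norm_nonneg z) hc (hdd _) (gsq_nonneg φ z) (hdz _) (hC δ hδ _) (hlow z) (hgr z)
    have e3 : VV φ z.1 z.2 * (φ z - Td δ (φ z)) ≤ VV φ z.1 z.2 := by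
      have h3 := (hu (φ z) hp.le).1
      have h4 := hφ.le_half z
      have h5 : φ z - Td δ (φ z) ≤ 1 := by linarith
      calc VV φ z.1 z.2 * (φ z - Td δ (φ z)) ≤ VV φ z.1 z.2 * 1 :=
            mul_le_mul_of_nonneg_left h5 (hV0 z)
        _ = VV φ z.1 z.2 := mul_one _
    linarith
  -- small δ
  have hS : ∀ z : E × E, ∀ δ : ℝ, 0 < δ → 2 * δ < φ z →
      VV φ z.1 z.2 * fd δ φ z - Lap (fd δ φ) z ≤ VV φ z.1 z.2 * (2 * δ) := by
    intro z δ hδ hz
    obtain ⟨h1, -, -⟩ := hKPO φ δ hφ hδ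
    rw [h1 z]
    obtain ⟨-, hd, -, hu, hdd, hdz⟩ := hT δ hδ
    have hp := pos hφ z
    have e1 : deriv (Td δ) (φ z) = 1 := by
      rw [hd]
      apply Real.smoothTransition.one_of_one_le
      have : 2 ≤ φ z / δ := by
        rw [le_div_iff₀ hδ]; exact hz.le
      linarith
    have e2 : deriv (deriv (Td δ)) (φ z) = 0 := hdz _ (Or.inr hz)
    rw [e1, e2, sub_self, zero_mul, zero_mul, zero_add, zero_add]
    apply mul_le_mul_of_nonneg_left _ (hV0 z)
    have := (hu (φ z) hp.le).2.2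
    linarith
  have hbase : Tendsto (fun δ : ℝ => ∫ z, |ζ z| * (VV φ z.1 z.2 * fd δ φ z - Lap (fd δ φ) z)) (𝓝[>] 0)
      (𝓝 (∫ _z : E × E, (0 : ℝ))) := by
    refine tendsto_integral_filter_of_dominated_convergence
      (fun z => |ζ z| * (ww φ z + K * ((1 + ‖z‖) ^ 6)⁻¹ + VV φ z.1 z.2)) ?_ ?_ ?_ ?_
    · filter_upwards [self_mem_nhdsWithin] with δ hδ
      have hδ : 0 < δ := hδ
      obtain ⟨h1, -, -⟩ := hKPO φ δ hφ hδ
      have hcont : Continuous (fun z : E × E => VV φ z.1 z.2 * fd δ φ z - Lap (fd δ φ) z) := by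
        have : (fun z : E × E => VV φ z.1 z.2 * fd δ φ z - Lap (fd δ φ) z) = fun z =>
          (1 - deriv (Td δ) (φ z)) * ww φ z + deriv (deriv (Td δ)) (φ z) * gsq φ z
            + VV φ z.1 z.2 * (φ z - Td δ (φ z)) := funext h1
        rw [this]
        have hTs := (hT δ hδ).1
        have hφc : Continuous φ := hφ.smooth.continuous
        have hT1 : ContDiff ℝ ∞ (deriv (Td δ)) := (contDiff_infty_iff_deriv.1 hTs).2
        have hT2 : Continuous (deriv (deriv (Td δ))) := (contDiff_infty_iff_deriv.1 hT1).2.continuous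
        have hT1c := hT1.continuous
        have hTc := hTs.continuous
        have hgc := cont_gsq hφ.smooth
        exact (((continuous_const.sub (hT1c.comp hφc)).mul hwc).add ((hT2.comp hφc).mul hgc)).add
          (hVc.mul (hφc.sub (hTc.comp hφc)))
      exact (hζ.1.norm).mul hcont.aestronglyMeasurable
    · filter_upwards [self_mem_nhdsWithin] with δ hδ
      refine Eventually.of_forall fun z => ?_
      obtain ⟨h0, h1⟩ := hB δ hδ z
      rw [Real.norm_eq_abs, abs_mul, abs_abs, abs_of_nonneg h0]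
      exact mul_le_mul_of_nonneg_left h1 (abs_nonneg _)
    · have : ENNReal.HolderTriple (3 : ENNReal) (3 / 2 : ENNReal) 1 := ⟨by rw [hconj, inv_one]⟩
      have hg : MemLp (fun z : E × E => ww φ z + K * ((1 + ‖z‖) ^ 6)⁻¹ + VV φ z.1 z.2)
          (3 / 2 : ENNReal) := by
        exact ((hwc.memLp_of_hasCompactSupport hws).add (hint.const_mul K)).add
          (hVc.memLp_of_hasCompactSupport hVs)
      exact hζ.norm.integrable_mul hg
    · refine Eventually.of_forall fun z => ?_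
      have hp := pos hφ z
      have hlim : Tendsto (fun δ : ℝ => |ζ z| * (VV φ z.1 z.2 * (2 * δ))) (𝓝[>] 0) (𝓝 0) := by
        have : Continuous (fun δ : ℝ => |ζ z| * (VV φ z.1 z.2 * (2 * δ))) := by fun_prop
        have h := (this.tendsto 0).mono_left (nhdsWithin_le_nhds (s := Set.Ioi (0 : ℝ)))
        simpa using h
      refine tendsto_of_tendsto_of_tendsto_of_le_of_le' tendsto_const_nhds hlim ?_ ?_
      · filter_upwards [self_mem_nhdsWithin] with δ hδ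
        exact mul_nonneg (abs_nonneg _) (hB δ hδ z).1
      · filter_upwards [self_mem_nhdsWithin,
          (Iio_mem_nhds (show (0 : ℝ) < φ z / 2 by linarith) : Set.Iio (φ z / 2) ∈ 𝓝 (0 : ℝ)) |>
            mem_nhdsWithin_of_mem_nhds] with δ hδ hδ2
        have h2 : 2 * δ < φ z := by
          have : δ < φ z / 2 := hδ2
          linarith
        exact mul_le_mul_of_nonneg_left (hS z δ hδ h2) (abs_nonneg _)
  simpa using hbase

end Pool.Agent.TBG
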