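import Pool.Agent.TBG.Stmts

/-!
# Squad TBG, module BLD: lower bound of the scattering energy of an arbitrary function
-/

set_option autoImplicit false

open MeasureTheory Filter Topology
open scoped ContDiff

namespace Pool.Agent.TBG

namespace BLD_

theorem dv_smooth {h : E × E → ℝ} (hh : ContDiff ℝ ∞ h) (v : E × E) : ContDiff ℝ ∞ (dv v h) := by
  unfold dv
  exact (hh.fderiv_right (by simp)).clm_apply contDiff_const

theorem dv_cpt {h : E × E → ℝ} (hc : HasCompactSupport h) (v : E × E) :
    HasCompactSupport (dv v h) := by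
  unfold dv
  exact hc.fderiv_apply ℝ v

theorem dv_tsup {h : E × E → ℝ} (v : E × E) : tsupport (dv v h) ⊆ tsupport h := by
  unfold dv
  exact tsupport_fderiv_apply_subset ℝ v

theorem dv_zero {h : E × E → ℝ} (v : E × E) {z : E × E} (hz : z ∉ tsupport h) :
    dv v h z = 0 := by
  by_contra hne
  exact hz (dv_tsup v (subset_tsupport _ hne))

theorem lap_cont {h : E × E → ℝ} (hh : ContDiff ℝ ∞ h) : Continuous (Lap h) := by
  unfold Lap
  refine continuous_finsetSum _ fun m _ => continuous_finsetSum _ fun c _ => ?_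
  exact (dv_smooth (dv_smooth hh _) _).continuous

theorem lap_cpt {h : E × E → ℝ} (hc : HasCompactSupport h) : HasCompactSupport (Lap h) := by
  refine hc.mono' ?_
  intro z hz
  by_contra hne
  apply hz
  unfold Lap
  refine Finset.sum_eq_zero fun m _ => Finset.sum_eq_zero fun c _ => ?_
  exact dv_zero _ fun h1 => hne (dv_tsup _ h1)

theorem gsq_cont {h : E × E → ℝ} (hh : ContDiff ℝ ∞ h) : Continuous (gsq h) := by
  unfold gsq
  refine continuous_finsetSum _ fun m _ => continuous_finsetSum _ fun c _ => ?_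
  exact (dv_smooth hh _).continuous.pow 2

theorem gsq_cpt {h : E × E → ℝ} (hc : HasCompactSupport h) : HasCompactSupport (gsq h) := by
  refine hc.mono' ?_
  intro z hz
  by_contra hne
  apply hz
  unfold gsq
  refine Finset.sum_eq_zero fun m _ => Finset.sum_eq_zero fun c _ => ?_
  rw [dv_zero _ hne]
  norm_num

/-- locally integrable times continuous compactly supported -/
theorem int_mul {u q : E × E → ℝ} (hu : LocallyIntegrable u) (hq : Continuous q)
    (hc : HasCompactSupport q) : Integrable (fun z => u z * q z) := by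
  have := hu.integrable_smul_left_of_hasCompactSupport hq hc
  refine this.congr (Eventually.of_forall fun z => ?_)
  simp [mul_comm]

theorem loc_sq {ζ : E × E → ℝ} (hζ : MemLp ζ 3) : LocallyIntegrable (fun z => ζ z ^ 2) := by
  rw [locallyIntegrable_iff]
  intro K hK
  have : IsFiniteMeasure ((volume : Measure (E × E)).restrict K) :=
    ⟨by simpa using hK.measure_lt_top⟩
  have h1 : MemLp ζ 3 ((volume : Measure (E × E)).restrict K) := hζ.restrict K
  have h2 : MemLp ζ 2 ((volume : Measure (E × E)).restrict K) :=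
    h1.mono_exponent (by norm_num)
  exact h2.integrable_sq

/-- the component of the gradient -/
noncomputable def sc (g : E × E → E × E) (m c : Fin 3) (z : E × E) : ℝ :=
  inner ℝ (g z).1 (dr m c).1 + inner ℝ (g z).2 (dr m c).2

theorem sc_mem {g : E × E → E × E} (hg : MemLp g 2) (m c : Fin 3) : MemLp (sc g m c) 2 := by
  have h1 : MemLp (fun z => (g z).1) 2 volume :=
    hg.mono hg.aestronglyMeasurable.fst (Eventually.of_forall fun z => norm_fst_le (g z))
  have h2 : MemLp (fun z => (g z).2) 2 volume :=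
    hg.mono hg.aestronglyMeasurable.snd (Eventually.of_forall fun z => norm_snd_le (g z))
  have h3 : MemLp (fun z => inner ℝ (g z).1 (dr m c).1) 2 volume :=
    MemLp.inner_const h1 (dr m c).1
  have h4 : MemLp (fun z => inner ℝ (g z).2 (dr m c).2) 2 volume :=
    MemLp.inner_const h2 (dr m c).2
  exact MemLp.add h3 h4

end BLD_

open BLD_ in
theorem bld_proof (hGRD : Stmt_GRD) (hFDJ : Stmt_FDJ) (hADM : Stmt_ADM) (hKPO : Stmt_KPO)
    (hKIN : Stmt_KIN) (hLSU : Stmt_LSU) : Stmt_BLD := by
  intro φ δ ζ g hφ hδ hζ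
  obtain ⟨hjas, hfb⟩ := hFDJ φ δ hφ hδ
  obtain ⟨hadm, hVc, hwc, hwcs, hw0, hVw, hVcs⟩ := hADM φ hφ
  obtain ⟨-, hdef0, -⟩ := hKPO φ δ hφ hδ
  obtain ⟨hkin1, hkin2⟩ := hKIN φ δ hφ hδ
  set f : E × E → ℝ := fd δ φ with hf
  set V : E × E → ℝ := fun z => VV φ z.1 z.2 with hV
  have hV0 : ∀ z, 0 ≤ V z := fun z => hadm.nonneg z.1 z.2
  have hfs : ContDiff ℝ ∞ f := hjas.smooth
  set h : E × E → ℝ := fun z => 1 + (-1) * f z with hh
  have hhs : ContDiff ℝ ∞ h := contDiff_const.add (contDiff_const.mul hfs)
  have hhc : HasCompactSupport h := by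
    obtain ⟨R, hR⟩ := hjas.supp
    refine HasCompactSupport.intro (isCompact_closedBall (0 : E × E) R) ?_
    intro z hz
    have : R < ‖z‖ := by
      by_contra hcon
      apply hz
      rw [mem_closedBall_zero_iff]
      exact not_lt.1 hcon
    simp only [hh, hR z this]
    norm_num
  have hLap : ∀ z, Lap h z = -Lap f z := by
    intro z
    have := (hLSU.2 f 1 (-1) hfs z).1
    rw [hh, this]
    ring
  have hgsq : ∀ z, gsq h z = gsq f z := by
    intro z
    have := (hLSU.2 f 1 (-1) hfs z).2
    rw [hh, this]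
    ring
  -- integrability
  have hζloc : LocallyIntegrable ζ := hζ.weak.loc
  have hζaloc : LocallyIntegrable (fun z => |ζ z|) := by
    have := (hζ.memL3.norm).locallyIntegrable (by norm_num)
    simpa only [Real.norm_eq_abs] using this
  have hw : ∀ z, VV φ z.1 z.2 * f z - Lap f z = V z * f z + Lap h z := by
    intro z
    rw [hLap z]
    simp only [hV]
    ring
  have hVfc : Continuous (fun z => V z * f z) := hVc.mul hfs.continuous
  have hVfs : HasCompactSupport (fun z => V z * f z) := hVcs.mul_right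
  have hLc := lap_cont hhs
  have hLs := lap_cpt hhc
  have hwcont : Continuous (fun z => V z * f z + Lap h z) := hVfc.add hLc
  have hwcpt : HasCompactSupport (fun z => V z * f z + Lap h z) := hVfs.add hLs
  have hint : Integrable (fun z => |ζ z| * (VV φ z.1 z.2 * f z - Lap f z)) := by
    refine (int_mul hζaloc hwcont hwcpt).congr (Eventually.of_forall fun z => ?_)
    simp only [hw z]
  refine ⟨hint, ?_⟩
  -- integrability of the pieces
  have iVf : Integrable (fun z => V z * f z) := hVfc.integrable_of_hasCompactSupport hVfs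
  have iV : Integrable V := hVc.integrable_of_hasCompactSupport hVcs
  have hVf2c : Continuous (fun z => V z * f z ^ 2) := hVc.mul (hfs.continuous.pow 2)
  have hVf2s : HasCompactSupport (fun z => V z * f z ^ 2) := hVcs.mul_right
  have iVf2 : Integrable (fun z => V z * f z ^ 2) := hVf2c.integrable_of_hasCompactSupport hVf2s
  have igsq : Integrable (gsq h) := (gsq_cont hhs).integrable_of_hasCompactSupport (gsq_cpt hhc)
  have igsqf : Integrable (gsq f) := igsq.congr (Eventually.of_forall fun z => hgsq z)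
  have iζVf : Integrable (fun z => ζ z * (V z * f z)) := int_mul hζloc hVfc hVfs
  have iζL : Integrable (fun z => ζ z * Lap h z) := int_mul hζloc hLc hLs
  have hscL : ∀ m c, MemLp (sc g m c) 2 := fun m c => sc_mem hζ.gradL2 m c
  have hscloc : ∀ m c, LocallyIntegrable (sc g m c) := fun m c =>
    (hscL m c).locallyIntegrable (by norm_num)
  have isD : ∀ m c, Integrable (fun z => sc g m c z * dv (dr m c) h z) := fun m c =>
    int_mul (hscloc m c) (dv_smooth hhs _).continuous (dv_cpt hhc _)
  have iζD : ∀ m c, Integrable (fun z => ζ z * dv (dr m c) (dv (dr m c) h) z) := fun m c =>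
    int_mul hζloc (dv_smooth (dv_smooth hhs _) _).continuous (dv_cpt (dv_cpt hhc _) _)
  -- weak gradient
  have hwk : ∀ m c, ∫ z, sc g m c z * dv (dr m c) h z =
      - ∫ z, ζ z * dv (dr m c) (dv (dr m c) h) z := by
    intro m c
    have := hζ.weak.byParts (dv (dr m c) h) (dv_smooth hhs _) (dv_cpt hhc _) (dr m c)
    have e : (∫ z, ζ z * dv (dr m c) (dv (dr m c) h) z) =
        - ∫ z, sc g m c z * dv (dr m c) h z := this
    rw [e, neg_neg]
  -- the quadratic form
  have hquad : ∀ z, quadM (g z) = ∑ m, ∑ c, sc g m c z ^ 2 := fun z => hGRD.1 (g z)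
  have iquad : Integrable (fun z => quadM (g z)) := by
    have : Integrable (fun z => ∑ m, ∑ c, sc g m c z ^ 2) :=
      integrable_finsetSum _ fun m _ => integrable_finsetSum _ fun c _ => (hscL m c).integrable_sq
    exact this.congr (Eventually.of_forall fun z => (hquad z).symm)
  have iVζ : Integrable (fun z => V z * |1 - ζ z| ^ 2) := by
    have i1 : Integrable (fun z => ζ z * V z) := int_mul hζloc hVc hVcs
    have i2 : Integrable (fun z => ζ z ^ 2 * V z) := int_mul (loc_sq hζ.memL3) hVc hVcs
    have i3 : Integrable (fun z => V z - 2 * (ζ z * V z) + ζ z ^ 2 * V z) :=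
      (iV.sub (i1.const_mul 2)).add i2
    refine i3.congr (Eventually.of_forall fun z => ?_)
    simp only [sq_abs]
    ring
  have iA : Integrable (fun z => quadM (g z) + V z * |1 - ζ z| ^ 2) := iquad.add iVζ
  have isum : Integrable (fun z => ∑ m, ∑ c, 2 * (sc g m c z * dv (dr m c) h z)) :=
    integrable_finsetSum _ fun m _ => integrable_finsetSum _ fun c _ => (isD m c).const_mul 2
  have iB1 : Integrable (fun z => (∑ m, ∑ c, 2 * (sc g m c z * dv (dr m c) h z)) - gsq h z) :=
    isum.sub igsq
  have iB2 : Integrable (fun z => 2 * (V z * f z) - 2 * (ζ z * (V z * f z)) - V z * f z ^ 2) :=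
    ((iVf.const_mul 2).sub (iζVf.const_mul 2)).sub iVf2
  have hpt : ∀ z, ((∑ m, ∑ c, 2 * (sc g m c z * dv (dr m c) h z)) - gsq h z) +
      (2 * (V z * f z) - 2 * (ζ z * (V z * f z)) - V z * f z ^ 2) ≤
      quadM (g z) + V z * |1 - ζ z| ^ 2 := by
    intro z
    have h1 : (∑ m, ∑ c, 2 * (sc g m c z * dv (dr m c) h z)) - gsq h z ≤ quadM (g z) := by
      rw [hquad z]
      unfold gsq
      rw [← Finset.sum_sub_distrib]
      refine Finset.sum_le_sum fun m _ => ?_
      rw [← Finset.sum_sub_distrib]
      refine Finset.sum_le_sum fun c _ => ?_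
      nlinarith [sq_nonneg (sc g m c z - dv (dr m c) h z)]
    have h2 : 2 * (V z * f z) - 2 * (ζ z * (V z * f z)) - V z * f z ^ 2 ≤
        V z * |1 - ζ z| ^ 2 := by
      rw [sq_abs]
      nlinarith [mul_nonneg (hV0 z) (sq_nonneg (1 - ζ z - f z))]
    linarith
  have hmono := integral_mono (iB1.add iB2) iA hpt
  have eB : ∫ z, (((∑ m, ∑ c, 2 * (sc g m c z * dv (dr m c) h z)) - gsq h z) +
      (2 * (V z * f z) - 2 * (ζ z * (V z * f z)) - V z * f z ^ 2)) =
      (-2 * ∫ z, ζ z * Lap h z) - (∫ z, gsq h z) + (2 * (∫ z, V z * f z) -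
        2 * (∫ z, ζ z * (V z * f z)) - ∫ z, V z * f z ^ 2) := by
    have iC : Integrable (fun z => 2 * (V z * f z) - 2 * (ζ z * (V z * f z))) :=
      (iVf.const_mul 2).sub (iζVf.const_mul 2)
    rw [integral_add iB1 iB2, integral_sub isum igsq,
      integral_sub iC iVf2,
      integral_sub (iVf.const_mul 2) (iζVf.const_mul 2), integral_const_mul, integral_const_mul]
    congr 2
    rw [integral_finsetSum _ fun m _ => integrable_finsetSum _ fun c _ =>
      (isD m c).const_mul 2]
    have e1 : ∀ m : Fin 3, ∫ z, ∑ c, 2 * (sc g m c z * dv (dr m c) h z) =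
        ∑ c, (-2 * ∫ z, ζ z * dv (dr m c) (dv (dr m c) h) z) := by
      intro m
      rw [integral_finsetSum _ fun c _ => (isD m c).const_mul 2]
      refine Finset.sum_congr rfl fun c _ => ?_
      rw [integral_const_mul, hwk m c]
      ring
    simp only [e1]
    have e2 : ∫ z, ζ z * Lap h z =
        ∑ m, ∑ c, ∫ z, ζ z * dv (dr m c) (dv (dr m c) h) z := by
      have : (fun z => ζ z * Lap h z) =
          fun z => ∑ m, ∑ c, ζ z * dv (dr m c) (dv (dr m c) h) z := by
        funext z
        unfold Lap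
        simp only [Finset.mul_sum]
      rw [this, integral_finsetSum _ fun m _ => integrable_finsetSum _ fun c _ => iζD m c]
      refine Finset.sum_congr rfl fun m _ => ?_
      rw [integral_finsetSum _ fun c _ => iζD m c]
    rw [e2]
    simp only [Finset.mul_sum]
  have hmono2 := le_trans (le_of_eq eB.symm) hmono
  -- the remaining comparisons
  have hscat : scatE (VV φ) ζ g = ∫ z, (quadM (g z) + V z * |1 - ζ z| ^ 2) := rfl
  rw [hscat]
  have c1 : (∫ z, ww φ z) ≤ ∫ z, V z * f z := by
    refine integral_mono (hwc.integrable_of_hasCompactSupport hwcs) iVf fun z => ?_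
    have h1 : V z * (1 - φ z) = ww φ z := hVw z
    have h2 := mul_le_mul_of_nonneg_left (hfb z).2.1 (hV0 z)
    show ww φ z ≤ V z * f z
    linarith
  have c2 : ∫ z, kap f (VV φ) z = (∫ z, gsq h z) + ∫ z, V z * f z ^ 2 := by
    rw [hkin1]
    have : (fun z => gsq f z + VV φ z.1 z.2 * f z ^ 2) = fun z => gsq h z + V z * f z ^ 2 := by
      funext z
      rw [hgsq z]
    rw [this, integral_add igsq iVf2]
  have c3 : (∫ z, ζ z * Lap h z) + (∫ z, ζ z * (V z * f z)) ≤
      ∫ z, |ζ z| * (VV φ z.1 z.2 * f z - Lap f z) := by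
    rw [← integral_add iζL iζVf]
    refine integral_mono (iζL.add iζVf) hint fun z => ?_
    have h1 := hdef0 z
    show ζ z * Lap h z + ζ z * (V z * f z) ≤ |ζ z| * (VV φ z.1 z.2 * f z - Lap f z)
    have h2 : ζ z * Lap h z + ζ z * (V z * f z) = ζ z * (VV φ z.1 z.2 * f z - Lap f z) := by
      rw [hw z]
      ring
    rw [h2]
    exact mul_le_mul_of_nonneg_right (le_abs_self _) h1
  linarith

end Pool.Agent.TBG
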