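import Pool.Agent.TBG.Stmts

/-!
# MP_80dc41_mp, module BME: the modified scattering energy
-/

set_option autoImplicit false

open MeasureTheory Filter Topology
open scoped ContDiff

namespace Pool.Agent.TBG

theorem bme_proof (hBUP : Stmt_BUP) (hBLD : Stmt_BLD) (hBER : Stmt_BER) (_hADM : Stmt_ADM)
    (hGRD : Stmt_GRD) : Stmt_BME := by
  intro φ hφ
  refine le_antisymm (hBUP φ hφ) ?_
  unfold bM
  apply le_csInf
  · have h0 : ContDiff ℝ ∞ (fun _ : E × E => (0 : ℝ)) := contDiff_const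
    have hcs : HasCompactSupport (fun _ : E × E => (0 : ℝ)) := HasCompactSupport.zero
    exact ⟨_, (fun _ : E × E => (0 : ℝ)), gr (fun _ : E × E => (0 : ℝ)), (hGRD.2 _ h0).2.2 hcs, rfl⟩
  · rintro e ⟨ζ, g, hζ, rfl⟩
    have hlim : Tendsto (fun δ : ℝ => (∫ z, ww φ z) - 2 * δ * (∫ z : E × E, VV φ z.1 z.2) -
        2 * (∫ z, |ζ z| * (VV φ z.1 z.2 * fd δ φ z - Lap (fd δ φ) z))) (𝓝[>] 0)
        (𝓝 ((∫ z, ww φ z) - 2 * 0 * (∫ z : E × E, VV φ z.1 z.2) - 2 * 0)) := by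
      refine Tendsto.sub (Tendsto.sub tendsto_const_nhds ?_) ?_
      · exact (((continuous_const.mul continuous_id).mul continuous_const).tendsto (0 : ℝ)).mono_left
          nhdsWithin_le_nhds
      · exact (hBER φ ζ hφ hζ.memL3).const_mul 2
    have hev : ∀ᶠ δ in 𝓝[>] (0 : ℝ), (∫ z, ww φ z) - 2 * δ * (∫ z : E × E, VV φ z.1 z.2) -
        2 * (∫ z, |ζ z| * (VV φ z.1 z.2 * fd δ φ z - Lap (fd δ φ) z)) ≤ scatE (VV φ) ζ g := by
      filter_upwards [self_mem_nhdsWithin] with δ hδ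
      exact (hBLD φ δ ζ g hφ hδ hζ).2
    have := le_of_tendsto hlim hev
    simpa using this

end Pool.Agent.TBG
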