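import Pool.Agent.TBG.Stmts

/-!
# Three-body Bose gases (MP_80dc41_mp): module BUP
-/

set_option autoImplicit false

open MeasureTheory Filter Topology
open scoped ContDiff

namespace Pool.Agent.TBG

theorem bup_proof (hgrd : Stmt_GRD) (hfdj : Stmt_FDJ) (hadm : Stmt_ADM) (hkin : Stmt_KIN)
    (hlsu : Stmt_LSU) : Stmt_BUP := by
  intro φ hφ
  obtain ⟨hA, hVc, hwc, hws, hw0, hVw, hVs⟩ := hadm φ hφ
  have hq : ∀ v : E × E, 0 ≤ quadM v := by
    intro v
    rw [hgrd.1 v]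
    exact Finset.sum_nonneg fun m _ => Finset.sum_nonneg fun c _ => sq_nonneg _
  have hbdd : BddBelow {e : ℝ | ∃ (ψ : E × E → ℝ) (g : E × E → E × E), HDot ψ g ∧
      e = scatE (VV φ) ψ g} := by
    refine ⟨0, ?_⟩
    rintro e ⟨ψ, g, _, rfl⟩
    unfold scatE
    apply integral_nonneg
    intro z
    have h1 := hA.nonneg z.1 z.2
    exact add_nonneg (hq _) (mul_nonneg h1 (sq_nonneg _))
  have key : ∀ δ : ℝ, 0 < δ → bM (VV φ) ≤
      (∫ z, ww φ z) + 2 * δ * ∫ z : E × E, VV φ z.1 z.2 := by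
    intro δ hδ
    obtain ⟨hJ, _⟩ := hfdj φ δ hφ hδ
    obtain ⟨hk1, hk2⟩ := hkin φ δ hφ hδ
    obtain ⟨ζ, hζ⟩ : ∃ ζ : E × E → ℝ, ζ = fun z => 1 + (-1) * fd δ φ z := ⟨_, rfl⟩
    have hζs : ContDiff ℝ ∞ ζ := by
      rw [hζ]
      exact contDiff_const.add (contDiff_const.mul hJ.smooth)
    have hζc : HasCompactSupport ζ := by
      obtain ⟨R, hR⟩ := hJ.supp
      apply HasCompactSupport.of_support_subset_isCompact (isCompact_closedBall (0 : E × E) R)
      intro z hz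
      rw [Function.mem_support] at hz
      rw [mem_closedBall_zero_iff]
      by_contra hc
      apply hz
      rw [hζ]
      show 1 + (-1) * fd δ φ z = 0
      rw [hR z (not_le.mp hc)]
      norm_num
    obtain ⟨_, hg2, hg3⟩ := hgrd.2 ζ hζs
    have h1 : scatE (VV φ) ζ (gr ζ) = ∫ z, kap (fd δ φ) (VV φ) z := by
      rw [hk1]
      unfold scatE
      apply integral_congr_ae
      refine Filter.Eventually.of_forall fun z => ?_
      show quadM (gr ζ z) + VV φ z.1 z.2 * |1 - ζ z| ^ 2 =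
        gsq (fd δ φ) z + VV φ z.1 z.2 * fd δ φ z ^ 2
      rw [hg2 z, sq_abs]
      have e1 : gsq ζ z = gsq (fd δ φ) z := by
        rw [hζ, (hlsu.2 (fd δ φ) 1 (-1) hJ.smooth z).2]
        ring
      have e2 : 1 - ζ z = fd δ φ z := by
        rw [hζ]
        ring
      rw [e1, e2]
    refine le_trans ?_ hk2
    rw [← h1]
    unfold bM
    exact csInf_le hbdd ⟨ζ, gr ζ, hg3 hζc, rfl⟩
  obtain ⟨C, hC⟩ : ∃ C : ℝ, C = ∫ z : E × E, VV φ z.1 z.2 := ⟨_, rfl⟩
  have hC0 : 0 ≤ C := by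
    rw [hC]
    exact integral_nonneg fun z => hA.nonneg z.1 z.2
  apply le_of_forall_pos_le_add
  intro ε hε
  have h2 := key (ε / (2 * (C + 1))) (by positivity)
  rw [← hC] at h2
  refine h2.trans ?_
  have h3 : 2 * (ε / (2 * (C + 1))) * C ≤ ε := by
    have h4 : 2 * (ε / (2 * (C + 1))) * C = ε * (C / (C + 1)) := by
      field_simp
    rw [h4]
    apply mul_le_of_le_one_right hε.le
    rw [div_le_one (by linarith)]
    linarith
  linarith

end Pool.Agent.TBG
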