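import Pool.Agent.TBG.Stmts

/-!
# Three-body Bose gases: the probability measure
-/

set_option autoImplicit false

open MeasureTheory Filter Topology
open scoped ContDiff

namespace Pool.Agent.TBG

namespace CFD_

/-- the density -/
noncomputable def rho (χ : E → ℝ) (x : E) : ℝ := χ x ^ 2 / vv χ

lemma vv_pos {L : ℝ} {χ : E → ℝ} (h : Cut L χ) : 0 < vv χ := h.pos

lemma rho_nonneg {L : ℝ} {χ : E → ℝ} (h : Cut L χ) (x : E) : 0 ≤ rho χ x :=
  div_nonneg (sq_nonneg _) (vv_pos h).le

lemma rho_cont {L : ℝ} {χ : E → ℝ} (h : Cut L χ) : Continuous (rho χ) := by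
  have h1 := h.smooth.continuous
  unfold rho
  exact (h1.pow 2).div_const _

lemma rho_int {L : ℝ} {χ : E → ℝ} (h : Cut L χ) : Integrable (rho χ) := by
  refine (rho_cont h).integrable_of_hasCompactSupport ?_
  refine h.cpt.mono fun x hx => ?_
  rw [Function.mem_support] at hx ⊢
  intro h0
  apply hx
  simp [rho, h0]

lemma rho_total {L : ℝ} {χ : E → ℝ} (h : Cut L χ) : ∫ x, rho χ x = 1 := by
  unfold rho
  rw [integral_div]
  exact div_self (vv_pos h).ne'

lemma nu_eq (χ : E → ℝ) : nu χ = volume.withDensity (fun x => ENNReal.ofReal (rho χ x)) := rfl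

lemma prob {L : ℝ} {χ : E → ℝ} (h : Cut L χ) : IsProbabilityMeasure (nu χ) := by
  constructor
  rw [nu_eq, withDensity_apply _ MeasurableSet.univ, Measure.restrict_univ,
    ← ofReal_integral_eq_lintegral_ofReal (rho_int h)
      (Filter.Eventually.of_forall fun x => rho_nonneg h x), rho_total h, ENNReal.ofReal_one]

lemma integral_nu {L : ℝ} {χ : E → ℝ} (h : Cut L χ) (g : E → ℝ) :
    ∫ x, g x ∂(nu χ) = (vv χ)⁻¹ * ∫ x, χ x ^ 2 * g x := by
  rw [nu_eq, integral_withDensity_eq_integral_toReal_smul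
    (rho_cont h).measurable.ennreal_ofReal
    (Filter.Eventually.of_forall fun x => ENNReal.ofReal_lt_top), ← integral_const_mul]
  refine integral_congr_ae (Filter.Eventually.of_forall fun x => ?_)
  have e1 : (ENNReal.ofReal (rho χ x)).toReal = rho χ x := ENNReal.toReal_ofReal (rho_nonneg h x)
  show (ENNReal.ofReal (rho χ x)).toReal * g x = (vv χ)⁻¹ * (χ x ^ 2 * g x)
  rw [e1, rho]
  ring

lemma pi_eq' {L : ℝ} {χ : E → ℝ} (h : Cut L χ) (N : ℕ) :
    PP χ N = (volume : Measure (Fin N → E)).withDensity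
      (fun X => ENNReal.ofReal (∏ i, rho χ (X i))) := by
  have := prob h
  unfold PP
  refine Measure.pi_eq fun s hs => ?_
  have hms : MeasurableSet (Set.univ.pi s) := MeasurableSet.univ_pi hs
  rw [withDensity_apply _ hms, volume_pi, Measure.restrict_pi_pi]
  have hint : ∀ i, Integrable (rho χ) ((volume : Measure E).restrict (s i)) := fun i =>
    (rho_int h).restrict
  have h1 : Integrable (fun X : Fin N → E => ∏ i, rho χ (X i))
      (Measure.pi fun i => (volume : Measure E).restrict (s i)) :=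
    Integrable.fintype_prod (f := fun _ => rho χ) hint
  rw [← ofReal_integral_eq_lintegral_ofReal h1
    (Filter.Eventually.of_forall fun X => Finset.prod_nonneg fun i _ => rho_nonneg h (X i))]
  have h2 : ∫ X : Fin N → E, ∏ i, rho χ (X i)
      ∂(Measure.pi fun i => (volume : Measure E).restrict (s i)) =
      ∏ i, ∫ x in s i, rho χ x :=
    integral_fintype_prod_eq_prod (fun _ => rho χ)
  rw [h2, ENNReal.ofReal_prod_of_nonneg
    (fun i _ => setIntegral_nonneg (hs i) fun x _ => rho_nonneg h x)]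
  refine Finset.prod_congr rfl fun i _ => ?_
  rw [nu_eq, withDensity_apply _ (hs i), ← ofReal_integral_eq_lintegral_ofReal (hint i)
    (Filter.Eventually.of_forall fun x => rho_nonneg h x)]

end CFD_

theorem cfd_proof : Stmt_CFD := by
  intro L χ h
  refine ⟨CFD_.prob h, CFD_.integral_nu h, fun N u => ?_⟩
  have hm : Measurable (fun X : Fin N → E => ∏ i, CFD_.rho χ (X i)) :=
    Finset.measurable_fun_prod _ fun i _ => (CFD_.rho_cont h).measurable.comp (measurable_pi_apply i)
  rw [CFD_.pi_eq' h N, integral_withDensity_eq_integral_toReal_smul hm.ennreal_ofReal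
    (Filter.Eventually.of_forall fun x => ENNReal.ofReal_lt_top), ← integral_const_mul]
  refine integral_congr_ae (Filter.Eventually.of_forall fun X => ?_)
  have h1 : 0 ≤ ∏ i, CFD_.rho χ (X i) := Finset.prod_nonneg fun i _ => CFD_.rho_nonneg h (X i)
  have h2 : (∏ i, CFD_.rho χ (X i)) = CC χ X ^ 2 / vv χ ^ N := by
    unfold CFD_.rho CC
    rw [Finset.prod_div_distrib, Finset.prod_const, Finset.prod_pow, Finset.card_univ,
      Fintype.card_fin]
  have h3 : vv χ ^ N ≠ 0 := pow_ne_zero _ (CFD_.vv_pos h).ne'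
  simp only [ENNReal.toReal_ofReal h1, smul_eq_mul]
  rw [h2]
  field_simp

end Pool.Agent.TBG
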