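import Pool.Agent.TBG.Stmts

/-!
# Three-body Bose gases (MP_80dc41_mp), module CON
-/

set_option autoImplicit false

open MeasureTheory Filter Topology
open scoped ContDiff

namespace Pool.Agent.TBG

namespace CON_

theorem coeff_le (hT : Stmt_THE) {b K : ℝ} (hb : 0 < b) {V : E → E → ℝ} (hV : bM V = b)
    {ρ₀ : ℝ} (hρ₀ : 0 < ρ₀) (h : ∀ ρ, 0 < ρ → ρ < ρ₀ →
      ∀ᶠ p in thermo ρ, E0 V p.1 p.2 / p.2 ^ 3 ≤ 1 / 6 * ρ ^ 3 * b * (1 - K * ρ))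
    (C : ℝ) (hC : HasExpansion V C) : C ≤ -K := by
  obtain ⟨e, he, hlim⟩ := hC
  have hev : ∀ᶠ ρ in 𝓝[>] (0 : ℝ), (e ρ / (1 / 6 * ρ ^ 3 * bM V) - 1) / ρ ≤ -K := by
    filter_upwards [Ioo_mem_nhdsGT hρ₀] with ρ hρ
    obtain ⟨h0, h1⟩ := hρ
    have hne : (thermo ρ).NeBot := (hT ρ h0).1
    have h2 : e ρ ≤ 1 / 6 * ρ ^ 3 * b * (1 - K * ρ) := le_of_tendsto (he ρ h0) (h ρ h0 h1)
    rw [hV]
    have h3 : 0 < 1 / 6 * ρ ^ 3 * b := by positivity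
    rw [div_le_iff₀ h0]
    have h4 : e ρ / (1 / 6 * ρ ^ 3 * b) ≤ 1 - K * ρ := by
      rw [div_le_iff₀ h3]
      linarith
    linarith
  exact le_of_tendsto hlim hev

end CON_

open CON_ in
theorem con_proof (hT : Stmt_THE) : Stmt_CON := by
  intro h1
  have h2 : ∀ b K : ℝ, 0 < b → ∃ V : E → E → ℝ, Admissible V ∧ bM V = b ∧
      ∀ C, HasExpansion V C → C ≤ -K := by
    intro b K hb
    obtain ⟨V, hV, hVb, ρ₀, hρ₀, h⟩ := h1 b K hb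
    exact ⟨V, hV, hVb, fun C hC => coeff_le hT hb hVb hρ₀ h C hC⟩
  refine ⟨h1, h2, ?_, ?_⟩
  · rintro ⟨c, hc⟩
    obtain ⟨V, hV, hVb, h⟩ := h2 1 (1 - c 1) one_pos
    have h3 := h (c (bM V)) (hc V hV (by rw [hVb]; exact one_pos))
    rw [hVb] at h3
    linarith
  · intro hE b hb
    obtain ⟨V₁, hV₁, hb₁, -⟩ := h2 b 0 hb
    obtain ⟨C₁, hC₁⟩ := hE V₁ hV₁ (by rw [hb₁]; exact hb)
    obtain ⟨V₂, hV₂, hb₂, h₂⟩ := h2 b (1 - C₁) hb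
    obtain ⟨C₂, hC₂⟩ := hE V₂ hV₂ (by rw [hb₂]; exact hb)
    refine ⟨V₁, V₂, C₁, C₂, hV₁, hV₂, hb₁, hb₂, hC₁, hC₂, fun h => ?_⟩
    have := h₂ C₂ hC₂
    linarith

end Pool.Agent.TBG
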