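import Pool.Agent.TBG.Stmts

/-!
# Squad TBG, module CRD: the number of sorted triples and pairs.
-/

set_option autoImplicit false

namespace Pool.Agent.TBG

namespace CRD_

lemma fiber {N : ℕ} (j : Fin N) :
    ((trip (Finset.univ : Finset (Fin N))).filter fun t => t.2.1 = j) =
      (Finset.Iio j ×ˢ Finset.Ioi j).image fun p : Fin N × Fin N => (p.1, j, p.2) := by
  ext ⟨a, b, c⟩
  simp only [trip, Finset.mem_filter, Finset.mem_product, Finset.mem_univ, true_and,
    Finset.mem_image, Finset.mem_Iio, Finset.mem_Ioi, Prod.exists, Prod.mk.injEq]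
  constructor
  · rintro ⟨⟨h1, h2⟩, rfl⟩
    exact ⟨a, c, ⟨h1, h2⟩, rfl, rfl, rfl⟩
  · rintro ⟨a', c', ⟨h1, h2⟩, rfl, rfl, rfl⟩
    exact ⟨⟨h1, h2⟩, rfl⟩

lemma card_fiber {N : ℕ} (j : Fin N) :
    ((trip (Finset.univ : Finset (Fin N))).filter fun t => t.2.1 = j).card =
      (j : ℕ) * (N - 1 - (j : ℕ)) := by
  rw [fiber, Finset.card_image_of_injective, Finset.card_product, Fin.card_Iio, Fin.card_Ioi]
  intro p q h
  simp only [Prod.mk.injEq, true_and] at h
  exact Prod.ext h.1 h.2

lemma sum_formula (a : ℝ) (M : ℕ) :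
    ∑ j ∈ Finset.range M, (j : ℝ) * (a - j) =
      a * (M * (M - 1) / 2) - (M - 1) * M * (2 * M - 1) / 6 := by
  induction M with
  | zero => simp
  | succ M ih =>
    rw [Finset.sum_range_succ, ih]
    push_cast
    ring

end CRD_

open CRD_ in
theorem crd_proof : Stmt_CRD := by
  refine ⟨?_, ?_⟩
  · intro N
    rw [Finset.card_eq_sum_card_fiberwise (f := fun t : Fin N × Fin N × Fin N => t.2.1)
      (t := Finset.univ) (fun x _ => Finset.mem_coe.2 (Finset.mem_univ _))]
    rw [Finset.sum_congr rfl fun j _ => card_fiber j]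
    push_cast
    have h1 : ∀ j : Fin N, ((N - 1 - (j : ℕ) : ℕ) : ℝ) = ((N : ℝ) - 1) - (j : ℕ) := by
      intro j
      have hj := j.isLt
      rw [Nat.cast_sub (by omega), Nat.cast_sub (by omega)]
      norm_num
    rw [Finset.sum_congr rfl fun j _ => by rw [h1 j]]
    rw [Fin.sum_univ_eq_sum_range (fun j : ℕ => (j : ℝ) * (((N : ℝ) - 1) - (j : ℝ))) N,
      sum_formula]
    ring
  · intro N S
    have hd : Disjoint (prs S) ((prs S).image Prod.swap) := by
      rw [Finset.disjoint_left]
      rintro ⟨a, b⟩ h1 h2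
      simp only [prs, Finset.mem_filter, Finset.mem_image, Prod.exists, Prod.swap_prod_mk,
        Prod.mk.injEq] at h1 h2
      obtain ⟨c, d, ⟨-, h3⟩, rfl, rfl⟩ := h2
      exact absurd h1.2 (not_lt.2 h3.le)
    have hc : ((prs S).image Prod.swap).card = (prs S).card :=
      Finset.card_image_of_injective _ Prod.swap_injective
    have h1 : ((prs S) ∪ ((prs S).image Prod.swap)).card ≤ N * N := by
      calc _ ≤ (Finset.univ : Finset (Fin N × Fin N)).card :=
            Finset.card_le_card (Finset.subset_univ _)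
        _ = N * N := by simp
    rw [Finset.card_union_of_disjoint hd, hc] at h1
    have h2 : (((prs S).card + (prs S).card : ℕ) : ℝ) ≤ ((N * N : ℕ) : ℝ) := by exact_mod_cast h1
    push_cast at h2
    rw [sq]
    linarith

end Pool.Agent.TBG
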