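import Pool.Agent.TBG.Stmts

/-!
# Three-body Bose gases (MP_80dc41_mp), module DCC: derivatives of the product of the cutoffs
-/

set_option autoImplicit false

open MeasureTheory Filter Topology
open scoped ContDiff

namespace Pool.Agent.TBG

namespace DCC_

theorem support_sub {N : ℕ} (χ : E → ℝ) :
    Function.support (CC (N := N) χ) ⊆ Set.pi Set.univ (fun _ => tsupport χ) := by
  intro X hX i _
  rw [Function.mem_support] at hX
  unfold CC at hX
  rw [Finset.prod_ne_zero_iff] at hX
  exact subset_tsupport χ (hX i (Finset.mem_univ i))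

theorem deriv_cc {N : ℕ} (χ : E → ℝ) (hχ : Differentiable ℝ χ) (X : Fin N → E) (i : Fin N) (c : Fin 3) :
    dv (dir i c) (CC χ) X = (∏ j ∈ Finset.univ.erase i, χ (X j)) * dv (ev c) χ (X i) := by
  have h1 : ∀ j ∈ (Finset.univ : Finset (Fin N)), HasFDerivAt (fun X : Fin N → E => χ (X j))
      ((fderiv ℝ χ (X j)).comp (ContinuousLinearMap.proj (R := ℝ) (φ := fun _ : Fin N => E) j)) X := by
    intro j _
    exact ((hχ (X j)).hasFDerivAt).comp X (ContinuousLinearMap.proj (R := ℝ) (φ := fun _ : Fin N => E) j).hasFDerivAt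
  have h2 := HasFDerivAt.finsetProd h1
  have h3 : CC (N := N) χ = fun X => ∏ j ∈ Finset.univ, χ (X j) := rfl
  unfold dv
  rw [h3, h2.fderiv, ContinuousLinearMap.sum_apply]
  rw [Finset.sum_eq_single i]
  · simp [dir]
  · intro j _ hj
    simp [dir, Pi.single_eq_of_ne hj]
  · intro h
    exact absurd (Finset.mem_univ i) h

end DCC_

open DCC_ in
theorem dcc_proof (hLAM : Stmt_LAM) : Stmt_DCC := by
  intro N L χ hcut _
  have hK : IsCompact (Set.pi Set.univ (fun _ : Fin N => tsupport χ)) :=
    isCompact_univ_pi fun _ => hcut.cpt.isCompact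
  refine ⟨?_, HasCompactSupport.of_support_subset_isCompact hK (support_sub χ), ?_, ?_⟩
  · unfold CC
    exact contDiff_prod fun j _ => hcut.smooth.comp (contDiff_apply ℝ E j)
  · intro X hX i c
    have h1 : tsupport (CC (N := N) χ) ⊆ Set.pi Set.univ (fun _ : Fin N => tsupport χ) :=
      closure_minimal (support_sub χ) hK.isClosed
    exact hcut.supp _ (h1 hX i (Set.mem_univ i)) c
  · intro X i c
    rw [deriv_cc χ (hcut.smooth.differentiable (by simp)) X i c]
    rw [(hLAM L χ c hcut).2.1 (X i)]
    have h1 : CC χ X = χ (X i) * ∏ j ∈ Finset.univ.erase i, χ (X j) := by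
      unfold CC
      rw [Finset.mul_prod_erase Finset.univ (fun j => χ (X j)) (Finset.mem_univ i)]
    rw [h1]
    ring

end Pool.Agent.TBG
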