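import Pool.Agent.TBG.Stmts

/-!
# The mass of `1 - f²` is `o(1/δ)`
-/

set_option autoImplicit false

open MeasureTheory Filter Topology
open scoped ContDiff

namespace Pool.Agent.TBG

theorem din_proof (hT : Stmt_TDL) (hF : Stmt_FDJ) (hI : Stmt_INT) : Stmt_DIN := by
  intro φ hφ
  obtain ⟨C, hC⟩ := hφ.upp
  have hkey : Tendsto (fun δ : ℝ => ∫ z, δ * aa (fd δ φ) z) (𝓝[>] 0) (𝓝 (∫ _ : E × E, (0 : ℝ))) := by
    apply tendsto_integral_filter_of_dominated_convergence
      (fun z : E × E => 2 * C ^ 2 * ((1 + ‖z‖) ^ 8)⁻¹)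
    · filter_upwards [self_mem_nhdsWithin] with δ hδ
      have hj := (hF φ δ hφ hδ).1
      have hc : Continuous (fun z => δ * aa (fd δ φ) z) := by
        unfold aa
        exact continuous_const.mul (continuous_const.sub (hj.smooth.continuous.pow 2))
      exact hc.aestronglyMeasurable
    · filter_upwards [self_mem_nhdsWithin] with δ hδ
      refine Filter.Eventually.of_forall fun z => ?_
      have hδ' : (0 : ℝ) < δ := hδ
      obtain ⟨hj, hb⟩ := hF φ δ hφ hδ'
      obtain ⟨h0, h1, h2⟩ := hb z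
      have h3 := hj.le_one z
      have h4 := hj.half_le z
      have hpos : (0 : ℝ) < 1 + ‖z‖ := by positivity
      have haa : aa (fd δ φ) z = 1 - fd δ φ z ^ 2 := rfl
      have haa0 : 0 ≤ aa (fd δ φ) z := by rw [haa]; nlinarith
      have hCz := hC z
      have hp4 : 0 < (1 + ‖z‖) ^ 4 := by positivity
      have hφle : φ z ≤ C * ((1 + ‖z‖) ^ 4)⁻¹ := by
        rw [← div_eq_mul_inv, le_div_iff₀ hp4]; linarith
      have hsq : φ z ^ 2 ≤ C ^ 2 * ((1 + ‖z‖) ^ 8)⁻¹ := by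
        have h5 : φ z ^ 2 ≤ (C * ((1 + ‖z‖) ^ 4)⁻¹) ^ 2 := pow_le_pow_left₀ h0 hφle 2
        have h6 : (C * ((1 + ‖z‖) ^ 4)⁻¹) ^ 2 = C ^ 2 * ((1 + ‖z‖) ^ 8)⁻¹ := by
          rw [mul_pow, inv_pow, ← pow_mul]
        rwa [h6] at h5
      rw [Real.norm_of_nonneg (mul_nonneg hδ'.le haa0)]
      have hmain : δ * aa (fd δ φ) z ≤ 2 * φ z ^ 2 := by
        rcases le_or_gt (φ z) δ with hle | hgt
        · have hT0 : Td δ (φ z) = 0 := ((hT.1 δ hδ').2.2.1) (φ z) hle
          have hf1 : fd δ φ z = 1 := by unfold fd; rw [hT0]; ring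
          rw [haa, hf1]
          nlinarith [sq_nonneg (φ z)]
        · have hbound : aa (fd δ φ) z ≤ 2 * φ z := by rw [haa]; nlinarith
          nlinarith
      calc δ * aa (fd δ φ) z ≤ 2 * φ z ^ 2 := hmain
        _ ≤ 2 * (C ^ 2 * ((1 + ‖z‖) ^ 8)⁻¹) := by linarith
        _ = 2 * C ^ 2 * ((1 + ‖z‖) ^ 8)⁻¹ := by ring
    · exact hI.1.const_mul _
    · refine Filter.Eventually.of_forall fun z => ?_
      have hlim : Tendsto (fun δ : ℝ => δ) (𝓝[>] (0 : ℝ)) (𝓝 0) :=
        tendsto_id.mono_left nhdsWithin_le_nhds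
      refine squeeze_zero_norm' ?_ hlim
      filter_upwards [self_mem_nhdsWithin] with δ hδ
      have hδ' : (0 : ℝ) < δ := hδ
      obtain ⟨hj, _⟩ := hF φ δ hφ hδ'
      have h3 := hj.le_one z
      have h4 := hj.half_le z
      have haa : aa (fd δ φ) z = 1 - fd δ φ z ^ 2 := rfl
      have haa0 : 0 ≤ aa (fd δ φ) z := by rw [haa]; nlinarith
      have haa1 : aa (fd δ φ) z ≤ 1 := by rw [haa]; nlinarith
      rw [Real.norm_of_nonneg (mul_nonneg hδ'.le haa0)]
      nlinarith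
  simp only [integral_zero] at hkey
  refine hkey.congr fun δ => ?_
  exact integral_const_mul δ _

end Pool.Agent.TBG
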