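import Pool.Agent.TBG.Stmts

/-!
# Three-body Bose gases (MP_80dc41_mp): module DTR
-/

set_option autoImplicit false

open MeasureTheory Filter Topology
open scoped ContDiff

namespace Pool.Agent.TBG

namespace DTR_

/-- the linear map `X ↦ (X a - X b, X a - X d)` -/
noncomputable def lin {N : ℕ} (a b d : Fin N) : (Fin N → E) →L[ℝ] E × E :=
  (ContinuousLinearMap.proj (R := ℝ) (φ := fun _ : Fin N => E) a -
    ContinuousLinearMap.proj (R := ℝ) (φ := fun _ : Fin N => E) b).prod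
  (ContinuousLinearMap.proj (R := ℝ) (φ := fun _ : Fin N => E) a -
    ContinuousLinearMap.proj (R := ℝ) (φ := fun _ : Fin N => E) d)

theorem lin_apply {N : ℕ} (a b d : Fin N) (X : Fin N → E) :
    lin a b d X = (X a - X b, X a - X d) := rfl

theorem lin_dir {N : ℕ} (t : Fin N × Fin N × Fin N) (i : Fin N) (c : Fin 3)
    (h1 : t.1 ≠ t.2.1) (h2 : t.1 ≠ t.2.2) (h3 : t.2.1 ≠ t.2.2) :
    lin t.1 t.2.1 t.2.2 (dir i c) = ∑ m : Fin 3, if sel t m = i then dr m c else 0 := by
  obtain ⟨a, b, d⟩ := t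
  dsimp only at h1 h2 h3
  have s0 : sel (a, b, d) 0 = a := rfl
  have s1 : sel (a, b, d) 1 = b := rfl
  have s2 : sel (a, b, d) 2 = d := rfl
  have d0 : dr 0 c = (ev c, ev c) := rfl
  have d1 : dr 1 c = (-ev c, 0) := rfl
  have d2 : dr 2 c = (0, -ev c) := rfl
  rw [lin_apply, Fin.sum_univ_three, s0, s1, s2, d0, d1, d2]
  have key : ∀ e : Fin N, dir i c e = if e = i then ev c else 0 := by
    intro e
    unfold dir
    rw [Pi.single_apply]
  rw [key, key, key]
  by_cases ha : a = i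
  · have hb : b ≠ i := fun h => h1 (ha.trans h.symm)
    have hd : d ≠ i := fun h => h2 (ha.trans h.symm)
    rw [if_pos ha, if_pos ha, if_neg hb, if_neg hb, if_neg hd, if_neg hd]
    simp
  · by_cases hb : b = i
    · have hd : d ≠ i := fun h => h3 (hb.trans h.symm)
      rw [if_neg ha, if_neg ha, if_pos hb, if_pos hb, if_neg hd, if_neg hd]
      simp
    · by_cases hd : d = i
      · rw [if_neg ha, if_neg ha, if_neg hb, if_neg hb, if_pos hd, if_pos hd]
        simp
      · rw [if_neg ha, if_neg ha, if_neg hb, if_neg hb, if_neg hd, if_neg hd]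
        simp

end DTR_

theorem dtr_proof : Stmt_DTR := by
  intro N u t i c hu h1 h2 h3
  have e0 : (fun X : Fin N → E => tr u X t.1 t.2.1 t.2.2) =
      fun X => u (DTR_.lin t.1 t.2.1 t.2.2 X) := rfl
  rw [e0]
  refine ⟨hu.comp (DTR_.lin t.1 t.2.1 t.2.2).contDiff, ?_⟩
  funext X
  have hd : DifferentiableAt ℝ u (DTR_.lin t.1 t.2.1 t.2.2 X) :=
    (hu.differentiable (by simp)).differentiableAt
  have e1 : dv (dir i c) (fun X => u (DTR_.lin t.1 t.2.1 t.2.2 X)) X =
      fderiv ℝ u (DTR_.lin t.1 t.2.1 t.2.2 X) (DTR_.lin t.1 t.2.1 t.2.2 (dir i c)) := by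
    have h := hd.hasFDerivAt.comp X (DTR_.lin t.1 t.2.1 t.2.2).hasFDerivAt
    unfold dv
    have h' : HasFDerivAt (fun X => u (DTR_.lin t.1 t.2.1 t.2.2 X))
      ((fderiv ℝ u (DTR_.lin t.1 t.2.1 t.2.2 X)).comp (DTR_.lin t.1 t.2.1 t.2.2)) X := h
    rw [h'.fderiv]
    rfl
  rw [e1, DTR_.lin_dir t i c h1 h2 h3, map_sum]
  apply Finset.sum_congr rfl
  intro m _
  by_cases hm : sel t m = i
  · rw [if_pos hm, if_pos hm]
    rfl
  · rw [if_neg hm, if_neg hm, map_zero]

end Pool.Agent.TBG
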