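import Pool.Agent.TBG.Stmts

/-!
# Three-body Bose gases (MP_80dc41_mp): derivatives of `U = ∑ log f`
-/

set_option autoImplicit false

open MeasureTheory Filter Topology
open scoped ContDiff

namespace Pool.Agent.TBG

namespace DUX_

/-- sorted triples have distinct elements -/
theorem ne_of_mem {N : ℕ} {t : Fin N × Fin N × Fin N} (ht : t ∈ trip (Finset.univ : Finset (Fin N))) :
    t.1 ≠ t.2.1 ∧ t.1 ≠ t.2.2 ∧ t.2.1 ≠ t.2.2 := by
  unfold trip at ht
  rw [Finset.mem_filter] at ht
  exact ⟨ht.2.1.ne, (ht.2.1.trans ht.2.2).ne, ht.2.2.ne⟩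

theorem sel_inj {N : ℕ} {t : Fin N × Fin N × Fin N} (h1 : t.1 ≠ t.2.1) (h2 : t.1 ≠ t.2.2) (h3 : t.2.1 ≠ t.2.2)
    {m m' : Fin 3} (h : sel t m = sel t m') : m = m' := by
  fin_cases m <;> fin_cases m' <;> simp_all [sel, eq_comm]

/-- `dv` of a finite sum -/
theorem dv_sum {W ι : Type} [NormedAddCommGroup W] [NormedSpace ℝ W] (s : Finset ι) (F : ι → W → ℝ) (v x : W)
    (h : ∀ j ∈ s, DifferentiableAt ℝ (F j) x) :
    dv v (fun y => ∑ j ∈ s, F j y) x = ∑ j ∈ s, dv v (F j) x := by
  unfold dv
  rw [fderiv_fun_sum h]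
  simp

/-- `dv` of a conditional -/
theorem dv_ite {W : Type} [NormedAddCommGroup W] [NormedSpace ℝ W] (p : Prop) [Decidable p] (F : W → ℝ) (v x : W) :
    dv v (fun y => if p then F y else 0) x = if p then dv v F x else 0 := by
  by_cases h : p
  · simp only [h, if_true]
  · simp only [h, if_false]
    unfold dv
    simp

theorem contDiff_dv {W : Type} [NormedAddCommGroup W] [NormedSpace ℝ W] (v : W) (F : W → ℝ) (h : ContDiff ℝ ∞ F) :
    ContDiff ℝ ∞ (dv v F) := by
  unfold dv
  exact (h.fderiv_right (m := ∞) (by simp)).clm_apply contDiff_const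

theorem one_sel {N : ℕ} (j : Fin N) (a : ℝ) : ∑ i : Fin N, (if j = i then a else 0) = a := by
  simp

end DUX_

theorem dux_proof (h1 : Stmt_DTR) (h2 : Stmt_LPC) : Stmt_DUX := by
  intro N f hf
  have hpos : ∀ z, 0 < f z := fun z => lt_of_lt_of_le (by norm_num) (hf.half_le z)
  have hlog : ContDiffOn ℝ ∞ Real.log (Set.Ioi 0) := by
    intro x hx
    exact (Real.contDiffAt_log.2 (ne_of_gt hx)).contDiffWithinAt
  have hL := h2 Real.log f (Set.Ioi 0) isOpen_Ioi hlog hf.smooth hpos
  set lf : E × E → ℝ := fun z => Real.log (f z) with hlf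
  have lfs : ContDiff ℝ ∞ lf := (hL 0).1
  have lfd : ∀ z v, dv v lf z = (f z)⁻¹ * dv v f z := by
    intro z v
    have := (hL z).2.1 v
    rw [Real.deriv_log] at this
    exact this
  have hU : UU (N := N) f = fun X => ∑ t ∈ trip (Finset.univ : Finset (Fin N)), tr lf X t.1 t.2.1 t.2.2 := by
    funext X
    rfl
  have hd : ∀ (t : Fin N × Fin N × Fin N), t ∈ trip (Finset.univ : Finset (Fin N)) → ∀ (u : E × E → ℝ),
      ContDiff ℝ ∞ u → ∀ (i : Fin N) (c : Fin 3),
      ContDiff ℝ ∞ (fun X : Fin N → E => tr u X t.1 t.2.1 t.2.2) ∧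
      dv (dir i c) (fun X : Fin N → E => tr u X t.1 t.2.1 t.2.2) =
        (fun X => ∑ m : Fin 3, if sel t m = i then tr (dv (dr m c) u) X t.1 t.2.1 t.2.2 else 0) := by
    intro t ht u hu i c
    obtain ⟨a, b, d⟩ := DUX_.ne_of_mem ht
    exact h1 N u t i c hu a b d
  have hsm : ∀ (t : Fin N × Fin N × Fin N), t ∈ trip (Finset.univ : Finset (Fin N)) → ∀ (u : E × E → ℝ),
      ContDiff ℝ ∞ u → ContDiff ℝ ∞ (fun X : Fin N → E => tr u X t.1 t.2.1 t.2.2) := by
    intro t ht u hu
    exact (hd t ht u hu t.1 0).1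
  have hdU : ∀ (i : Fin N) (c : Fin 3), dv (dir i c) (UU f) = fun X => ∑ t ∈ trip (Finset.univ : Finset (Fin N)),
      ∑ m : Fin 3, if sel t m = i then tr (dv (dr m c) lf) X t.1 t.2.1 t.2.2 else 0 := by
    intro i c
    funext X
    rw [hU, DUX_.dv_sum]
    · refine Finset.sum_congr rfl (fun t ht => ?_)
      rw [(hd t ht lf lfs i c).2]
    · intro t ht
      exact ((hsm t ht lf lfs).differentiable (by simp)).differentiableAt
  refine ⟨?_, ?_, ?_⟩
  · rw [hU]
    exact ContDiff.sum (fun t ht => hsm t ht lf lfs)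
  · intro X i c
    rw [hdU i c]
    simp only
    rw [Finset.mul_sum]
    refine (Finset.abs_sum_le_sum_abs _ _).trans (Finset.sum_le_sum (fun t _ => ?_))
    rw [Finset.mul_sum]
    refine (Finset.abs_sum_le_sum_abs _ _).trans (Finset.sum_le_sum (fun m _ => ?_))
    by_cases hs : sel t m = i
    · simp only [hs, if_true]
      unfold tr
      rw [lfd, abs_mul, abs_of_pos (inv_pos.2 (hpos _))]
      refine mul_le_mul ?_ ?_ (abs_nonneg _) (by norm_num)
      · rw [inv_le_comm₀ (hpos _) (by norm_num)]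
        have := hf.half_le (X t.1 - X t.2.1, X t.1 - X t.2.2)
        linarith
      · unfold G1
        have e1 : |dv (dr m c) f (X t.1 - X t.2.1, X t.1 - X t.2.2)| ≤
            ∑ c' : Fin 3, |dv (dr m c') f (X t.1 - X t.2.1, X t.1 - X t.2.2)| :=
          Finset.single_le_sum (f := fun c' : Fin 3 => |dv (dr m c') f (X t.1 - X t.2.1, X t.1 - X t.2.2)|)
            (fun _ _ => abs_nonneg _) (Finset.mem_univ c)
        refine e1.trans ?_
        exact Finset.single_le_sum
          (f := fun m' : Fin 3 => ∑ c' : Fin 3, |dv (dr m' c') f (X t.1 - X t.2.1, X t.1 - X t.2.2)|)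
          (fun _ _ => Finset.sum_nonneg (fun _ _ => abs_nonneg _)) (Finset.mem_univ m)
    · simp [hs]
  · intro X
    have hdd : ∀ (i : Fin N) (c : Fin 3), dv (dir i c) (dv (dir i c) (UU f)) X =
        ∑ t ∈ trip (Finset.univ : Finset (Fin N)), ∑ m : Fin 3,
          if sel t m = i then tr (dv (dr m c) (dv (dr m c) lf)) X t.1 t.2.1 t.2.2 else 0 := by
      intro i c
      rw [hdU i c, DUX_.dv_sum]
      · refine Finset.sum_congr rfl (fun t ht => ?_)
        rw [DUX_.dv_sum]
        · refine Finset.sum_congr rfl (fun m _ => ?_)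
          rw [DUX_.dv_ite]
          by_cases hs : sel t m = i
          · simp only [hs, if_true]
            rw [(hd t ht (dv (dr m c) lf) (DUX_.contDiff_dv _ _ lfs) i c).2]
            simp only
            rw [Finset.sum_eq_single m]
            · simp [hs]
            · intro m' _ hm'
              have : sel t m' ≠ i := by
                intro h
                obtain ⟨a, b, d⟩ := DUX_.ne_of_mem ht
                exact hm' (DUX_.sel_inj a b d (h.trans hs.symm))
              simp [this]
            · intro h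
              exact absurd (Finset.mem_univ _) h
          · simp [hs]
        · intro m _
          by_cases hs : sel t m = i
          · simp only [hs, if_true]
            exact ((hsm t ht _ (DUX_.contDiff_dv _ _ lfs)).differentiable (by simp)).differentiableAt
          · simp [hs]
      · intro t ht
        refine DifferentiableAt.fun_sum (fun m _ => ?_)
        by_cases hs : sel t m = i
        · simp only [hs, if_true]
          exact ((hsm t ht _ (DUX_.contDiff_dv _ _ lfs)).differentiable (by simp)).differentiableAt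
        · simp [hs]
    simp only [hdd]
    have swap : ∑ i : Fin N, ∑ c : Fin 3, ∑ t ∈ trip (Finset.univ : Finset (Fin N)), ∑ m : Fin 3,
          (if sel t m = i then tr (dv (dr m c) (dv (dr m c) lf)) X t.1 t.2.1 t.2.2 else 0) =
        ∑ t ∈ trip (Finset.univ : Finset (Fin N)), ∑ m : Fin 3, ∑ c : Fin 3, ∑ i : Fin N,
          (if sel t m = i then tr (dv (dr m c) (dv (dr m c) lf)) X t.1 t.2.1 t.2.2 else 0) := by
      rw [Finset.sum_comm' (s' := fun _ => (Finset.univ : Finset (Fin N))) (t' := (Finset.univ : Finset (Fin 3)))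
        (by simp)]
      rw [Finset.sum_congr rfl (fun c _ => Finset.sum_comm)]
      rw [Finset.sum_comm]
      refine Finset.sum_congr rfl (fun t _ => ?_)
      rw [Finset.sum_congr rfl (fun c _ => Finset.sum_comm)]
      rw [Finset.sum_comm]
    rw [swap]
    refine Finset.sum_congr rfl (fun t _ => ?_)
    unfold tr Lap
    refine Finset.sum_congr rfl (fun m _ => ?_)
    refine Finset.sum_congr rfl (fun c _ => ?_)
    exact DUX_.one_sel _ _

end Pool.Agent.TBG
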