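import Pool.Agent.TBG.Stmts

/-!
# Three-body Bose gases (MP_80dc41_mp), module EFL
-/

set_option autoImplicit false

open MeasureTheory Filter Topology
open scoped ContDiff ENNReal

namespace Pool.Agent.TBG

namespace EFL_

theorem bdd_CN {u : E × E → ℝ} (hu : CN u) : ∃ C : ℝ, 0 ≤ C ∧ ∀ z, |u z| ≤ C := by
  obtain ⟨C, hC⟩ := hu.cont.bounded_above_of_compact_support hu.cpt
  refine ⟨C, (norm_nonneg _).trans (hC 0), fun z => ?_⟩
  have := hC z
  rwa [Real.norm_eq_abs] at this

/-- the integral over the second variable -/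
noncomputable def A (a : E × E → ℝ) (x : E) : ℝ := ∫ y, a (x, y)

theorem A_nonneg {a : E × E → ℝ} (ha : CN a) (x : E) : 0 ≤ A a x :=
  integral_nonneg fun _ => ha.nonneg _

theorem A_meas {a : E × E → ℝ} (ha : CN a) : Measurable (A a) :=
  (ha.cont.stronglyMeasurable.integral_prod_right').measurable

open Classical in
/-- the integrand on the triples of points -/
noncomputable def H (χ : E → ℝ) (κ a : E × E → ℝ) (D : Set E) (p : E × E × E) : ℝ :=
  D.indicator (fun _ => (1 : ℝ)) p.1 * κ (p.1 - p.2.1, p.1 - p.2.2) *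
    ((vv χ)⁻¹ * A a (p.1 - p.2.1))

theorem H_meas {χ : E → ℝ} {κ a : E × E → ℝ} {D : Set E} (hκ : CN κ) (ha : CN a)
    (hD : MeasurableSet D) : Measurable (H χ κ a D) := by
  unfold H
  have h1 : Measurable fun p : E × E × E => D.indicator (fun _ => (1 : ℝ)) p.1 :=
    (measurable_const.indicator hD).comp measurable_fst
  have h2 : Measurable fun p : E × E × E => κ (p.1 - p.2.1, p.1 - p.2.2) :=
    (hκ.cont.comp (by fun_prop)).measurable
  have h3 : Measurable fun p : E × E × E => A a (p.1 - p.2.1) :=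
    (A_meas ha).comp (by fun_prop)
  exact (h1.mul h2).mul (measurable_const.mul h3)

theorem H_nonneg {L : ℝ} {χ : E → ℝ} {κ a : E × E → ℝ} {D : Set E} (hχ : Cut L χ) (hκ : CN κ)
    (ha : CN a) (p : E × E × E) : 0 ≤ H χ κ a D p := by
  unfold H
  have h0 : 0 ≤ (vv χ)⁻¹ := inv_nonneg.2 hχ.pos.le
  refine mul_nonneg (mul_nonneg (Set.indicator_nonneg (fun _ _ => zero_le_one) _) (hκ.nonneg _))
    (mul_nonneg h0 (A_nonneg ha _))

theorem lint_nu {L : ℝ} {χ : E → ℝ} (hχ : Cut L χ) (F : E → ℝ≥0∞) (hF : Measurable F) :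
    ∫⁻ x, F x ∂(nu χ) = ∫⁻ x, ENNReal.ofReal (χ x ^ 2 / vv χ) * F x := by
  unfold nu
  rw [lintegral_withDensity_eq_lintegral_mul _ _ hF]
  · rfl
  · have : Continuous χ := hχ.smooth.continuous
    exact (((this.pow 2).div_const _).measurable).ennreal_ofReal

theorem w_ne_top (χ : E → ℝ) (x : E) : ENNReal.ofReal (χ x ^ 2 / vv χ) ≠ ⊤ := ENNReal.ofReal_ne_top

theorem main_lint {L : ℝ} {χ : E → ℝ} {κ a : E × E → ℝ} {R : ℝ} {D : Set E} (hχ : Cut L χ)
    (hκ : CN κ) (ha : CN a) (hD : MeasurableSet D) (hκR : ∀ z, κ z ≠ 0 → ‖z‖ ≤ R)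
    (hD1 : ∀ x ∈ D, ∀ y, ‖y - x‖ ≤ R → χ y = 1) [IsProbabilityMeasure (nu χ)] :
    ∫⁻ p, ENNReal.ofReal (H χ κ a D p) ∂((nu χ).prod ((nu χ).prod (nu χ))) =
      ENNReal.ofReal ((vv χ)⁻¹) ^ 3 *
        (volume D * ∫⁻ z : E × E, ENNReal.ofReal (κ z * ((vv χ)⁻¹ * A a z.1))) := by
  have hHm : Measurable fun p => ENNReal.ofReal (H χ κ a D p) := (H_meas hκ ha hD).ennreal_ofReal
  have hΨm : Measurable fun z : E × E => ENNReal.ofReal (κ z * ((vv χ)⁻¹ * A a z.1)) :=
    (hκ.cont.measurable.mul (measurable_const.mul ((A_meas ha).comp measurable_fst))).ennreal_ofReal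
  have e1 : ∫⁻ p, ENNReal.ofReal (H χ κ a D p) ∂((nu χ).prod ((nu χ).prod (nu χ))) =
      ∫⁻ x, ∫⁻ y, ∫⁻ z, ENNReal.ofReal (H χ κ a D (x, y, z)) ∂(nu χ) ∂(nu χ) ∂(nu χ) := by
    rw [lintegral_prod _ hHm.aemeasurable]
    refine lintegral_congr fun x => ?_
    have hx : Measurable fun q : E × E => ENNReal.ofReal (H χ κ a D (x, q)) :=
      hHm.comp measurable_prodMk_left
    rw [lintegral_prod _ hx.aemeasurable]
  have hm3 : ∀ x y, Measurable fun z => ENNReal.ofReal (H χ κ a D (x, y, z)) := fun x y =>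
    hHm.comp (by fun_prop)
  have hm2 : ∀ x, Measurable fun y => ∫⁻ z, ENNReal.ofReal (H χ κ a D (x, y, z)) ∂(nu χ) := fun x =>
    Measurable.lintegral_prod_right' (f := fun q : E × E => ENNReal.ofReal (H χ κ a D (x, q.1, q.2)))
      (hHm.comp (by fun_prop))
  have hm1 : Measurable fun x => ∫⁻ y, ∫⁻ z, ENNReal.ofReal (H χ κ a D (x, y, z)) ∂(nu χ) ∂(nu χ) := by
    refine Measurable.lintegral_prod_right' (f := fun q : E × E =>
      ∫⁻ z, ENNReal.ofReal (H χ κ a D (q.1, q.2, z)) ∂(nu χ)) ?_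
    exact Measurable.lintegral_prod_right' (f := fun q : (E × E) × E =>
      ENNReal.ofReal (H χ κ a D (q.1.1, q.1.2, q.2))) (hHm.comp (by fun_prop))
  rw [e1, lint_nu hχ _ hm1]
  have e2 : ∀ x, ENNReal.ofReal (χ x ^ 2 / vv χ) *
      ∫⁻ y, ∫⁻ z, ENNReal.ofReal (H χ κ a D (x, y, z)) ∂(nu χ) ∂(nu χ) =
      D.indicator (fun _ => ENNReal.ofReal ((vv χ)⁻¹) ^ 3 *
        ∫⁻ z : E × E, ENNReal.ofReal (κ z * ((vv χ)⁻¹ * A a z.1))) x := by
    intro x
    rw [lint_nu hχ _ (hm2 x), ← lintegral_const_mul' _ _ (w_ne_top χ x)]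
    have e3 : ∀ y, ENNReal.ofReal (χ x ^ 2 / vv χ) * (ENNReal.ofReal (χ y ^ 2 / vv χ) *
        ∫⁻ z, ENNReal.ofReal (H χ κ a D (x, y, z)) ∂(nu χ)) =
        ∫⁻ z, ENNReal.ofReal ((vv χ)⁻¹) ^ 3 * ENNReal.ofReal (H χ κ a D (x, y, z)) := by
      intro y
      rw [lint_nu hχ _ (hm3 x y), ← lintegral_const_mul' _ _ (w_ne_top χ y),
        ← lintegral_const_mul' _ _ (w_ne_top χ x)]
      refine lintegral_congr fun z => ?_
      by_cases h0 : H χ κ a D (x, y, z) = 0
      · rw [h0]; simp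
      · have hx : x ∈ D := by
          by_contra hx
          apply h0
          simp [H, hx]
        have hk : κ (x - y, x - z) ≠ 0 := by
          intro hk
          apply h0
          simp [H, hk]
        have hn := hκR _ hk
        have hn1 : ‖x - y‖ ≤ R := (norm_fst_le (x - y, x - z)).trans hn
        have hn2 : ‖x - z‖ ≤ R := (norm_snd_le (x - y, x - z)).trans hn
        have hR : 0 ≤ R := (norm_nonneg _).trans hn1
        have hy1 : χ y = 1 := hD1 x hx y (by rw [norm_sub_rev]; exact hn1)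
        have hz1 : χ z = 1 := hD1 x hx z (by rw [norm_sub_rev]; exact hn2)
        have hx1 : χ x = 1 := hD1 x hx x (by simpa using hR)
        rw [hx1, hy1, hz1, one_pow, one_div]
        ring
    rw [lintegral_congr e3]
    have hc3 : ENNReal.ofReal ((vv χ)⁻¹) ^ 3 ≠ ⊤ := ENNReal.pow_ne_top ENNReal.ofReal_ne_top
    have e4 : ∀ y, ∫⁻ z, ENNReal.ofReal ((vv χ)⁻¹) ^ 3 * ENNReal.ofReal (H χ κ a D (x, y, z)) =
        ENNReal.ofReal ((vv χ)⁻¹) ^ 3 * ∫⁻ z, ENNReal.ofReal (H χ κ a D (x, y, z)) := fun y =>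
      lintegral_const_mul' _ _ hc3
    rw [lintegral_congr e4, lintegral_const_mul' _ _ hc3]
    by_cases hx : x ∈ D
    · rw [Set.indicator_of_mem hx]
      congr 1
      have e5 : ∀ y, ∫⁻ z, ENNReal.ofReal (H χ κ a D (x, y, z)) =
          ∫⁻ v, ENNReal.ofReal (κ (x - y, v) * ((vv χ)⁻¹ * A a (x - y))) := by
        intro y
        rw [← lintegral_sub_left_eq_self
          (fun v => ENNReal.ofReal (κ (x - y, v) * ((vv χ)⁻¹ * A a (x - y)))) x]
        refine lintegral_congr fun z => ?_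
        simp [H, hx]
      rw [lintegral_congr e5, lintegral_sub_left_eq_self
        (fun u => ∫⁻ v, ENNReal.ofReal (κ (u, v) * ((vv χ)⁻¹ * A a u))) x,
        Measure.volume_eq_prod, lintegral_prod _ hΨm.aemeasurable]
    · rw [Set.indicator_of_notMem hx]
      have e6 : ∀ y, ∫⁻ z, ENNReal.ofReal (H χ κ a D (x, y, z)) = 0 := by
        intro y
        have : ∀ z, ENNReal.ofReal (H χ κ a D (x, y, z)) = 0 := by
          intro z
          simp [H, hx]
        rw [lintegral_congr this]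
        simp
      rw [lintegral_congr e6]
      simp
  rw [lintegral_congr e2, lintegral_indicator_const hD]
  ring

end EFL_

open EFL_ in
theorem efl_proof (h1 : Stmt_CFD) (h2 : Stmt_OUT) (h3 : Stmt_LAW) : Stmt_EFL := by
  intro N L χ κ a R D i j k l hχ hκ ha hD hDf hκR haR hD1 hnd
  obtain ⟨hP, hI, -⟩ := h1 L χ hχ
  have hPP : IsProbabilityMeasure (PP χ N) := by
    unfold PP
    infer_instance
  simp only [List.nodup_cons, List.mem_cons, List.not_mem_nil, or_false, not_or,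
    List.nodup_nil, and_true, not_false_eq_true] at hnd
  obtain ⟨⟨hij, hik, hil⟩, ⟨hjk, hjl⟩, hkl⟩ := hnd
  obtain ⟨Cκ, hCκ0, hCκ⟩ := bdd_CN hκ
  obtain ⟨Ca, hCa0, hCa⟩ := bdd_CN ha
  set G : (Fin N → E) → E → ℝ := fun X y =>
    D.indicator (fun _ => (1 : ℝ)) (X i) * κ (X i - X j, X i - X k) * a (X i - X j, X i - y) with hG
  have hind : ∀ x : E, 0 ≤ D.indicator (fun _ => (1 : ℝ)) x ∧
      D.indicator (fun _ => (1 : ℝ)) x ≤ 1 := fun x => by
    by_cases hx : x ∈ D <;> simp [hx]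
  have hGm : Measurable fun q : (Fin N → E) × E => G q.1 q.2 := by
    have m1 : Measurable fun q : (Fin N → E) × E => D.indicator (fun _ => (1 : ℝ)) (q.1 i) :=
      (measurable_const.indicator hD).comp (by fun_prop)
    have m2 : Measurable fun q : (Fin N → E) × E => κ (q.1 i - q.1 j, q.1 i - q.1 k) :=
      (hκ.cont.comp (by fun_prop)).measurable
    have m3 : Measurable fun q : (Fin N → E) × E => a (q.1 i - q.1 j, q.1 i - q.2) :=
      (ha.cont.comp (by fun_prop)).measurable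
    exact (m1.mul m2).mul m3
  have hGb : ∃ C : ℝ, ∀ X y, |G X y| ≤ C := by
    refine ⟨1 * Cκ * Ca, fun X y => ?_⟩
    simp only [hG, abs_mul]
    have : |D.indicator (fun _ => (1 : ℝ)) (X i)| ≤ 1 := by
      rw [abs_of_nonneg (hind _).1]
      exact (hind _).2
    gcongr
    · exact hCκ _
    · exact hCa _
  have hGd : ∀ (X Y : Fin N → E) (y : E), (∀ i' ∈ ({i, j, k} : Finset (Fin N)), X i' = Y i') →
      G X y = G Y y := by
    intro X Y y h
    simp only [hG]
    rw [h i (by simp), h j (by simp), h k (by simp)]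
  have hO := h2 N L χ {i, j, k} l G hχ (by simp [Ne.symm hil, Ne.symm hjl, Ne.symm hkl]) hGm hGb hGd
  -- step 1
  have hint : Integrable (fun X : Fin N → E => tr κ X i j k * tr a X i j l) (PP χ N) := by
    refine Integrable.of_bound (C := Cκ * Ca) ?_ (Eventually.of_forall fun X => ?_)
    · have : Continuous fun X : Fin N → E => tr κ X i j k * tr a X i j l := by
        unfold tr
        exact (hκ.cont.comp (by fun_prop)).mul (ha.cont.comp (by fun_prop))
      exact this.aestronglyMeasurable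
    · rw [norm_mul]
      exact mul_le_mul (hCκ _) (hCa _) (norm_nonneg _) hCκ0
  have s1 : ∫ X, G X (X l) ∂(PP χ N) ≤ ∫ X, tr κ X i j k * tr a X i j l ∂(PP χ N) := by
    refine integral_mono_of_nonneg (Eventually.of_forall fun X => ?_) hint
      (Eventually.of_forall fun X => ?_)
    · exact mul_nonneg (mul_nonneg (hind _).1 (hκ.nonneg _)) (ha.nonneg _)
    · simp only [hG, tr]
      refine mul_le_mul_of_nonneg_right ?_ (ha.nonneg _)
      calc _ ≤ 1 * κ (X i - X j, X i - X k) :=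
            mul_le_mul_of_nonneg_right (hind _).2 (hκ.nonneg _)
        _ = _ := one_mul _
  refine le_trans ?_ s1
  rw [hO]
  -- step 2
  have s2 : ∀ X : Fin N → E, ∫ y, G X y ∂(nu χ) = H χ κ a D (X i, X j, X k) := by
    intro X
    rw [hI]
    by_cases hx : X i ∈ D
    · have e1 : ∀ y, χ y ^ 2 * G X y =
          κ (X i - X j, X i - X k) * a (X i - X j, X i - y) := by
        intro y
        simp only [hG, hx, Set.indicator_of_mem, one_mul]
        by_cases h0 : a (X i - X j, X i - y) = 0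
        · rw [h0]; ring
        · have hn := haR _ h0
          have hn2 : ‖X i - y‖ ≤ R := (norm_snd_le (X i - X j, X i - y)).trans hn
          have hy1 : χ y = 1 := hD1 _ hx y (by rw [norm_sub_rev]; exact hn2)
          rw [hy1]; ring
      simp_rw [e1]
      rw [integral_const_mul, integral_sub_left_eq_self (fun y => a (X i - X j, y)) volume (X i)]
      simp only [H, hx, Set.indicator_of_mem, one_mul, A]
      ring
    · have e1 : ∀ y, χ y ^ 2 * G X y = 0 := by
        intro y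
        simp [hG, hx]
      simp_rw [e1]
      simp [H, hx]
  simp_rw [s2]
  -- step 3
  have hmeas : Measurable fun X : Fin N → E => (X i, X j, X k) := by fun_prop
  have s3 : ∫ X, H χ κ a D (X i, X j, X k) ∂(PP χ N) =
      ∫ p, H χ κ a D p ∂((nu χ).prod ((nu χ).prod (nu χ))) := by
    rw [← (h3 N L χ hχ).2 i j k hij hik hjk, integral_map hmeas.aemeasurable
      (H_meas hκ ha hD).aestronglyMeasurable]
  rw [s3, integral_eq_lintegral_of_nonneg_ae (Eventually.of_forall (H_nonneg hχ hκ ha))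
    (H_meas hκ ha hD).aestronglyMeasurable, main_lint hχ hκ ha hD hκR hD1]
  have hv0 : 0 ≤ (vv χ)⁻¹ := inv_nonneg.2 hχ.pos.le
  have s4 : (∫⁻ z : E × E, ENNReal.ofReal (κ z * ((vv χ)⁻¹ * A a z.1))).toReal =
      (vv χ)⁻¹ * ∫ z : E × E, κ z * ∫ y : E, a (z.1, y) := by
    rw [← integral_eq_lintegral_of_nonneg_ae, ← integral_const_mul]
    · refine integral_congr_ae (Eventually.of_forall fun z => ?_)
      simp only [A]
      ring
    · exact Eventually.of_forall fun z =>
        mul_nonneg (hκ.nonneg _) (mul_nonneg hv0 (A_nonneg ha _))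
    · exact (hκ.cont.measurable.mul
        (measurable_const.mul ((A_meas ha).comp measurable_fst))).aestronglyMeasurable
  rw [ENNReal.toReal_mul, ENNReal.toReal_mul, s4, ENNReal.toReal_pow, ENNReal.toReal_ofReal hv0]
  refine le_of_eq ?_
  ring

end Pool.Agent.TBG
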