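import Pool.Agent.TBG.Stmts

set_option autoImplicit false

open MeasureTheory Filter Topology
open scoped ContDiff

namespace Pool.Agent.TBG

namespace EFU_

lemma bdd {a : E × E → ℝ} (ha : CN a) : ∃ C : ℝ, 0 ≤ C ∧ ∀ z, a z ≤ C := by
  obtain ⟨C, hC⟩ := ha.cpt.exists_bound_of_continuous ha.cont
  refine ⟨C, le_trans (norm_nonneg _) (hC 0), fun z => le_trans (le_abs_self _) ?_⟩
  simpa [Real.norm_eq_abs] using hC z

/-- compact set outside which `y ↦ a (x, y)` vanishes -/
lemma zero_out {a : E × E → ℝ} (x y : E) (hy : y ∉ Prod.snd '' tsupport a) : a (x, y) = 0 := by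
  by_contra h
  exact hy ⟨(x, y), subset_tsupport _ h, rfl⟩

lemma compactK {a : E × E → ℝ} (ha : CN a) : IsCompact (Prod.snd '' tsupport a) :=
  ha.cpt.isCompact.image continuous_snd

lemma cont_slice {a : E × E → ℝ} (ha : CN a) (x : E) : Continuous (fun y => a (x, y)) :=
  ha.cont.comp (continuous_const.prodMk continuous_id)

lemma int_slice {a : E × E → ℝ} (ha : CN a) (x : E) : Integrable (fun y => a (x, y)) :=
  (cont_slice ha x).integrable_of_hasCompactSupport
    (HasCompactSupport.intro (compactK ha) (fun y hy => zero_out x y hy))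

lemma cont_A {a : E × E → ℝ} (ha : CN a) : Continuous (fun x : E => ∫ y : E, a (x, y)) := by
  have h := continuous_parametric_integral_of_continuous (μ := (volume : Measure E))
    (f := fun x y : E => a (x, y)) (show Continuous (fun p : E × E => a (p.1, p.2)) from ha.cont) (compactK ha)
  have e : (fun x : E => ∫ y : E, a (x, y)) = fun x => ∫ y in Prod.snd '' tsupport a, a (x, y) := by
    funext x
    rw [setIntegral_eq_integral_of_forall_compl_eq_zero (fun y hy => zero_out x y hy)]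
  rw [e]
  exact h

lemma A_nonneg {a : E × E → ℝ} (ha : CN a) (x : E) : 0 ≤ ∫ y : E, a (x, y) :=
  integral_nonneg (fun _ => ha.nonneg _)

lemma vv_pos {L : ℝ} {χ : E → ℝ} (hχ : Cut L χ) : 0 < vv χ := hχ.pos

/-- integrating one variable out against `ν` -/
lemma out_le (h1 : Stmt_CFD) {L : ℝ} {χ : E → ℝ} (hχ : Cut L χ) {a : E × E → ℝ} (ha : CN a) (x c : E) :
    ∫ y, a (x, c - y) ∂(nu χ) ≤ (vv χ)⁻¹ * ∫ y : E, a (x, y) := by
  rw [(h1 L χ hχ).2.1]
  refine mul_le_mul_of_nonneg_left ?_ (inv_nonneg.2 (vv_pos hχ).le)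
  have e : ∫ y : E, a (x, y) = ∫ y : E, a (x, c - y) := by
    rw [integral_sub_left_eq_self (fun y => a (x, y)) volume c]
  rw [e]
  refine integral_mono_of_nonneg (Eventually.of_forall fun y => mul_nonneg (sq_nonneg _) (ha.nonneg _))
    ((int_slice ha x).comp_sub_left c) (Eventually.of_forall fun y => ?_)
  have : χ y ^ 2 ≤ 1 := pow_le_one₀ (hχ.nonneg y) (hχ.le_one y)
  have h0 := ha.nonneg (x, c - y)
  simp only
  nlinarith

lemma nu_nonneg {χ : E → ℝ} {a : E × E → ℝ} (ha : CN a) (x c : E) :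
    0 ≤ ∫ y, a (x, c - y) ∂(nu χ) := integral_nonneg (fun _ => ha.nonneg _)

end EFU_

open EFU_ in
theorem efu_proof (h1 : Stmt_CFD) (h2 : Stmt_OUT) (_h3 : Stmt_LAW) (h4 : Stmt_ETW) : Stmt_EFU := by
  intro N L χ κ a i j k l m hχ hκ ha hnd
  obtain ⟨Cκ, hCκ0, hCκ⟩ := bdd hκ
  obtain ⟨Ca, hCa0, hCa⟩ := bdd ha
  have hprob : IsProbabilityMeasure (nu χ) := (h1 L χ hχ).1
  have : IsProbabilityMeasure (PP χ N) := by unfold PP; infer_instance
  have hv := vv_pos hχ
  simp only [List.nodup_cons, List.mem_cons, List.not_mem_nil, or_false, not_or, List.nodup_nil,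
    and_true, not_false_eq_true] at hnd
  obtain ⟨⟨hij, hik, hil, him⟩, ⟨hjk, hjl, hjm⟩, ⟨hkl, hkm⟩, hlm⟩ := hnd
  set A : E → ℝ := fun x => ∫ y : E, a (x, y) with hA
  have hAc : Continuous A := cont_A ha
  have hA0 : ∀ x, 0 ≤ A x := A_nonneg ha
  -- continuity of the basic functions
  have ctr : ∀ (u : E × E → ℝ), Continuous u → ∀ p q r : Fin N, Continuous (fun X : Fin N → E => tr u X p q r) := by
    intro u hu p q r
    unfold tr
    fun_prop
  -- the function with A^2
  have hu : CN (fun z : E × E => κ z * A z.1 ^ 2) :=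
    ⟨hκ.cont.mul ((hAc.comp continuous_fst).pow 2), hκ.cpt.mul_right,
      fun z => mul_nonneg (hκ.nonneg z) (sq_nonneg _)⟩
  -- bound of A on the support: the function κ * A is bounded
  have hκA : CN (fun z : E × E => κ z * A z.1) :=
    ⟨hκ.cont.mul (hAc.comp continuous_fst), hκ.cpt.mul_right, fun z => mul_nonneg (hκ.nonneg z) (hA0 _)⟩
  obtain ⟨C1, hC10, hC1⟩ := bdd hκA
  obtain ⟨C2, hC20, hC2⟩ := bdd hu
  -- Step 1
  have s1 : ∫ X, tr κ X i j k * tr a X i j l * tr a X i j m ∂(PP χ N) ≤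
      ∫ X, (vv χ)⁻¹ * tr (fun z : E × E => κ z * A z.1) X i j k * tr a X i j l ∂(PP χ N) := by
    have o := h2 N L χ {i, j, k, l} m
      (fun X y => tr κ X i j k * tr a X i j l * a (X i - X j, X i - y)) hχ
      (by simp only [Finset.mem_insert, Finset.mem_singleton, not_or]
          exact ⟨fun h => him h.symm, fun h => hjm h.symm, fun h => hkm h.symm, fun h => hlm h.symm⟩)
      (by
        apply Continuous.measurable
        have c1 := (ctr κ hκ.cont i j k).comp (continuous_fst : Continuous (Prod.fst : (Fin N → E) × E → _))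
        have c2 := (ctr a ha.cont i j l).comp (continuous_fst : Continuous (Prod.fst : (Fin N → E) × E → _))
        refine (c1.mul c2).mul (ha.cont.comp ?_)
        fun_prop)
      ⟨Cκ * Ca * Ca, fun X y => by
        have p1 : 0 ≤ tr κ X i j k := hκ.nonneg _
        have p2 : 0 ≤ tr a X i j l := ha.nonneg _
        have p3 : 0 ≤ a (X i - X j, X i - y) := ha.nonneg _
        rw [abs_of_nonneg (mul_nonneg (mul_nonneg p1 p2) p3)]
        exact mul_le_mul (mul_le_mul (hCκ _) (hCa _) p2 hCκ0) (hCa _) p3 (mul_nonneg hCκ0 hCa0)⟩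
      (by
        intro X Y y h
        simp only [tr]
        rw [h i (by simp), h j (by simp), h k (by simp), h l (by simp)])
    have o' : ∫ X, tr κ X i j k * tr a X i j l * tr a X i j m ∂(PP χ N) =
        ∫ X, (∫ y, tr κ X i j k * tr a X i j l * a (X i - X j, X i - y) ∂(nu χ)) ∂(PP χ N) := o
    rw [o']
    refine integral_mono_of_nonneg (Eventually.of_forall fun X => integral_nonneg fun y =>
      mul_nonneg (mul_nonneg (hκ.nonneg _) (ha.nonneg _)) (ha.nonneg _)) ?_ (Eventually.of_forall fun X => ?_)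
    · refine Integrable.of_bound (C := (vv χ)⁻¹ * C1 * Ca) (Continuous.aestronglyMeasurable ?_)
        (Eventually.of_forall fun X => ?_)
      · exact (continuous_const.mul (ctr _ hκA.cont i j k)).mul (ctr a ha.cont i j l)
      · have p1 : 0 ≤ tr (fun z : E × E => κ z * A z.1) X i j k := hκA.nonneg _
        have p2 : 0 ≤ tr a X i j l := ha.nonneg _
        have p3 : 0 ≤ (vv χ)⁻¹ := (inv_pos.2 hv).le
        rw [Real.norm_eq_abs, abs_of_nonneg (mul_nonneg (mul_nonneg p3 p1) p2)]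
        exact mul_le_mul (mul_le_mul_of_nonneg_left (hC1 _) p3) (hCa _) p2 (mul_nonneg p3 hC10)
    · simp only
      rw [integral_const_mul]
      have b := out_le h1 hχ ha (X i - X j) (X i)
      have p1 : 0 ≤ tr κ X i j k := hκ.nonneg _
      have p2 : 0 ≤ tr a X i j l := ha.nonneg _
      calc tr κ X i j k * tr a X i j l * ∫ y, a (X i - X j, X i - y) ∂(nu χ)
          ≤ tr κ X i j k * tr a X i j l * ((vv χ)⁻¹ * A (X i - X j)) :=
            mul_le_mul_of_nonneg_left b (mul_nonneg p1 p2)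
        _ = (vv χ)⁻¹ * tr (fun z : E × E => κ z * A z.1) X i j k * tr a X i j l := by
            simp only [tr]; ring
  -- Step 2
  have s2 : ∫ X, (vv χ)⁻¹ * tr (fun z : E × E => κ z * A z.1) X i j k * tr a X i j l ∂(PP χ N) ≤
      ∫ X, (vv χ)⁻¹ ^ 2 * tr (fun z : E × E => κ z * A z.1 ^ 2) X i j k ∂(PP χ N) := by
    have o := h2 N L χ {i, j, k} l
      (fun X y => (vv χ)⁻¹ * tr (fun z : E × E => κ z * A z.1) X i j k * a (X i - X j, X i - y)) hχ
      (by simp only [Finset.mem_insert, Finset.mem_singleton, not_or]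
          exact ⟨fun h => hil h.symm, fun h => hjl h.symm, fun h => hkl h.symm⟩)
      (by
        apply Continuous.measurable
        have c1 := (ctr _ hκA.cont i j k).comp (continuous_fst : Continuous (Prod.fst : (Fin N → E) × E → _))
        refine (continuous_const.mul c1).mul (ha.cont.comp ?_)
        fun_prop)
      ⟨(vv χ)⁻¹ * C1 * Ca, fun X y => by
        have p1 : 0 ≤ tr (fun z : E × E => κ z * A z.1) X i j k := hκA.nonneg _
        have p2 : 0 ≤ a (X i - X j, X i - y) := ha.nonneg _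
        have p3 : 0 ≤ (vv χ)⁻¹ := (inv_pos.2 hv).le
        rw [abs_of_nonneg (mul_nonneg (mul_nonneg p3 p1) p2)]
        exact mul_le_mul (mul_le_mul_of_nonneg_left (hC1 _) p3) (hCa _) p2 (mul_nonneg p3 hC10)⟩
      (by
        intro X Y y h
        simp only [tr]
        rw [h i (by simp), h j (by simp), h k (by simp)])
    have o' : ∫ X, (vv χ)⁻¹ * tr (fun z : E × E => κ z * A z.1) X i j k * tr a X i j l ∂(PP χ N) =
        ∫ X, (∫ y, (vv χ)⁻¹ * tr (fun z : E × E => κ z * A z.1) X i j k * a (X i - X j, X i - y) ∂(nu χ))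
          ∂(PP χ N) := o
    rw [o']
    refine integral_mono_of_nonneg (Eventually.of_forall fun X => integral_nonneg fun y =>
      mul_nonneg (mul_nonneg (inv_pos.2 hv).le (hκA.nonneg _)) (ha.nonneg _)) ?_
      (Eventually.of_forall fun X => ?_)
    · refine Integrable.of_bound (C := (vv χ)⁻¹ ^ 2 * C2) (Continuous.aestronglyMeasurable ?_)
        (Eventually.of_forall fun X => ?_)
      · exact continuous_const.mul (ctr _ hu.cont i j k)
      · have p1 : 0 ≤ tr (fun z : E × E => κ z * A z.1 ^ 2) X i j k := hu.nonneg _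
        have p3 : 0 ≤ (vv χ)⁻¹ ^ 2 := sq_nonneg _
        rw [Real.norm_eq_abs, abs_of_nonneg (mul_nonneg p3 p1)]
        exact mul_le_mul_of_nonneg_left (hC2 _) p3
    · simp only
      rw [integral_const_mul]
      have b := out_le h1 hχ ha (X i - X j) (X i)
      have p1 : 0 ≤ tr (fun z : E × E => κ z * A z.1) X i j k := hκA.nonneg _
      have p3 : 0 ≤ (vv χ)⁻¹ := (inv_pos.2 hv).le
      calc (vv χ)⁻¹ * tr (fun z : E × E => κ z * A z.1) X i j k * ∫ y, a (X i - X j, X i - y) ∂(nu χ)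
          ≤ (vv χ)⁻¹ * tr (fun z : E × E => κ z * A z.1) X i j k * ((vv χ)⁻¹ * A (X i - X j)) :=
            mul_le_mul_of_nonneg_left b (mul_nonneg p3 p1)
        _ = (vv χ)⁻¹ ^ 2 * tr (fun z : E × E => κ z * A z.1 ^ 2) X i j k := by
            simp only [tr]; ring
  -- Step 3
  have s3 : ∫ X, tr (fun z : E × E => κ z * A z.1 ^ 2) X i j k ∂(PP χ N) ≤
      (vv χ)⁻¹ ^ 2 * ∫ z : E × E, κ z * A z.1 ^ 2 := by
    have e := (h4 N L χ (fun z : E × E => κ z * A z.1 ^ 2) (fun _ => 1) i j k i hχ hu (fun _ => zero_le_one)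
      measurable_const (integrable_const _) hij hik hjk (Or.inl rfl)).2
    simpa using e
  calc ∫ X, tr κ X i j k * tr a X i j l * tr a X i j m ∂(PP χ N)
      ≤ ∫ X, (vv χ)⁻¹ ^ 2 * tr (fun z : E × E => κ z * A z.1 ^ 2) X i j k ∂(PP χ N) := s1.trans s2
    _ = (vv χ)⁻¹ ^ 2 * ∫ X, tr (fun z : E × E => κ z * A z.1 ^ 2) X i j k ∂(PP χ N) := by
        rw [integral_const_mul]
    _ ≤ (vv χ)⁻¹ ^ 2 * ((vv χ)⁻¹ ^ 2 * ∫ z : E × E, κ z * A z.1 ^ 2) :=
        mul_le_mul_of_nonneg_left s3 (sq_nonneg _)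
    _ = (vv χ)⁻¹ ^ 4 * ∫ z : E × E, κ z * (∫ y : E, a (z.1, y)) ^ 2 := by
        simp only [hA]; ring

end Pool.Agent.TBG
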