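import Pool.Agent.TBG.Stmts

/-!
# TBG, module ENG: the energy of the trial function
-/

set_option autoImplicit false

open MeasureTheory Filter Topology
open scoped ContDiff

namespace Pool.Agent.TBG

namespace ENG_

theorem pot_eq {N : ℕ} (V : E → E → ℝ) (X : Fin N → E) :
    pot V X = ∑ t ∈ trip (Finset.univ : Finset (Fin N)), tr (fun z => V z.1 z.2) X t.1 t.2.1 t.2.2 := by
  unfold pot trip tr
  rw [Finset.sum_filter, Finset.sum_product]
  refine Finset.sum_congr rfl fun i _ => ?_
  rw [Finset.sum_product]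

theorem cont_pot {N : ℕ} (V : E → E → ℝ) (hV : Continuous (fun z : E × E => V z.1 z.2)) :
    Continuous (fun X : Fin N → E => pot V X) := by
  have h1 : (fun X : Fin N → E => pot V X) =
      fun X => ∑ t ∈ trip (Finset.univ : Finset (Fin N)), tr (fun z => V z.1 z.2) X t.1 t.2.1 t.2.2 := by
    funext X
    exact pot_eq V X
  rw [h1]
  refine continuous_finsetSum _ fun t _ => ?_
  have h2 : Continuous (fun X : Fin N → E => ((X t.1 - X t.2.1, X t.1 - X t.2.2) : E × E)) := by
    fun_prop
  exact hV.comp h2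

theorem cont_dv {W : Type} [NormedAddCommGroup W] [NormedSpace ℝ W] (v : W) (f : W → ℝ)
    (hf : ContDiff ℝ ∞ f) : Continuous (dv v f) := by
  unfold dv
  have h1 : Continuous (fderiv ℝ f) := hf.continuous_fderiv (by simp)
  exact h1.clm_apply continuous_const

theorem smooth_dv {W : Type} [NormedAddCommGroup W] [NormedSpace ℝ W] (v : W) (f : W → ℝ)
    (hf : ContDiff ℝ ∞ f) : ContDiff ℝ ∞ (dv v f) := by
  unfold dv
  have h1 : ContDiff ℝ ∞ (fderiv ℝ f) := hf.fderiv_right (by simp)
  exact h1.clm_apply contDiff_const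

theorem dv_zero {W : Type} [NormedAddCommGroup W] [NormedSpace ℝ W] (v : W) (f : W → ℝ) (x : W)
    (hx : x ∉ tsupport f) : dv v f x = 0 := by
  unfold dv
  have h1 : fderiv ℝ f x = 0 := by
    by_contra h
    exact hx (support_fderiv_subset ℝ (Function.mem_support.2 h))
  rw [h1]
  rfl

theorem integ {W : Type} [NormedAddCommGroup W] [NormedSpace ℝ W] [FiniteDimensional ℝ W]
    [MeasurableSpace W] [BorelSpace W] (μ : Measure W) [μ.IsAddHaarMeasure] (C g : W → ℝ)
    (hC : HasCompactSupport C) (hg : Continuous g) (h0 : ∀ x, x ∉ tsupport C → g x = 0) :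
    Integrable g μ :=
  hg.integrable_of_hasCompactSupport (HasCompactSupport.intro hC h0)

end ENG_

open ENG_ in
theorem eng_proof (hIMS : Stmt_IMS) (hDUX : Stmt_DUX) (hDCC : Stmt_DCC) (hKAF : Stmt_KAF)
    (hFTB : Stmt_FTB) : Stmt_ENG := by
  intro N L χ f V hN hχ hf
  obtain ⟨hC1, hC2, hC3, hC4⟩ := hDCC N L χ hχ hN
  obtain ⟨hU1, -, hU3⟩ := hDUX N f hf.jas
  obtain ⟨-, -, -, hF4⟩ := hFTB N f hf.jas
  obtain ⟨-, -, -, -, -, -, -, -, hK⟩ := hKAF f V hf
  set C : (Fin N → E) → ℝ := CC χ with hCdef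
  set U : (Fin N → E) → ℝ := UU f with hUdef
  have hCz : ∀ x, x ∉ tsupport C → C x = 0 := fun x hx => image_eq_zero_of_notMem_tsupport hx
  have hDCz : ∀ v x, x ∉ tsupport C → dv v C x = 0 := fun v x hx => dv_zero v C x hx
  have hCc : Continuous C := hC1.continuous
  have hUc : Continuous U := hU1.continuous
  have hPsi : Psi0 (N := N) χ f = fun X => C X * Real.exp (U X) := by
    funext X
    rfl
  -- the pieces
  set h : Fin N → Fin 3 → (Fin N → E) → ℝ := fun i c X => Real.exp (2 * U X) *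
    ((dv (dir i c) C X) ^ 2 + C X * dv (dir i c) C X * dv (dir i c) U X
      - 1 / 2 * C X ^ 2 * dv (dir i c) (dv (dir i c) U) X) with hh
  have hPs : ContDiff ℝ ∞ (fun X => C X * Real.exp (U X)) := hC1.mul hU1.exp
  have hsupp : ∀ x, x ∉ tsupport C → x ∉ tsupport (fun X => C X * Real.exp (U X)) := by
    intro x hx hx'
    exact hx (closure_mono (Function.support_mul_subset_left _ _) hx')
  have hA : ∀ i c, Integrable (fun X => (dv (dir i c) (fun X => C X * Real.exp (U X)) X) ^ 2)
      (volume : Measure (Fin N → E)) := by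
    intro i c
    refine integ volume C _ hC2 ((cont_dv _ _ hPs).pow 2) fun x hx => ?_
    simp only [dv_zero _ _ x (hsupp x hx)]
    norm_num
  have hB : Integrable (fun X => pot V X * (C X * Real.exp (U X)) ^ 2)
      (volume : Measure (Fin N → E)) := by
    refine integ volume C _ hC2 ((cont_pot V hf.cont).mul (hPs.continuous.pow 2)) fun x hx => ?_
    simp only [hCz x hx]
    ring
  have hH : ∀ i c, Integrable (h i c) (volume : Measure (Fin N → E)) := by
    intro i c
    refine integ volume C _ hC2 ?_ fun x hx => ?_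
    · have e1 : Continuous (dv (dir i c) C) := cont_dv _ _ hC1
      have e2 : Continuous (dv (dir i c) U) := cont_dv _ _ hU1
      have e3 : Continuous (dv (dir i c) (dv (dir i c) U)) := cont_dv _ _ (smooth_dv _ _ hU1)
      simp only [hh]
      fun_prop
    · simp only [hh, hCz x hx, hDCz _ x hx]
      ring
  have e1 : enR V (Psi0 (N := N) χ f) = (∑ i, ∑ c, ∫ X, h i c X) +
      ∫ X, pot V X * (C X * Real.exp (U X)) ^ 2 := by
    unfold enR
    rw [hPsi]
    rw [integral_add (integrable_finsetSum _ fun i _ => integrable_finsetSum _ fun c _ => hA i c) hB]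
    congr 1
    rw [integral_finsetSum _ fun i _ => integrable_finsetSum _ fun c _ => hA i c]
    refine Finset.sum_congr rfl fun i _ => ?_
    rw [integral_finsetSum _ fun c _ => hA i c]
    refine Finset.sum_congr rfl fun c _ => ?_
    exact hIMS (Fin N → E) volume C U (dir i c) hC1 hU1 hC2
  have e2 : (∑ i, ∑ c, ∫ X, h i c X) + ∫ X, pot V X * (C X * Real.exp (U X)) ^ 2 =
      ∫ X, ((∑ i, ∑ c, h i c X) + pot V X * (C X * Real.exp (U X)) ^ 2) := by
    rw [integral_add (integrable_finsetSum _ fun i _ => integrable_finsetSum _ fun c _ => hH i c) hB]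
    congr 1
    rw [integral_finsetSum _ fun i _ => integrable_finsetSum _ fun c _ => hH i c]
    refine Finset.sum_congr rfl fun i _ => ?_
    rw [integral_finsetSum _ fun c _ => hH i c]
  rw [e1, e2]
  refine integral_congr_ae (Eventually.of_forall fun X => ?_)
  show (∑ i, ∑ c, h i c X) + pot V X * (C X * Real.exp (U X)) ^ 2 = C X ^ 2 * (F2 f Finset.univ X *
    (∑ t ∈ trip (Finset.univ : Finset (Fin N)), tr (kk f V) X t.1 t.2.1 t.2.2
      + ∑ i, ∑ c, (lam χ c (X i) ^ 2 + lam χ c (X i) * dv (dir i c) U X)))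
  have hexp : Real.exp (2 * U X) = F2 f Finset.univ X := by
    rw [← hF4 X, ← Real.exp_nat_mul]
    norm_num
  have hpt : ∀ i c, h i c X = C X ^ 2 * F2 f Finset.univ X *
      (lam χ c (X i) ^ 2 + lam χ c (X i) * dv (dir i c) U X) -
      1 / 2 * (C X ^ 2 * F2 f Finset.univ X) * dv (dir i c) (dv (dir i c) U) X := by
    intro i c
    simp only [hh]
    rw [hexp, hC4 X i c]
    ring
  have hsum : (∑ i, ∑ c, h i c X) = C X ^ 2 * F2 f Finset.univ X *
      (∑ i, ∑ c, (lam χ c (X i) ^ 2 + lam χ c (X i) * dv (dir i c) U X)) -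
      1 / 2 * (C X ^ 2 * F2 f Finset.univ X) * ∑ i, ∑ c, dv (dir i c) (dv (dir i c) U) X := by
    rw [Finset.mul_sum, Finset.mul_sum, ← Finset.sum_sub_distrib]
    refine Finset.sum_congr rfl fun i _ => ?_
    rw [Finset.mul_sum, Finset.mul_sum, ← Finset.sum_sub_distrib]
    exact Finset.sum_congr rfl fun c _ => hpt i c
  have hlap : ∑ i, ∑ c, dv (dir i c) (dv (dir i c) U) X =
      2 * (pot V X - ∑ t ∈ trip (Finset.univ : Finset (Fin N)), tr (kk f V) X t.1 t.2.1 t.2.2) := by
    rw [hU3 X, hK, pot_eq, ← Finset.sum_sub_distrib, Finset.mul_sum]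
    rfl
  rw [hsum, hlap]
  have hsq : (C X * Real.exp (U X)) ^ 2 = C X ^ 2 * F2 f Finset.univ X := by
    rw [mul_pow, hF4 X]
  rw [hsq]
  ring

end Pool.Agent.TBG
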