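import Pool.Agent.TBG.Stmts

set_option autoImplicit false

open MeasureTheory Filter Topology
open scoped ContDiff

namespace Pool.Agent.TBG

namespace ERR_

lemma pprob (hCFD : Stmt_CFD) (N : ℕ) (L : ℝ) (χ : E → ℝ) (hχ : Cut L χ) :
    IsProbabilityMeasure (PP χ N) := by
  have hp : IsProbabilityMeasure (nu χ) := (hCFD L χ hχ).1
  unfold PP
  infer_instance

/-- the basic estimate -/
lemma basic (hCFD : Stmt_CFD) (hFTB : Stmt_FTB) (hIND : Stmt_IND) (N : ℕ) (L : ℝ) (χ : E → ℝ)
    (f : E × E → ℝ) (hχ : Cut L χ) (hf : Jas f) (S T : Finset (Fin N)) (w : (Fin N → E) → ℝ)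
    (hST : Disjoint S T) (hw : Measurable w) (hw0 : ∀ X, 0 ≤ w X)
    (hwT : ∀ X Y : Fin N → E, (∀ i ∈ T, X i = Y i) → w X = w Y) (hwi : Integrable w (PP χ N)) :
    ∫ X, F2 f Finset.univ X * w X ∂(PP χ N) ≤ ZZ f χ S * ∫ X, w X ∂(PP χ N) := by
  have hp := pprob hCFD N L χ hχ
  obtain ⟨_, hF, hFm, _⟩ := hFTB N f hf
  have hFS := hF S
  have hFU := hF (Finset.univ : Finset (Fin N))
  have hi : Integrable (fun X => F2 f S X * w X) (PP χ N) := by
    refine Integrable.mono' hwi (hFS.1.measurable.mul hw).aestronglyMeasurable ?_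
    refine Filter.Eventually.of_forall (fun X => ?_)
    rw [Real.norm_eq_abs, abs_of_nonneg (mul_nonneg (hFS.2.1 X).1.le (hw0 X))]
    exact mul_le_of_le_one_left (hw0 X) (hFS.2.1 X).2
  have hi2 : Integrable (fun X => F2 f Finset.univ X * w X) (PP χ N) := by
    refine Integrable.mono' hwi (hFU.1.measurable.mul hw).aestronglyMeasurable ?_
    refine Filter.Eventually.of_forall (fun X => ?_)
    rw [Real.norm_eq_abs, abs_of_nonneg (mul_nonneg (hFU.2.1 X).1.le (hw0 X))]
    exact mul_le_of_le_one_left (hw0 X) (hFU.2.1 X).2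
  calc ∫ X, F2 f Finset.univ X * w X ∂(PP χ N) ≤ ∫ X, F2 f S X * w X ∂(PP χ N) := by
        refine integral_mono hi2 hi (fun X => ?_)
        exact mul_le_mul_of_nonneg_right (hFm S Finset.univ X (Finset.subset_univ S)) (hw0 X)
    _ = ZZ f χ S * ∫ X, w X ∂(PP χ N) :=
        hIND N L χ S T (F2 f S) w hχ hST hFS.1.measurable hw hFS.2.2 hwT

end ERR_

open ERR_ in
theorem err_proof (hCFD : Stmt_CFD) (hFTB : Stmt_FTB) (hIND : Stmt_IND) (hLAW : Stmt_LAW)
    (hETW : Stmt_ETW) (hLAM : Stmt_LAM) : Stmt_ERR := by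
  intro N L χ f θ hχ hf hθ hG hZ
  have hp := pprob hCFD N L χ hχ
  have hprob : IsProbabilityMeasure (nu χ) := (hCFD L χ hχ).1
  obtain ⟨_, hF, hFm, _⟩ := hFTB N f hf
  have hZ0 : ∀ S : Finset (Fin N), 0 ≤ ZZ f χ S := by
    intro S
    exact integral_nonneg (fun X => ((hF S).2.1 X).1.le)
  have hθ0 : 0 ≤ θ := zero_le_one.trans hθ
  have hvi : 0 ≤ (vv χ)⁻¹ := inv_nonneg.mpr hχ.pos.le
  have hlaw1 := (hLAW N L χ hχ).1
  constructor
  · intro i c
    obtain ⟨hlm, _, hl2, _, hb2, _⟩ := hLAM L χ c hχ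
    have hmw : Measurable (fun X : Fin N → E => lam χ c (X i) ^ 2) :=
      (hlm.comp (measurable_pi_apply i)).pow_const 2
    have hint : Integrable (fun X : Fin N → E => lam χ c (X i) ^ 2) (PP χ N) := by
      have h : Integrable (fun x => lam χ c x ^ 2) (Measure.map (fun X : Fin N → E => X i) (PP χ N)) := by
        rw [hlaw1 i]; exact hl2
      exact h.comp_measurable (measurable_pi_apply i)
    have heq : ∫ X : Fin N → E, lam χ c (X i) ^ 2 ∂(PP χ N) = ∫ x, lam χ c x ^ 2 ∂(nu χ) := by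
      rw [← hlaw1 i]
      have h := integral_map (μ := PP χ N) (φ := fun X : Fin N → E => X i)
        (measurable_pi_apply i).aemeasurable (f := fun x => lam χ c x ^ 2)
        (hlm.pow_const 2).aestronglyMeasurable
      exact h.symm
    have hb := basic hCFD hFTB hIND N L χ f hχ hf (Finset.univ.erase i) {i}
      (fun X => lam χ c (X i) ^ 2) (by simp) hmw (fun X => sq_nonneg _)
      (fun X Y h => by rw [h i (Finset.mem_singleton_self i)]) hint
    rw [heq] at hb
    refine hb.trans ?_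
    have hz := hZ (Finset.univ.erase i) i (by simp)
    rw [Finset.insert_erase (Finset.mem_univ i)] at hz
    have hnn : 0 ≤ ∫ x, lam χ c x ^ 2 ∂(nu χ) := integral_nonneg (fun x => sq_nonneg _)
    calc ZZ f χ (Finset.univ.erase i) * ∫ x, lam χ c x ^ 2 ∂(nu χ)
        ≤ (θ * ZZ f χ Finset.univ) * ∫ x, lam χ c x ^ 2 ∂(nu χ) :=
          mul_le_mul_of_nonneg_right hz hnn
      _ ≤ (θ * ZZ f χ Finset.univ) * ((vv χ)⁻¹ * ∫ x, (dv (ev c) χ x) ^ 2) :=
          mul_le_mul_of_nonneg_left hb2 (mul_nonneg hθ0 (hZ0 _))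
      _ = _ := by ring
  · intro t m c ht
    obtain ⟨i, j, k⟩ := t
    have ht2 := (Finset.mem_filter.mp ht).2
    simp only at ht2
    have hij : i ≠ j := ne_of_lt ht2.1
    have hjk : j ≠ k := ne_of_lt ht2.2
    have hik : i ≠ k := ne_of_lt (ht2.1.trans ht2.2)
    obtain ⟨hlm, _, _, hl1, _, hb1⟩ := hLAM L χ c hχ
    have hsel : sel (i, j, k) m = i ∨ sel (i, j, k) m = j ∨ sel (i, j, k) m = k := by
      unfold sel
      split_ifs
      · exact Or.inl rfl
      · exact Or.inr (Or.inl rfl)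
      · exact Or.inr (Or.inr rfl)
    simp only
    set p := sel (i, j, k) m with hpdef
    obtain ⟨hint, hbd⟩ := hETW N L χ (G1 f) (fun x => |lam χ c x|) i j k p hχ hG
      (fun x => abs_nonneg _) (measurable_norm.comp hlm) hl1 hij hik hjk hsel
    have hGm : Measurable (G1 f) := hG.cont.measurable
    have hmw : Measurable (fun X : Fin N → E => |lam χ c (X p)| * tr (G1 f) X i j k) := by
      refine Measurable.mul ((measurable_norm.comp hlm).comp (measurable_pi_apply p)) ?_
      unfold tr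
      exact hGm.comp (((measurable_pi_apply i).sub (measurable_pi_apply j)).prodMk
        ((measurable_pi_apply i).sub (measurable_pi_apply k)))
    have hb := basic hCFD hFTB hIND N L χ f hχ hf (((Finset.univ.erase i).erase j).erase k) {i, j, k}
      (fun X => |lam χ c (X p)| * tr (G1 f) X i j k) (by
        rw [Finset.disjoint_left]
        intro a ha hb
        simp only [Finset.mem_erase, Finset.mem_univ, and_true] at ha
        simp only [Finset.mem_insert, Finset.mem_singleton] at hb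
        rcases hb with h | h | h
        · exact ha.2.2 h
        · exact ha.2.1 h
        · exact ha.1 h) hmw
      (fun X => mul_nonneg (abs_nonneg _) (hG.nonneg _))
      (fun X Y h => by
        have hi := h i (by simp)
        have hj := h j (by simp)
        have hk := h k (by simp)
        have hpp : X p = Y p := by
          rcases hsel with h1 | h1 | h1 <;> rw [h1] <;> assumption
        simp only [tr, hi, hj, hk, hpp]) hint
    refine hb.trans ?_
    have hz1 := hZ (((Finset.univ.erase i).erase j).erase k) k (by simp)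
    rw [Finset.insert_erase (by simp [hik.symm, hjk.symm])] at hz1
    have hz2 := hZ ((Finset.univ.erase i).erase j) j (by simp)
    rw [Finset.insert_erase (by simp [hij.symm])] at hz2
    have hz3 := hZ (Finset.univ.erase i) i (by simp)
    rw [Finset.insert_erase (Finset.mem_univ i)] at hz3
    have hz : ZZ f χ (((Finset.univ.erase i).erase j).erase k) ≤ θ ^ 3 * ZZ f χ (Finset.univ : Finset (Fin N)) := by
      calc ZZ f χ (((Finset.univ.erase i).erase j).erase k)
          ≤ θ * ZZ f χ ((Finset.univ.erase i).erase j) := hz1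
        _ ≤ θ * (θ * ZZ f χ (Finset.univ.erase i)) := mul_le_mul_of_nonneg_left hz2 hθ0
        _ ≤ θ * (θ * (θ * ZZ f χ Finset.univ)) :=
            mul_le_mul_of_nonneg_left (mul_le_mul_of_nonneg_left hz3 hθ0) hθ0
        _ = θ ^ 3 * ZZ f χ Finset.univ := by ring
    have hnn : 0 ≤ ∫ X, |lam χ c (X p)| * tr (G1 f) X i j k ∂(PP χ N) :=
      integral_nonneg (fun X => mul_nonneg (abs_nonneg _) (hG.nonneg _))
    have hG0 : 0 ≤ ∫ z, G1 f z := integral_nonneg (fun z => hG.nonneg z)
    calc ZZ f χ (((Finset.univ.erase i).erase j).erase k) *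
          ∫ X, |lam χ c (X p)| * tr (G1 f) X i j k ∂(PP χ N)
        ≤ (θ ^ 3 * ZZ f χ (Finset.univ : Finset (Fin N))) * ∫ X, |lam χ c (X p)| * tr (G1 f) X i j k ∂(PP χ N) :=
          mul_le_mul_of_nonneg_right hz hnn
      _ ≤ (θ ^ 3 * ZZ f χ (Finset.univ : Finset (Fin N))) * ((vv χ)⁻¹ ^ 2 * (∫ x, |lam χ c x| ∂(nu χ)) * ∫ z, G1 f z) :=
          mul_le_mul_of_nonneg_left hbd (mul_nonneg (pow_nonneg hθ0 3) (hZ0 _))
      _ ≤ (θ ^ 3 * ZZ f χ (Finset.univ : Finset (Fin N))) *
            ((vv χ)⁻¹ ^ 2 * ((vv χ)⁻¹ * ∫ x, χ x * |dv (ev c) χ x|) * ∫ z, G1 f z) := by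
          refine mul_le_mul_of_nonneg_left ?_ (mul_nonneg (pow_nonneg hθ0 3) (hZ0 _))
          exact mul_le_mul_of_nonneg_right
            (mul_le_mul_of_nonneg_left hb1 (pow_nonneg hvi 2)) hG0
      _ = _ := by ring

end Pool.Agent.TBG
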