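import Pool.Agent.TBG.Stmts

set_option autoImplicit false

open MeasureTheory Filter Topology
open scoped ContDiff

namespace Pool.Agent.TBG

namespace ESU_

/-- the marginal integral -/
noncomputable def A (a : E × E → ℝ) (x : E) : ℝ := ∫ y : E, a (x, y)

lemma A_nonneg {a : E × E → ℝ} (ha : CN a) (x : E) : 0 ≤ A a x :=
  integral_nonneg (fun _ => ha.nonneg _)

lemma A_eq (a : E × E → ℝ) (x : E) :
    A a x = ∫ y in Prod.snd '' (tsupport a), a (x, y) := by
  unfold A
  symm
  apply setIntegral_eq_integral_of_forall_compl_eq_zero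
  intro y hy
  by_contra h
  apply hy
  exact ⟨(x, y), subset_tsupport _ h, rfl⟩

lemma A_cont {a : E × E → ℝ} (ha : CN a) : Continuous (A a) := by
  have hK : IsCompact (Prod.snd '' (tsupport a)) := ha.cpt.isCompact.image continuous_snd
  have h1 : A a = fun x => ∫ y in Prod.snd '' (tsupport a), a (x, y) := by
    funext x; exact A_eq a x
  rw [h1]
  exact continuous_parametric_integral_of_continuous (f := fun x y => a (x, y)) (by
    show Continuous (fun p : E × E => a (p.1, p.2))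
    exact ha.cont) hK

lemma a_int {a : E × E → ℝ} (ha : CN a) : Integrable a :=
  ha.cont.integrable_of_hasCompactSupport ha.cpt

lemma slice_cpt {a : E × E → ℝ} (ha : CN a) (x : E) : HasCompactSupport (fun y => a (x, y)) := by
  have hK : IsCompact (Prod.snd '' (tsupport a)) := ha.cpt.isCompact.image continuous_snd
  apply HasCompactSupport.intro hK
  intro y hy
  by_contra h
  exact hy ⟨(x, y), subset_tsupport _ h, rfl⟩

lemma slice_int {a : E × E → ℝ} (ha : CN a) (x : E) : Integrable (fun y => a (x, y)) :=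
  (ha.cont.comp (by fun_prop)).integrable_of_hasCompactSupport (slice_cpt ha x)

lemma A_cpt {a : E × E → ℝ} (ha : CN a) : HasCompactSupport (A a) := by
  have hK : IsCompact (Prod.fst '' (tsupport a)) := ha.cpt.isCompact.image continuous_fst
  apply HasCompactSupport.intro hK
  intro x hx
  unfold A
  have : ∀ y, a (x, y) = 0 := by
    intro y
    by_contra h
    exact hx ⟨(x, y), subset_tsupport _ h, rfl⟩
  simp [this]

lemma A_int {a : E × E → ℝ} (ha : CN a) : Integrable (A a) :=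
  (A_cont ha).integrable_of_hasCompactSupport (A_cpt ha)

lemma int_A {a : E × E → ℝ} (ha : CN a) : ∫ x, A a x = ∫ z, a z := by
  unfold A
  rw [Measure.volume_eq_prod]
  rw [integral_prod]
  have := a_int ha
  rwa [Measure.volume_eq_prod] at this

/-- boundedness -/
lemma bdd {a : E × E → ℝ} (ha : CN a) : ∃ C : ℝ, 0 ≤ C ∧ ∀ z, |a z| ≤ C := by
  obtain ⟨C, hC⟩ := ha.cont.bounded_above_of_compact_support ha.cpt
  refine ⟨C, le_trans (norm_nonneg _) (hC 0), fun z => by simpa [Real.norm_eq_abs] using hC z⟩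

lemma chi_sq_le {L : ℝ} {χ : E → ℝ} (h : Cut L χ) (x : E) : χ x ^ 2 ≤ 1 := by
  have h0 := h.nonneg x
  have h1 := h.le_one x
  nlinarith

lemma vv_pos {L : ℝ} {χ : E → ℝ} (h : Cut L χ) : 0 < vv χ := h.pos

/-- integration against `nu` -/
lemma nu_le (hCFD : Stmt_CFD) {L : ℝ} {χ : E → ℝ} (h : Cut L χ) {g : E → ℝ} (hg : Integrable g)
    (h0 : ∀ x, 0 ≤ g x) : ∫ x, g x ∂(nu χ) ≤ (vv χ)⁻¹ * ∫ x, g x := by
  rw [(hCFD L χ h).2.1 g]
  apply mul_le_mul_of_nonneg_left _ (inv_nonneg.mpr (vv_pos h).le)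
  apply integral_mono_of_nonneg
  · exact Eventually.of_forall (fun x => mul_nonneg (sq_nonneg _) (h0 x))
  · exact hg
  · exact Eventually.of_forall (fun x => by
      have := chi_sq_le h x
      have := h0 x
      show χ x ^ 2 * g x ≤ g x
      nlinarith)

lemma nu_prob (hCFD : Stmt_CFD) {L : ℝ} {χ : E → ℝ} (h : Cut L χ) : IsProbabilityMeasure (nu χ) :=
  (hCFD L χ h).1

/-- `∫ a(x, p - y) dν(y) ≤ vv⁻¹ A(x)` -/
lemma nu_slice_le (hCFD : Stmt_CFD) {L : ℝ} {χ : E → ℝ} (h : Cut L χ) {a : E × E → ℝ} (ha : CN a)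
    (x p : E) : ∫ y, a (x, p - y) ∂(nu χ) ≤ (vv χ)⁻¹ * A a x := by
  have h1 : Integrable (fun y => a (x, p - y)) := (slice_int ha x).comp_sub_left p
  have h2 := nu_le hCFD h h1 (fun y => ha.nonneg _)
  have h3 : ∫ y, a (x, p - y) = A a x := by
    unfold A
    exact integral_sub_left_eq_self (fun y => a (x, y)) volume p
  rwa [h3] at h2

lemma nu_A_le (hCFD : Stmt_CFD) {L : ℝ} {χ : E → ℝ} (h : Cut L χ) {a : E × E → ℝ} (ha : CN a)
    (p : E) : ∫ y, A a (p - y) ∂(nu χ) ≤ (vv χ)⁻¹ * ∫ z, a z := by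
  have h1 : Integrable (fun y => A a (p - y)) := (A_int ha).comp_sub_left p
  have h2 := nu_le hCFD h h1 (fun y => A_nonneg ha _)
  have h3 : ∫ y, A a (p - y) = ∫ z, a z := by
    rw [integral_sub_left_eq_self (fun y => A a y) volume p, int_A ha]
  rwa [h3] at h2

lemma P_prob (hCFD : Stmt_CFD) {L : ℝ} {χ : E → ℝ} (h : Cut L χ) (N : ℕ) :
    IsProbabilityMeasure (PP χ N) := by
  have := nu_prob hCFD h
  unfold PP
  infer_instance

lemma P_int (hCFD : Stmt_CFD) {L : ℝ} {χ : E → ℝ} (h : Cut L χ) {N : ℕ} {F : (Fin N → E) → ℝ}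
    (hF : Continuous F) {C : ℝ} (hC : ∀ X, |F X| ≤ C) : Integrable F (PP χ N) := by
  have := P_prob hCFD h N
  exact Integrable.of_bound hF.aestronglyMeasurable C (Eventually.of_forall (fun X => by
    simpa [Real.norm_eq_abs] using hC X))

/-- the law of a triple -/
lemma law3 (hCFD : Stmt_CFD) (hLAW : Stmt_LAW) {L : ℝ} {χ : E → ℝ} (h : Cut L χ) {N : ℕ}
    {u : E × E → ℝ} (hu : CN u) {i j k : Fin N} (hij : i ≠ j) (hik : i ≠ k) (hjk : j ≠ k) :
    ∫ X, tr u X i j k ∂(PP χ N) ≤ (vv χ)⁻¹ ^ 2 * ∫ z, u z := by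
  have := nu_prob hCFD h
  obtain ⟨C, hC0, hC⟩ := bdd hu
  have hmap := (hLAW N L χ h).2 i j k hij hik hjk
  have hmeas : AEMeasurable (fun X : Fin N → E => (X i, X j, X k)) (PP χ N) := by
    have : Continuous (fun X : Fin N → E => (X i, X j, X k)) := by fun_prop
    exact this.aemeasurable
  have hcont : Continuous (fun q : E × E × E => u (q.1 - q.2.1, q.1 - q.2.2)) :=
    hu.cont.comp (by fun_prop)
  have h1 : ∫ X, tr u X i j k ∂(PP χ N) =
      ∫ q : E × E × E, u (q.1 - q.2.1, q.1 - q.2.2) ∂((nu χ).prod ((nu χ).prod (nu χ))) := by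
    rw [← hmap, integral_map hmeas hcont.aestronglyMeasurable]
    rfl
  rw [h1]
  have hint : Integrable (fun q : E × E × E => u (q.1 - q.2.1, q.1 - q.2.2))
      ((nu χ).prod ((nu χ).prod (nu χ))) :=
    Integrable.of_bound hcont.aestronglyMeasurable C (Eventually.of_forall (fun X => by
      simpa [Real.norm_eq_abs] using hC _))
  rw [integral_prod _ hint]
  have key : ∀ p : E, ∫ r : E × E, u (p - r.1, p - r.2) ∂((nu χ).prod (nu χ)) ≤
      (vv χ)⁻¹ ^ 2 * ∫ z, u z := by
    intro p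
    have hc2 : Continuous (fun r : E × E => u (p - r.1, p - r.2)) := hu.cont.comp (by fun_prop)
    have hi2 : Integrable (fun r : E × E => u (p - r.1, p - r.2)) ((nu χ).prod (nu χ)) :=
      Integrable.of_bound hc2.aestronglyMeasurable C (Eventually.of_forall (fun X => by
        simpa [Real.norm_eq_abs] using hC _))
    rw [integral_prod _ hi2]
    have hb : ∀ y : E, ∫ z : E, u (p - y, p - z) ∂(nu χ) ≤ (vv χ)⁻¹ * A u (p - y) :=
      fun y => nu_slice_le hCFD h hu (p - y) p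
    obtain ⟨C2, hC2⟩ := (A_cont hu).bounded_above_of_compact_support (A_cpt hu)
    have hA2 : Continuous (fun y : E => (vv χ)⁻¹ * A u (p - y)) :=
      continuous_const.mul ((A_cont hu).comp (by fun_prop))
    have hi3 : Integrable (fun y : E => (vv χ)⁻¹ * A u (p - y)) (nu χ) := by
      apply Integrable.const_mul
      exact Integrable.of_bound ((A_cont hu).comp (by fun_prop)).aestronglyMeasurable C2
        (Eventually.of_forall (fun y => hC2 _))
    have h4 : ∫ y, (∫ z : E, u (p - y, p - z) ∂(nu χ)) ∂(nu χ) ≤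
        ∫ y, (vv χ)⁻¹ * A u (p - y) ∂(nu χ) := by
      apply integral_mono_of_nonneg
      · exact Eventually.of_forall (fun y => integral_nonneg (fun _ => hu.nonneg _))
      · exact hi3
      · exact Eventually.of_forall hb
    refine le_trans h4 ?_
    rw [integral_const_mul]
    have h5 := nu_A_le hCFD h hu p
    have h6 : 0 ≤ (vv χ)⁻¹ := inv_nonneg.mpr (vv_pos h).le
    calc (vv χ)⁻¹ * ∫ y, A u (p - y) ∂(nu χ) ≤ (vv χ)⁻¹ * ((vv χ)⁻¹ * ∫ z, u z) :=
          mul_le_mul_of_nonneg_left h5 h6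
      _ = (vv χ)⁻¹ ^ 2 * ∫ z, u z := by ring
  calc ∫ p, (∫ r : E × E, u (p - r.1, p - r.2) ∂((nu χ).prod (nu χ))) ∂(nu χ)
      ≤ ∫ p, ((vv χ)⁻¹ ^ 2 * ∫ z, u z) ∂(nu χ) := by
        apply integral_mono_of_nonneg
        · exact Eventually.of_forall (fun y => integral_nonneg (fun _ => hu.nonneg _))
        · exact integrable_const _
        · exact Eventually.of_forall key
    _ = (vv χ)⁻¹ ^ 2 * ∫ z, u z := by simp

/-- `κ A` -/
lemma kA {κ a : E × E → ℝ} (hκ : CN κ) (ha : CN a) : CN (fun z => κ z * A a z.1) where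
  cont := hκ.cont.mul ((A_cont ha).comp continuous_fst)
  cpt := hκ.cpt.mul_right
  nonneg := fun z => mul_nonneg (hκ.nonneg z) (A_nonneg ha _)

end ESU_

open ESU_ in
theorem esu_proof (hCFD : Stmt_CFD) (hOUT : Stmt_OUT) (hLAW : Stmt_LAW) : Stmt_ESU := by
  intro N L χ κ a i j k l m n h hκ ha hnd
  have hne : i ≠ j ∧ i ≠ k ∧ i ≠ l ∧ i ≠ m ∧ i ≠ n ∧ j ≠ k ∧ j ≠ l ∧ j ≠ m ∧ j ≠ n ∧ k ≠ l ∧ k ≠ m ∧
      k ≠ n ∧ l ≠ m ∧ l ≠ n ∧ m ≠ n := by
    simp only [List.nodup_cons, List.mem_cons, List.not_mem_nil, or_false, not_or,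
      not_false_eq_true, List.nodup_nil, and_true] at hnd
    tauto
  obtain ⟨hij, hik, hil, him, hin, hjk, hjl, hjm, hjn, hkl, hkm, hkn, hlm, hln, hmn⟩ := hne
  have := P_prob hCFD h N
  have := nu_prob hCFD h
  obtain ⟨Ck, hCk0, hCk⟩ := bdd hκ
  obtain ⟨Ca, hCa0, hCa⟩ := bdd ha
  obtain ⟨CA, hCA⟩ := (A_cont ha).bounded_above_of_compact_support (A_cpt ha)
  have hCA' : ∀ x, |A a x| ≤ CA := fun x => by simpa [Real.norm_eq_abs] using hCA x
  have hv : 0 ≤ (vv χ)⁻¹ := inv_nonneg.mpr (vv_pos h).le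
  have hIa : 0 ≤ ∫ z, a z := integral_nonneg (fun z => ha.nonneg z)
  -- continuity
  have ck : Continuous (fun X : Fin N → E => tr κ X i j k) := by
    unfold tr; exact hκ.cont.comp (by fun_prop)
  have ca : Continuous (fun X : Fin N → E => tr a X i j l) := by
    unfold tr; exact ha.cont.comp (by fun_prop)
  have nk : ∀ X : Fin N → E, 0 ≤ tr κ X i j k := fun X => hκ.nonneg _
  have na : ∀ X : Fin N → E, 0 ≤ tr a X i j l := fun X => ha.nonneg _
  have bk : ∀ X : Fin N → E, |tr κ X i j k| ≤ Ck := fun X => hCk _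
  have ba : ∀ X : Fin N → E, |tr a X i j l| ≤ Ca := fun X => hCa _
  -- step 1: integrate out `n`
  have s1 := hOUT N L χ {i, j, k, l, m} n
    (fun X y => tr κ X i j k * tr a X i j l * a (X l - X m, X l - y)) h
    (by simp [hin.symm, hjn.symm, hkn.symm, hln.symm, hmn.symm])
    (by
      apply Continuous.measurable
      apply Continuous.mul
      · exact (ck.comp continuous_fst).mul (ca.comp continuous_fst)
      · exact ha.cont.comp (by fun_prop))
    ⟨Ck * Ca * Ca, by
      intro X y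
      rw [abs_mul, abs_mul]
      exact mul_le_mul (mul_le_mul (bk X) (ba X) (abs_nonneg _) hCk0) (hCa _) (abs_nonneg _)
        (mul_nonneg hCk0 hCa0)⟩
    (by
      intro X Y y hXY
      have e1 : X i = Y i := hXY i (by simp)
      have e2 : X j = Y j := hXY j (by simp)
      have e3 : X k = Y k := hXY k (by simp)
      have e4 : X l = Y l := hXY l (by simp)
      have e5 : X m = Y m := hXY m (by simp)
      simp only [tr, e1, e2, e3, e4, e5])
  have t1 : ∫ X, tr κ X i j k * tr a X i j l * tr a X l m n ∂(PP χ N) ≤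
      ∫ X, tr κ X i j k * tr a X i j l * ((vv χ)⁻¹ * A a (X l - X m)) ∂(PP χ N) := by
    have e : ∫ X, tr κ X i j k * tr a X i j l * tr a X l m n ∂(PP χ N) =
      ∫ X, (∫ y, tr κ X i j k * tr a X i j l * a (X l - X m, X l - y) ∂(nu χ)) ∂(PP χ N) := s1
    rw [e]
    apply integral_mono_of_nonneg
    · exact Eventually.of_forall (fun X => integral_nonneg (fun y =>
        mul_nonneg (mul_nonneg (nk X) (na X)) (ha.nonneg _)))
    · apply P_int hCFD h (C := Ck * Ca * ((vv χ)⁻¹ * CA))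
      · exact (ck.mul ca).mul (continuous_const.mul ((A_cont ha).comp (by fun_prop)))
      · intro X
        rw [abs_mul, abs_mul, abs_mul, abs_of_nonneg hv]
        exact mul_le_mul (mul_le_mul (bk X) (ba X) (abs_nonneg _) hCk0)
          (mul_le_mul_of_nonneg_left (hCA' _) hv) (mul_nonneg hv (abs_nonneg _))
          (mul_nonneg hCk0 hCa0)
    · refine Eventually.of_forall (fun X => ?_)
      show ∫ y, tr κ X i j k * tr a X i j l * a (X l - X m, X l - y) ∂(nu χ) ≤ _
      rw [integral_const_mul]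
      exact mul_le_mul_of_nonneg_left (nu_slice_le hCFD h ha _ _) (mul_nonneg (nk X) (na X))
  -- step 2: integrate out `m`
  have s2 := hOUT N L χ {i, j, k, l} m
    (fun X y => tr κ X i j k * tr a X i j l * ((vv χ)⁻¹ * A a (X l - y))) h
    (by simp [him.symm, hjm.symm, hkm.symm, hlm.symm])
    (by
      apply Continuous.measurable
      apply Continuous.mul
      · exact (ck.comp continuous_fst).mul (ca.comp continuous_fst)
      · exact continuous_const.mul ((A_cont ha).comp (by fun_prop)))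
    ⟨Ck * Ca * ((vv χ)⁻¹ * CA), by
      intro X y
      rw [abs_mul, abs_mul, abs_mul, abs_of_nonneg hv]
      exact mul_le_mul (mul_le_mul (bk X) (ba X) (abs_nonneg _) hCk0)
          (mul_le_mul_of_nonneg_left (hCA' _) hv) (mul_nonneg hv (abs_nonneg _))
          (mul_nonneg hCk0 hCa0)⟩
    (by
      intro X Y y hXY
      have e1 : X i = Y i := hXY i (by simp)
      have e2 : X j = Y j := hXY j (by simp)
      have e3 : X k = Y k := hXY k (by simp)
      have e4 : X l = Y l := hXY l (by simp)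
      simp only [tr, e1, e2, e3, e4])
  have t2 : ∫ X, tr κ X i j k * tr a X i j l * ((vv χ)⁻¹ * A a (X l - X m)) ∂(PP χ N) ≤
      ∫ X, tr κ X i j k * tr a X i j l * ((vv χ)⁻¹ * ((vv χ)⁻¹ * ∫ z, a z)) ∂(PP χ N) := by
    have e : ∫ X, tr κ X i j k * tr a X i j l * ((vv χ)⁻¹ * A a (X l - X m)) ∂(PP χ N) =
      ∫ X, (∫ y, tr κ X i j k * tr a X i j l * ((vv χ)⁻¹ * A a (X l - y)) ∂(nu χ)) ∂(PP χ N) := s2
    rw [e]
    apply integral_mono_of_nonneg
    · exact Eventually.of_forall (fun X => integral_nonneg (fun y =>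
        mul_nonneg (mul_nonneg (nk X) (na X)) (mul_nonneg hv (A_nonneg ha _))))
    · apply P_int hCFD h (C := Ck * Ca * ((vv χ)⁻¹ * ((vv χ)⁻¹ * ∫ z, a z)))
      · exact (ck.mul ca).mul continuous_const
      · intro X
        rw [abs_mul, abs_mul, abs_of_nonneg (mul_nonneg hv (mul_nonneg hv hIa))]
        exact mul_le_mul_of_nonneg_right (mul_le_mul (bk X) (ba X) (abs_nonneg _) hCk0)
          (mul_nonneg hv (mul_nonneg hv hIa))
    · refine Eventually.of_forall (fun X => ?_)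
      show ∫ y, tr κ X i j k * tr a X i j l * ((vv χ)⁻¹ * A a (X l - y)) ∂(nu χ) ≤ _
      rw [integral_const_mul, integral_const_mul]
      exact mul_le_mul_of_nonneg_left
        (mul_le_mul_of_nonneg_left (nu_A_le hCFD h ha _) hv) (mul_nonneg (nk X) (na X))
  -- step 3: integrate out `l`
  have s3 := hOUT N L χ {i, j, k} l
    (fun X y => tr κ X i j k * a (X i - X j, X i - y)) h
    (by simp [hil.symm, hjl.symm, hkl.symm])
    (by
      apply Continuous.measurable
      exact (ck.comp continuous_fst).mul (ha.cont.comp (by fun_prop)))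
    ⟨Ck * Ca, by
      intro X y
      rw [abs_mul]
      exact mul_le_mul (bk X) (hCa _) (abs_nonneg _) hCk0⟩
    (by
      intro X Y y hXY
      have e1 : X i = Y i := hXY i (by simp)
      have e2 : X j = Y j := hXY j (by simp)
      have e3 : X k = Y k := hXY k (by simp)
      simp only [tr, e1, e2, e3])
  have t3 : ∫ X, tr κ X i j k * tr a X i j l ∂(PP χ N) ≤
      ∫ X, (vv χ)⁻¹ * tr (fun z => κ z * A a z.1) X i j k ∂(PP χ N) := by
    have e : ∫ X, tr κ X i j k * tr a X i j l ∂(PP χ N) =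
      ∫ X, (∫ y, tr κ X i j k * a (X i - X j, X i - y) ∂(nu χ)) ∂(PP χ N) := s3
    rw [e]
    apply integral_mono_of_nonneg
    · exact Eventually.of_forall (fun X => integral_nonneg (fun y =>
        mul_nonneg (nk X) (ha.nonneg _)))
    · apply Integrable.const_mul
      apply P_int hCFD h (C := Ck * CA)
      · unfold tr; exact (kA hκ ha).cont.comp (by fun_prop)
      · intro X
        show |κ _ * A a _| ≤ _
        rw [abs_mul]
        exact mul_le_mul (hCk _) (hCA' _) (abs_nonneg _) hCk0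
    · refine Eventually.of_forall (fun X => ?_)
      show ∫ y, tr κ X i j k * a (X i - X j, X i - y) ∂(nu χ) ≤
        (vv χ)⁻¹ * (tr κ X i j k * A a (X i - X j))
      rw [integral_const_mul]
      calc tr κ X i j k * ∫ y, a (X i - X j, X i - y) ∂(nu χ)
          ≤ tr κ X i j k * ((vv χ)⁻¹ * A a (X i - X j)) :=
            mul_le_mul_of_nonneg_left (nu_slice_le hCFD h ha _ _) (nk X)
        _ = (vv χ)⁻¹ * (tr κ X i j k * A a (X i - X j)) := by ring
  have t4 := law3 hCFD hLAW h (kA hκ ha) hij hik hjk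
  have hfin : ∫ X, tr κ X i j k * tr a X i j l * ((vv χ)⁻¹ * ((vv χ)⁻¹ * ∫ z, a z)) ∂(PP χ N) =
      ((vv χ)⁻¹ * ((vv χ)⁻¹ * ∫ z, a z)) * ∫ X, tr κ X i j k * tr a X i j l ∂(PP χ N) := by
    rw [integral_mul_const, mul_comm]
  have hc : 0 ≤ (vv χ)⁻¹ * ((vv χ)⁻¹ * ∫ z, a z) := mul_nonneg hv (mul_nonneg hv hIa)
  rw [integral_const_mul] at t3
  have t5 : ∫ X, tr κ X i j k * tr a X i j l ∂(PP χ N) ≤
      (vv χ)⁻¹ * ((vv χ)⁻¹ ^ 2 * ∫ z, κ z * A a z.1) :=
    le_trans t3 (mul_le_mul_of_nonneg_left t4 hv)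
  calc ∫ X, tr κ X i j k * tr a X i j l * tr a X l m n ∂(PP χ N)
      ≤ ((vv χ)⁻¹ * ((vv χ)⁻¹ * ∫ z, a z)) * ∫ X, tr κ X i j k * tr a X i j l ∂(PP χ N) := by
        rw [← hfin]; exact le_trans t1 t2
    _ ≤ ((vv χ)⁻¹ * ((vv χ)⁻¹ * ∫ z, a z)) * ((vv χ)⁻¹ * ((vv χ)⁻¹ ^ 2 * ∫ z, κ z * A a z.1)) :=
        mul_le_mul_of_nonneg_left t5 hc
    _ = (vv χ)⁻¹ ^ 5 * (∫ z : E × E, κ z * ∫ y : E, a (z.1, y)) * ∫ z, a z := by
        unfold A; ring

end Pool.Agent.TBG
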