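import Pool.Agent.TBG.Stmts

/-!
# TBG module ETW: expectation of a function of a triple with a weight at one of its particles
-/

set_option autoImplicit false

open MeasureTheory Filter Topology
open scoped ContDiff ENNReal

namespace Pool.Agent.TBG

namespace ETW_

/-- the measure `nu` is bounded by a multiple of the Lebesgue measure -/
theorem nu_le {L : ℝ} {χ : E → ℝ} (h : Cut L χ) :
    nu χ ≤ ENNReal.ofReal (vv χ)⁻¹ • (volume : Measure E) := by
  have hv : 0 < vv χ := h.pos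
  rw [← withDensity_const]
  unfold nu
  refine withDensity_mono (ae_of_all _ fun x => ENNReal.ofReal_le_ofReal ?_)
  rw [div_eq_mul_inv]
  have h1 : χ x ^ 2 ≤ 1 := by
    have := h.le_one x
    have h0 := h.nonneg x
    nlinarith
  have h2 : 0 ≤ (vv χ)⁻¹ := inv_nonneg.mpr hv.le
  nlinarith

theorem lint_nu_le {L : ℝ} {χ : E → ℝ} (h : Cut L χ) (f : E → ℝ≥0∞) :
    ∫⁻ x, f x ∂(nu χ) ≤ ENNReal.ofReal (vv χ)⁻¹ * ∫⁻ x, f x := by
  calc ∫⁻ x, f x ∂(nu χ) ≤ ∫⁻ x, f x ∂(ENNReal.ofReal (vv χ)⁻¹ • (volume : Measure E)) :=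
        lintegral_mono' (nu_le h) le_rfl
    _ = ENNReal.ofReal (vv χ)⁻¹ * ∫⁻ x, f x := by
        rw [lintegral_smul_measure]; rfl

/-- the bound for the product measure -/
theorem triple {L : ℝ} {χ : E → ℝ} (h : Cut L χ) [IsProbabilityMeasure (nu χ)] (W : E → ℝ≥0∞)
    (v : E × E × E → ℝ≥0∞) (hW : Measurable W) (hv : Measurable v) (I : ℝ≥0∞)
    (hI : ∀ a, ∫⁻ b, ∫⁻ c, v (a, b, c) = I) :
    ∫⁻ q, W q.1 * v q ∂((nu χ).prod ((nu χ).prod (nu χ))) ≤
      ENNReal.ofReal (vv χ)⁻¹ ^ 2 * (∫⁻ x, W x ∂(nu χ)) * I := by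
  have hm : Measurable (fun q : E × E × E => W q.1 * v q) := (hW.comp measurable_fst).mul hv
  rw [lintegral_prod _ hm.aemeasurable]
  have step : ∀ a : E, ∫⁻ r : E × E, W a * v (a, r) ∂((nu χ).prod (nu χ)) ≤
      W a * (ENNReal.ofReal (vv χ)⁻¹ ^ 2 * I) := by
    intro a
    have hva : Measurable (fun r : E × E => v (a, r)) := hv.comp measurable_prodMk_left
    rw [lintegral_const_mul _ hva]
    gcongr
    rw [lintegral_prod _ hva.aemeasurable]
    calc ∫⁻ b, (∫⁻ c, v (a, b, c) ∂(nu χ)) ∂(nu χ)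
        ≤ ∫⁻ b, (ENNReal.ofReal (vv χ)⁻¹ * ∫⁻ c, v (a, b, c)) ∂(nu χ) :=
          lintegral_mono fun b => lint_nu_le h _
      _ ≤ ENNReal.ofReal (vv χ)⁻¹ * ∫⁻ b, (ENNReal.ofReal (vv χ)⁻¹ * ∫⁻ c, v (a, b, c)) :=
          lint_nu_le h _
      _ = ENNReal.ofReal (vv χ)⁻¹ ^ 2 * I := by
          rw [lintegral_const_mul' _ _ ENNReal.ofReal_ne_top, hI a, sq, mul_assoc]
  calc ∫⁻ a, ∫⁻ r : E × E, W a * v (a, r) ∂((nu χ).prod (nu χ)) ∂(nu χ)
      ≤ ∫⁻ a, W a * (ENNReal.ofReal (vv χ)⁻¹ ^ 2 * I) ∂(nu χ) := lintegral_mono step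
    _ = (∫⁻ a, W a ∂(nu χ)) * (ENNReal.ofReal (vv χ)⁻¹ ^ 2 * I) := lintegral_mul_const _ hW
    _ = ENNReal.ofReal (vv χ)⁻¹ ^ 2 * (∫⁻ x, W x ∂(nu χ)) * I := by ring

/-- from the nonnegative extended integral to the real statement -/
theorem toR {N : ℕ} {χ : E → ℝ} (u : E × E → ℝ) (w : E → ℝ) (hu : CN u)
    (hw0 : ∀ x, 0 ≤ w x) (hwm : Measurable w) (hwi : Integrable w (nu χ)) (hv : 0 < vv χ)
    (i j k p : Fin N)
    (key : ∫⁻ X : Fin N → E, ENNReal.ofReal (w (X p)) * ENNReal.ofReal (tr u X i j k) ∂(PP χ N) ≤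
      ENNReal.ofReal (vv χ)⁻¹ ^ 2 * (∫⁻ x, ENNReal.ofReal (w x) ∂(nu χ)) * ∫⁻ z, ENNReal.ofReal (u z)) :
    Integrable (fun X : Fin N → E => w (X p) * tr u X i j k) (PP χ N) ∧
    ∫ X, w (X p) * tr u X i j k ∂(PP χ N) ≤ (vv χ)⁻¹ ^ 2 * (∫ x, w x ∂(nu χ)) * ∫ z, u z := by
  have hui : Integrable u := hu.cont.integrable_of_hasCompactSupport hu.cpt
  have e1 : ∫⁻ z, ENNReal.ofReal (u z) = ENNReal.ofReal (∫ z, u z) :=
    (ofReal_integral_eq_lintegral_ofReal hui (ae_of_all _ hu.nonneg)).symm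
  have e2 : ∫⁻ x, ENNReal.ofReal (w x) ∂(nu χ) = ENNReal.ofReal (∫ x, w x ∂(nu χ)) :=
    (ofReal_integral_eq_lintegral_ofReal hwi (ae_of_all _ hw0)).symm
  have hI1 : 0 ≤ ∫ z, u z := integral_nonneg hu.nonneg
  have hI2 : 0 ≤ ∫ x, w x ∂(nu χ) := integral_nonneg hw0
  have hc : 0 ≤ (vv χ)⁻¹ := inv_nonneg.mpr hv.le
  have e3 : ENNReal.ofReal (vv χ)⁻¹ ^ 2 * (∫⁻ x, ENNReal.ofReal (w x) ∂(nu χ)) * ∫⁻ z, ENNReal.ofReal (u z) =
      ENNReal.ofReal ((vv χ)⁻¹ ^ 2 * (∫ x, w x ∂(nu χ)) * ∫ z, u z) := by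
    rw [e1, e2, ENNReal.ofReal_mul (by positivity), ENNReal.ofReal_mul (by positivity),
      ENNReal.ofReal_pow hc]
  have hm : Measurable (fun X : Fin N → E => w (X p) * tr u X i j k) := by
    unfold tr
    exact (hwm.comp (measurable_pi_apply p)).mul (hu.cont.measurable.comp
      (((measurable_pi_apply i).sub (measurable_pi_apply j)).prodMk
        ((measurable_pi_apply i).sub (measurable_pi_apply k))))
  have hn : ∀ X : Fin N → E, 0 ≤ w (X p) * tr u X i j k := fun X =>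
    mul_nonneg (hw0 _) (hu.nonneg _)
  have e4 : ∫⁻ X : Fin N → E, ENNReal.ofReal (w (X p) * tr u X i j k) ∂(PP χ N) =
      ∫⁻ X : Fin N → E, ENNReal.ofReal (w (X p)) * ENNReal.ofReal (tr u X i j k) ∂(PP χ N) :=
    lintegral_congr fun X => ENNReal.ofReal_mul (hw0 _)
  rw [e3, ← e4] at key
  constructor
  · refine ⟨hm.aestronglyMeasurable, ?_⟩
    rw [hasFiniteIntegral_iff_ofReal (ae_of_all _ hn)]
    exact lt_of_le_of_lt key ENNReal.ofReal_lt_top
  · rw [integral_eq_lintegral_of_nonneg_ae (ae_of_all _ hn) hm.aestronglyMeasurable]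
    exact ENNReal.toReal_le_of_le_ofReal (by positivity) key

/-- transfer of the law -/
theorem law {N : ℕ} {χ : E → ℝ} (a b c : Fin N) (hab : a ≠ b) (hac : a ≠ c) (hbc : b ≠ c)
    (hL : ∀ i j k : Fin N, i ≠ j → i ≠ k → j ≠ k →
      Measure.map (fun X : Fin N → E => (X i, X j, X k)) (PP χ N) = (nu χ).prod ((nu χ).prod (nu χ)))
    (F : E × E × E → ℝ≥0∞) (hF : Measurable F) :
    ∫⁻ X : Fin N → E, F (X a, X b, X c) ∂(PP χ N) = ∫⁻ q, F q ∂((nu χ).prod ((nu χ).prod (nu χ))) := by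
  rw [← hL a b c hab hac hbc, lintegral_map hF]
  exact (measurable_pi_apply a).prodMk ((measurable_pi_apply b).prodMk (measurable_pi_apply c))

theorem lint2 (u : E × E → ℝ) (hu : CN u) :
    ∫⁻ z, ENNReal.ofReal (u z) = ∫⁻ b : E, ∫⁻ c : E, ENNReal.ofReal (u (b, c)) := by
  rw [Measure.volume_eq_prod, lintegral_prod _ (hu.cont.measurable.ennreal_ofReal).aemeasurable]

end ETW_

open ETW_ in
theorem etw_proof (hCFD : Stmt_CFD) (hLAW : Stmt_LAW) : Stmt_ETW := by
  intro N L χ u w i j k p hcut hu hw0 hwm hwi hij hik hjk hp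
  have : IsProbabilityMeasure (nu χ) := (hCFD L χ hcut).1
  have hL := (hLAW N L χ hcut).2
  have hv : 0 < vv χ := hcut.pos
  have hum : Measurable u := hu.cont.measurable
  have hW : Measurable (fun x => ENNReal.ofReal (w x)) := hwm.ennreal_ofReal
  refine toR u w hu hw0 hwm hwi hv i j k p ?_
  rcases hp with rfl | rfl | rfl
  · -- weight at the first particle
    have hvm : Measurable (fun q : E × E × E => ENNReal.ofReal (u (q.1 - q.2.1, q.1 - q.2.2))) :=
      (hum.comp ((measurable_fst.sub (measurable_fst.comp measurable_snd)).prodMk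
        (measurable_fst.sub (measurable_snd.comp measurable_snd)))).ennreal_ofReal
    have h1 := law (χ := χ) p j k hij hik hjk hL
      (fun q : E × E × E => ENNReal.ofReal (w q.1) * ENNReal.ofReal (u (q.1 - q.2.1, q.1 - q.2.2)))
      ((hW.comp measurable_fst).mul hvm)
    have h2 := triple hcut (fun x => ENNReal.ofReal (w x))
      (fun q : E × E × E => ENNReal.ofReal (u (q.1 - q.2.1, q.1 - q.2.2))) hW hvm
      (∫⁻ z, ENNReal.ofReal (u z)) (by
        intro a
        rw [lint2 u hu]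
        simp only
        have : ∀ b : E, ∫⁻ c : E, ENNReal.ofReal (u (a - b, a - c)) =
            ∫⁻ c : E, ENNReal.ofReal (u (a - b, c)) := fun b =>
          lintegral_sub_left_eq_self (fun c => ENNReal.ofReal (u (a - b, c))) a
        simp only [this]
        exact lintegral_sub_left_eq_self (fun b => ∫⁻ c : E, ENNReal.ofReal (u (b, c))) a)
    exact (le_of_eq h1).trans h2
  · -- weight at the second particle
    have hvm : Measurable (fun q : E × E × E => ENNReal.ofReal (u (q.2.1 - q.1, q.2.1 - q.2.2))) :=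
      (hum.comp (((measurable_fst.comp measurable_snd).sub measurable_fst).prodMk
        ((measurable_fst.comp measurable_snd).sub (measurable_snd.comp measurable_snd)))).ennreal_ofReal
    have h1 := law (χ := χ) p i k hij.symm hjk hik hL
      (fun q : E × E × E => ENNReal.ofReal (w q.1) * ENNReal.ofReal (u (q.2.1 - q.1, q.2.1 - q.2.2)))
      ((hW.comp measurable_fst).mul hvm)
    have h2 := triple hcut (fun x => ENNReal.ofReal (w x))
      (fun q : E × E × E => ENNReal.ofReal (u (q.2.1 - q.1, q.2.1 - q.2.2))) hW hvm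
      (∫⁻ z, ENNReal.ofReal (u z)) (by
        intro a
        rw [lint2 u hu]
        simp only
        have : ∀ b : E, ∫⁻ c : E, ENNReal.ofReal (u (b - a, b - c)) =
            ∫⁻ c : E, ENNReal.ofReal (u (b - a, c)) := fun b =>
          lintegral_sub_left_eq_self (fun c => ENNReal.ofReal (u (b - a, c))) b
        simp only [this]
        exact lintegral_sub_right_eq_self (fun b => ∫⁻ c : E, ENNReal.ofReal (u (b, c))) a)
    exact (le_of_eq h1).trans h2
  · -- weight at the third particle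
    have hvm : Measurable (fun q : E × E × E => ENNReal.ofReal (u (q.2.1 - q.2.2, q.2.1 - q.1))) :=
      (hum.comp (((measurable_fst.comp measurable_snd).sub (measurable_snd.comp measurable_snd)).prodMk
        ((measurable_fst.comp measurable_snd).sub measurable_fst))).ennreal_ofReal
    have h1 := law (χ := χ) p i j hik.symm hjk.symm hij hL
      (fun q : E × E × E => ENNReal.ofReal (w q.1) * ENNReal.ofReal (u (q.2.1 - q.2.2, q.2.1 - q.1)))
      ((hW.comp measurable_fst).mul hvm)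
    have hum2 : Measurable (fun q : E × E => ENNReal.ofReal (u q)) := hum.ennreal_ofReal
    have h2 := triple hcut (fun x => ENNReal.ofReal (w x))
      (fun q : E × E × E => ENNReal.ofReal (u (q.2.1 - q.2.2, q.2.1 - q.1))) hW hvm
      (∫⁻ z, ENNReal.ofReal (u z)) (by
        intro a
        rw [lint2 u hu]
        simp only
        have : ∀ b : E, ∫⁻ c : E, ENNReal.ofReal (u (b - c, b - a)) =
            ∫⁻ c : E, ENNReal.ofReal (u (c, b - a)) := fun b =>
          lintegral_sub_left_eq_self (fun c => ENNReal.ofReal (u (c, b - a))) b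
        simp only [this]
        rw [lintegral_sub_right_eq_self (fun b => ∫⁻ c : E, ENNReal.ofReal (u (c, b))) a]
        exact lintegral_lintegral_swap (hum2.comp measurable_swap).aemeasurable)
    exact (le_of_eq h1).trans h2

end Pool.Agent.TBG
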