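import Pool.Agent.TBG.Stmts

/-!
# Three-body Bose gases (MP_80dc41_mp), module EUB: upper bound of the energy by expectations
-/

set_option autoImplicit false

open MeasureTheory Filter Topology
open scoped ContDiff

namespace Pool.Agent.TBG

namespace EUB_

theorem tr_cont {N : ℕ} {u : E × E → ℝ} (hu : Continuous u) (i j k : Fin N) :
    Continuous (fun X : Fin N → E => tr u X i j k) := by
  unfold tr
  refine hu.comp ?_
  fun_prop

theorem swap4 {α β γ δ : Type} (s : Finset α) (t : Finset β) (u : Finset γ) (v : Finset δ)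
    (g : α → β → γ → δ → ℝ) :
    ∑ a ∈ s, ∑ b ∈ t, ∑ c ∈ u, ∑ d ∈ v, g a b c d =
      ∑ c ∈ u, ∑ d ∈ v, ∑ b ∈ t, ∑ a ∈ s, g a b c d := by
  calc ∑ a ∈ s, ∑ b ∈ t, ∑ c ∈ u, ∑ d ∈ v, g a b c d
      = ∑ a ∈ s, ∑ c ∈ u, ∑ b ∈ t, ∑ d ∈ v, g a b c d :=
        Finset.sum_congr rfl fun a _ => Finset.sum_comm
    _ = ∑ c ∈ u, ∑ a ∈ s, ∑ b ∈ t, ∑ d ∈ v, g a b c d := Finset.sum_comm
    _ = ∑ c ∈ u, ∑ a ∈ s, ∑ d ∈ v, ∑ b ∈ t, g a b c d :=
        Finset.sum_congr rfl fun c _ => Finset.sum_congr rfl fun a _ => Finset.sum_comm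
    _ = ∑ c ∈ u, ∑ d ∈ v, ∑ a ∈ s, ∑ b ∈ t, g a b c d :=
        Finset.sum_congr rfl fun c _ => Finset.sum_comm
    _ = ∑ c ∈ u, ∑ d ∈ v, ∑ b ∈ t, ∑ a ∈ s, g a b c d :=
        Finset.sum_congr rfl fun c _ => Finset.sum_congr rfl fun d _ => Finset.sum_comm

/-- the pointwise bound of the cross terms -/
theorem cross_le {N : ℕ} (T : Finset (Fin N × Fin N × Fin N)) (F : ℝ) (hF : 0 ≤ F)
    (lm : Fin 3 → Fin N → ℝ) (D : Fin N → Fin 3 → ℝ) (G : Fin N × Fin N × Fin N → ℝ)
    (hD : ∀ i c, |D i c| ≤ 2 * ∑ t ∈ T, ∑ m : Fin 3, if sel t m = i then G t else 0) :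
    ∑ i, ∑ c, F * (lm c i * D i c) ≤
      2 * ∑ t ∈ T, ∑ m : Fin 3, ∑ c : Fin 3, F * (|lm c (sel t m)| * G t) := by
  have h1 : ∀ i c, F * (lm c i * D i c) ≤
      ∑ t ∈ T, ∑ m : Fin 3, if sel t m = i then 2 * (F * (|lm c i| * G t)) else 0 := by
    intro i c
    have h2 : lm c i * D i c ≤ |lm c i| * |D i c| := by
      rw [← abs_mul]
      exact le_abs_self _
    have h3 : |lm c i| * |D i c| ≤
        |lm c i| * (2 * ∑ t ∈ T, ∑ m : Fin 3, if sel t m = i then G t else 0) :=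
      mul_le_mul_of_nonneg_left (hD i c) (abs_nonneg _)
    refine (mul_le_mul_of_nonneg_left (h2.trans h3) hF).trans (le_of_eq ?_)
    rw [← mul_assoc, ← mul_assoc, Finset.mul_sum]
    refine Finset.sum_congr rfl fun t _ => ?_
    rw [Finset.mul_sum]
    refine Finset.sum_congr rfl fun m _ => ?_
    split_ifs
    · ring
    · rw [mul_zero]
  refine (Finset.sum_le_sum fun i _ => Finset.sum_le_sum fun c _ => h1 i c).trans
    (le_of_eq ?_)
  rw [swap4, Finset.mul_sum]
  refine Finset.sum_congr rfl fun t _ => ?_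
  rw [Finset.mul_sum]
  refine Finset.sum_congr rfl fun m _ => ?_
  rw [Finset.mul_sum]
  refine Finset.sum_congr rfl fun c _ => ?_
  rw [Finset.sum_ite_eq, if_pos (Finset.mem_univ _)]

end EUB_

open EUB_ in
theorem eub_proof (hENG : Stmt_ENG) (hTRI : Stmt_TRI) (hCFD : Stmt_CFD) (hDUX : Stmt_DUX)
    (hDCC : Stmt_DCC) (hFTB : Stmt_FTB) (hKAF : Stmt_KAF) (_hETW : Stmt_ETW) (hLAM : Stmt_LAM)
    (hLAW : Stmt_LAW) (hPRM : Stmt_PRM) : Stmt_EUB := by
  intro N L χ f V hN hχ hNB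
  obtain ⟨hprob, -, hpi0⟩ := hCFD L χ hχ
  have hpi := hpi0 N
  obtain ⟨hUsm, hUb, -⟩ := hDUX N f hNB.jas
  obtain ⟨hCsm, hCcpt, hCbox, -⟩ := hDCC N L χ hχ hN
  obtain ⟨hsy, hF2, -, hexp⟩ := hFTB N f hNB.jas
  obtain ⟨-, -, hkk, hG1, -⟩ := hKAF f V hNB
  obtain ⟨hlaw, -⟩ := hLAW N L χ hχ
  have hμ : IsProbabilityMeasure (PP χ N) := by unfold PP; infer_instance
  have hen := hENG N L χ f V hN hχ hNB
  have hZZ : ZZ f χ (Finset.univ : Finset (Fin N)) = ∫ X, F2 f Finset.univ X ∂(PP χ N) := rfl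
  rw [hZZ]
  obtain ⟨μ, hμe⟩ : ∃ μ, μ = PP χ N := ⟨_, rfl⟩
  rw [← hμe] at hμ hlaw hpi ⊢
  obtain ⟨hFc, hFb, -⟩ := hF2 Finset.univ
  obtain ⟨F, hF⟩ : ∃ F : (Fin N → E) → ℝ, F = F2 f Finset.univ := ⟨_, rfl⟩
  rw [← hF] at hFc hFb hexp hen ⊢
  have hFpos : ∀ X, 0 < F X := fun X => (hFb X).1
  have hFle : ∀ X, F X ≤ 1 := fun X => (hFb X).2
  have hFn : ∀ X, ‖F X‖ ≤ 1 := fun X => by
    rw [Real.norm_eq_abs, abs_of_pos (hFpos X)]
    exact hFle X
  have hvv : 0 < vv χ := hχ.pos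
  have hFint : Integrable F μ :=
    Integrable.of_bound hFc.aestronglyMeasurable 1 (Eventually.of_forall hFn)
  have hFipos : 0 < ∫ X, F X ∂μ := by
    rw [integral_pos_iff_support_of_nonneg (fun X => (hFpos X).le) hFint]
    have h1 : Function.support F = Set.univ :=
      Set.eq_univ_of_forall fun X => (hFpos X).ne'
    rw [h1, measure_univ]
    exact zero_lt_one
  -- the norm of the trial function
  have hnorm : ∫ X, Psi0 (N := N) χ f X ^ 2 = vv χ ^ N * ∫ X, F X ∂μ := by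
    rw [← hpi F]
    refine integral_congr_ae (Eventually.of_forall fun X => ?_)
    show (CC χ X * Real.exp (UU f X)) ^ 2 = CC χ X ^ 2 * F X
    rw [mul_pow, hexp X]
  have hsymm : ∀ (σ : Equiv.Perm (Fin N)) (X), Psi0 (N := N) χ f (fun i => X (σ i)) =
      Psi0 (N := N) χ f X := by
    intro σ X
    unfold Psi0
    have h1 : CC χ (fun i => X (σ i)) = CC χ X := by
      unfold CC
      exact Equiv.prod_comp σ (fun i => χ (X i))
    have h2 : UU f (fun i => X (σ i)) = UU f X := by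
      have h3 := hPRM N (fun i j k => Real.log (tr f X i j k)) σ
        (fun i j k => by rw [(hsy X i j k).1]) (fun i j k => by rw [(hsy X i j k).2.1])
      exact h3
    rw [h1, h2]
  have htri := hTRI N L V (Psi0 (N := N) χ f) hNB.adm (hCsm.mul hUsm.exp) hCcpt.mul_right
    (tsupport_mul_subset_left.trans hCbox) hsymm (by
      rw [hnorm]
      exact mul_pos (pow_pos hvv N) hFipos)
  rw [hnorm, hen, hpi] at htri
  have hvN : 0 < vv χ ^ N := pow_pos hvv N
  have hmain : E0 V N L * ∫ X, F X ∂μ ≤ ∫ X, (F X *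
      (∑ t ∈ trip (Finset.univ : Finset (Fin N)), tr (kk f V) X t.1 t.2.1 t.2.2
        + ∑ i, ∑ c, (lam χ c (X i) ^ 2 + lam χ c (X i) * dv (dir i c) (UU f) X))) ∂μ := by
    refine le_of_mul_le_mul_left ?_ hvN
    calc vv χ ^ N * (E0 V N L * ∫ X, F X ∂μ) = E0 V N L * (vv χ ^ N * ∫ X, F X ∂μ) := by ring
      _ ≤ _ := htri
  refine hmain.trans ?_
  -- integrability
  obtain ⟨Ck, hCk⟩ := hkk.cont.bounded_above_of_compact_support hkk.cpt
  obtain ⟨Cg, hCg⟩ := hG1.cont.bounded_above_of_compact_support hG1.cpt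
  have hCg0 : 0 ≤ Cg := (norm_nonneg _).trans (hCg 0)
  have hA : ∀ t : Fin N × Fin N × Fin N,
      Integrable (fun X => F X * tr (kk f V) X t.1 t.2.1 t.2.2) μ := fun t =>
    hFint.mul_bdd (tr_cont hkk.cont _ _ _).aestronglyMeasurable
      (Eventually.of_forall fun X => hCk _)
  have hB : ∀ (i : Fin N) (c : Fin 3), Integrable (fun X => F X * lam χ c (X i) ^ 2) μ := by
    intro i c
    obtain ⟨-, -, hI2, -⟩ := hLAM L χ c hχ
    rw [← hlaw i] at hI2
    have h1 := hI2.comp_measurable (measurable_pi_apply i)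
    exact h1.bdd_mul hFc.aestronglyMeasurable (Eventually.of_forall hFn)
  have hl1 : ∀ (i : Fin N) (c : Fin 3), Integrable (fun X : Fin N → E => |lam χ c (X i)|) μ := by
    intro i c
    obtain ⟨-, -, -, hI1, -⟩ := hLAM L χ c hχ
    rw [← hlaw i] at hI1
    exact hI1.comp_measurable (measurable_pi_apply i)
  have hl : ∀ (i : Fin N) (c : Fin 3), Integrable (fun X : Fin N → E => lam χ c (X i)) μ := by
    intro i c
    have hm : Measurable (fun X : Fin N → E => lam χ c (X i)) :=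
      (hLAM L χ c hχ).1.comp (measurable_pi_apply i)
    exact (integrable_norm_iff hm.aestronglyMeasurable).1 (hl1 i c)
  have hD : ∀ (t : Fin N × Fin N × Fin N) (m c : Fin 3), Integrable (fun X => F X *
      (|lam χ c (X (sel t m))| * tr (G1 f) X t.1 t.2.1 t.2.2)) μ := by
    intro t m c
    have h1 := (hl1 (sel t m) c).mul_bdd (tr_cont hG1.cont t.1 t.2.1 t.2.2).aestronglyMeasurable
      (Eventually.of_forall fun X => hCg (X t.1 - X t.2.1, X t.1 - X t.2.2))
    exact h1.bdd_mul hFc.aestronglyMeasurable (Eventually.of_forall hFn)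
  have hdvc : ∀ (i : Fin N) (c : Fin 3), Continuous (fun X => dv (dir i c) (UU (N := N) f) X) := by
    intro i c
    unfold dv
    exact (hUsm.continuous_fderiv (by simp)).clm_apply continuous_const
  have hdvb : ∀ (i : Fin N) (c : Fin 3) (X : Fin N → E), ‖dv (dir i c) (UU f) X‖ ≤
      2 * ∑ t ∈ trip (Finset.univ : Finset (Fin N)), ∑ m : Fin 3, Cg := by
    intro i c X
    refine (hUb X i c).trans ?_
    refine mul_le_mul_of_nonneg_left ?_ (by norm_num)
    refine Finset.sum_le_sum fun t _ => Finset.sum_le_sum fun m _ => ?_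
    split_ifs
    · exact (le_abs_self _).trans (hCg _)
    · exact hCg0
  have hC : ∀ (i : Fin N) (c : Fin 3), Integrable (fun X => F X *
      (lam χ c (X i) * dv (dir i c) (UU f) X)) μ := by
    intro i c
    have h1 := (hl i c).mul_bdd (hdvc i c).aestronglyMeasurable
      (Eventually.of_forall fun X => hdvb i c X)
    exact h1.bdd_mul hFc.aestronglyMeasurable (Eventually.of_forall hFn)
  -- the integrals of the three sums
  have hAi : Integrable (fun X => ∑ t ∈ trip (Finset.univ : Finset (Fin N)),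
      F X * tr (kk f V) X t.1 t.2.1 t.2.2) μ := integrable_finsetSum _ fun t _ => hA t
  have hBi : Integrable (fun X => ∑ i, ∑ c, F X * lam χ c (X i) ^ 2) μ :=
    integrable_finsetSum _ fun i _ => integrable_finsetSum _ fun c _ => hB i c
  have hCi : Integrable (fun X => ∑ i, ∑ c, F X *
      (lam χ c (X i) * dv (dir i c) (UU f) X)) μ :=
    integrable_finsetSum _ fun i _ => integrable_finsetSum _ fun c _ => hC i c
  have hDi : Integrable (fun X => ∑ t ∈ trip (Finset.univ : Finset (Fin N)), ∑ m : Fin 3,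
      ∑ c : Fin 3, F X * (|lam χ c (X (sel t m))| * tr (G1 f) X t.1 t.2.1 t.2.2)) μ :=
    integrable_finsetSum _ fun t _ => integrable_finsetSum _ fun m _ =>
      integrable_finsetSum _ fun c _ => hD t m c
  have hsplit : (fun X => F X *
      (∑ t ∈ trip (Finset.univ : Finset (Fin N)), tr (kk f V) X t.1 t.2.1 t.2.2
        + ∑ i, ∑ c, (lam χ c (X i) ^ 2 + lam χ c (X i) * dv (dir i c) (UU f) X))) =
      fun X => (∑ t ∈ trip (Finset.univ : Finset (Fin N)),
        F X * tr (kk f V) X t.1 t.2.1 t.2.2 + ∑ i, ∑ c, F X * lam χ c (X i) ^ 2) +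
        ∑ i, ∑ c, F X * (lam χ c (X i) * dv (dir i c) (UU f) X) := by
    funext X
    simp only [Finset.mul_sum, mul_add, Finset.sum_add_distrib]
    ring
  have hABi : Integrable (fun X => ∑ t ∈ trip (Finset.univ : Finset (Fin N)),
      F X * tr (kk f V) X t.1 t.2.1 t.2.2 + ∑ i, ∑ c, F X * lam χ c (X i) ^ 2) μ := hAi.add hBi
  have hr : ∫ X, ((∑ t ∈ trip (Finset.univ : Finset (Fin N)),
        F X * tr (kk f V) X t.1 t.2.1 t.2.2 + ∑ i, ∑ c, F X * lam χ c (X i) ^ 2) +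
        2 * ∑ t ∈ trip (Finset.univ : Finset (Fin N)), ∑ m : Fin 3,
      ∑ c : Fin 3, F X * (|lam χ c (X (sel t m))| * tr (G1 f) X t.1 t.2.1 t.2.2)) ∂μ =
      ∑ t ∈ trip (Finset.univ : Finset (Fin N)),
        ∫ X, F X * tr (kk f V) X t.1 t.2.1 t.2.2 ∂μ +
      ∑ i : Fin N, ∑ c : Fin 3, ∫ X, F X * lam χ c (X i) ^ 2 ∂μ +
      2 * ∑ t ∈ trip (Finset.univ : Finset (Fin N)), ∑ m : Fin 3, ∑ c : Fin 3,
        ∫ X, F X * (|lam χ c (X (sel t m))| * tr (G1 f) X t.1 t.2.1 t.2.2) ∂μ := by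
    rw [integral_add hABi (hDi.const_mul 2), integral_add hAi hBi,
      integral_const_mul, integral_finsetSum _ (fun t _ => hA t),
      integral_finsetSum _ (fun i _ => integrable_finsetSum _ fun c _ => hB i c),
      integral_finsetSum _ (fun t _ => integrable_finsetSum _ fun m _ =>
        integrable_finsetSum _ fun c _ => hD t m c)]
    congr 1
    · congr 1
      refine Finset.sum_congr rfl fun i _ => ?_
      exact integral_finsetSum _ (fun c _ => hB i c)
    · congr 1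
      refine Finset.sum_congr rfl fun t _ => ?_
      rw [integral_finsetSum _ (fun m _ => integrable_finsetSum _ fun c _ => hD t m c)]
      refine Finset.sum_congr rfl fun m _ => ?_
      exact integral_finsetSum _ (fun c _ => hD t m c)
  rw [hsplit, ← hr]
  refine integral_mono (hABi.add hCi) (hABi.add (hDi.const_mul 2)) fun X => ?_
  have hp := cross_le (trip (Finset.univ : Finset (Fin N))) (F X) (hFpos X).le
    (fun c i => lam χ c (X i)) (fun i c => dv (dir i c) (UU f) X)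
    (fun t => tr (G1 f) X t.1 t.2.1 t.2.2) (fun i c => hUb X i c)
  exact add_le_add_right hp _

end Pool.Agent.TBG
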