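import Pool.Agent.TBG.Stmts

set_option autoImplicit false

open MeasureTheory Filter Topology
open scoped ContDiff

namespace Pool.Agent.TBG

namespace EXB_

lemma integrable_cb {N : ℕ} {μ : Measure (Fin N → E)} [IsFiniteMeasure μ] {h : (Fin N → E) → ℝ}
    (hc : Continuous h) (C : ℝ) (hC : ∀ X, |h X| ≤ C) : Integrable h μ := by
  refine Integrable.mono' (integrable_const C) hc.aestronglyMeasurable ?_
  exact Filter.Eventually.of_forall (fun X => by rw [Real.norm_eq_abs]; exact hC X)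

lemma cont_tr {N : ℕ} {u : E × E → ℝ} (hu : Continuous u) (i j k : Fin N) :
    Continuous (fun X : Fin N → E => tr u X i j k) := by
  unfold tr
  exact hu.comp (by fun_prop)

lemma tr_dep {N : ℕ} (u : E × E → ℝ) (i j k : Fin N) (X Y : Fin N → E) (hi : X i = Y i)
    (hj : X j = Y j) (hk : X k = Y k) : tr u X i j k = tr u Y i j k := by
  unfold tr
  rw [hi, hj, hk]

lemma erase_eq {N : ℕ} (i j k : Fin N) :
    ((Finset.univ.erase i).erase j).erase k = (Finset.univ : Finset (Fin N)) \ {i, j, k} := by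
  ext x
  simp only [Finset.mem_erase, Finset.mem_univ, and_true, Finset.mem_sdiff, Finset.mem_insert,
    Finset.mem_singleton, true_and, not_or]
  tauto

lemma zz_le {N : ℕ} (f : E × E → ℝ) (χ : E → ℝ) (θ : ℝ) (hθ : 1 ≤ θ)
    (hr : ∀ (S : Finset (Fin N)) (i : Fin N), i ∉ S → ZZ f χ S ≤ θ * ZZ f χ (insert i S))
    (D : Finset (Fin N)) :
    ZZ f χ ((Finset.univ : Finset (Fin N)) \ D) ≤ θ ^ D.card * ZZ f χ (Finset.univ : Finset (Fin N)) := by
  induction D using Finset.induction_on with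
  | empty => simp
  | insert a D ha ih =>
    have h1 : insert a ((Finset.univ : Finset (Fin N)) \ insert a D) = Finset.univ \ D := by
      ext x
      simp only [Finset.mem_insert, Finset.mem_sdiff, Finset.mem_univ, true_and, not_or]
      by_cases hx : x = a
      · subst hx; simp [ha]
      · simp [hx]
    have h2 := hr (Finset.univ \ insert a D) a (by simp)
    rw [h1] at h2
    rw [Finset.card_insert_of_notMem ha, pow_succ]
    calc ZZ f χ (Finset.univ \ insert a D) ≤ θ * ZZ f χ (Finset.univ \ D) := h2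
      _ ≤ θ * (θ ^ D.card * ZZ f χ Finset.univ) :=
        mul_le_mul_of_nonneg_left ih (by linarith)
      _ = _ := by ring

lemma zz_mono {N : ℕ} (hFTB : Stmt_FTB) (f : E × E → ℝ) (χ : E → ℝ) (hf : Jas f)
    [IsProbabilityMeasure (PP χ N)] (S : Finset (Fin N)) :
    0 ≤ ZZ f χ (Finset.univ : Finset (Fin N)) ∧ ZZ f χ (Finset.univ : Finset (Fin N)) ≤ ZZ f χ S := by
  obtain ⟨-, h2, h3, -⟩ := hFTB N f hf
  have hint : ∀ S : Finset (Fin N), Integrable (F2 f S) (PP χ N) := fun S =>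
    integrable_cb (h2 S).1 1 (fun X => by rw [abs_of_pos ((h2 S).2.1 X).1]; exact ((h2 S).2.1 X).2)
  constructor
  · exact integral_nonneg (fun X => ((h2 Finset.univ).2.1 X).1.le)
  · exact integral_mono (hint _) (hint _) (fun X => h3 S Finset.univ X (Finset.subset_univ _))

lemma ind_key {N : ℕ} (hIND : Stmt_IND) (hFTB : Stmt_FTB) (L : ℝ) (χ : E → ℝ) (f : E × E → ℝ)
    (hχ : Cut L χ) (hf : Jas f) (D : Finset (Fin N)) (w : (Fin N → E) → ℝ) (hw : Continuous w)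
    (hD : ∀ X Y : Fin N → E, (∀ i ∈ D, X i = Y i) → w X = w Y) :
    ∫ X, F2 f (Finset.univ \ D) X * w X ∂(PP χ N) =
      ZZ f χ (Finset.univ \ D) * ∫ X, w X ∂(PP χ N) := by
  obtain ⟨-, h2, -, -⟩ := hFTB N f hf
  exact hIND N L χ (Finset.univ \ D) D (F2 f (Finset.univ \ D)) w hχ Finset.sdiff_disjoint
    (h2 _).1.measurable hw.measurable (h2 _).2.2 hD

/-- the upper bound -/
lemma ub {N : ℕ} (hIND : Stmt_IND) (hFTB : Stmt_FTB) (L : ℝ) (χ : E → ℝ) (f : E × E → ℝ)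
    (hχ : Cut L χ) (hf : Jas f) [IsProbabilityMeasure (PP χ N)] (θ : ℝ) (hθ : 1 ≤ θ)
    (hr : ∀ (S : Finset (Fin N)) (i : Fin N), i ∉ S → ZZ f χ S ≤ θ * ZZ f χ (insert i S))
    (D : Finset (Fin N)) (w : (Fin N → E) → ℝ) (hw : Continuous w)
    (hD : ∀ X Y : Fin N → E, (∀ i ∈ D, X i = Y i) → w X = w Y) (hw0 : ∀ X, 0 ≤ w X) (K : ℝ)
    (hK : ∫ X, w X ∂(PP χ N) ≤ K) (n : ℕ) (hn : D.card = n) :
    ∫ X, F2 f (Finset.univ \ D) X * w X ∂(PP χ N) ≤
      ZZ f χ (Finset.univ : Finset (Fin N)) * (θ ^ n * K) := by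
  rw [ind_key hIND hFTB L χ f hχ hf D w hw hD]
  have h1 := zz_le f χ θ hθ hr D
  rw [hn] at h1
  have h0 : 0 ≤ ∫ X, w X ∂(PP χ N) := integral_nonneg hw0
  obtain ⟨hz, hz2⟩ := zz_mono hFTB f χ hf (N := N) (Finset.univ \ D)
  calc ZZ f χ (Finset.univ \ D) * ∫ X, w X ∂(PP χ N)
      ≤ (θ ^ n * ZZ f χ Finset.univ) * ∫ X, w X ∂(PP χ N) := mul_le_mul_of_nonneg_right h1 h0
    _ ≤ (θ ^ n * ZZ f χ Finset.univ) * K := by
        refine mul_le_mul_of_nonneg_left hK (mul_nonneg ?_ hz)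
        exact pow_nonneg (by linarith) n
    _ = _ := by ring

/-- the lower bound -/
lemma lb {N : ℕ} (hIND : Stmt_IND) (hFTB : Stmt_FTB) (L : ℝ) (χ : E → ℝ) (f : E × E → ℝ)
    (hχ : Cut L χ) (hf : Jas f) [IsProbabilityMeasure (PP χ N)]
    (D : Finset (Fin N)) (w : (Fin N → E) → ℝ) (hw : Continuous w)
    (hD : ∀ X Y : Fin N → E, (∀ i ∈ D, X i = Y i) → w X = w Y) (K : ℝ) (hK0 : 0 ≤ K)
    (hK : K ≤ ∫ X, w X ∂(PP χ N)) :
    ZZ f χ (Finset.univ : Finset (Fin N)) * K ≤ ∫ X, F2 f (Finset.univ \ D) X * w X ∂(PP χ N) := by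
  rw [ind_key hIND hFTB L χ f hχ hf D w hw hD]
  obtain ⟨hz, hz2⟩ := zz_mono hFTB f χ hf (N := N) (Finset.univ \ D)
  exact mul_le_mul hz2 hK hK0 (hz.trans hz2)

end EXB_

open EXB_ in
theorem exb_proof (hCFD : Stmt_CFD) (hFTB : Stmt_FTB) (hGAI : Stmt_GAI) (hLOW : Stmt_LOW)
    (hIND : Stmt_IND) (hCRD : Stmt_CRD) (hKAF : Stmt_KAF) : Stmt_EXB := by
  intro N L χ f V θ K1 K2 K3 K4 hχ hNB hθ hK1 hK2 hK3 hK4 hr h1 h2 h3 h4 i j k hij hjk
  haveI hp : IsProbabilityMeasure (nu χ) := (hCFD L χ hχ).1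
  haveI hpp : IsProbabilityMeasure (PP χ N) := by
    unfold PP
    infer_instance
  have hf : Jas f := hNB.jas
  obtain ⟨hkC, haC, hkkC, -, ha1, -⟩ := hKAF f V hNB
  obtain ⟨-, hF, hFm, -⟩ := hFTB N f hf
  have hF0 : ∀ (S : Finset (Fin N)) X, 0 ≤ F2 f S X := fun S X => ((hF S).2.1 X).1.le
  have hF1 : ∀ (S : Finset (Fin N)) X, F2 f S X ≤ 1 := fun S X => ((hF S).2.1 X).2
  obtain ⟨Cκ, hCκ⟩ := hkC.cont.bounded_above_of_compact_support hkC.cpt
  obtain ⟨Ck, hCk⟩ := hkkC.cont.bounded_above_of_compact_support hkkC.cpt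
  have hik : i < k := hij.trans hjk
  -- abbreviations
  set κ : (Fin N → E) → ℝ := fun X => tr (kap f V) X i j k with hκ
  set a : Fin N → (Fin N → E) → ℝ := fun l X => tr (aa f) X i j l with ha
  have hκ0 : ∀ X, 0 ≤ κ X := fun X => hkC.nonneg _
  have hκC : ∀ X, κ X ≤ Cκ := fun X => (le_abs_self _).trans (hCκ _)
  have hCκ0 : 0 ≤ Cκ := (hκ0 0).trans (hκC 0)
  have ha0 : ∀ l X, 0 ≤ a l X := fun l X => haC.nonneg _
  have ha1' : ∀ l X, a l X ≤ 1 := fun l X => ha1 _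
  have hb0 : ∀ (l p q : Fin N) (X : Fin N → E), 0 ≤ tr (aa f) X l p q := fun l p q X => haC.nonneg _
  have hb1 : ∀ (l p q : Fin N) (X : Fin N → E), tr (aa f) X l p q ≤ 1 := fun l p q X => ha1 _
  have hκc : Continuous κ := cont_tr hkC.cont i j k
  have hac : ∀ l, Continuous (a l) := fun l => cont_tr haC.cont i j l
  set T : Finset (Fin N) := Finset.univ \ {i, j, k} with hT
  have hTe : T = ((Finset.univ.erase i).erase j).erase k := (erase_eq i j k).symm
  set A0 : (Fin N → E) → ℝ := fun X => F2 f (Finset.univ \ {i, j, k}) X * κ X with hA0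
  set A1 : Fin N → (Fin N → E) → ℝ :=
    fun l X => F2 f (Finset.univ \ {i, j, k, l}) X * (κ X * a l X) with hA1
  set A2 : Fin N → (Fin N × Fin N) → (Fin N → E) → ℝ :=
    fun l p X => F2 f (Finset.univ \ {i, j, k, l, p.1, p.2}) X *
      (κ X * a l X * tr (aa f) X l p.1 p.2) with hA2
  set A3 : Fin N → Fin N → (Fin N → E) → ℝ :=
    fun l m X => F2 f (Finset.univ \ {i, j, k, l, m}) X * (κ X * a l X * a m X) with hA3
  -- integrability
  have hint : ∀ (S : Finset (Fin N)) (w : (Fin N → E) → ℝ), Continuous w → (∀ X, 0 ≤ w X) →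
      (∀ X, w X ≤ Cκ) → Integrable (fun X => F2 f S X * w X) (PP χ N) := by
    intro S w hw hw0 hwC
    refine integrable_cb ((hF S).1.mul hw) Cκ (fun X => ?_)
    rw [abs_of_nonneg (mul_nonneg (hF0 S X) (hw0 X))]
    calc F2 f S X * w X ≤ 1 * w X := mul_le_mul_of_nonneg_right (hF1 S X) (hw0 X)
      _ ≤ Cκ := by rw [one_mul]; exact hwC X
  have i0 : Integrable A0 (PP χ N) := hint _ _ hκc hκ0 hκC
  have hka : ∀ l X, κ X * a l X ≤ Cκ := fun l X =>
    (mul_le_of_le_one_right (hκ0 X) (ha1' l X)).trans (hκC X)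
  have i1 : ∀ l, Integrable (A1 l) (PP χ N) := fun l => hint _ _ (hκc.mul (hac l))
    (fun X => mul_nonneg (hκ0 X) (ha0 l X)) (hka l)
  have i2 : ∀ l p, Integrable (A2 l p) (PP χ N) := fun l p => hint _ _
    ((hκc.mul (hac l)).mul (cont_tr haC.cont l p.1 p.2))
    (fun X => mul_nonneg (mul_nonneg (hκ0 X) (ha0 l X)) (hb0 _ _ _ _))
    (fun X => (mul_le_of_le_one_right (mul_nonneg (hκ0 X) (ha0 l X)) (hb1 _ _ _ _)).trans (hka l X))
  have i3 : ∀ l m, Integrable (A3 l m) (PP χ N) := fun l m => hint _ _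
    ((hκc.mul (hac l)).mul (hac m))
    (fun X => mul_nonneg (mul_nonneg (hκ0 X) (ha0 l X)) (ha0 m X))
    (fun X => (mul_le_of_le_one_right (mul_nonneg (hκ0 X) (ha0 l X)) (ha1' m X)).trans (hka l X))
  -- pointwise bound
  have hpt : ∀ X, F2 f Finset.univ X * tr (kk f V) X i j k ≤
      A0 X - ∑ l ∈ T, (A1 l X - ∑ p ∈ prs (T.erase l), A2 l p X)
        + 1 / 2 * ∑ l ∈ T, ∑ m ∈ T.erase l, A3 l m X := by
    intro X
    have hg := hGAI N f V X i j k T hNB hij hjk hTe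
    refine hg.trans ?_
    have e1 : F2 f T X * tr (kap f V) X i j k *
        (1 - ∑ l ∈ T, tr (aa f) X i j l +
          1 / 2 * ∑ l ∈ T, ∑ m ∈ T.erase l, tr (aa f) X i j l * tr (aa f) X i j m) =
        F2 f T X * κ X - ∑ l ∈ T, F2 f T X * (κ X * a l X)
          + 1 / 2 * ∑ l ∈ T, ∑ m ∈ T.erase l, F2 f T X * (κ X * a l X * a m X) := by
      have e2 : ∑ l ∈ T, F2 f T X * (κ X * a l X) = F2 f T X * κ X * ∑ l ∈ T, a l X := by
        rw [Finset.mul_sum]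
        exact Finset.sum_congr rfl (fun l _ => by ring)
      have e3 : ∑ l ∈ T, ∑ m ∈ T.erase l, F2 f T X * (κ X * a l X * a m X) =
          F2 f T X * κ X * ∑ l ∈ T, ∑ m ∈ T.erase l, a l X * a m X := by
        rw [Finset.mul_sum]
        refine Finset.sum_congr rfl (fun l _ => ?_)
        rw [Finset.mul_sum]
        exact Finset.sum_congr rfl (fun m _ => by ring)
      rw [e2, e3]
      simp only [hκ, ha]
      ring
    rw [e1]
    have e4 : ∑ l ∈ T, (A1 l X - ∑ p ∈ prs (T.erase l), A2 l p X) ≤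
        ∑ l ∈ T, F2 f T X * (κ X * a l X) := by
      refine Finset.sum_le_sum (fun l hl => ?_)
      have hlow := hLOW N f X T l hf hl
      have hTl : T.erase l = Finset.univ \ {i, j, k, l} := by
        ext x
        simp only [hT, Finset.mem_erase, Finset.mem_univ, Finset.mem_sdiff, Finset.mem_insert,
          Finset.mem_singleton, true_and, not_or]
        tauto
      have hw := mul_nonneg (hκ0 X) (ha0 l X)
      have e5 := mul_le_mul_of_nonneg_right hlow hw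
      refine le_trans ?_ e5
      have e6 : F2 f (T.erase l) X * (1 - ∑ p ∈ prs (T.erase l), tr (aa f) X l p.1 p.2) *
          (κ X * a l X) = A1 l X - ∑ p ∈ prs (T.erase l), F2 f (T.erase l) X *
            (κ X * a l X * tr (aa f) X l p.1 p.2) := by
        have e7 : ∑ p ∈ prs (T.erase l), F2 f (T.erase l) X *
            (κ X * a l X * tr (aa f) X l p.1 p.2) = F2 f (T.erase l) X * (κ X * a l X) *
              ∑ p ∈ prs (T.erase l), tr (aa f) X l p.1 p.2 := by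
          rw [Finset.mul_sum]
          exact Finset.sum_congr rfl (fun p _ => by ring)
        rw [e7]
        simp only [hA1]
        rw [hTl]
        ring
      rw [e6]
      refine sub_le_sub_left (Finset.sum_le_sum (fun p _ => ?_)) _
      refine mul_le_mul_of_nonneg_right ?_ (mul_nonneg hw (hb0 _ _ _ _))
      refine hFm _ _ X ?_
      rw [hTl]
      intro x hx
      simp only [Finset.mem_univ, Finset.mem_sdiff, Finset.mem_insert,
          Finset.mem_singleton, true_and, not_or] at hx ⊢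
      exact ⟨hx.1, hx.2.1, hx.2.2.1, hx.2.2.2.1⟩
    have e8 : ∑ l ∈ T, ∑ m ∈ T.erase l, F2 f T X * (κ X * a l X * a m X) ≤
        ∑ l ∈ T, ∑ m ∈ T.erase l, A3 l m X := by
      refine Finset.sum_le_sum (fun l _ => Finset.sum_le_sum (fun m _ => ?_))
      refine mul_le_mul_of_nonneg_right (hFm _ _ X ?_)
        (mul_nonneg (mul_nonneg (hκ0 X) (ha0 l X)) (ha0 m X))
      intro x hx
      simp only [hT, Finset.mem_univ, Finset.mem_sdiff, Finset.mem_insert,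
          Finset.mem_singleton, true_and, not_or] at hx ⊢
      exact ⟨hx.1, hx.2.1, hx.2.2.1⟩
    have e9 : A0 X = F2 f T X * κ X := rfl
    rw [e9]
    linarith
  -- integrate
  have hI2 : ∀ l, Integrable (fun X => ∑ p ∈ prs (T.erase l), A2 l p X) (PP χ N) := fun l =>
    integrable_finset_sum _ (fun p _ => i2 l p)
  have hI12 : ∀ l, Integrable (fun X => A1 l X - ∑ p ∈ prs (T.erase l), A2 l p X) (PP χ N) :=
    fun l => (i1 l).sub (hI2 l)
  have hI12s : Integrable (fun X => ∑ l ∈ T, (A1 l X - ∑ p ∈ prs (T.erase l), A2 l p X)) (PP χ N) :=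
    integrable_finset_sum _ (fun l _ => hI12 l)
  have hI3 : ∀ l, Integrable (fun X => ∑ m ∈ T.erase l, A3 l m X) (PP χ N) := fun l =>
    integrable_finset_sum _ (fun m _ => i3 l m)
  have hI3s : Integrable (fun X => ∑ l ∈ T, ∑ m ∈ T.erase l, A3 l m X) (PP χ N) :=
    integrable_finset_sum _ (fun l _ => hI3 l)
  have hIk : Integrable (fun X => F2 f Finset.univ X * tr (kk f V) X i j k) (PP χ N) := by
    refine integrable_cb ((hF _).1.mul (cont_tr hkkC.cont i j k)) Ck (fun X => ?_)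
    have hk0 : 0 ≤ tr (kk f V) X i j k := hkkC.nonneg _
    rw [abs_of_nonneg (mul_nonneg (hF0 _ X) hk0)]
    calc F2 f Finset.univ X * tr (kk f V) X i j k ≤ 1 * tr (kk f V) X i j k :=
          mul_le_mul_of_nonneg_right (hF1 _ X) hk0
      _ ≤ Ck := by rw [one_mul]; exact (le_abs_self _).trans (hCk _)
  have hstep : ∫ X, F2 f Finset.univ X * tr (kk f V) X i j k ∂(PP χ N) ≤
      ∫ X, A0 X ∂(PP χ N) - ∑ l ∈ T, (∫ X, A1 l X ∂(PP χ N)
        - ∑ p ∈ prs (T.erase l), ∫ X, A2 l p X ∂(PP χ N))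
        + 1 / 2 * ∑ l ∈ T, ∑ m ∈ T.erase l, ∫ X, A3 l m X ∂(PP χ N) := by
    have hmono := integral_mono hIk ((i0.sub hI12s).add (hI3s.const_mul (1 / 2))) hpt
    refine hmono.trans (le_of_eq ?_)
    have s1 : ∫ X, (A0 X - ∑ l ∈ T, (A1 l X - ∑ p ∈ prs (T.erase l), A2 l p X))
        + 1 / 2 * ∑ l ∈ T, ∑ m ∈ T.erase l, A3 l m X ∂(PP χ N) =
        ∫ X, (A0 X - ∑ l ∈ T, (A1 l X - ∑ p ∈ prs (T.erase l), A2 l p X)) ∂(PP χ N)
        + ∫ X, 1 / 2 * ∑ l ∈ T, ∑ m ∈ T.erase l, A3 l m X ∂(PP χ N) :=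
      integral_add (i0.sub hI12s) (hI3s.const_mul (1 / 2))
    have s2 : ∫ X, (A0 X - ∑ l ∈ T, (A1 l X - ∑ p ∈ prs (T.erase l), A2 l p X)) ∂(PP χ N) =
        ∫ X, A0 X ∂(PP χ N) - ∫ X, ∑ l ∈ T, (A1 l X - ∑ p ∈ prs (T.erase l), A2 l p X) ∂(PP χ N) :=
      integral_sub i0 hI12s
    have s3 : ∫ X, ∑ l ∈ T, (A1 l X - ∑ p ∈ prs (T.erase l), A2 l p X) ∂(PP χ N) =
        ∑ l ∈ T, (∫ X, A1 l X ∂(PP χ N) - ∑ p ∈ prs (T.erase l), ∫ X, A2 l p X ∂(PP χ N)) := by
      rw [integral_finset_sum _ (fun l _ => hI12 l)]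
      refine Finset.sum_congr rfl (fun l _ => ?_)
      rw [integral_sub (i1 l) (hI2 l), integral_finset_sum _ (fun p _ => i2 l p)]
    have s4 : ∫ X, 1 / 2 * ∑ l ∈ T, ∑ m ∈ T.erase l, A3 l m X ∂(PP χ N) =
        1 / 2 * ∑ l ∈ T, ∑ m ∈ T.erase l, ∫ X, A3 l m X ∂(PP χ N) := by
      rw [integral_const_mul, integral_finset_sum _ (fun l _ => hI3 l)]
      congr 1
      refine Finset.sum_congr rfl (fun l _ => ?_)
      rw [integral_finset_sum _ (fun m _ => i3 l m)]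
    rw [← s3, ← s4, ← s2, ← s1]
    rfl
  refine hstep.trans ?_
  set Z := ZZ f χ (Finset.univ : Finset (Fin N)) with hZ
  have hZ0 : 0 ≤ Z := (zz_mono hFTB f χ hf (N := N) Finset.univ).1
  -- the terms
  have hTm : ∀ l, l ∈ T → l ≠ i ∧ l ≠ j ∧ l ≠ k := by
    intro l hl
    simpa only [hT, Finset.mem_univ, Finset.mem_sdiff, Finset.mem_insert,
          Finset.mem_singleton, true_and, not_or] using hl
  have hc3 : ({i, j, k} : Finset (Fin N)).card = 3 := by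
    rw [Finset.card_eq_three]
    exact ⟨i, j, k, hij.ne, hik.ne, hjk.ne, rfl⟩
  have t0 : ∫ X, A0 X ∂(PP χ N) ≤ Z * (θ ^ 3 * K1) := by
    refine ub hIND hFTB L χ f hχ hf θ hθ hr {i, j, k} κ hκc ?_ hκ0 K1 (h1 i j k ?_) 3 hc3
    · intro X Y hXY
      exact tr_dep _ i j k X Y (hXY i (by simp)) (hXY j (by simp)) (hXY k (by simp))
    · simp [hij.ne, hik.ne, hjk.ne]
  have t1 : ∀ l ∈ T, Z * K2 ≤ ∫ X, A1 l X ∂(PP χ N) := by
    intro l hl
    obtain ⟨hli, hlj, hlk⟩ := hTm l hl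
    refine lb hIND hFTB L χ f hχ hf {i, j, k, l} (fun X => κ X * a l X) (hκc.mul (hac l)) ?_ K2 hK2
      (h2 i j k l ?_)
    · intro X Y hXY
      have q1 : κ X = κ Y :=
        tr_dep _ i j k X Y (hXY i (by simp)) (hXY j (by simp)) (hXY k (by simp))
      have q2 : a l X = a l Y :=
        tr_dep _ i j l X Y (hXY i (by simp)) (hXY j (by simp)) (hXY l (by simp))
      simp only [q1, q2]
    · simp [hij.ne, hik.ne, hjk.ne, hli.symm, hlj.symm, hlk.symm]
  have t3 : ∀ l ∈ T, ∀ m ∈ T.erase l, ∫ X, A3 l m X ∂(PP χ N) ≤ Z * (θ ^ 5 * K3) := by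
    intro l hl m hm
    obtain ⟨hli, hlj, hlk⟩ := hTm l hl
    obtain ⟨hml, hm'⟩ := Finset.mem_erase.mp hm
    obtain ⟨hmi, hmj, hmk⟩ := hTm m hm'
    refine ub hIND hFTB L χ f hχ hf θ hθ hr {i, j, k, l, m} (fun X => κ X * a l X * a m X)
      ((hκc.mul (hac l)).mul (hac m)) ?_
      (fun X => mul_nonneg (mul_nonneg (hκ0 X) (ha0 l X)) (ha0 m X)) K3 (h3 i j k l m ?_) 5 ?_
    · intro X Y hXY
      have q1 : κ X = κ Y :=
        tr_dep _ i j k X Y (hXY i (by simp)) (hXY j (by simp)) (hXY k (by simp))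
      have q2 : a l X = a l Y :=
        tr_dep _ i j l X Y (hXY i (by simp)) (hXY j (by simp)) (hXY l (by simp))
      have q3 : a m X = a m Y :=
        tr_dep _ i j m X Y (hXY i (by simp)) (hXY j (by simp)) (hXY m (by simp))
      simp only [q1, q2, q3]
    · simp [hij.ne, hik.ne, hjk.ne, hli.symm, hlj.symm, hlk.symm, hmi.symm, hmj.symm, hmk.symm,
        hml.symm]
    · rw [Finset.card_insert_of_notMem, Finset.card_insert_of_notMem, Finset.card_insert_of_notMem,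
        Finset.card_pair hml.symm]
      · simp [hlk.symm, hmk.symm]
      · simp [hjk.ne, hlj.symm, hmj.symm]
      · simp [hij.ne, hik.ne, hli.symm, hmi.symm]
  have t2 : ∀ l ∈ T, ∀ p ∈ prs (T.erase l), ∫ X, A2 l p X ∂(PP χ N) ≤ Z * (θ ^ 6 * K4) := by
    intro l hl p hp
    obtain ⟨hli, hlj, hlk⟩ := hTm l hl
    obtain ⟨hp1, hp2⟩ := Finset.mem_filter.mp hp
    obtain ⟨hpa, hpb⟩ := Finset.mem_product.mp hp1
    obtain ⟨hal, ha'⟩ := Finset.mem_erase.mp hpa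
    obtain ⟨hbl, hb'⟩ := Finset.mem_erase.mp hpb
    obtain ⟨hai, haj, hak⟩ := hTm _ ha'
    obtain ⟨hbi, hbj, hbk⟩ := hTm _ hb'
    have hab : p.1 ≠ p.2 := hp2.ne
    refine ub hIND hFTB L χ f hχ hf θ hθ hr {i, j, k, l, p.1, p.2}
      (fun X => κ X * a l X * tr (aa f) X l p.1 p.2)
      ((hκc.mul (hac l)).mul (cont_tr haC.cont l p.1 p.2)) ?_
      (fun X => mul_nonneg (mul_nonneg (hκ0 X) (ha0 l X)) (hb0 _ _ _ _)) K4
      (h4 i j k l p.1 p.2 ?_) 6 ?_
    · intro X Y hXY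
      have q1 : κ X = κ Y :=
        tr_dep _ i j k X Y (hXY i (by simp)) (hXY j (by simp)) (hXY k (by simp))
      have q2 : a l X = a l Y :=
        tr_dep _ i j l X Y (hXY i (by simp)) (hXY j (by simp)) (hXY l (by simp))
      have q3 : tr (aa f) X l p.1 p.2 = tr (aa f) Y l p.1 p.2 :=
        tr_dep _ l p.1 p.2 X Y (hXY l (by simp)) (hXY p.1 (by simp)) (hXY p.2 (by simp))
      simp only [q1, q2, q3]
    · simp [hij.ne, hik.ne, hjk.ne, hli.symm, hlj.symm, hlk.symm, hai.symm, haj.symm, hak.symm,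
        hal.symm, hbi.symm, hbj.symm, hbk.symm, hbl.symm, hab]
    · rw [Finset.card_insert_of_notMem, Finset.card_insert_of_notMem, Finset.card_insert_of_notMem,
        Finset.card_insert_of_notMem, Finset.card_pair hab]
      · simp [hal.symm, hbl.symm]
      · simp [hlk.symm, hak.symm, hbk.symm]
      · simp [hjk.ne, hlj.symm, haj.symm, hbj.symm]
      · simp [hij.ne, hik.ne, hli.symm, hai.symm, hbi.symm]
  -- counting
  have hcT : (T.card : ℝ) = (N : ℝ) - 3 := by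
    have h := Finset.card_sdiff_add_card_eq_card (Finset.subset_univ ({i, j, k} : Finset (Fin N)))
    rw [hc3, Finset.card_univ, Fintype.card_fin] at h
    have h' : ((T.card + 3 : ℕ) : ℝ) = (N : ℝ) := by exact_mod_cast h
    push_cast at h'
    linarith
  have hcT0 : (0 : ℝ) ≤ T.card := Nat.cast_nonneg _
  have hcTN : (T.card : ℝ) ≤ N := by linarith
  have hθ0 : 0 ≤ θ := by linarith
  have hP4 : 0 ≤ Z * (θ ^ 6 * K4) := mul_nonneg hZ0 (mul_nonneg (pow_nonneg hθ0 6) hK4)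
  have hP3 : 0 ≤ Z * (θ ^ 5 * K3) := mul_nonneg hZ0 (mul_nonneg (pow_nonneg hθ0 5) hK3)
  have u1 : (N - 3 : ℝ) * (Z * K2 - (N : ℝ) ^ 2 / 2 * (Z * (θ ^ 6 * K4))) ≤
      ∑ l ∈ T, (∫ X, A1 l X ∂(PP χ N) - ∑ p ∈ prs (T.erase l), ∫ X, A2 l p X ∂(PP χ N)) := by
    rw [← hcT, ← nsmul_eq_mul]
    refine Finset.card_nsmul_le_sum _ _ _ (fun l hl => ?_)
    have v1 : ∑ p ∈ prs (T.erase l), ∫ X, A2 l p X ∂(PP χ N) ≤
        (N : ℝ) ^ 2 / 2 * (Z * (θ ^ 6 * K4)) := by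
      calc ∑ p ∈ prs (T.erase l), ∫ X, A2 l p X ∂(PP χ N)
          ≤ (prs (T.erase l)).card • (Z * (θ ^ 6 * K4)) :=
            Finset.sum_le_card_nsmul _ _ _ (fun p hp => t2 l hl p hp)
        _ = ((prs (T.erase l)).card : ℝ) * (Z * (θ ^ 6 * K4)) := nsmul_eq_mul _ _
        _ ≤ _ := mul_le_mul_of_nonneg_right (hCRD.2 N _) hP4
    have := t1 l hl
    linarith
  have u2 : ∑ l ∈ T, ∑ m ∈ T.erase l, ∫ X, A3 l m X ∂(PP χ N) ≤
      (N : ℝ) * ((N : ℝ) * (Z * (θ ^ 5 * K3))) := by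
    have v1 : ∀ l ∈ T, ∑ m ∈ T.erase l, ∫ X, A3 l m X ∂(PP χ N) ≤
        (N : ℝ) * (Z * (θ ^ 5 * K3)) := by
      intro l hl
      calc ∑ m ∈ T.erase l, ∫ X, A3 l m X ∂(PP χ N)
          ≤ (T.erase l).card • (Z * (θ ^ 5 * K3)) :=
            Finset.sum_le_card_nsmul _ _ _ (fun m hm => t3 l hl m hm)
        _ = ((T.erase l).card : ℝ) * (Z * (θ ^ 5 * K3)) := nsmul_eq_mul _ _
        _ ≤ (N : ℝ) * (Z * (θ ^ 5 * K3)) := by
            refine mul_le_mul_of_nonneg_right ?_ hP3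
            have : (T.erase l).card ≤ T.card := Finset.card_le_card (Finset.erase_subset _ _)
            have h' : ((T.erase l).card : ℝ) ≤ T.card := by exact_mod_cast this
            linarith
    calc ∑ l ∈ T, ∑ m ∈ T.erase l, ∫ X, A3 l m X ∂(PP χ N)
        ≤ T.card • ((N : ℝ) * (Z * (θ ^ 5 * K3))) := Finset.sum_le_card_nsmul _ _ _ v1
      _ = (T.card : ℝ) * ((N : ℝ) * (Z * (θ ^ 5 * K3))) := nsmul_eq_mul _ _
      _ ≤ _ := mul_le_mul_of_nonneg_right hcTN (mul_nonneg (Nat.cast_nonneg _) hP3)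
  have u3 : (N - 3 : ℝ) * ((N : ℝ) ^ 2 / 2 * (Z * (θ ^ 6 * K4))) ≤
      (N : ℝ) * ((N : ℝ) ^ 2 / 2 * (Z * (θ ^ 6 * K4))) := by
    refine mul_le_mul_of_nonneg_right (by linarith) (mul_nonneg (by positivity) hP4)
  nlinarith [t0, u1, u2, u3]

end Pool.Agent.TBG
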