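import Pool.Agent.TBG.Stmts

set_option autoImplicit false

open MeasureTheory Filter Topology

namespace Pool.Agent.TBG

theorem exi_proof (h1 : Stmt_FAM) (h2 : Stmt_FAW) (h3 : Stmt_FAG) (h4 : Stmt_SCL) (h5 : Stmt_HHB) : Stmt_EXI := by
  intro b K hb
  obtain ⟨c, hc, hg⟩ := h3
  have hW : 0 < ∫ z, ww hh z := h5.pos
  obtain ⟨β, hβ, hβ4⟩ : ∃ β : ℝ, 0 < β ∧ β ^ 4 = 10 * b / (∫ z, ww hh z) :=
    ⟨(10 * b / (∫ z, ww hh z)) ^ (1 / 4 : ℝ), by positivity, by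
      rw [← Real.rpow_natCast, ← Real.rpow_mul (by positivity)]; norm_num⟩
  obtain ⟨n, hn⟩ := exists_nat_gt (max 0 (K / (β ^ 7 * c)))
  have hn0 : (0 : ℝ) < n := lt_of_le_of_lt (le_max_left _ _) hn
  have hn0' : 0 < n := by exact_mod_cast hn0
  have hnK : K < n * (β ^ 7 * c) := by
    have := lt_of_le_of_lt (le_max_right _ _) hn
    rwa [div_lt_iff₀ (by positivity)] at this
  have hm : 0 < n ^ 4 := by positivity
  have hr : 0 < β / n := by positivity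
  obtain ⟨s1, s2, s3⟩ := h4 (fam (n ^ 4)) (β / n) hr (h1 _ hm)
  refine ⟨_, s1, ?_, ?_⟩
  · rw [s2, (h2 (n ^ 4)).2, div_pow, hβ4]
    push_cast
    field_simp
  · rw [s3]
    have h6 := hg _ hm
    calc K < n * (β ^ 7 * c) := hnK
      _ = (β / n) ^ 7 * (c * ((n ^ 4 : ℕ) : ℝ) ^ 2) := by push_cast; field_simp
      _ ≤ (β / n) ^ 7 * gam (fam (n ^ 4)) := by gcongr

end Pool.Agent.TBG
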