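import Pool.Agent.TBG.Stmts

set_option autoImplicit false

open MeasureTheory Filter Topology
open scoped ContDiff

namespace Pool.Agent.TBG
namespace FAG_

instance inst1 : (volume : Measure (E × E)).IsAddHaarMeasure := by
  rw [Measure.volume_eq_prod]; infer_instance

theorem nonneg_of_low {φ : E × E → ℝ} (h : ∃ c : ℝ, 0 < c ∧ ∀ z, c ≤ (1 + ‖z‖) ^ 4 * φ z) (z : E × E) :
    0 ≤ φ z := by
  obtain ⟨c, hc, h⟩ := h
  have h1 := h z
  have h2 : 0 < (1 + ‖z‖) ^ 4 := by positivity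
  by_contra hneg
  push Not at hneg
  nlinarith [mul_neg_of_pos_of_neg h2 hneg]

theorem slice_le {φ : E × E → ℝ} (h0 : ∀ z, 0 ≤ φ z) {C : ℝ} (hC : ∀ z, (1 + ‖z‖) ^ 4 * φ z ≤ C) (x y : E) :
    φ (x, y) ≤ C * ((1 + ‖y‖) ^ 4)⁻¹ := by
  have h2 : 0 < (1 + ‖y‖) ^ 4 := by positivity
  have h3 : (1 + ‖y‖) ^ 4 ≤ (1 + ‖((x, y) : E × E)‖) ^ 4 := by
    have : ‖y‖ ≤ ‖((x, y) : E × E)‖ := by
      exact norm_snd_le ((x, y) : E × E)
    gcongr
  have h4 : (1 + ‖y‖) ^ 4 * φ (x, y) ≤ C :=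
    le_trans (mul_le_mul_of_nonneg_right h3 (h0 _)) (hC _)
  rw [← div_eq_mul_inv, le_div_iff₀ h2]
  linarith [mul_comm (φ (x, y)) ((1 + ‖y‖) ^ 4)]

theorem int_slice {φ : E × E → ℝ} (hc : Continuous φ) (h0 : ∀ z, 0 ≤ φ z) {C : ℝ}
    (hC : ∀ z, (1 + ‖z‖) ^ 4 * φ z ≤ C) (hI : Integrable (fun y : E => ((1 + ‖y‖) ^ 4)⁻¹)) (x : E) :
    Integrable (fun y => φ (x, y)) := by
  refine Integrable.mono' (hI.const_mul C) ?_ ?_
  · exact (hc.comp (by fun_prop : Continuous (fun y : E => (x, y)))).aestronglyMeasurable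
  · refine ae_of_all _ fun y => ?_
    rw [Real.norm_eq_abs, abs_of_nonneg (h0 _)]
    exact slice_le h0 hC x y

theorem int_slice_le {φ : E × E → ℝ} (hc : Continuous φ) (h0 : ∀ z, 0 ≤ φ z) {C : ℝ}
    (hC : ∀ z, (1 + ‖z‖) ^ 4 * φ z ≤ C) (hI : Integrable (fun y : E => ((1 + ‖y‖) ^ 4)⁻¹)) (x : E) :
    ∫ y, φ (x, y) ≤ C * ∫ y : E, ((1 + ‖y‖) ^ 4)⁻¹ := by
  rw [← integral_const_mul]
  exact integral_mono (int_slice hc h0 hC hI x) (hI.const_mul C) (fun y => slice_le h0 hC x y)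

theorem slice_lower (hb : Bump hh) (hI : Integrable (fun y : E => ((1 + ‖y‖) ^ 4)⁻¹)) :
    ∃ c : ℝ, 0 < c ∧ ∀ x : E, ‖x‖ ≤ 2 → c ≤ ∫ y, hh (x, y) := by
  obtain ⟨c, hc, hlow⟩ := hb.low
  obtain ⟨C, hC⟩ := hb.upp
  have hJ : Integrable (fun y : E => ((3 + ‖y‖) ^ 4)⁻¹) := by
    refine Integrable.mono' hI ?_ ?_
    · apply Continuous.aestronglyMeasurable
      refine Continuous.inv₀ (by fun_prop) (fun y => by positivity)
    · refine ae_of_all _ fun y => ?_
      have h1 : (0:ℝ) ≤ ((3 + ‖y‖) ^ 4)⁻¹ := by positivity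
      rw [Real.norm_eq_abs, abs_of_nonneg h1]
      have h2 : (1 + ‖y‖) ^ 4 ≤ (3 + ‖y‖) ^ 4 := by gcongr; norm_num
      exact inv_anti₀ (by positivity) h2
  have hpos : 0 < ∫ y : E, ((3 + ‖y‖) ^ 4)⁻¹ := by
    rw [integral_pos_iff_support_of_nonneg (fun y => by positivity) hJ]
    have : Function.support (fun y : E => ((3 + ‖y‖) ^ 4)⁻¹) = Set.univ := by
      ext y
      simp only [Function.mem_support, Set.mem_univ, iff_true]
      positivity
    rw [this]
    exact Measure.measure_univ_pos.mpr (NeZero.ne _)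
  refine ⟨c * ∫ y : E, ((3 + ‖y‖) ^ 4)⁻¹, by positivity, fun x hx => ?_⟩
  rw [← integral_const_mul]
  refine integral_mono (hJ.const_mul c)
    (int_slice hb.smooth.continuous (nonneg_of_low hb.low) hC hI x) (fun y => ?_)
  have h1 : 0 < (3 + ‖y‖) ^ 4 := by positivity
  have h2 : ‖((x, y) : E × E)‖ ≤ 2 + ‖y‖ := by
    rw [Prod.norm_def]
    refine max_le ?_ ?_
    · show ‖x‖ ≤ 2 + ‖y‖
      linarith [norm_nonneg y]
    · show ‖y‖ ≤ 2 + ‖y‖
      linarith
  have h3 : (1 + ‖((x, y) : E × E)‖) ^ 4 ≤ (3 + ‖y‖) ^ 4 := by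
    have : 1 + ‖((x, y) : E × E)‖ ≤ 3 + ‖y‖ := by linarith
    have h0 : 0 ≤ 1 + ‖((x, y) : E × E)‖ := by positivity
    exact pow_le_pow_left₀ h0 this 4
  have h4 : c ≤ (3 + ‖y‖) ^ 4 * hh (x, y) :=
    le_trans (hlow _) (mul_le_mul_of_nonneg_right h3 (nonneg_of_low hb.low _))
  show c * ((3 + ‖y‖) ^ 4)⁻¹ ≤ hh (x, y)
  rw [← div_eq_mul_inv, div_le_iff₀ h1]
  linarith [mul_comm (hh (x, y)) ((3 + ‖y‖) ^ 4)]

theorem fam_ge (hb : Bump hh) (m : ℕ) (x y : E) :
    1 / 30 * ∑ j ∈ Finset.range m, hh (x, y + YY m j) ≤ fam m (x, y) := by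
  unfold fam
  have : ∑ j ∈ Finset.range m, hh (x, y + YY m j) ≤
      ∑ j ∈ Finset.range m, (hh ((x, y) - (0, -YY m j)) + hh ((x, y) - (-YY m j, 0)) +
        hh ((x, y) - (YY m j, YY m j))) := by
    refine Finset.sum_le_sum fun j _ => ?_
    have h1 : ((x, y) : E × E) - (0, -YY m j) = (x, y + YY m j) := by
      ext1 <;> simp
    rw [h1]
    have h2 := nonneg_of_low hb.low ((x, y) - (-YY m j, 0))
    have h3 := nonneg_of_low hb.low ((x, y) - (YY m j, YY m j))
    linarith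
  linarith

theorem u_ge (hb : Bump hh) (hI : Integrable (fun y : E => ((1 + ‖y‖) ^ 4)⁻¹)) (m : ℕ)
    (hS : Scat (fam m)) {c : ℝ} (x : E) (hx : c ≤ ∫ y, hh (x, y)) :
    c / 30 * (m : ℝ) ≤ ∫ y, fam m (x, y) := by
  obtain ⟨C, hC⟩ := hb.upp
  obtain ⟨C', hC'⟩ := hS.upp
  have hi1 : ∀ j : ℕ, Integrable (fun y => hh (x, y + YY m j)) := fun j =>
    (int_slice hb.smooth.continuous (nonneg_of_low hb.low) hC hI x).comp_add_right (YY m j)
  have h1 : ∫ y, (1 / 30 * ∑ j ∈ Finset.range m, hh (x, y + YY m j)) = (m : ℝ) / 30 * ∫ y, hh (x, y) := by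
    rw [integral_const_mul, integral_finsetSum _ (fun j _ => hi1 j)]
    have : ∀ j ∈ Finset.range m, ∫ y, hh (x, y + YY m j) = ∫ y, hh (x, y) := fun j _ =>
      integral_add_right_eq_self (fun y => hh (x, y)) (YY m j)
    rw [Finset.sum_congr rfl this]
    simp only [Finset.sum_const, Finset.card_range, nsmul_eq_mul]
    ring
  have h2 : ∫ y, (1 / 30 * ∑ j ∈ Finset.range m, hh (x, y + YY m j)) ≤ ∫ y, fam m (x, y) := by
    refine integral_mono ?_ (int_slice hS.smooth.continuous (nonneg_of_low hS.low) hC' hI x)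
      (fun y => fam_ge hb m x y)
    exact (integrable_finsetSum _ (fun j _ => hi1 j)).const_mul _
  have h3 : (0 : ℝ) ≤ (m : ℝ) / 30 := by positivity
  have h4 := mul_le_mul_of_nonneg_left hx h3
  have h5 : c / 30 * (m : ℝ) = (m : ℝ) / 30 * c := by ring
  rw [h5]
  linarith

end FAG_

open FAG_ in
theorem fag_proof (h1 : Stmt_HHB) (_h2 : Stmt_FAS) (h3 : Stmt_FAM) (h4 : Stmt_FAW) (h5 : Stmt_QFO)
    (h6 : Stmt_INT) : Stmt_FAG := by
  have hb : Bump hh := h1
  have hI := h6.2.1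
  obtain ⟨c, hc, hcx⟩ := slice_lower hb hI
  have hW := hb.pos
  refine ⟨1 / 4 * (c / 30) * (1 / 30) * ∫ z, ww hh z, by positivity, fun m hm => ?_⟩
  have hS := h3 m hm
  obtain ⟨C', hC'⟩ := hS.upp
  obtain ⟨hfw, -⟩ := h4 m
  have hwint : Integrable (ww hh) := hb.cont.integrable_of_hasCompactSupport hb.cpt
  have hwn : ∀ z, 0 ≤ ww hh z := fun z => by
    have := hb.sup z
    unfold ww
    linarith
  have hun : ∀ x, 0 ≤ ∫ y, fam m (x, y) := fun x => integral_nonneg fun y => nonneg_of_low hS.low _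
  have hub : ∀ x, ∫ y, fam m (x, y) ≤ C' * ∫ y : E, ((1 + ‖y‖) ^ 4)⁻¹ := fun x =>
    int_slice_le hS.smooth.continuous (nonneg_of_low hS.low) hC' hI x
  have hum : StronglyMeasurable (fun x : E => ∫ y, fam m (x, y)) := by
    have : StronglyMeasurable (Function.uncurry fun (x y : E) => fam m (x, y)) := by
      exact hS.smooth.continuous.stronglyMeasurable
    exact this.integral_prod_right
  have hwfint : Integrable (ww (fam m)) := by
    have : ww (fam m) = fun z => 1 / 30 * ∑ j ∈ Finset.range m,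
        (ww hh (z - (0, -YY m j)) + ww hh (z - (-YY m j, 0)) + ww hh (z - (YY m j, YY m j))) :=
      funext hfw
    rw [this]
    refine (integrable_finsetSum _ fun j _ => ?_).const_mul _
    exact ((hwint.comp_sub_right _).add (hwint.comp_sub_right _)).add (hwint.comp_sub_right _)
  have hprod : Integrable (fun z : E × E => ww (fam m) z * ∫ y : E, fam m (z.1, y)) := by
    refine hwfint.mul_bdd (c := C' * ∫ y : E, ((1 + ‖y‖) ^ 4)⁻¹) ?_ ?_
    · exact (hum.comp_measurable measurable_fst).aestronglyMeasurable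
    · refine ae_of_all _ fun z => ?_
      rw [Real.norm_eq_abs, abs_of_nonneg (hun _)]
      exact hub _
  have hlow : ∀ z : E × E, (c / 30 * (m : ℝ)) * (1 / 30 * ∑ j ∈ Finset.range m, ww hh (z - (0, -YY m j))) ≤
      ww (fam m) z * ∫ y : E, fam m (z.1, y) := by
    intro z
    rw [hfw z]
    have h7 : (1 / 30 * ∑ j ∈ Finset.range m, ww hh (z - (0, -YY m j))) * (∫ y : E, fam m (z.1, y)) ≤
        (1 / 30 * ∑ j ∈ Finset.range m, (ww hh (z - (0, -YY m j)) + ww hh (z - (-YY m j, 0)) +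
          ww hh (z - (YY m j, YY m j)))) * ∫ y : E, fam m (z.1, y) := by
      refine mul_le_mul_of_nonneg_right ?_ (hun _)
      have : ∑ j ∈ Finset.range m, ww hh (z - (0, -YY m j)) ≤
          ∑ j ∈ Finset.range m, (ww hh (z - (0, -YY m j)) + ww hh (z - (-YY m j, 0)) +
            ww hh (z - (YY m j, YY m j))) :=
        Finset.sum_le_sum fun j _ => by linarith [hwn (z - (-YY m j, 0)), hwn (z - (YY m j, YY m j))]
      linarith
    refine le_trans ?_ h7
    have h8 : (c / 30 * (m : ℝ)) * ∑ j ∈ Finset.range m, ww hh (z - (0, -YY m j)) ≤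
        (∑ j ∈ Finset.range m, ww hh (z - (0, -YY m j))) * ∫ y : E, fam m (z.1, y) := by
      rw [Finset.mul_sum, Finset.sum_mul]
      refine Finset.sum_le_sum fun j _ => ?_
      by_cases hz : ww hh (z - (0, -YY m j)) = 0
      · rw [hz]; simp
      · have hQ : QQ (z - (0, -YY m j)) ≤ 1 := by
          by_contra hcon
          push Not at hcon
          apply hz
          have := hb.supp _ hcon
          unfold ww
          rw [this]; simp
        have hx1 : ‖z.1‖ ^ 2 ≤ 3 * QQ (z - (0, -YY m j)) := by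
          have h9 := (h5.2.2.2.2.2 z.1 (z.2 + YY m j)).1
          have h10 : (z - (0, -YY m j) : E × E) = (z.1, z.2 + YY m j) := by
            ext1 <;> simp
          rw [h10]
          exact h9
        have hx2 : ‖z.1‖ ≤ 2 := by
          have h11 : ‖z.1‖ ^ 2 ≤ 3 := by linarith
          nlinarith [norm_nonneg z.1]
        have h12 := u_ge hb hI m hS z.1 (hcx z.1 hx2)
        rw [mul_comm]
        exact mul_le_mul_of_nonneg_left h12 (hwn _)
    calc (c / 30 * (m : ℝ)) * (1 / 30 * ∑ j ∈ Finset.range m, ww hh (z - (0, -YY m j)))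
        = 1 / 30 * ((c / 30 * (m : ℝ)) * ∑ j ∈ Finset.range m, ww hh (z - (0, -YY m j))) := by ring
      _ ≤ 1 / 30 * ((∑ j ∈ Finset.range m, ww hh (z - (0, -YY m j))) * ∫ y : E, fam m (z.1, y)) := by
          linarith
      _ = _ := by ring
  have hint : Integrable (fun z : E × E =>
      (c / 30 * (m : ℝ)) * (1 / 30 * ∑ j ∈ Finset.range m, ww hh (z - (0, -YY m j)))) := by
    refine Integrable.const_mul (Integrable.const_mul ?_ _) _
    exact integrable_finsetSum _ fun j _ => hwint.comp_sub_right _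
  have hfin := integral_mono hint hprod hlow
  have hval : ∫ z : E × E, (c / 30 * (m : ℝ)) * (1 / 30 * ∑ j ∈ Finset.range m, ww hh (z - (0, -YY m j))) =
      (c / 30 * (m : ℝ)) * (1 / 30 * ((m : ℝ) * ∫ z, ww hh z)) := by
    rw [integral_const_mul, integral_const_mul,
      integral_finsetSum _ fun j _ => hwint.comp_sub_right _]
    have : ∀ j ∈ Finset.range m, ∫ z : E × E, ww hh (z - (0, -YY m j)) = ∫ z, ww hh z := fun j _ =>
      integral_sub_right_eq_self (ww hh) _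
    rw [Finset.sum_congr rfl this]
    simp only [Finset.sum_const, Finset.card_range, nsmul_eq_mul]
  rw [hval] at hfin
  unfold gam
  calc 1 / 4 * (c / 30) * (1 / 30) * (∫ z, ww hh z) * (m : ℝ) ^ 2
      = 1 / 4 * ((c / 30 * (m : ℝ)) * (1 / 30 * ((m : ℝ) * ∫ z, ww hh z))) := by ring
    _ ≤ _ := by linarith

end Pool.Agent.TBG
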