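import Pool.Agent.TBG.Stmts

set_option autoImplicit false

open MeasureTheory Filter Topology
open scoped ContDiff

namespace Pool.Agent.TBG

namespace FAM_

/-- the centers -/
noncomputable def cc (m : ℕ) (p : ℕ × Fin 3) : E × E :=
  if p.2 = 0 then (0, -YY m p.1) else if p.2 = 1 then (-YY m p.1, 0) else (YY m p.1, YY m p.1)

/-- the index set -/
def ss (m : ℕ) : Finset (ℕ × Fin 3) := Finset.range m ×ˢ (Finset.univ : Finset (Fin 3))

lemma fam_eq (m : ℕ) (z : E × E) : fam m z = 1 / 30 * ∑ p ∈ ss m, hh (z - cc m p) := by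
  unfold fam ss
  rw [Finset.sum_product]
  congr 1
  refine Finset.sum_congr rfl fun j _ => ?_
  rw [Fin.sum_univ_three]
  simp [cc]

lemma fam_fun (m : ℕ) : fam m = fun z => 0 + 1 / 30 * (fun z => ∑ p ∈ ss m, hh (z - cc m p)) z := by
  funext z
  rw [fam_eq]
  ring

/-- comparison of weights -/
lemma wt (z c : E × E) : 1 + ‖z‖ ≤ (1 + ‖z - c‖) * (1 + ‖c‖) := by
  have h1 : ‖z‖ ≤ ‖z - c‖ + ‖c‖ := by
    calc ‖z‖ = ‖(z - c) + c‖ := by rw [sub_add_cancel]
      _ ≤ _ := norm_add_le _ _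
  have h2 := norm_nonneg (z - c)
  have h3 := norm_nonneg c
  nlinarith [mul_nonneg h2 h3]

lemma wtn (n : ℕ) (z c : E × E) (a C : ℝ) (ha : 0 ≤ a) (h : (1 + ‖z - c‖) ^ n * a ≤ C) :
    (1 + ‖z‖) ^ n * a ≤ C * (1 + ‖c‖) ^ n := by
  have h1 : (1 + ‖z‖) ^ n ≤ ((1 + ‖z - c‖) * (1 + ‖c‖)) ^ n :=
    pow_le_pow_left₀ (by positivity) (wt z c) n
  calc (1 + ‖z‖) ^ n * a ≤ ((1 + ‖z - c‖) * (1 + ‖c‖)) ^ n * a := mul_le_mul_of_nonneg_right h1 ha
    _ = ((1 + ‖z - c‖) ^ n * a) * (1 + ‖c‖) ^ n := by rw [mul_pow]; ring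
    _ ≤ C * (1 + ‖c‖) ^ n := mul_le_mul_of_nonneg_right h (by positivity)

lemma gsq_nonneg (f : E × E → ℝ) (z : E × E) : 0 ≤ gsq f z :=
  Finset.sum_nonneg fun _ _ => Finset.sum_nonneg fun _ _ => sq_nonneg _

end FAM_

open FAM_ in
theorem fam_proof (hHHB : Stmt_HHB) (hFAS : Stmt_FAS) (hLTR : Stmt_LTR) (hLSU : Stmt_LSU) (hQFO : Stmt_QFO) :
    Stmt_FAM := by
  intro m hm
  have hB : Bump hh := hHHB
  have hsm : ∀ p : ℕ × Fin 3, ContDiff ℝ ∞ (fun z : E × E => hh (z - cc m p)) := fun p =>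
    hB.smooth.comp (contDiff_id.sub contDiff_const)
  have hsum : ContDiff ℝ ∞ (fun z : E × E => ∑ p ∈ ss m, hh (z - cc m p)) :=
    ContDiff.sum fun p _ => hsm p
  have hpos : ∀ z, 0 < hh z := by
    intro z
    obtain ⟨c, hc, h⟩ := hB.low
    have h1 := h z
    by_contra hn
    push Not at hn
    have : (1 + ‖z‖) ^ 4 * hh z ≤ 0 := mul_nonpos_of_nonneg_of_nonpos (by positivity) hn
    linarith
  have hfn := fam_fun m
  have hL : ∀ z, Lap (fam m) z = 1 / 30 * ∑ p ∈ ss m, Lap hh (z - cc m p) := by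
    intro z
    rw [hfn, ((hLSU.2 _ 0 (1 / 30) hsum z).1)]
    congr 1
    rw [(hLSU.1 _ (ss m) (fun p z => hh (z - cc m p)) hsm z).1]
    exact Finset.sum_congr rfl fun p _ => ((hLTR hh hB.smooth).1 (cc m p) z).1
  have hG : ∀ z, gsq (fam m) z ≤ (1 / 30) ^ 2 * (((ss m).card : ℝ) * ∑ p ∈ ss m, gsq hh (z - cc m p)) := by
    intro z
    rw [hfn, ((hLSU.2 _ 0 (1 / 30) hsum z).2)]
    refine mul_le_mul_of_nonneg_left ?_ (by positivity)
    refine ((hLSU.1 _ (ss m) (fun p z => hh (z - cc m p)) hsm z).2).trans (le_of_eq ?_)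
    congr 1
    exact Finset.sum_congr rfl fun p _ => ((hLTR hh hB.smooth).1 (cc m p) z).2
  refine ⟨?_, ?_, ?_, ?_, ?_, ?_, ?_, ?_, ?_⟩
  · rw [hfn]
    exact contDiff_const.add (contDiff_const.mul hsum)
  · intro x y
    unfold fam
    congr 1
    refine Finset.sum_congr rfl fun j _ => ?_
    have e1 : hh ((x, y) - (0, -YY m j)) = hh ((y, x) - (-YY m j, 0)) := by
      simp only [Prod.mk_sub_mk]
      rw [hB.sy1]
    have e2 : hh ((x, y) - (-YY m j, 0)) = hh ((y, x) - (0, -YY m j)) := by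
      simp only [Prod.mk_sub_mk]
      rw [hB.sy1]
    have e3 : hh ((x, y) - (YY m j, YY m j)) = hh ((y, x) - (YY m j, YY m j)) := by
      simp only [Prod.mk_sub_mk]
      rw [hB.sy1]
    rw [e1, e2, e3]
    ring
  · intro x y
    unfold fam
    congr 1
    refine Finset.sum_congr rfl fun j _ => ?_
    have e1 : hh ((x, y) - (0, -YY m j)) = hh ((-x, y - x) - (0, -YY m j)) := by
      simp only [Prod.mk_sub_mk]
      rw [hB.sy2]
      congr 1
      ext1
      · simp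
      · simp only [sub_zero, sub_neg_eq_add]
        abel
    have e2 : hh ((x, y) - (-YY m j, 0)) = hh ((-x, y - x) - (YY m j, YY m j)) := by
      simp only [Prod.mk_sub_mk]
      rw [hB.sy2]
      congr 1
      ext1
      · simp only [sub_neg_eq_add]
        abel
      · simp only [sub_zero, sub_neg_eq_add]
        abel
    have e3 : hh ((x, y) - (YY m j, YY m j)) = hh ((-x, y - x) - (-YY m j, 0)) := by
      simp only [Prod.mk_sub_mk]
      rw [hB.sy2]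
      congr 1
      ext1
      · simp only [sub_neg_eq_add]
        abel
      · simp only [sub_zero]
        abel
    rw [e1, e2, e3]
    ring
  · exact hFAS m hm
  · obtain ⟨c, hc, h⟩ := hB.low
    refine ⟨c / 30, by positivity, fun z => ?_⟩
    have h0 : ((0 : ℕ), (0 : Fin 3)) ∈ ss m := by
      simp [ss, hm]
    have h1 : hh (z - cc m (0, 0)) ≤ ∑ p ∈ ss m, hh (z - cc m p) :=
      Finset.single_le_sum (f := fun p => hh (z - cc m p)) (fun p _ => (hpos _).le) h0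
    have h2 : cc m (0, 0) = 0 := by
      simp [cc, YY]
    rw [h2, sub_zero] at h1
    rw [fam_eq]
    have h3 := h z
    have h4 : (1 + ‖z‖) ^ 4 * hh z ≤ (1 + ‖z‖) ^ 4 * ∑ p ∈ ss m, hh (z - cc m p) :=
      mul_le_mul_of_nonneg_left h1 (by positivity)
    calc c / 30 ≤ 1 / 30 * ((1 + ‖z‖) ^ 4 * ∑ p ∈ ss m, hh (z - cc m p)) := by linarith
      _ = _ := by ring
  · obtain ⟨C, h⟩ := hB.upp
    refine ⟨1 / 30 * ∑ p ∈ ss m, C * (1 + ‖cc m p‖) ^ 4, fun z => ?_⟩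
    rw [fam_eq]
    calc (1 + ‖z‖) ^ 4 * (1 / 30 * ∑ p ∈ ss m, hh (z - cc m p))
        = 1 / 30 * ∑ p ∈ ss m, (1 + ‖z‖) ^ 4 * hh (z - cc m p) := by
          rw [← Finset.mul_sum]; ring
      _ ≤ _ := by
          refine mul_le_mul_of_nonneg_left ?_ (by norm_num)
          exact Finset.sum_le_sum fun p _ => wtn 4 z _ _ C (hpos _).le (h _)
  · obtain ⟨C, h⟩ := hB.grad
    refine ⟨(1 / 30) ^ 2 * (((ss m).card : ℝ) * ∑ p ∈ ss m, C * (1 + ‖cc m p‖) ^ 10), fun z => ?_⟩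
    calc (1 + ‖z‖) ^ 10 * gsq (fam m) z
        ≤ (1 + ‖z‖) ^ 10 * ((1 / 30) ^ 2 * (((ss m).card : ℝ) * ∑ p ∈ ss m, gsq hh (z - cc m p))) :=
          mul_le_mul_of_nonneg_left (hG z) (by positivity)
      _ = (1 / 30) ^ 2 * (((ss m).card : ℝ) * ∑ p ∈ ss m, (1 + ‖z‖) ^ 10 * gsq hh (z - cc m p)) := by
          rw [← Finset.mul_sum]; ring
      _ ≤ _ := by
          refine mul_le_mul_of_nonneg_left ?_ (by positivity)
          refine mul_le_mul_of_nonneg_left ?_ (by positivity)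
          exact Finset.sum_le_sum fun p _ => wtn 10 z _ _ C (gsq_nonneg _ _) (h _)
  · intro z
    rw [hL]
    have : ∑ p ∈ ss m, Lap hh (z - cc m p) ≤ 0 := Finset.sum_nonpos fun p _ => hB.sup _
    linarith
  · refine ⟨2 + ∑ p ∈ ss m, ‖cc m p‖, fun z hz => ?_⟩
    rw [hL]
    have : ∑ p ∈ ss m, Lap hh (z - cc m p) = 0 := by
      refine Finset.sum_eq_zero fun p hp => hB.supp _ ?_
      have h1 : ‖cc m p‖ ≤ ∑ p ∈ ss m, ‖cc m p‖ :=
        Finset.single_le_sum (f := fun p => ‖cc m p‖) (fun p _ => norm_nonneg _) hp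
      have h2 : ‖z‖ - ‖cc m p‖ ≤ ‖z - cc m p‖ := norm_sub_norm_le _ _
      have h3 : 2 < ‖z - cc m p‖ := by linarith
      have h4 := (hQFO.2.2.2.1 (z - cc m p)).2.2
      nlinarith
    rw [this]
    simp

end Pool.Agent.TBG
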