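import Pool.Agent.TBG.Stmts

/-!
# Three-body Bose gases (MP_80dc41_mp): module FAS
-/

set_option autoImplicit false

open MeasureTheory Filter Topology
open scoped ContDiff

namespace Pool.Agent.TBG

namespace FAS_

theorem chain (m : ℕ) (a : ℝ) (h Q : ℕ → ℝ) (h4 : ∀ j, h j ≤ 4)
    (hd : ∀ j, 1 ≤ Q j → h j ≤ 1 / Q j ^ 2)
    (hq : ∀ j : ℕ, (a + 12 * ((m : ℝ) + 1) * j) ^ 2 ≤ 3 * Q j) :
    ∑ j ∈ Finset.range m, h j ≤ 5 := by
  classical
  have hm : (0 : ℝ) ≤ m := Nat.cast_nonneg m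
  obtain ⟨D, hD⟩ : ∃ D : ℝ, D = 12 * ((m : ℝ) + 1) := ⟨_, rfl⟩
  have hD12 : 12 ≤ D := by rw [hD]; linarith
  obtain ⟨T, hT⟩ : ∃ T : Finset ℕ, T = (Finset.range m).filter fun j : ℕ => |a + D * j| < D / 2 :=
    ⟨_, rfl⟩
  have hcard : T.card ≤ 1 := by
    rw [Finset.card_le_one]
    intro i hi j hj
    rw [hT, Finset.mem_filter] at hi hj
    by_contra hne
    have h1 : (1 : ℝ) ≤ |(i : ℝ) - j| := by
      rcases lt_or_gt_of_ne hne with hlt | hlt
      · have : (i : ℝ) + 1 ≤ j := by exact_mod_cast hlt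
        rw [abs_of_nonpos (by linarith)]
        linarith
      · have : (j : ℝ) + 1 ≤ i := by exact_mod_cast hlt
        rw [abs_of_nonneg (by linarith)]
        linarith
    have h2 : D * |(i : ℝ) - j| = |(a + D * i) - (a + D * j)| := by
      rw [← abs_of_nonneg (by linarith : (0 : ℝ) ≤ D), ← abs_mul,
        abs_of_nonneg (by linarith : (0 : ℝ) ≤ D)]
      congr 1
      ring
    have h3 := abs_sub (a + D * i) (a + D * j)
    have h4 : D * 1 ≤ D * |(i : ℝ) - j| := mul_le_mul_of_nonneg_left h1 (by linarith)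
    linarith [hi.2, hj.2]
  have hb : ∀ j ∈ Finset.range m, h j ≤ (if j ∈ T then 4 else 0) + 1 / ((m : ℝ) + 1) := by
    intro j hj
    have hpos : 0 < 1 / ((m : ℝ) + 1) := by positivity
    by_cases hjT : j ∈ T
    · rw [if_pos hjT]
      linarith [h4 j]
    · rw [if_neg hjT, zero_add]
      have h1 : D / 2 ≤ |a + D * j| := by
        by_contra hc
        apply hjT
        rw [hT, Finset.mem_filter]
        exact ⟨hj, not_le.mp hc⟩
      have h2 : (D / 2) ^ 2 ≤ 3 * Q j := by
        refine le_trans ?_ (hq j)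
        rw [← hD, ← sq_abs (a + D * j)]
        exact pow_le_pow_left₀ (by linarith) h1 2
      have h3 : D ≤ Q j := by nlinarith
      have h5 : 1 ≤ Q j := by linarith
      refine (hd j h5).trans ?_
      apply one_div_le_one_div_of_le (by positivity)
      nlinarith
  refine (Finset.sum_le_sum hb).trans ?_
  rw [Finset.sum_add_distrib, Finset.sum_const, Finset.card_range, nsmul_eq_mul, Finset.sum_ite,
    Finset.sum_const_zero, add_zero, Finset.sum_const, nsmul_eq_mul]
  have h6 : ((((Finset.range m).filter fun j => j ∈ T).card : ℕ) : ℝ) ≤ 1 := by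
    have : ((Finset.range m).filter fun j => j ∈ T).card ≤ T.card :=
      Finset.card_le_card fun j hj => (Finset.mem_filter.mp hj).2
    exact_mod_cast this.trans hcard
  have h7 : (m : ℝ) * (1 / ((m : ℝ) + 1)) ≤ 1 := by
    rw [mul_one_div, div_le_one (by linarith)]
    linarith
  linarith

theorem coord_sq_le (v : E) : (v 0) ^ 2 ≤ ‖v‖ ^ 2 := by
  rw [EuclideanSpace.real_norm_sq_eq]
  exact Finset.single_le_sum (f := fun i => (v i) ^ 2) (fun i _ => sq_nonneg _) (Finset.mem_univ 0)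

theorem YY_zero (m j : ℕ) : (YY m j) 0 = 12 * ((m : ℝ) + 1) * j := by
  simp [YY, ev]

end FAS_

theorem fas_proof (h1 : Stmt_HHB) (h2 : Stmt_QFO) : Stmt_FAS := by
  intro m _ z
  obtain ⟨_, _, _, _, _, hq⟩ := h2
  have e1 : ∑ j ∈ Finset.range m, hh (z - (0, -YY m j)) ≤ 5 := by
    apply FAS_.chain m (z.2 0) _ (fun j => QQ (z - (0, -YY m j))) (fun j => h1.le4 _)
      (fun j hj => h1.dec _ hj)
    intro j
    have := (hq (z.1 - 0) (z.2 - -YY m j)).2.1
    refine le_trans (le_of_eq ?_) ((FAS_.coord_sq_le _).trans this)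
    simp [FAS_.YY_zero]
  have e2 : ∑ j ∈ Finset.range m, hh (z - (-YY m j, 0)) ≤ 5 := by
    apply FAS_.chain m (z.1 0) _ (fun j => QQ (z - (-YY m j, 0))) (fun j => h1.le4 _)
      (fun j hj => h1.dec _ hj)
    intro j
    have := (hq (z.1 - -YY m j) (z.2 - 0)).1
    refine le_trans (le_of_eq ?_) ((FAS_.coord_sq_le _).trans this)
    simp [FAS_.YY_zero]
  have e3 : ∑ j ∈ Finset.range m, hh (z - (YY m j, YY m j)) ≤ 5 := by
    apply FAS_.chain m (-(z.1 0)) _ (fun j => QQ (z - (YY m j, YY m j))) (fun j => h1.le4 _)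
      (fun j hj => h1.dec _ hj)
    intro j
    have := (hq (z.1 - YY m j) (z.2 - YY m j)).1
    refine le_trans (le_of_eq ?_) ((FAS_.coord_sq_le _).trans this)
    simp [FAS_.YY_zero]
    ring
  unfold fam
  rw [Finset.sum_add_distrib, Finset.sum_add_distrib]
  linarith

end Pool.Agent.TBG
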