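import Pool.Agent.TBG.Stmts

/-!
# Three-body Bose gases (MP_80dc41_mp): module FAW, the charge of the family
-/

set_option autoImplicit false

open MeasureTheory Filter Topology
open scoped ContDiff

namespace Pool.Agent.TBG

namespace FAW_

/-- the centers -/
noncomputable def cc (m j : ℕ) : Fin 3 → E × E := ![(0, -YY m j), (-YY m j, 0), (YY m j, YY m j)]

theorem sum3 (m j : ℕ) (F : E × E → ℝ) (z : E × E) :
    ∑ k, F (z - cc m j k) =
      F (z - (0, -YY m j)) + F (z - (-YY m j, 0)) + F (z - (YY m j, YY m j)) := by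
  rw [Fin.sum_univ_three]
  rfl

end FAW_

open FAW_

theorem faw_proof (hHHB : Stmt_HHB) (hLTR : Stmt_LTR) (hLSU : Stmt_LSU) : Stmt_FAW := by
  intro m
  have hb : Bump hh := hHHB
  have hsm := hb.smooth
  have hs1 : ∀ c : E × E, ContDiff ℝ ∞ (fun z => hh (z - c)) := fun c =>
    hsm.comp (contDiff_id.sub contDiff_const)
  have hs2 : ∀ j : ℕ, ContDiff ℝ ∞ (fun z => ∑ k, hh (z - cc m j k)) := fun j =>
    ContDiff.sum fun k _ => hs1 _
  have hs3 : ContDiff ℝ ∞ (fun z => ∑ j ∈ Finset.range m, ∑ k, hh (z - cc m j k)) :=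
    ContDiff.sum fun j _ => hs2 j
  have hfam : fam m = fun z => 0 + 1 / 30 * ∑ j ∈ Finset.range m, ∑ k, hh (z - cc m j k) := by
    funext z
    unfold fam
    rw [zero_add]
    congr 1
    exact Finset.sum_congr rfl fun j _ => (sum3 m j hh z).symm
  have hww : ∀ z, ww (fam m) z = 1 / 30 * ∑ j ∈ Finset.range m,
      (ww hh (z - (0, -YY m j)) + ww hh (z - (-YY m j, 0)) + ww hh (z - (YY m j, YY m j))) := by
    intro z
    have h1 : Lap (fam m) z = 1 / 30 * ∑ j ∈ Finset.range m, ∑ k, Lap hh (z - cc m j k) := by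
      rw [hfam, (hLSU.2 _ 0 (1 / 30) hs3 z).1,
        (hLSU.1 ℕ (Finset.range m) (fun j z => ∑ k, hh (z - cc m j k)) hs2 z).1]
      congr 1
      refine Finset.sum_congr rfl fun j _ => ?_
      rw [(hLSU.1 (Fin 3) Finset.univ (fun k z => hh (z - cc m j k)) (fun k => hs1 _) z).1]
      exact Finset.sum_congr rfl fun k _ => ((hLTR hh hsm).1 (cc m j k) z).1
    unfold ww
    rw [h1, ← mul_neg, ← Finset.sum_neg_distrib]
    congr 1
    refine Finset.sum_congr rfl fun j _ => ?_
    rw [sum3 m j (Lap hh) z]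
    ring
  refine ⟨hww, ?_⟩
  haveI : (volume : Measure (E × E)).IsAddHaarMeasure :=
    inferInstanceAs ((volume : Measure E).prod (volume : Measure E)).IsAddHaarMeasure
  have hI : Integrable (ww hh) := hb.cont.integrable_of_hasCompactSupport hb.cpt
  have hI' : ∀ c : E × E, Integrable (fun z => ww hh (z - c)) := fun c => hI.comp_sub_right c
  have hi : ∀ c : E × E, ∫ z, ww hh (z - c) = ∫ z, ww hh z := fun c =>
    integral_sub_right_eq_self (ww hh) c
  simp only [hww]
  have h123 : ∀ j ∈ Finset.range m, Integrable (fun z => ww hh (z - (0, -YY m j)) +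
      ww hh (z - (-YY m j, 0)) + ww hh (z - (YY m j, YY m j))) := fun j _ =>
    ((hI' _).add (hI' _)).add (hI' _)
  rw [integral_const_mul, integral_finsetSum _ h123]
  have hj : ∀ j ∈ Finset.range m, ∫ z, (ww hh (z - (0, -YY m j)) + ww hh (z - (-YY m j, 0)) +
      ww hh (z - (YY m j, YY m j))) = 3 * ∫ z, ww hh z := by
    intro j _
    have h12 : Integrable (fun z => ww hh (z - (0, -YY m j)) + ww hh (z - (-YY m j, 0))) :=
      (hI' _).add (hI' _)
    rw [integral_add h12 (hI' _), integral_add (hI' _) (hI' _), hi, hi, hi]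
    ring
  have hsum := Finset.sum_congr (s₁ := Finset.range m) rfl hj
  rw [Finset.sum_const, Finset.card_range, nsmul_eq_mul] at hsum
  have hgoal : 1 / 30 * ∑ j ∈ Finset.range m, ∫ z, (ww hh (z - (0, -YY m j)) +
      ww hh (z - (-YY m j, 0)) + ww hh (z - (YY m j, YY m j))) = (m : ℝ) / 10 * ∫ z, ww hh z := by
    rw [hsum]
    ring
  exact hgoal

end Pool.Agent.TBG
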