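import Pool.Agent.TBG.Stmts

/-!
# Squad TBG, module FDJ: the truncated Jastrow factor.
-/

set_option autoImplicit false

open MeasureTheory Filter Topology
open scoped ContDiff

namespace Pool.Agent.TBG

namespace FDJ_

lemma pos {φ : E × E → ℝ} (h : Scat φ) (z : E × E) : 0 < φ z := by
  obtain ⟨c, hc, hl⟩ := h.low
  have h1 := hl z
  have h2 : (0 : ℝ) < (1 + ‖z‖) ^ 4 := by positivity
  by_contra hn
  push Not at hn
  have h3 : (1 + ‖z‖) ^ 4 * φ z ≤ 0 := mul_nonpos_of_nonneg_of_nonpos h2.le hn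
  linarith

lemma small {φ : E × E → ℝ} (h : Scat φ) {δ : ℝ} (hδ : 0 < δ) :
    ∃ R : ℝ, ∀ z, R < ‖z‖ → φ z ≤ δ := by
  obtain ⟨C, hC⟩ := h.upp
  refine ⟨|C| / δ, ?_⟩
  intro z hz
  by_contra hn
  push Not at hn
  have h0 : 0 ≤ ‖z‖ := norm_nonneg z
  have h1 : 1 + ‖z‖ ≤ (1 + ‖z‖) ^ 4 := by
    have h11 : (1 : ℝ) ≤ 1 + ‖z‖ := by linarith
    calc 1 + ‖z‖ = (1 + ‖z‖) ^ 1 := (pow_one _).symm
      _ ≤ (1 + ‖z‖) ^ 4 := pow_le_pow_right₀ h11 (by norm_num)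
  have h2 : |C| / δ < (1 + ‖z‖) ^ 4 := by linarith
  have h3 : |C| < (1 + ‖z‖) ^ 4 * δ := by rwa [div_lt_iff₀ hδ] at h2
  have h4 : (1 + ‖z‖) ^ 4 * δ ≤ (1 + ‖z‖) ^ 4 * φ z :=
    mul_le_mul_of_nonneg_left hn.le (by positivity)
  have h5 := hC z
  have h6 := le_abs_self C
  linarith

end FDJ_

open FDJ_ in
theorem fdj_proof (hT : Stmt_TDL) : Stmt_FDJ := by
  intro φ δ hφ hδ
  obtain ⟨hs, hd, hz, hb, -, -⟩ := hT.1 δ hδ
  have hb' : ∀ z, 0 ≤ Td δ (φ z) ∧ Td δ (φ z) ≤ φ z ∧ φ z - 2 * δ ≤ Td δ (φ z) :=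
    fun z => hb (φ z) (pos hφ z).le
  refine ⟨⟨?_, ?_, ?_, ?_, ?_, ?_⟩, ?_⟩
  · exact contDiff_const.sub (hs.comp hφ.smooth)
  · intro x y
    show 1 - Td δ (φ (x, y)) = 1 - Td δ (φ (y, x))
    rw [hφ.sy1 x y]
  · intro x y
    show 1 - Td δ (φ (x, y)) = 1 - Td δ (φ (-x, y - x))
    rw [hφ.sy2 x y]
  · intro z
    have h1 := (hb' z).2.1
    have h2 := hφ.le_half z
    show 1 / 2 ≤ 1 - Td δ (φ z)
    linarith
  · intro z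
    have h1 := (hb' z).1
    show 1 - Td δ (φ z) ≤ 1
    linarith
  · obtain ⟨R, hR⟩ := small hφ hδ
    refine ⟨R, fun z hz' => ?_⟩
    show 1 - Td δ (φ z) = 1
    rw [hz (φ z) (hR z hz'), sub_zero]
  · intro z
    obtain ⟨h1, h2, h3⟩ := hb' z
    refine ⟨(pos hφ z).le, ?_, ?_⟩
    · show 1 - φ z ≤ 1 - Td δ (φ z)
      linarith
    · show 1 - Td δ (φ z) ≤ 1 - φ z + 2 * δ
      linarith

end Pool.Agent.TBG
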