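import Pool.Agent.TBG.Stmts

/-!
# Three-body Bose gases (MP_80dc41_mp): conclusion
-/

set_option autoImplicit false

open MeasureTheory Filter Topology
open scoped ContDiff

namespace Pool.Agent.TBG

theorem fin_proof (h1 : Stmt_CON) (h2 : Stmt_EXI) (h3 : Stmt_GAS) (h4 : Stmt_BME) (h5 : Stmt_ADM) : MainStatement := by
  apply h1
  intro b K hb
  obtain ⟨φ, hφ, hw, hg⟩ := h2 b (K * b) hb
  refine ⟨VV φ, (h5 φ hφ).1, (h4 φ hφ).trans hw, ?_⟩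
  obtain ⟨ρ₀, hρ₀, h⟩ := h3 φ hφ (K * b) hg
  refine ⟨ρ₀, hρ₀, fun ρ hρ hρ' => ?_⟩
  filter_upwards [h ρ hρ hρ'] with p hp
  rw [hw] at hp
  calc E0 (VV φ) p.1 p.2 / p.2 ^ 3 ≤ 1 / 6 * ρ ^ 3 * (b - K * b * ρ) := hp
    _ = 1 / 6 * ρ ^ 3 * b * (1 - K * ρ) := by ring

end Pool.Agent.TBG
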