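import Pool.Agent.TBG.Stmts

/-!
# Three-body Bose gases (MP_80dc41_mp): module FTB
-/

set_option autoImplicit false

open MeasureTheory Filter Topology
open scoped ContDiff

namespace Pool.Agent.TBG

namespace FTB_

theorem sy1 {N : ℕ} {f : E × E → ℝ} (hf : Jas f) (X : Fin N → E) (i j k : Fin N) :
    tr f X i j k = tr f X i k j := hf.sy1 _ _

theorem sy2 {N : ℕ} {f : E × E → ℝ} (hf : Jas f) (X : Fin N → E) (i j k : Fin N) :
    tr f X i j k = tr f X j i k := by
  unfold tr
  rw [hf.sy2 (X i - X j) (X i - X k)]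
  congr 2
  · abel
  · abel

theorem tra {N : ℕ} (f : E × E → ℝ) (X : Fin N → E) (i j k : Fin N) :
    tr (aa f) X i j k = 1 - tr f X i j k ^ 2 := rfl

theorem pos {N : ℕ} {f : E × E → ℝ} (hf : Jas f) (X : Fin N → E) (i j k : Fin N) :
    0 < tr f X i j k := by
  have := hf.half_le (X i - X j, X i - X k)
  unfold tr
  linarith

theorem le_one {N : ℕ} {f : E × E → ℝ} (hf : Jas f) (X : Fin N → E) (i j k : Fin N) :
    tr f X i j k ≤ 1 := hf.le_one _

theorem cont {N : ℕ} {f : E × E → ℝ} (hf : Jas f) (i j k : Fin N) :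
    Continuous fun X : Fin N → E => tr f X i j k := by
  unfold tr
  exact hf.smooth.continuous.comp (by fun_prop)

theorem mem_trip {N : ℕ} {S : Finset (Fin N)} {t : Fin N × Fin N × Fin N} (h : t ∈ trip S) :
    t.1 ∈ S ∧ t.2.1 ∈ S ∧ t.2.2 ∈ S := by
  unfold trip at h
  rw [Finset.mem_filter, Finset.mem_product, Finset.mem_product] at h
  exact h.1

theorem trip_mono {N : ℕ} {S T : Finset (Fin N)} (h : S ⊆ T) : trip S ⊆ trip T := by
  unfold trip
  apply Finset.filter_subset_filter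
  exact Finset.product_subset_product h (Finset.product_subset_product h h)

end FTB_

theorem ftb_proof : Stmt_FTB := by
  intro N f hf
  have hpos : ∀ (X : Fin N → E) (t : Fin N × Fin N × Fin N),
      0 < tr f X t.1 t.2.1 t.2.2 ^ 2 := fun X t => pow_pos (FTB_.pos hf X _ _ _) 2
  have hle : ∀ (X : Fin N → E) (t : Fin N × Fin N × Fin N),
      tr f X t.1 t.2.1 t.2.2 ^ 2 ≤ 1 := fun X t =>
    pow_le_one₀ (FTB_.pos hf X _ _ _).le (FTB_.le_one hf X _ _ _)
  refine ⟨?_, ?_, ?_, ?_⟩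
  · intro X i j k
    refine ⟨FTB_.sy1 hf X i j k, FTB_.sy2 hf X i j k, ?_, ?_⟩
    · rw [FTB_.tra, FTB_.tra, FTB_.sy1 hf X i j k]
    · rw [FTB_.tra, FTB_.tra, FTB_.sy2 hf X i j k]
  · intro S
    refine ⟨?_, ?_, ?_⟩
    · unfold F2
      exact continuous_finsetProd _ fun t _ => (FTB_.cont hf _ _ _).pow 2
    · intro X
      unfold F2
      exact ⟨Finset.prod_pos fun t _ => hpos X t,
        Finset.prod_le_one (fun t _ => (hpos X t).le) fun t _ => hle X t⟩
    · intro X Y hXY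
      unfold F2
      apply Finset.prod_congr rfl
      intro t ht
      obtain ⟨h1, h2, h3⟩ := FTB_.mem_trip ht
      unfold tr
      rw [hXY _ h1, hXY _ h2, hXY _ h3]
  · intro S T X hST
    unfold F2
    rw [← Finset.prod_sdiff (FTB_.trip_mono hST)]
    have h1 : 0 ≤ ∏ t ∈ trip S, tr f X t.1 t.2.1 t.2.2 ^ 2 :=
      Finset.prod_nonneg fun t _ => (hpos X t).le
    have h2 : ∏ t ∈ trip T \ trip S, tr f X t.1 t.2.1 t.2.2 ^ 2 ≤ 1 :=
      Finset.prod_le_one (fun t _ => (hpos X t).le) fun t _ => hle X t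
    exact mul_le_of_le_one_left h1 h2
  · intro X
    unfold UU F2
    rw [Real.exp_sum, Finset.prod_congr rfl fun t _ => Real.exp_log (FTB_.pos hf X t.1 t.2.1 t.2.2),
      Finset.prod_pow]

end Pool.Agent.TBG
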