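import Pool.Agent.TBG.Stmts

/-!
# Three-body Bose gases: pointwise gain
-/

set_option autoImplicit false

open MeasureTheory Filter Topology
open scoped ContDiff

namespace Pool.Agent.TBG

theorem gai_proof (h1 : Stmt_FTB) (h2 : Stmt_INS) (h3 : Stmt_INP) (h4 : Stmt_WPI) : Stmt_GAI := by
  intro N f V X i j k T hN hij hjk hT
  obtain ⟨s1, s2, s3, _⟩ := h1 N f hN.jas
  have hik : i < k := hij.trans hjk
  have hkT : k ∉ T := by rw [hT]; simp
  have hjT : j ∉ insert k T := by
    rw [hT]; simp [hjk.ne]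
  have hiT : i ∉ insert j (insert k T) := by
    rw [hT]; simp [hij.ne, hik.ne]
  have huniv : insert i (insert j (insert k T)) = (Finset.univ : Finset (Fin N)) := by
    rw [hT, Finset.insert_erase, Finset.insert_erase, Finset.insert_erase]
    · simp
    · simp [hij.ne']
    · simp [hik.ne', hjk.ne']
  set g2 : Fin N → Fin N → Fin N → ℝ := fun a b c => (tr f X a b c) ^ 2 with hg2
  have g01 : ∀ a b c, 0 ≤ g2 a b c ∧ g2 a b c ≤ 1 := by
    intro a b c
    have q1 := hN.jas.half_le (X a - X b, X a - X c)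
    have q2 := hN.jas.le_one (X a - X b, X a - X c)
    refine ⟨sq_nonneg _, ?_⟩
    simp only [hg2, tr]
    nlinarith
  have gs1 : ∀ a b c, g2 a b c = g2 a c b := fun a b c => by simp only [hg2, (s1 X a b c).1]
  have gs2 : ∀ a b c, g2 a b c = g2 b a c := fun a b c => by simp only [hg2, (s1 X a b c).2.1]
  have e1 : F2 f Finset.univ X = F2 f (insert j (insert k T)) X * ∏ p ∈ prs (insert j (insert k T)), g2 i p.1 p.2 := by
    rw [← huniv]
    exact h2 N g2 _ i gs1 gs2 hiT
  have e2 : F2 f (insert j (insert k T)) X ≤ F2 f T X :=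
    s3 _ _ X ((Finset.subset_insert k T).trans (Finset.subset_insert j _))
  have e3 : ∏ p ∈ prs (insert j (insert k T)), g2 i p.1 p.2 ≤ g2 i j k * ∏ l ∈ T, g2 i j l := by
    rw [h3 N (fun a b => g2 i a b) (insert k T) j (fun a b => gs1 i a b) hjT, Finset.prod_insert hkT]
    have h5 : ∏ t ∈ prs (insert k T), g2 i t.1 t.2 ≤ 1 := Finset.prod_le_one (fun t _ => (g01 _ _ _).1) (fun t _ => (g01 _ _ _).2)
    have h6 : 0 ≤ g2 i j k * ∏ l ∈ T, g2 i j l :=
      mul_nonneg (g01 _ _ _).1 (Finset.prod_nonneg (fun l _ => (g01 _ _ _).1))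
    calc _ ≤ 1 * (g2 i j k * ∏ l ∈ T, g2 i j l) := mul_le_mul_of_nonneg_right h5 h6
      _ = _ := one_mul _
  have e4 : ∏ l ∈ T, g2 i j l ≤ 1 - ∑ l ∈ T, tr (aa f) X i j l +
      1 / 2 * ∑ l ∈ T, ∑ m ∈ T.erase l, tr (aa f) X i j l * tr (aa f) X i j m := by
    have h5 := (h4 (Fin N) T (fun l => tr (aa f) X i j l) (fun l => ?_)).2
    · refine le_trans (le_of_eq ?_) h5
      refine Finset.prod_congr rfl (fun l _ => ?_)
      simp only [hg2, tr, aa]; ring
    · have := g01 i j l
      simp only [hg2, tr] at this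
      simp only [tr, aa]
      constructor <;> linarith [this.1, this.2]
  have hf2 : 0 < g2 i j k := by
    have q1 := hN.jas.half_le (X i - X j, X i - X k)
    simp only [hg2, tr]; positivity
  have hkk : tr (kap f V) X i j k = g2 i j k * tr (kk f V) X i j k := by
    simp only [hg2, tr, kk] at hf2 ⊢
    rw [mul_div_cancel₀ _ hf2.ne']
  have hkap : 0 ≤ tr (kap f V) X i j k := hN.kap_nonneg _
  have hkk0 : 0 ≤ tr (kk f V) X i j k := by
    rw [hkk] at hkap
    exact nonneg_of_mul_nonneg_right hkap hf2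
  have hF0 : ∀ S, 0 < F2 f S X := fun S => ((s2 S).2.1 X).1
  have hP0 : 0 ≤ ∏ l ∈ T, g2 i j l := Finset.prod_nonneg (fun l _ => (g01 _ _ _).1)
  calc F2 f Finset.univ X * tr (kk f V) X i j k
      = F2 f (insert j (insert k T)) X * (∏ p ∈ prs (insert j (insert k T)), g2 i p.1 p.2) * tr (kk f V) X i j k := by
        rw [e1]
    _ ≤ F2 f T X * (g2 i j k * ∏ l ∈ T, g2 i j l) * tr (kk f V) X i j k := by
        apply mul_le_mul_of_nonneg_right _ hkk0
        exact mul_le_mul e2 e3 (Finset.prod_nonneg (fun l _ => (g01 _ _ _).1)) (hF0 T).le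
    _ = F2 f T X * tr (kap f V) X i j k * ∏ l ∈ T, g2 i j l := by rw [hkk]; ring
    _ ≤ _ := mul_le_mul_of_nonneg_left e4 (mul_nonneg (hF0 T).le hkap)

end Pool.Agent.TBG
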