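import Pool.Agent.TBG.Stmts

/-!
# Squad TBG (MP_80dc41_mp), module GLI: the gain in the limit `δ → 0`
-/

set_option autoImplicit false

open MeasureTheory Filter Topology
open scoped ContDiff

namespace Pool.Agent.TBG

namespace GLI_

/-- sections of continuous compactly supported functions are integrable -/
theorem section_int (u : E × E → ℝ) (hc : Continuous u) (hs : HasCompactSupport u) (x : E) :
    Integrable (fun y : E => u (x, y)) := by
  have hcl : IsClosedEmbedding (fun y : E => (x, y)) := by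
    refine ⟨isEmbedding_prodMkRight x, ?_⟩
    have : Set.range (Prod.mk x : E → E × E) = {p : E × E | p.1 = x} := by
      ext ⟨a, b⟩
      simp only [Set.mem_range, Prod.mk.injEq, Set.mem_ofPred_eq]
      constructor
      · rintro ⟨y, h1, -⟩
        exact h1.symm
      · intro h
        exact ⟨b, h.symm, rfl⟩
    rw [this]
    exact isClosed_eq continuous_fst continuous_const
  have h1 : HasCompactSupport (fun y : E => u (x, y)) := hs.comp_isClosedEmbedding hcl
  have h2 : Continuous (fun y : E => u (x, y)) := hc.comp (by fun_prop)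
  exact h2.integrable_of_hasCompactSupport h1

end GLI_

theorem gli_proof (hTDL : Stmt_TDL) (hFDJ : Stmt_FDJ) (hADM : Stmt_ADM) (hKPO : Stmt_KPO)
    (hKAF : Stmt_KAF) (hINT : Stmt_INT) : Stmt_GLI := by
  intro φ hφ γ hγ
  obtain ⟨hAdm, hVc, hwc, hws, hw0, -, -⟩ := hADM φ hφ
  have hφ0 : ∀ z, 0 ≤ φ z := fun z => ((hFDJ φ 1 hφ one_pos).2 z).1
  obtain ⟨C, hC⟩ := hφ.upp
  have hφc : Continuous φ := hφ.smooth.continuous
  have hC0 : 0 ≤ C := le_trans (mul_nonneg (by positivity) (hφ0 0)) (hC 0)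
  -- the bound on the sections
  have hbd : ∀ x y : E, φ (x, y) ≤ C * ((1 + ‖y‖) ^ 4)⁻¹ := by
    intro x y
    have h1 : (1 + ‖y‖) ^ 4 ≤ (1 + ‖(x, y)‖) ^ 4 := by
      apply pow_le_pow_left₀ (by positivity)
      have : ‖y‖ ≤ ‖(x, y)‖ := by
        rw [Prod.norm_def]
        exact le_max_right _ _
      linarith
    have h2 : (1 + ‖y‖) ^ 4 * φ (x, y) ≤ C :=
      le_trans (mul_le_mul_of_nonneg_right h1 (hφ0 _)) (hC _)
    have h3 : (0 : ℝ) < (1 + ‖y‖) ^ 4 := by positivity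
    rw [← div_eq_mul_inv, le_div_iff₀ h3]
    linarith
  have hbi : Integrable (fun y : E => C * ((1 + ‖y‖) ^ 4)⁻¹) := hINT.2.1.const_mul C
  -- truncations
  have hTc : ∀ δ : ℝ, 0 < δ → Continuous (Td δ) := fun δ hδ => (hTDL.1 δ hδ).1.continuous
  have hT0 : ∀ δ : ℝ, 0 < δ → ∀ z, 0 ≤ Td δ (φ z) := fun δ hδ z =>
    ((hTDL.1 δ hδ).2.2.2.1 (φ z) (hφ0 z)).1
  have hT1 : ∀ δ : ℝ, 0 < δ → ∀ z, Td δ (φ z) ≤ φ z := fun δ hδ z =>
    ((hTDL.1 δ hδ).2.2.2.1 (φ z) (hφ0 z)).2.1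
  have hT2 : ∀ δ : ℝ, 0 < δ → ∀ z, φ z - 2 * δ ≤ Td δ (φ z) := fun δ hδ z =>
    ((hTDL.1 δ hδ).2.2.2.1 (φ z) (hφ0 z)).2.2
  have hTi : ∀ δ : ℝ, 0 < δ → ∀ x : E, Integrable (fun y : E => Td δ (φ (x, y))) := by
    intro δ hδ x
    apply hbi.mono'
    · exact ((hTc δ hδ).comp (hφc.comp (by fun_prop))).aestronglyMeasurable
    · filter_upwards with y
      rw [Real.norm_eq_abs, abs_of_nonneg (hT0 δ hδ _)]
      exact le_trans (hT1 δ hδ _) (hbd x y)
  have hI0 : ∀ δ : ℝ, 0 < δ → ∀ x : E, 0 ≤ ∫ y : E, Td δ (φ (x, y)) := fun δ hδ x =>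
    integral_nonneg (fun y => hT0 δ hδ _)
  have hI1 : ∀ δ : ℝ, 0 < δ → ∀ x : E,
      ∫ y : E, Td δ (φ (x, y)) ≤ ∫ y : E, C * ((1 + ‖y‖) ^ 4)⁻¹ := fun δ hδ x =>
    integral_mono (hTi δ hδ x) hbi (fun y => le_trans (hT1 δ hδ _) (hbd x y))
  have hpos : ∀ᶠ δ in 𝓝[>] (0 : ℝ), 0 < δ := self_mem_nhdsWithin
  -- inner limit
  have hlim1 : ∀ x : E, Tendsto (fun δ : ℝ => ∫ y : E, Td δ (φ (x, y))) (𝓝[>] 0)
      (𝓝 (∫ y : E, φ (x, y))) := by
    intro x
    apply tendsto_integral_filter_of_dominated_convergence (fun y : E => C * ((1 + ‖y‖) ^ 4)⁻¹)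
    · filter_upwards [hpos] with δ hδ
      exact (hTi δ hδ x).aestronglyMeasurable
    · filter_upwards [hpos] with δ hδ
      filter_upwards with y
      rw [Real.norm_eq_abs, abs_of_nonneg (hT0 δ hδ _)]
      exact le_trans (hT1 δ hδ _) (hbd x y)
    · exact hbi
    · filter_upwards with y
      have h1 : Tendsto (fun δ : ℝ => φ (x, y) - 2 * δ) (𝓝[>] 0) (𝓝 (φ (x, y))) := by
        have h2 : Tendsto (fun δ : ℝ => φ (x, y) - 2 * δ) (𝓝 0) (𝓝 (φ (x, y) - 2 * 0)) :=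
          (by fun_prop : Continuous (fun δ : ℝ => φ (x, y) - 2 * δ)).tendsto 0
        rw [mul_zero, sub_zero] at h2
        exact h2.mono_left nhdsWithin_le_nhds
      apply tendsto_of_tendsto_of_tendsto_of_le_of_le' h1 tendsto_const_nhds
      · filter_upwards [hpos] with δ hδ
        exact hT2 δ hδ _
      · filter_upwards [hpos] with δ hδ
        exact hT1 δ hδ _
  -- outer limit
  have hwi : Integrable (ww φ) := hwc.integrable_of_hasCompactSupport hws
  have hlim2 : Tendsto (fun δ : ℝ => ∫ z : E × E, ww φ z * ∫ y : E, Td δ (φ (z.1, y))) (𝓝[>] 0)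
      (𝓝 (∫ z : E × E, ww φ z * ∫ y : E, φ (z.1, y))) := by
    apply tendsto_integral_filter_of_dominated_convergence
      (fun z : E × E => ww φ z * ∫ y : E, C * ((1 + ‖y‖) ^ 4)⁻¹)
    · filter_upwards [hpos] with δ hδ
      have h1 : StronglyMeasurable (fun p : E × E => Td δ (φ p)) :=
        ((hTc δ hδ).comp hφc).stronglyMeasurable
      have h2 : StronglyMeasurable (fun x : E => ∫ y : E, Td δ (φ (x, y))) :=
        h1.integral_prod_right'
      exact (hwc.stronglyMeasurable.mul (h2.comp_measurable measurable_fst)).aestronglyMeasurable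
    · filter_upwards [hpos] with δ hδ
      filter_upwards with z
      rw [Real.norm_eq_abs, abs_of_nonneg (mul_nonneg (hw0 z) (hI0 δ hδ _))]
      exact mul_le_mul_of_nonneg_left (hI1 δ hδ _) (hw0 z)
    · exact hwi.mul_const _
    · filter_upwards with z
      exact (hlim1 z.1).const_mul _
  have hlim3 : ∀ᶠ δ in 𝓝[>] (0 : ℝ),
      4 * γ < ∫ z : E × E, ww φ z * ∫ y : E, Td δ (φ (z.1, y)) := by
    apply hlim2.eventually_const_lt
    unfold gam at hγ
    linarith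
  filter_upwards [hpos, hlim3] with δ hδ hγδ
  -- the comparison
  obtain ⟨hJas, hf⟩ := hFDJ φ δ hφ hδ
  obtain ⟨-, -, hk⟩ := hKPO φ δ hφ hδ
  have hNBH : NBH (fd δ φ) (VV φ) :=
    ⟨hJas, hAdm, hVc, fun z => le_trans (by have := hw0 z; positivity) (hk z)⟩
  obtain ⟨hkap, haa, -, -, -, hAAc, hAA0, -, -⟩ := hKAF _ _ hNBH
  have hcomp : ∀ z : E × E, 1 / 4 * (ww φ z * ∫ y : E, Td δ (φ (z.1, y))) ≤
      kap (fd δ φ) (VV φ) z * AA (fd δ φ) z.1 := by
    intro z
    have h1 : ∫ y : E, Td δ (φ (z.1, y)) ≤ AA (fd δ φ) z.1 := by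
      unfold AA
      apply integral_mono (hTi δ hδ z.1) (GLI_.section_int _ haa.cont haa.cpt z.1)
      intro y
      show Td δ (φ (z.1, y)) ≤ 1 - fd δ φ (z.1, y) ^ 2
      have h2 := hT0 δ hδ (z.1, y)
      have h3 := hT1 δ hδ (z.1, y)
      have h4 := hφ.le_half (z.1, y)
      unfold fd
      nlinarith
    have h5 := hI0 δ hδ z.1
    have h6 := hw0 z
    calc 1 / 4 * (ww φ z * ∫ y : E, Td δ (φ (z.1, y))) = (ww φ z / 4) *
        ∫ y : E, Td δ (φ (z.1, y)) := by ring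
      _ ≤ kap (fd δ φ) (VV φ) z * AA (fd δ φ) z.1 :=
        mul_le_mul (hk z) h1 h5 (le_trans (by positivity) (hk z))
  have hint : Integrable (fun z : E × E => kap (fd δ φ) (VV φ) z * AA (fd δ φ) z.1) := by
    have h1 : Continuous (fun z : E × E => kap (fd δ φ) (VV φ) z * AA (fd δ φ) z.1) :=
      hkap.cont.mul (hAAc.comp continuous_fst)
    exact h1.integrable_of_hasCompactSupport hkap.cpt.mul_right
  have hfin : ∫ z : E × E, 1 / 4 * (ww φ z * ∫ y : E, Td δ (φ (z.1, y))) ≤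
      ∫ z : E × E, kap (fd δ φ) (VV φ) z * AA (fd δ φ) z.1 := by
    apply integral_mono_of_nonneg _ hint
    · filter_upwards with z
      exact hcomp z
    · filter_upwards with z
      have h5 := hI0 δ hδ z.1
      have h6 := hw0 z
      show (0 : ℝ) ≤ _
      positivity
  rw [integral_const_mul] at hfin
  linarith

end Pool.Agent.TBG
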