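import Pool.Agent.TBG.Stmts

/-!
# TBG, module GRD: smooth compactly supported functions are in the homogeneous Sobolev class
-/

set_option autoImplicit false

open MeasureTheory Filter Topology
open scoped ContDiff

namespace Pool.Agent.TBG

namespace GRD_

theorem inner_ev (v : E) (c : Fin 3) : inner ℝ v (ev c) = v c := by
  unfold ev
  rw [EuclideanSpace.inner_single_right]
  simp

theorem normsq (v : E) : ‖v‖ ^ 2 = ∑ c, v c ^ 2 := by
  rw [EuclideanSpace.norm_sq_eq]
  exact Finset.sum_congr rfl fun c _ => by rw [Real.norm_eq_abs, sq_abs]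

theorem inn (v w : E) : inner ℝ v w = ∑ c, v c * w c := by
  rw [PiLp.inner_apply]
  refine Finset.sum_congr rfl fun c _ => ?_
  simp [mul_comm]

theorem quad (v : E × E) : quadM v =
    ∑ m, ∑ c, (inner ℝ v.1 (dr m c).1 + inner ℝ v.2 (dr m c).2) ^ 2 := by
  have h0 : ∀ c, (inner ℝ v.1 (dr 0 c).1 + inner ℝ v.2 (dr 0 c).2) ^ 2 = (v.1 c + v.2 c) ^ 2 := by
    intro c
    have e1 : dr 0 c = (ev c, ev c) := by simp [dr]
    rw [e1]
    simp only
    rw [inner_ev, inner_ev]
  have h1 : ∀ c, (inner ℝ v.1 (dr 1 c).1 + inner ℝ v.2 (dr 1 c).2) ^ 2 = (v.1 c) ^ 2 := by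
    intro c
    have e1 : dr 1 c = (-ev c, 0) := by simp [dr]
    rw [e1]
    simp only [inner_neg_right, inner_zero_right]
    rw [inner_ev]
    ring
  have h2 : ∀ c, (inner ℝ v.1 (dr 2 c).1 + inner ℝ v.2 (dr 2 c).2) ^ 2 = (v.2 c) ^ 2 := by
    intro c
    have e1 : dr 2 c = (0, -ev c) := by simp [dr]
    rw [e1]
    simp only [inner_neg_right, inner_zero_right]
    rw [inner_ev]
    ring
  rw [Fin.sum_univ_three, Finset.sum_congr rfl fun c _ => h0 c, Finset.sum_congr rfl fun c _ => h1 c,
    Finset.sum_congr rfl fun c _ => h2 c]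
  unfold quadM
  rw [normsq, normsq, inn, ← Finset.sum_add_distrib, ← Finset.sum_add_distrib,
    ← Finset.sum_add_distrib, ← Finset.sum_add_distrib, Finset.mul_sum]
  exact Finset.sum_congr rfl fun c _ => by ring

theorem decomp (v : E) : v = ∑ c, v c • ev c := by
  ext d
  simp [ev, Finset.sum_apply, Pi.single_apply]

theorem lin (A : E × E →L[ℝ] ℝ) (v : E × E) :
    A v = inner ℝ (∑ c, A (ev c, (0 : E)) • ev c) v.1 + inner ℝ (∑ c, A ((0 : E), ev c) • ev c) v.2 := by
  have h1 : v = (∑ c, v.1 c • ((ev c, (0 : E)) : E × E)) + ∑ c, v.2 c • (((0 : E), ev c) : E × E) := by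
    refine Prod.ext ?_ ?_
    · rw [Prod.fst_add, Prod.fst_sum, Prod.fst_sum]
      simp only [Prod.smul_mk, smul_zero, Finset.sum_const_zero, add_zero]
      exact decomp v.1
    · rw [Prod.snd_add, Prod.snd_sum, Prod.snd_sum]
      simp only [Prod.smul_mk, smul_zero, Finset.sum_const_zero, zero_add]
      exact decomp v.2
  conv_lhs => rw [h1]
  rw [map_add, map_sum, map_sum, sum_inner, sum_inner]
  congr 1
  · refine Finset.sum_congr rfl fun c _ => ?_
    rw [map_smul, real_inner_smul_left, real_inner_comm, inner_ev, smul_eq_mul, mul_comm]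
  · refine Finset.sum_congr rfl fun c _ => ?_
    rw [map_smul, real_inner_smul_left, real_inner_comm, inner_ev, smul_eq_mul, mul_comm]

theorem cont_dv {W : Type} [NormedAddCommGroup W] [NormedSpace ℝ W] (v : W) (f : W → ℝ)
    (hf : ContDiff ℝ ∞ f) : Continuous (dv v f) := by
  unfold dv
  have h1 : Continuous (fderiv ℝ f) := hf.continuous_fderiv (by simp)
  exact h1.clm_apply continuous_const

theorem dv_zero {W : Type} [NormedAddCommGroup W] [NormedSpace ℝ W] (v : W) (f : W → ℝ) (x : W)
    (hx : x ∉ tsupport f) : dv v f x = 0 := by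
  unfold dv
  have h1 : fderiv ℝ f x = 0 := by
    by_contra h
    exact hx (support_fderiv_subset ℝ (Function.mem_support.2 h))
  rw [h1]
  rfl

theorem cont_gr (h : E × E → ℝ) (hh : ContDiff ℝ ∞ h) : Continuous (gr h) := by
  unfold gr
  refine Continuous.prodMk ?_ ?_
  · exact continuous_finsetSum _ fun c _ => (cont_dv _ h hh).smul continuous_const
  · exact continuous_finsetSum _ fun c _ => (cont_dv _ h hh).smul continuous_const

end GRD_

open GRD_ in
theorem grd_proof (hIBP : Stmt_IBP) : Stmt_GRD := by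
  refine ⟨quad, fun h hh => ?_⟩
  have h2 : ∀ z v, dv v h z = inner ℝ (gr h z).1 v.1 + inner ℝ (gr h z).2 v.2 :=
    fun z v => lin (fderiv ℝ h z) v
  refine ⟨h2, fun z => ?_, fun hc => ?_⟩
  · rw [quad]
    unfold gsq
    refine Finset.sum_congr rfl fun m _ => Finset.sum_congr rfl fun c _ => ?_
    rw [h2 z (dr m c)]
  · have hgc : HasCompactSupport (gr h) := by
      refine HasCompactSupport.intro hc fun x hx => ?_
      unfold gr
      simp only [dv_zero _ h x hx, zero_smul, Finset.sum_const_zero]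
      rfl
    refine ⟨hh.continuous.memLp_of_hasCompactSupport hc,
      (cont_gr h hh).memLp_of_hasCompactSupport hgc,
      ⟨hh.continuous.locallyIntegrable, (cont_gr h hh).locallyIntegrable, fun η hη hηc v => ?_⟩⟩
    haveI : (volume : Measure (E × E)).IsAddHaarMeasure := by
      rw [Measure.volume_eq_prod]
      infer_instance
    have h3 := (hIBP (E × E) volume h η v (hh.of_le (by simp)) (hη.of_le (by simp)) hc).2
    have h4 : ∫ z, (inner ℝ (gr h z).1 v.1 + inner ℝ (gr h z).2 v.2) * η z = ∫ z, dv v h z * η z := by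
      refine integral_congr_ae (Eventually.of_forall fun z => ?_)
      show (inner ℝ (gr h z).1 v.1 + inner ℝ (gr h z).2 v.2) * η z = dv v h z * η z
      rw [h2 z v]
    rw [h4]
    exact h3

end Pool.Agent.TBG
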