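import Pool.Agent.TBG.Stmts

/-!
# Three-body Bose gases (MP_80dc41_mp): module HHB, the bump `hh`
-/

set_option autoImplicit false

open MeasureTheory Filter Topology
open scoped ContDiff

namespace Pool.Agent.TBG

namespace HHB_

theorem key_low (s r : ℝ) (hr : 0 ≤ r) (h : s ≤ 2 * r ^ 2) : 1 + s ≤ 2 * (1 + r) ^ 2 := by
  nlinarith [sq_nonneg r]

theorem key_upp (s r : ℝ) (h : r ^ 2 ≤ 3 * s) : (1 + r) ^ 2 ≤ 6 * (1 + s) := by
  nlinarith [sq_nonneg (r - 1)]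

theorem QQ_line (t : ℝ) : QQ (t • ev 0, 0) = 2 * t ^ 2 / 3 := by
  have h1 : ‖t • ev 0‖ ^ 2 = t ^ 2 := by
    rw [norm_smul, ev, EuclideanSpace.norm_single, norm_one, mul_one, Real.norm_eq_abs, sq_abs]
  unfold QQ
  show (‖t • ev 0‖ ^ 2 + ‖(0 : E)‖ ^ 2 + ‖t • ev 0 - 0‖ ^ 2) / 3 = _
  rw [sub_zero, h1, norm_zero]
  ring

end HHB_

open HHB_

theorem hhb_proof (hLPC : Stmt_LPC) (hPSI : Stmt_PSI) (hQFO : Stmt_QFO) : Stmt_HHB := by
  obtain ⟨psm, pd, p1, pb, plap, m0, m1, ⟨s0, hs0, hms0⟩, _⟩ := hPSI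
  obtain ⟨qsm, qg, ql, qb, qs, _⟩ := hQFO
  have hch := hLPC psi QQ Set.univ isOpen_univ psm.contDiffOn qsm (fun _ => Set.mem_univ _)
  have hgsq : ∀ z, gsq hh z = deriv psi (QQ z) ^ 2 * (4 * QQ z) := by
    intro z
    have h := (hch z).2.2.1
    rw [qg z] at h
    exact h
  have hlap : ∀ z, Lap hh z = deriv psi (QQ z) * 12 + deriv (deriv psi) (QQ z) * (4 * QQ z) := by
    intro z
    have h := (hch z).2.2.2
    rw [qg z, ql z] at h
    exact h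
  have hlap' : ∀ z, Lap hh z = -(8 * deriv mm (QQ z) / QQ z ^ 2) := by
    intro z
    rw [hlap, ← plap (QQ z)]
    ring
  have hlow : ∀ z, 1 + QQ z ≤ 2 * (1 + ‖z‖) ^ 2 := fun z =>
    key_low _ _ (norm_nonneg z) (qb z).2.1
  have hupp : ∀ z, (1 + ‖z‖) ^ 2 ≤ 6 * (1 + QQ z) := fun z => key_upp _ _ (qb z).2.2
  have hcont : Continuous (ww hh) := by
    have h1 : ContDiff ℝ ∞ (deriv psi) := (contDiff_infty_iff_deriv.1 psm).2
    have h2 : ContDiff ℝ ∞ (deriv (deriv psi)) := (contDiff_infty_iff_deriv.1 h1).2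
    have h3 : ww hh = fun z => -(deriv psi (QQ z) * 12 + deriv (deriv psi) (QQ z) * (4 * QQ z)) := by
      funext z
      unfold ww
      rw [hlap z]
    rw [h3]
    have hq := qsm.continuous
    exact (((h1.continuous.comp hq).mul continuous_const).add
      ((h2.continuous.comp hq).mul (continuous_const.mul hq))).neg
  have hzero : ∀ z, 1 < QQ z → Lap hh z = 0 := by
    intro z hz
    rw [hlap' z, m1 _ hz]
    simp
  have hsup : ∀ z, Lap hh z ≤ 0 := by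
    intro z
    rw [hlap' z, Left.neg_nonpos_iff]
    have := m0 (QQ z)
    positivity
  have hcpt : HasCompactSupport (ww hh) := by
    refine HasCompactSupport.intro (isCompact_closedBall (0 : E × E) 2) fun z hz => ?_
    unfold ww
    rw [hzero z ?_, neg_zero]
    rw [mem_closedBall_zero_iff, not_le] at hz
    have h1 := (qb z).2.2
    nlinarith
  refine ⟨?_, ?_, ?_, ?_, ?_, ?_, ?_, ?_, hsup, hzero, hcont, hcpt, ?_⟩
  · exact psm.comp qsm
  · intro x y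
    unfold hh
    rw [(qs x y).1]
  · intro x y
    unfold hh
    rw [(qs x y).2]
  · intro z
    exact (pb (QQ z) (qb z).1).2.2.1
  · intro z hz
    unfold hh
    rw [p1 _ hz]
  · refine ⟨1 / 4, by norm_num, fun z => ?_⟩
    obtain ⟨h1, _, _, _⟩ := pb (QQ z) (qb z).1
    have h2 := hlow z
    have h0 := (qb z).1
    have h3 : (1 + QQ z) ^ 2 ≤ (2 * (1 + ‖z‖) ^ 2) ^ 2 := pow_le_pow_left₀ (by linarith) h2 2
    have h4 : (2 * (1 + ‖z‖) ^ 2) ^ 2 = 4 * (1 + ‖z‖) ^ 4 := by ring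
    rw [h4] at h3
    have h5 : 0 ≤ psi (QQ z) := by
      by_contra hneg
      push Not at hneg
      have : (1 + QQ z) ^ 2 * psi (QQ z) ≤ 0 :=
        mul_nonpos_of_nonneg_of_nonpos (sq_nonneg _) hneg.le
      linarith
    have h6 := mul_le_mul_of_nonneg_right h3 h5
    unfold hh
    linarith
  · refine ⟨576, fun z => ?_⟩
    obtain ⟨h1, h1', _, _⟩ := pb (QQ z) (qb z).1
    have h2 := hupp z
    have h0 := (qb z).1
    have h3 : ((1 + ‖z‖) ^ 2) ^ 2 ≤ (6 * (1 + QQ z)) ^ 2 := pow_le_pow_left₀ (sq_nonneg _) h2 2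
    have h4 : ((1 + ‖z‖) ^ 2) ^ 2 = (1 + ‖z‖) ^ 4 := by ring
    have h4' : (6 * (1 + QQ z)) ^ 2 = 36 * (1 + QQ z) ^ 2 := by ring
    rw [h4, h4'] at h3
    have h5 : 0 ≤ psi (QQ z) := by
      by_contra hneg
      push Not at hneg
      have : (1 + QQ z) ^ 2 * psi (QQ z) ≤ 0 :=
        mul_nonpos_of_nonneg_of_nonpos (sq_nonneg _) hneg.le
      linarith
    have h6 := mul_le_mul_of_nonneg_right h3 h5
    unfold hh
    linarith
  · refine ⟨6 ^ 5 * 4 * 54 ^ 2, fun z => ?_⟩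
    obtain ⟨_, _, _, h1⟩ := pb (QQ z) (qb z).1
    have h2 := hupp z
    have h0 := (qb z).1
    have h3 : ((1 + ‖z‖) ^ 2) ^ 5 ≤ (6 * (1 + QQ z)) ^ 5 := pow_le_pow_left₀ (sq_nonneg _) h2 5
    have h4 : ((1 + ‖z‖) ^ 2) ^ 5 = (1 + ‖z‖) ^ 10 := by ring
    rw [h4] at h3
    rw [hgsq z]
    have h5 : 0 ≤ deriv psi (QQ z) ^ 2 * (4 * QQ z) := by positivity
    have h6 := mul_le_mul_of_nonneg_right h3 h5
    have h7 : ((1 + QQ z) ^ 3 * |deriv psi (QQ z)|) ^ 2 ≤ 54 ^ 2 :=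
      pow_le_pow_left₀ (by positivity) h1 2
    have h8 : ((1 + QQ z) ^ 3 * |deriv psi (QQ z)|) ^ 2 =
        (1 + QQ z) ^ 6 * deriv psi (QQ z) ^ 2 := by
      rw [mul_pow, sq_abs]
      ring
    rw [h8] at h7
    have h9 : (6 * (1 + QQ z)) ^ 5 * (deriv psi (QQ z) ^ 2 * (4 * QQ z)) ≤
        6 ^ 5 * 4 * ((1 + QQ z) ^ 6 * deriv psi (QQ z) ^ 2) := by
      have h10 : 6 ^ 5 * 4 * ((1 + QQ z) ^ 6 * deriv psi (QQ z) ^ 2) -
          (6 * (1 + QQ z)) ^ 5 * (deriv psi (QQ z) ^ 2 * (4 * QQ z)) =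
          6 ^ 5 * 4 * ((1 + QQ z) ^ 5 * deriv psi (QQ z) ^ 2) := by ring
      have h11 : 0 ≤ 6 ^ 5 * 4 * ((1 + QQ z) ^ 5 * deriv psi (QQ z) ^ 2) := by positivity
      linarith
    calc (1 + ‖z‖) ^ 10 * (deriv psi (QQ z) ^ 2 * (4 * QQ z)) ≤ _ := h6
      _ ≤ _ := h9
      _ ≤ 6 ^ 5 * 4 * 54 ^ 2 := by
        refine mul_le_mul_of_nonneg_left h7 (by norm_num)
  · have hz : ∃ z, QQ z = s0 := by
      refine ⟨(Real.sqrt (3 * s0 / 2) • ev 0, 0), ?_⟩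
      rw [QQ_line, Real.sq_sqrt (by positivity)]
      ring
    obtain ⟨z, hz⟩ := hz
    refine hcont.integral_pos_of_hasCompactSupport_nonneg_nonzero (x := z) hcpt ?_ ?_
    · intro z
      show 0 ≤ ww hh z
      unfold ww
      linarith [hsup z]
    · unfold ww
      rw [hlap' z, hz, neg_neg]
      positivity

end Pool.Agent.TBG
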