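import Pool.Agent.TBG.Stmts

/-!
# Three-body Bose gases: kinetic energy of `C e^U`
-/

set_option autoImplicit false

open MeasureTheory Filter Topology
open scoped ContDiff

namespace Pool.Agent.TBG

namespace IMS_

variable {W : Type} [NormedAddCommGroup W] [NormedSpace ℝ W]

lemma smooth_dv {f : W → ℝ} (hf : ContDiff ℝ ∞ f) (v : W) : ContDiff ℝ ∞ (dv v f) := by
  have h := hf.fderiv_right (m := ∞) (by simp)
  exact h.clm_apply contDiff_const

lemma supp_dv {f : W → ℝ} (hf : HasCompactSupport f) (v : W) : HasCompactSupport (dv v f) := by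
  have h := hf.fderiv (𝕜 := ℝ)
  exact h.comp_left (g := fun L : W →L[ℝ] ℝ => L v) (by simp)

end IMS_

theorem ims_proof (hIBP : Stmt_IBP) : Stmt_IMS := by
  intro W _ _ _ _ _ μ _ C U v hC hU hc
  have hDC := IMS_.smooth_dv hC v
  have hDU := IMS_.smooth_dv hU v
  have hDDU := IMS_.smooth_dv hDU v
  have hE : ContDiff ℝ ∞ (fun y => Real.exp (2 * U y)) :=
    (contDiff_const.mul hU).exp
  have hF : ContDiff ℝ ∞ (fun y => C y ^ 2 * Real.exp (2 * U y) * dv v U y) :=
    ((hC.pow 2).mul hE).mul hDU
  have hFc : HasCompactSupport (fun y => C y ^ 2 * Real.exp (2 * U y) * dv v U y) := by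
    refine hc.mono fun x hx => ?_
    rw [Function.mem_support] at hx ⊢
    intro h0
    apply hx
    simp [h0]
  have dC : ∀ x, HasFDerivAt C (fderiv ℝ C x) x := fun x =>
    (hC.differentiable (by simp) x).hasFDerivAt
  have dU : ∀ x, HasFDerivAt U (fderiv ℝ U x) x := fun x =>
    (hU.differentiable (by simp) x).hasFDerivAt
  have dDU : ∀ x, HasFDerivAt (dv v U) (fderiv ℝ (dv v U) x) x := fun x =>
    (hDU.differentiable (by simp) x).hasFDerivAt
  have h1 := (hIBP W μ _ (fun _ => (0 : ℝ)) v (hF.of_le (by simp)) contDiff_const hFc).1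
  have h2 : ∀ x, dv v (fun y => C y ^ 2 * Real.exp (2 * U y) * dv v U y) x =
      Real.exp (2 * U x) * (2 * C x * dv v C x * dv v U x + 2 * C x ^ 2 * dv v U x ^ 2
        + C x ^ 2 * dv v (dv v U) x) := by
    intro x
    have e1 := (((dC x).pow 2).mul ((dU x).const_mul 2).exp).mul (dDU x)
    unfold dv
    have e2 := e1.fderiv
    have e3 : fderiv ℝ (fun y => C y ^ 2 * Real.exp (2 * U y) * dv v U y) x = _ := e2
    unfold dv at e3
    rw [e3]
    simp
    ring
  have h3 : ∀ x, dv v (fun y => C y * Real.exp (U y)) x =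
      Real.exp (U x) * (dv v C x + C x * dv v U x) := by
    intro x
    have e1 := (dC x).mul (dU x).exp
    have e2 : fderiv ℝ (fun y => C y * Real.exp (U y)) x = _ := e1.fderiv
    unfold dv
    rw [e2]
    simp
    ring
  have h4 : ∀ x, Real.exp (U x) ^ 2 = Real.exp (2 * U x) := by
    intro x
    rw [← Real.exp_nat_mul]
    norm_num
  have cE := hE.continuous
  have cC := hC.continuous
  have cDC := hDC.continuous
  have cDU := hDU.continuous
  have cDDU := hDDU.continuous
  have kDC := IMS_.supp_dv hc v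
  have i1 : Integrable (fun x => Real.exp (2 * U x) * (2 * C x * dv v C x * dv v U x +
      2 * C x ^ 2 * dv v U x ^ 2 + C x ^ 2 * dv v (dv v U) x)) μ := by
    refine Continuous.integrable_of_hasCompactSupport (by fun_prop) ?_
    refine hc.mono fun x hx => ?_
    rw [Function.mem_support] at hx ⊢
    intro h0
    apply hx
    simp [h0]
  have i2 : Integrable (fun x => Real.exp (2 * U x) * ((dv v C x) ^ 2 + C x * dv v C x * dv v U x
      - 1 / 2 * C x ^ 2 * dv v (dv v U) x)) μ := by
    have j1 : Integrable (fun x => Real.exp (2 * U x) * (dv v C x) ^ 2) μ := by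
      refine Continuous.integrable_of_hasCompactSupport (by fun_prop) ?_
      refine kDC.mono fun x hx => ?_
      rw [Function.mem_support] at hx ⊢
      intro h0
      apply hx
      simp [h0]
    have j2 : Integrable (fun x => Real.exp (2 * U x) * (C x * dv v C x * dv v U x
        - 1 / 2 * C x ^ 2 * dv v (dv v U) x)) μ := by
      refine Continuous.integrable_of_hasCompactSupport (by fun_prop) ?_
      refine hc.mono fun x hx => ?_
      rw [Function.mem_support] at hx ⊢
      intro h0
      apply hx
      simp [h0]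
    refine (j1.add j2).congr (Filter.Eventually.of_forall fun x => ?_)
    simp only [Pi.add_apply]
    ring
  have h5 : ∀ x, (dv v (fun y => C y * Real.exp (U y)) x) ^ 2 =
      Real.exp (2 * U x) * ((dv v C x) ^ 2 + C x * dv v C x * dv v U x
      - 1 / 2 * C x ^ 2 * dv v (dv v U) x) + 1 / 2 * (Real.exp (2 * U x) *
        (2 * C x * dv v C x * dv v U x + 2 * C x ^ 2 * dv v U x ^ 2 +
          C x ^ 2 * dv v (dv v U) x)) := by
    intro x
    rw [h3 x, mul_pow, h4 x]
    ring
  simp_rw [h5]
  rw [integral_add i2 (i1.const_mul _), integral_const_mul]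
  simp_rw [h2] at h1
  rw [h1]
  ring

end Pool.Agent.TBG
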