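import Pool.Agent.TBG.Stmts

/-!
# TBG module IND: independence of functions of disjoint sets of particles
-/

set_option autoImplicit false

open MeasureTheory Filter Topology ProbabilityTheory
open scoped ContDiff ENNReal

namespace Pool.Agent.TBG

namespace IND_

/-- extension by zero -/
noncomputable def ext {N : ℕ} (S : Finset (Fin N)) (y : S → E) : Fin N → E :=
  fun i => if h : i ∈ S then y ⟨i, h⟩ else 0

theorem ext_meas {N : ℕ} (S : Finset (Fin N)) : Measurable (ext S) := by
  refine measurable_pi_lambda _ fun i => ?_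
  by_cases h : i ∈ S
  · simpa [ext, h] using measurable_pi_apply (⟨i, h⟩ : S)
  · simp [ext, h]

theorem ext_eq {N : ℕ} (S : Finset (Fin N)) (X : Fin N → E) (i : Fin N) (hi : i ∈ S) :
    ext S (fun a : S => X a) i = X i := by
  simp [ext, hi]

end IND_

open IND_ in
theorem ind_proof (hCFD : Stmt_CFD) : Stmt_IND := by
  intro N L χ S T u w hcut hST hu hw huS hwT
  have : IsProbabilityMeasure (nu χ) := (hCFD L χ hcut).1
  have hI : iIndepFun (fun (i : Fin N) (X : Fin N → E) => X i) (PP χ N) := by
    unfold PP
    exact iIndepFun_pi (X := fun (_ : Fin N) (x : E) => x) (fun _ => aemeasurable_id)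
  have h1 := iIndepFun.indepFun_finset S T hST hI (fun i => measurable_pi_apply i)
  have h2 := h1.comp (hu.comp (ext_meas S)) (hw.comp (ext_meas T))
  have eu : (u ∘ ext S) ∘ (fun (X : Fin N → E) (i : S) => X i) = u := by
    funext X
    exact huS _ _ fun i hi => ext_eq S X i hi
  have ew : (w ∘ ext T) ∘ (fun (X : Fin N → E) (i : T) => X i) = w := by
    funext X
    exact hwT _ _ fun i hi => ext_eq T X i hi
  rw [eu, ew] at h2
  exact h2.integral_fun_mul_eq_mul_integral hu.aestronglyMeasurable hw.aestronglyMeasurable

end Pool.Agent.TBG
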