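import Pool.Agent.TBG.Stmts

/-!
# Three-body Bose gases (MP_80dc41_mp): module INP, the sorted pairs of `insert a S`
-/

set_option autoImplicit false

open MeasureTheory Filter Topology
open scoped ContDiff

namespace Pool.Agent.TBG

namespace INP_

/-- the sorted pair of `a` and `l` -/
def sp {N : ℕ} (a l : Fin N) : Fin N × Fin N := if a < l then (a, l) else (l, a)

theorem mem_prs {N : ℕ} (S : Finset (Fin N)) (p : Fin N × Fin N) :
    p ∈ prs S ↔ p.1 ∈ S ∧ p.2 ∈ S ∧ p.1 < p.2 := by
  unfold prs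
  rw [Finset.mem_filter, Finset.mem_product]
  tauto

theorem sp_inj {N : ℕ} (S : Finset (Fin N)) (a : Fin N) (ha : a ∉ S) :
    Set.InjOn (sp a) (S : Set (Fin N)) := by
  intro l hl l' hl' h
  have hal : a ≠ l := fun h => ha (h ▸ hl)
  have hal' : a ≠ l' := fun h => ha (h ▸ hl')
  unfold sp at h
  split_ifs at h with h1 h2 h3
  · exact (Prod.mk.inj h).2
  · exact absurd (Prod.mk.inj h).1 hal'
  · exact absurd (Prod.mk.inj h).1.symm hal
  · exact (Prod.mk.inj h).1

theorem prs_insert {N : ℕ} (S : Finset (Fin N)) (a : Fin N) (ha : a ∉ S) :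
    prs (insert a S) = prs S ∪ S.image (sp a) := by
  ext p
  rw [Finset.mem_union, mem_prs, mem_prs, Finset.mem_image, Finset.mem_insert, Finset.mem_insert]
  obtain ⟨x, y⟩ := p
  simp only
  constructor
  · rintro ⟨h1, h2, h3⟩
    rcases h1 with h1 | h1
    · rcases h2 with h2 | h2
      · exact absurd h3 (by rw [h1, h2]; exact lt_irrefl a)
      · refine Or.inr ⟨y, h2, ?_⟩
        unfold sp
        rw [if_pos (by rw [← h1]; exact h3), h1]
    · rcases h2 with h2 | h2
      · refine Or.inr ⟨x, h1, ?_⟩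
        unfold sp
        rw [if_neg (by rw [← h2]; exact not_lt.mpr h3.le), h2]
      · exact Or.inl ⟨h1, h2, h3⟩
  · rintro (⟨h1, h2, h3⟩ | ⟨l, hl, h⟩)
    · exact ⟨Or.inr h1, Or.inr h2, h3⟩
    · have hal : a ≠ l := fun h => ha (h ▸ hl)
      unfold sp at h
      split_ifs at h with h1
      · obtain ⟨hx, hy⟩ := Prod.mk.inj h
        subst hx; subst hy
        exact ⟨Or.inl rfl, Or.inr hl, h1⟩
      · obtain ⟨hx, hy⟩ := Prod.mk.inj h
        subst hx; subst hy
        exact ⟨Or.inr hl, Or.inl rfl, lt_of_le_of_ne (not_lt.mp h1) hal.symm⟩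

theorem disj {N : ℕ} (S : Finset (Fin N)) (a : Fin N) (ha : a ∉ S) :
    Disjoint (prs S) (S.image (sp a)) := by
  rw [Finset.disjoint_left]
  intro p hp hq
  rw [mem_prs] at hp
  rw [Finset.mem_image] at hq
  obtain ⟨l, hl, h⟩ := hq
  unfold sp at h
  split_ifs at h with h1
  · exact ha (by rw [← h] at hp; exact hp.1)
  · exact ha (by rw [← h] at hp; exact hp.2.1)

end INP_

theorem inp_proof : Stmt_INP := by
  intro N g S a hg ha
  rw [INP_.prs_insert S a ha, Finset.prod_union (INP_.disj S a ha),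
    Finset.prod_image (INP_.sp_inj S a ha)]
  congr 1
  refine Finset.prod_congr rfl fun l _ => ?_
  unfold INP_.sp
  split_ifs
  · rfl
  · exact hg l a

end Pool.Agent.TBG
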