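import Pool.Agent.TBG.Stmts

/-!
# Three-body Bose gases (MP_80dc41_mp): products over triples
-/

set_option autoImplicit false

namespace Pool.Agent.TBG

namespace INS_

variable {N : ℕ}

theorem mem_trip (S : Finset (Fin N)) (t : Fin N × Fin N × Fin N) :
    t ∈ trip S ↔ (t.1 ∈ S ∧ t.2.1 ∈ S ∧ t.2.2 ∈ S) ∧ t.1 < t.2.1 ∧ t.2.1 < t.2.2 := by
  unfold trip
  rw [Finset.mem_filter, Finset.mem_product, Finset.mem_product]

theorem mem_prs (S : Finset (Fin N)) (t : Fin N × Fin N) :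
    t ∈ prs S ↔ (t.1 ∈ S ∧ t.2 ∈ S) ∧ t.1 < t.2 := by
  unfold prs
  rw [Finset.mem_filter, Finset.mem_product]

/-- forget `a` -/
def fw (a : Fin N) (t : Fin N × Fin N × Fin N) : Fin N × Fin N :=
  if t.1 = a then (t.2.1, t.2.2) else if t.2.1 = a then (t.1, t.2.2) else (t.1, t.2.1)

/-- insert `a` -/
def bw (a : Fin N) (p : Fin N × Fin N) : Fin N × Fin N × Fin N :=
  if a < p.1 then (a, p.1, p.2) else if a < p.2 then (p.1, a, p.2) else (p.1, p.2, a)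

theorem part1 (S : Finset (Fin N)) (a : Fin N) (ha : a ∉ S) :
    (trip (insert a S)).filter (fun t => t.1 ≠ a ∧ t.2.1 ≠ a ∧ t.2.2 ≠ a) = trip S := by
  ext ⟨i, j, k⟩
  rw [Finset.mem_filter, mem_trip, mem_trip]
  simp only [Finset.mem_insert]
  constructor
  · rintro ⟨⟨⟨h1, h2, h3⟩, h4⟩, h5, h6, h7⟩
    exact ⟨⟨h1.resolve_left h5, h2.resolve_left h6, h3.resolve_left h7⟩, h4⟩
  · rintro ⟨⟨h1, h2, h3⟩, h4⟩
    refine ⟨⟨⟨Or.inr h1, Or.inr h2, Or.inr h3⟩, h4⟩, ?_, ?_, ?_⟩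
    · rintro rfl; exact ha h1
    · rintro rfl; exact ha h2
    · rintro rfl; exact ha h3

theorem lft (a i j k : Fin N) (b4 : i < j) (b5 : j < k) (b6 : ¬ (i ≠ a ∧ j ≠ a ∧ k ≠ a)) :
    bw a (fw a (i, j, k)) = (i, j, k) := by
  unfold fw bw
  dsimp only
  by_cases c1 : i = a
  · rw [if_pos c1]
    dsimp only
    rw [if_pos (c1 ▸ b4), c1]
  · rw [if_neg c1]
    by_cases c2 : j = a
    · rw [if_pos c2]
      dsimp only
      rw [if_neg (c2 ▸ b4.asymm), if_pos (c2 ▸ b5), c2]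
    · rw [if_neg c2]
      have c3 : k = a := by
        by_contra c3
        exact b6 ⟨c1, c2, c3⟩
      dsimp only
      rw [if_neg (c3 ▸ (b4.trans b5).asymm), if_neg (c3 ▸ b5.asymm), c3]

theorem rgt (a i j : Fin N) (e1 : i ≠ a) (e2 : j ≠ a) : fw a (bw a (i, j)) = (i, j) := by
  unfold fw bw
  dsimp only
  by_cases c1 : a < i
  · rw [if_pos c1]
    dsimp only
    rw [if_pos rfl]
  · rw [if_neg c1]
    by_cases c2 : a < j
    · rw [if_pos c2]
      dsimp only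
      rw [if_neg e1, if_pos rfl]
    · rw [if_neg c2]
      dsimp only
      rw [if_neg e1, if_neg e2]

theorem part2 (g : Fin N → Fin N → Fin N → ℝ) (S : Finset (Fin N)) (a : Fin N)
    (h1 : ∀ i j k, g i j k = g i k j) (h2 : ∀ i j k, g i j k = g j i k) (ha : a ∉ S) :
    ∏ t ∈ (trip (insert a S)).filter (fun t => ¬ (t.1 ≠ a ∧ t.2.1 ≠ a ∧ t.2.2 ≠ a)),
      g t.1 t.2.1 t.2.2 = ∏ p ∈ prs S, g a p.1 p.2 := by
  refine Finset.prod_nbij' (fw a) (bw a) ?_ ?_ ?_ ?_ ?_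
  · rintro ⟨i, j, k⟩ h
    rw [Finset.mem_filter, mem_trip] at h
    simp only [Finset.mem_insert] at h
    obtain ⟨⟨⟨b1, b2, b3⟩, b4, b5⟩, b6⟩ := h
    rw [mem_prs]
    unfold fw
    dsimp only at *
    split_ifs with c1 c2
    · subst c1
      exact ⟨⟨b2.resolve_left b4.ne', b3.resolve_left (b4.trans b5).ne'⟩, b5⟩
    · subst c2
      exact ⟨⟨b1.resolve_left c1, b3.resolve_left b5.ne'⟩, b4.trans b5⟩
    · exact ⟨⟨b1.resolve_left c1, b2.resolve_left c2⟩, b4⟩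
  · rintro ⟨i, j⟩ h
    rw [mem_prs] at h
    obtain ⟨⟨b1, b2⟩, b3⟩ := h
    dsimp only at *
    have e1 : i ≠ a := by rintro rfl; exact ha b1
    have e2 : j ≠ a := by rintro rfl; exact ha b2
    rw [Finset.mem_filter, mem_trip]
    simp only [Finset.mem_insert]
    unfold bw
    dsimp only
    split_ifs with c1 c2
    · refine ⟨⟨⟨Or.inl rfl, Or.inr b1, Or.inr b2⟩, c1, b3⟩, fun h => h.1 rfl⟩
    · refine ⟨⟨⟨Or.inr b1, Or.inl rfl, Or.inr b2⟩, lt_of_le_of_ne (not_lt.mp c1) e1, c2⟩,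
        fun h => h.2.1 rfl⟩
    · refine ⟨⟨⟨Or.inr b1, Or.inr b2, Or.inl rfl⟩, b3, lt_of_le_of_ne (not_lt.mp c2) e2⟩,
        fun h => h.2.2 rfl⟩
  · rintro ⟨i, j, k⟩ h
    rw [Finset.mem_filter, mem_trip] at h
    obtain ⟨⟨_, b4, b5⟩, b6⟩ := h
    exact lft a i j k b4 b5 b6
  · rintro ⟨i, j⟩ h
    rw [mem_prs] at h
    obtain ⟨⟨b1, b2⟩, b3⟩ := h
    refine rgt a i j ?_ ?_
    · rintro rfl; exact ha b1
    · rintro rfl; exact ha b2
  · rintro ⟨i, j, k⟩ h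
    rw [Finset.mem_filter, mem_trip] at h
    obtain ⟨⟨_, b4, b5⟩, b6⟩ := h
    unfold fw
    dsimp only at *
    by_cases c1 : i = a
    · rw [if_pos c1, c1]
    · rw [if_neg c1]
      by_cases c2 : j = a
      · rw [if_pos c2, c2, h2]
      · rw [if_neg c2]
        have c3 : k = a := by
          by_contra c3
          exact b6 ⟨c1, c2, c3⟩
        rw [c3, h1, h2]

end INS_

open INS_ in
theorem ins_proof : Stmt_INS := by
  intro N g S a h1 h2 ha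
  rw [← Finset.prod_filter_mul_prod_filter_not (trip (insert a S))
    (fun t => t.1 ≠ a ∧ t.2.1 ≠ a ∧ t.2.2 ≠ a), part1 S a ha, part2 g S a h1 h2 ha]

end Pool.Agent.TBG
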