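import Pool.Agent.TBG.Stmts

/-!
# INT: integrability of powers
-/

set_option autoImplicit false

open MeasureTheory Filter Topology
open scoped ContDiff

namespace Pool.Agent.TBG

namespace INT_

lemma finrankE : Module.finrank ℝ E = 3 := by simp [E]

lemma finrankEE : Module.finrank ℝ (E × E) = 6 := by
  rw [Module.finrank_prod, finrankE]

lemma rpow_eq (t : ℝ) (ht : 0 ≤ t) (n : ℕ) : (1 + t) ^ (-(n : ℝ)) = ((1 + t) ^ n)⁻¹ := by
  rw [Real.rpow_neg (by linarith), Real.rpow_natCast]

lemma haarEE : (volume : Measure (E × E)).IsAddHaarMeasure := by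
  show (Measure.prod (volume : Measure E) (volume : Measure E)).IsAddHaarMeasure
  infer_instance

lemma intEE (n : ℕ) (hn : 6 < n) : Integrable (fun z : E × E => ((1 + ‖z‖) ^ n)⁻¹) := by
  have := haarEE
  have h := integrable_one_add_norm (E := E × E) (μ := volume) (r := (n : ℝ)) (by
    rw [finrankEE]; exact_mod_cast hn)
  refine h.congr (Eventually.of_forall fun z => ?_)
  exact rpow_eq _ (norm_nonneg _) n

lemma intE (n : ℕ) (hn : 3 < n) : Integrable (fun z : E => ((1 + ‖z‖) ^ n)⁻¹) := by
  have h := integrable_one_add_norm (E := E) (μ := volume) (r := (n : ℝ)) (by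
    rw [finrankE]; exact_mod_cast hn)
  refine h.congr (Eventually.of_forall fun z => ?_)
  exact rpow_eq _ (norm_nonneg _) n

lemma toReal32 : (3 / 2 : ENNReal).toReal = 3 / 2 := by
  rw [ENNReal.toReal_div]; norm_num

end INT_

theorem int_proof : Stmt_INT := by
  refine ⟨INT_.intEE 8 (by norm_num), INT_.intE 4 (by norm_num), ?_, ?_⟩
  · have hm : AEStronglyMeasurable (fun z : E × E => ((1 + ‖z‖) ^ 6)⁻¹) volume := by
      have : Measurable (fun z : E × E => ((1 + ‖z‖) ^ 6)⁻¹) := by fun_prop
      exact this.aestronglyMeasurable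
    have h0 : (3 / 2 : ENNReal) ≠ 0 := by
      intro h
      have := INT_.toReal32
      rw [h] at this
      norm_num at this
    have h1 : (3 / 2 : ENNReal) ≠ ⊤ := by
      intro h
      have := INT_.toReal32
      rw [h] at this
      norm_num at this
    rw [← integrable_norm_rpow_iff hm h0 h1, INT_.toReal32]
    refine (INT_.intEE 9 (by norm_num)).congr (Eventually.of_forall fun z => ?_)
    have hz : (0 : ℝ) ≤ 1 + ‖z‖ := by positivity
    show ((1 + ‖z‖) ^ 9)⁻¹ = ‖((1 + ‖z‖) ^ 6)⁻¹‖ ^ (3 / 2 : ℝ)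
    rw [Real.norm_of_nonneg (by positivity), Real.inv_rpow (by positivity), ← Real.rpow_natCast (1 + ‖z‖) 6,
      ← Real.rpow_mul hz, ← Real.rpow_natCast (1 + ‖z‖) 9]
    norm_num
  · have h3 : (3 : ENNReal) = ENNReal.ofReal 3 := by simp
    have h2 : (3 / 2 : ENNReal) = ENNReal.ofReal (3 / 2) := by
      rw [ENNReal.ofReal_div_of_pos (by norm_num)]; simp
    rw [h2, h3, ← ENNReal.ofReal_inv_of_pos (by norm_num), ← ENNReal.ofReal_inv_of_pos (by norm_num),
      ← ENNReal.ofReal_add (by norm_num) (by norm_num)]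
    norm_num

end Pool.Agent.TBG
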