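import Pool.Agent.TBG.Stmts

/-!
# Three-body Bose gases (MP_80dc41_mp): module KAF, facts on `κ`, `a`, `A`
-/

set_option autoImplicit false

open MeasureTheory Filter Topology
open scoped ContDiff

namespace Pool.Agent.TBG

namespace KAF_

lemma dv_smooth {φ : E × E → ℝ} (hφ : ContDiff ℝ ∞ φ) (v : E × E) :
    ContDiff ℝ ∞ (dv v φ) :=
  (hφ.fderiv_right (m := ∞) (by simp)).clm_apply contDiff_const

lemma gsq_cont {f : E × E → ℝ} (hf : ContDiff ℝ ∞ f) : Continuous (gsq f) := by
  unfold gsq
  refine continuous_finsetSum _ fun m _ => continuous_finsetSum _ fun c _ => ?_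
  exact (dv_smooth hf _).continuous.pow 2

lemma Lap_cont {f : E × E → ℝ} (hf : ContDiff ℝ ∞ f) : Continuous (Lap f) := by
  unfold Lap
  refine continuous_finsetSum _ fun m _ => continuous_finsetSum _ fun c _ => ?_
  exact (dv_smooth (dv_smooth hf _) _).continuous

lemma G1_cont {f : E × E → ℝ} (hf : ContDiff ℝ ∞ f) : Continuous (G1 f) := by
  unfold G1
  refine continuous_finsetSum _ fun m _ => continuous_finsetSum _ fun c _ => ?_
  exact (dv_smooth hf _).continuous.abs

lemma dv_zero {f : E × E → ℝ} {c R : ℝ} (h : ∀ z, R < ‖z‖ → f z = c) (v z : E × E)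
    (hz : R < ‖z‖) : dv v f z = 0 := by
  have h1 : f =ᶠ[𝓝 z] fun _ => c := by
    have : {w : E × E | R < ‖w‖} ∈ 𝓝 z := (isOpen_lt continuous_const continuous_norm).mem_nhds hz
    filter_upwards [this] with w hw
    exact h w hw
  unfold dv
  rw [h1.fderiv_eq]
  simp

end KAF_

open KAF_ in
theorem kaf_proof (hLPC : Stmt_LPC) : Stmt_KAF := by
  intro f V hN
  have hJ := hN.jas
  have hA := hN.adm
  have hs := hJ.smooth
  have hfc : Continuous f := hs.continuous
  obtain ⟨R1, hR1⟩ := hJ.supp
  obtain ⟨R2, hR2⟩ := hA.supp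
  have hfpos : ∀ z, 0 < f z := fun z => lt_of_lt_of_le (by norm_num) (hJ.half_le z)
  set R := max R1 R2 with hR
  have hout : ∀ z : E × E, R < ‖z‖ → f z = 1 ∧ V z.1 z.2 = 0 ∧ gsq f z = 0 ∧ Lap f z = 0 ∧
      G1 f z = 0 := by
    intro z hz
    have h1 : R1 < ‖z‖ := lt_of_le_of_lt (le_max_left _ _) hz
    have h2 : R2 < ‖z‖ := lt_of_le_of_lt (le_max_right _ _) hz
    refine ⟨hR1 z h1, ?_, ?_, ?_, ?_⟩
    · apply hR2
      rw [Prod.norm_def] at h2
      exact lt_max_iff.1 h2
    · unfold gsq
      simp [dv_zero hR1 _ z h1]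
    · unfold Lap
      have h3 : ∀ v : E × E, ∀ w : E × E, R1 < ‖w‖ → dv v f w = 0 := fun v w hw => dv_zero hR1 v w hw
      simp [dv_zero (h3 _) _ z h1]
    · unfold G1
      simp [dv_zero hR1 _ z h1]
  have hball : ∀ z : E × E, z ∉ Metric.closedBall (0 : E × E) R → R < ‖z‖ := by
    intro z hz
    simpa [Metric.mem_closedBall, dist_zero_right] using hz
  have hkap0 : ∀ z : E × E, R < ‖z‖ → kap f V z = 0 := by
    intro z hz
    obtain ⟨h1, h2, h3, h4, _⟩ := hout z hz
    unfold kap
    rw [h2, h3, h4]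
    ring
  have haa0 : ∀ z : E × E, R < ‖z‖ → aa f z = 0 := by
    intro z hz
    unfold aa
    rw [(hout z hz).1]; ring
  have hkapc : Continuous (kap f V) := by
    unfold kap
    have := hN.cont
    have h1 := gsq_cont hs
    have h2 := Lap_cont hs
    fun_prop
  have haac : Continuous (aa f) := by
    unfold aa
    fun_prop
  have haan : ∀ z, 0 ≤ aa f z := by
    intro z
    unfold aa
    nlinarith [hJ.half_le z, hJ.le_one z]
  have haa1 : ∀ z, aa f z ≤ 1 := by
    intro z
    unfold aa
    nlinarith [hJ.half_le z, hJ.le_one z, sq_nonneg (f z)]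
  have hAAeq : ∀ x, AA f x = ∫ y in Metric.closedBall (0 : E) R, aa f (x, y) := by
    intro x
    unfold AA
    rw [setIntegral_eq_integral_of_forall_compl_eq_zero]
    intro y hy
    apply haa0
    have hy' : R < ‖y‖ := by
      simpa [Metric.mem_closedBall, dist_zero_right] using hy
    calc R < ‖y‖ := hy'
      _ ≤ ‖(x, y)‖ := norm_snd_le (x, y)
  have hAAc : Continuous (AA f) := by
    have : AA f = fun x => ∫ y in Metric.closedBall (0 : E) R, aa f (x, y) := funext hAAeq
    rw [this]
    exact continuous_parametric_integral_of_continuous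
      (f := fun (x : E) (y : E) => aa f (x, y)) haac (isCompact_closedBall 0 R)
  refine ⟨⟨hkapc, ?_, hN.kap_nonneg⟩, ⟨haac, ?_, haan⟩, ⟨?_, ?_, ?_⟩, ⟨G1_cont hs, ?_, ?_⟩, haa1,
    hAAc, ?_, ?_, ?_⟩
  · exact HasCompactSupport.intro (isCompact_closedBall (0 : E × E) R)
      (fun z hz => hkap0 z (hball z hz))
  · exact HasCompactSupport.intro (isCompact_closedBall (0 : E × E) R)
      (fun z hz => haa0 z (hball z hz))
  · unfold kk
    exact hkapc.div (hfc.pow 2) (fun z => pow_ne_zero 2 (hfpos z).ne')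
  · refine HasCompactSupport.intro (isCompact_closedBall (0 : E × E) R) (fun z hz => ?_)
    unfold kk
    rw [hkap0 z (hball z hz), zero_div]
  · intro z
    unfold kk
    exact div_nonneg (hN.kap_nonneg z) (sq_nonneg _)
  · exact HasCompactSupport.intro (isCompact_closedBall (0 : E × E) R)
      (fun z hz => (hout z (hball z hz)).2.2.2.2)
  · intro z
    unfold G1
    exact Finset.sum_nonneg fun m _ => Finset.sum_nonneg fun c _ => abs_nonneg _
  · intro x
    unfold AA
    exact integral_nonneg fun y => haan _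
  · refine ⟨(volume (Metric.closedBall (0 : E) R)).toReal, fun x => ?_⟩
    rw [hAAeq x]
    have h1 : ‖∫ y in Metric.closedBall (0 : E) R, aa f (x, y)‖ ≤
        1 * (volume (Metric.closedBall (0 : E) R)).toReal := by
      apply norm_setIntegral_le_of_norm_le_const
      · exact (isCompact_closedBall (0 : E) R).measure_lt_top
      · intro y _
        rw [Real.norm_eq_abs, abs_of_nonneg (haan _)]
        exact haa1 _
    rw [one_mul] at h1
    exact (le_abs_self _).trans h1
  · funext z
    have hI : ContDiffOn ℝ ∞ Real.log (Set.Ioi 0) :=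
      Real.contDiffOn_log.mono (fun x hx => by simpa using (ne_of_gt hx))
    obtain ⟨_, _, _, h4⟩ := hLPC Real.log f (Set.Ioi 0) isOpen_Ioi hI hs (fun z => hfpos z) z
    rw [h4]
    have hd1 : deriv Real.log = fun x => x⁻¹ := by
      funext x; exact Real.deriv_log x
    rw [hd1]
    have hd2 : deriv (fun x : ℝ => x⁻¹) (f z) = -(f z ^ 2)⁻¹ := by
      rw [deriv_inv]
    rw [hd2]
    have hne := (hfpos z).ne'
    unfold kk kap
    field_simp
    ring

end Pool.Agent.TBG
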