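import Pool.Agent.TBG.Stmts

/-!
# Three-body Bose gases (MP_80dc41_mp): module KIN
-/

set_option autoImplicit false

open MeasureTheory Filter Topology
open scoped ContDiff

namespace Pool.Agent.TBG

namespace KIN_

variable {W : Type} [NormedAddCommGroup W] [NormedSpace ℝ W]

theorem dv_smooth {f : W → ℝ} (hf : ContDiff ℝ ∞ f) (v : W) : ContDiff ℝ ∞ (dv v f) := by
  unfold dv
  exact (hf.fderiv_right (m := ∞) (by exact_mod_cast le_rfl)).clm_apply contDiff_const

theorem dv_cpt {f : W → ℝ} (hf : HasCompactSupport f) (v : W) : HasCompactSupport (dv v f) :=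
  hf.fderiv_apply (𝕜 := ℝ) v

theorem dv_sub_one (f : W → ℝ) (v : W) : dv v (fun z => f z - 1) = dv v f := by
  funext x
  unfold dv
  rw [fderiv_sub_const]

omit [NormedSpace ℝ W] in
theorem cpt_sub_one [ProperSpace W] {f : W → ℝ} (h : ∃ R : ℝ, ∀ z, R < ‖z‖ → f z = 1) :
    HasCompactSupport (fun z => f z - 1) := by
  obtain ⟨R, hR⟩ := h
  refine HasCompactSupport.intro (isCompact_closedBall (0 : W) R) fun x hx => ?_
  rw [Metric.mem_closedBall, dist_zero_right, not_le] at hx
  rw [hR x hx, sub_self]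

/-- integration by parts for one direction -/
theorem ibp_dir (hIBP : Stmt_IBP) {f : E × E → ℝ} (hf : ContDiff ℝ ∞ f)
    (hs : ∃ R : ℝ, ∀ z, R < ‖z‖ → f z = 1) (v : E × E) :
    HasCompactSupport (dv v f) ∧ HasCompactSupport (dv v (dv v f)) ∧
    ∫ z, dv v (dv v f) z = 0 ∧ ∫ z, f z * dv v (dv v f) z = - ∫ z, dv v f z ^ 2 := by
  have h1 : HasCompactSupport (dv v f) := by
    have := dv_cpt (cpt_sub_one hs) v
    rwa [dv_sub_one] at this
  have h2 : ContDiff ℝ ∞ (dv v f) := dv_smooth hf v
  have : (volume : Measure (E × E)).IsAddHaarMeasure :=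
    Measure.prod.instIsAddHaarMeasure (volume : Measure E) (volume : Measure E)
  have h3 := hIBP (E × E) (volume : Measure (E × E)) (dv v f) f v (h2.of_le (by exact_mod_cast le_top))
    (hf.of_le (by exact_mod_cast le_top)) h1
  refine ⟨h1, dv_cpt h1 v, h3.1, ?_⟩
  have h4 := h3.2
  have h5 : ∫ z, dv v f z ^ 2 = ∫ z, dv v f z * dv v f z :=
    integral_congr_ae (Eventually.of_forall fun z => by ring)
  have h6 : ∫ z, f z * dv v (dv v f) z = ∫ z, dv v (dv v f) z * f z :=
    integral_congr_ae (Eventually.of_forall fun z => by ring)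
  rw [h5, h4, h6, neg_neg]

end KIN_

theorem kin_proof (hIBP : Stmt_IBP) (hFDJ : Stmt_FDJ) (hADM : Stmt_ADM) (hKPO : Stmt_KPO)
    (_hKAF : Stmt_KAF) : Stmt_KIN := by
  intro φ δ hφ hδ
  obtain ⟨hJ, hF⟩ := hFDJ φ δ hφ hδ
  obtain ⟨hA, hVc, -, hwc, hw0, hVw, hVs⟩ := hADM φ hφ
  obtain ⟨-, hG, -⟩ := hKPO φ δ hφ hδ
  set f : E × E → ℝ := fd δ φ with hf
  set V : E → E → ℝ := VV φ with hV
  have hfc : Continuous f := hJ.smooth.continuous
  have hD : ∀ m c : Fin 3, ContDiff ℝ ∞ (dv (dr m c) f) := fun m c =>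
    KIN_.dv_smooth hJ.smooth _
  have hDD : ∀ m c : Fin 3, ContDiff ℝ ∞ (dv (dr m c) (dv (dr m c) f)) := fun m c =>
    KIN_.dv_smooth (hD m c) _
  have hI := fun m c : Fin 3 => KIN_.ibp_dir hIBP hJ.smooth hJ.supp (dr m c)
  -- integrability
  have i1 : ∀ m c : Fin 3, Integrable (fun z => dv (dr m c) (dv (dr m c) f) z) := fun m c =>
    (hDD m c).continuous.integrable_of_hasCompactSupport (hI m c).2.1
  have i2 : ∀ m c : Fin 3, Integrable (fun z => f z * dv (dr m c) (dv (dr m c) f) z) :=
    fun m c => (hfc.mul (hDD m c).continuous).integrable_of_hasCompactSupport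
      ((hI m c).2.1.mul_left)
  have i3 : ∀ m c : Fin 3, Integrable (fun z => dv (dr m c) f z ^ 2) := fun m c => by
    have h : Integrable (fun z => dv (dr m c) f z * dv (dr m c) f z) :=
      ((hD m c).continuous.mul (hD m c).continuous).integrable_of_hasCompactSupport
        ((hI m c).1.mul_left)
    simpa [pow_two] using h
  have iV : Integrable (fun z : E × E => V z.1 z.2) := hVc.integrable_of_hasCompactSupport hVs
  have iVf : Integrable (fun z : E × E => V z.1 z.2 * f z) :=
    (hVc.mul hfc).integrable_of_hasCompactSupport hVs.mul_right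
  have iVf2 : Integrable (fun z : E × E => V z.1 z.2 * f z ^ 2) :=
    (hVc.mul (hfc.pow 2)).integrable_of_hasCompactSupport hVs.mul_right
  have iL : Integrable (fun z => Lap f z) := by
    unfold Lap
    exact integrable_finsetSum _ fun m _ => integrable_finsetSum _ fun c _ => i1 m c
  have hfL : (fun z => f z * Lap f z) =
      fun z => ∑ m, ∑ c, f z * dv (dr m c) (dv (dr m c) f) z := by
    funext z
    unfold Lap
    rw [Finset.mul_sum]
    exact Finset.sum_congr rfl fun m _ => Finset.mul_sum _ _ _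
  have ifL : Integrable (fun z => f z * Lap f z) := by
    rw [hfL]
    exact integrable_finsetSum _ fun m _ => integrable_finsetSum _ fun c _ => i2 m c
  have iG : Integrable (fun z => gsq f z) := by
    unfold gsq
    exact integrable_finsetSum _ fun m _ => integrable_finsetSum _ fun c _ => i3 m c
  have e1 : ∫ z, Lap f z = 0 := by
    unfold Lap
    rw [integral_finsetSum _ fun m _ => integrable_finsetSum _ fun c _ => i1 m c]
    refine Finset.sum_eq_zero fun m _ => ?_
    rw [integral_finsetSum _ fun c _ => i1 m c]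
    exact Finset.sum_eq_zero fun c _ => (hI m c).2.2.1
  have e2 : ∫ z, f z * Lap f z = - ∫ z, gsq f z := by
    rw [hfL]
    unfold gsq
    rw [integral_finsetSum _ fun m _ => integrable_finsetSum _ fun c _ => i2 m c,
      integral_finsetSum _ fun m _ => integrable_finsetSum _ fun c _ => i3 m c,
      ← Finset.sum_neg_distrib]
    refine Finset.sum_congr rfl fun m _ => ?_
    rw [integral_finsetSum _ fun c _ => i2 m c, integral_finsetSum _ fun c _ => i3 m c,
      ← Finset.sum_neg_distrib]
    exact Finset.sum_congr rfl fun c _ => (hI m c).2.2.2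
  have hk : ∀ z, kap f V z = (1 / 2) * gsq f z + V z.1 z.2 * f z ^ 2 -
      (1 / 2) * (f z * Lap f z) := by
    intro z
    unfold kap
    ring
  have e3 : ∫ z, kap f V z = ∫ z, (gsq f z + V z.1 z.2 * f z ^ 2) := by
    have ia : Integrable (fun z : E × E => (1 / 2) * gsq f z) := iG.const_mul _
    have ib : Integrable (fun z : E × E => (1 / 2) * gsq f z + V z.1 z.2 * f z ^ 2) :=
      ia.add iVf2
    have ic : Integrable (fun z : E × E => (1 / 2) * (f z * Lap f z)) := ifL.const_mul _
    simp_rw [hk]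
    rw [integral_sub ib ic, integral_add ia iVf2, integral_const_mul, integral_const_mul, e2,
      integral_add iG iVf2]
    ring
  refine ⟨e3, ?_⟩
  rw [e3]
  have e4 : ∫ z, (gsq f z + V z.1 z.2 * f z ^ 2) =
      ∫ z, f z * (V z.1 z.2 * f z - Lap f z) := by
    have h1 : (fun z : E × E => f z * (V z.1 z.2 * f z - Lap f z)) =
        fun z => V z.1 z.2 * f z ^ 2 - f z * Lap f z := by
      funext z
      ring
    rw [h1, integral_sub iVf2 ifL, e2, integral_add iG iVf2]
    ring
  have iGf : Integrable (fun z : E × E => V z.1 z.2 * f z - Lap f z) := iVf.sub iL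
  have ifG : Integrable (fun z : E × E => f z * (V z.1 z.2 * f z - Lap f z)) := by
    have h1 : (fun z : E × E => f z * (V z.1 z.2 * f z - Lap f z)) =
        fun z => V z.1 z.2 * f z ^ 2 - f z * Lap f z := by
      funext z
      ring
    rw [h1]
    exact iVf2.sub ifL
  have e5 : ∫ z, f z * (V z.1 z.2 * f z - Lap f z) ≤
      ∫ z : E × E, (V z.1 z.2 * f z - Lap f z) := by
    refine integral_mono ifG iGf fun z => ?_
    have h1 := hG z
    have h2 := hJ.le_one z
    show f z * (V z.1 z.2 * f z - Lap f z) ≤ V z.1 z.2 * f z - Lap f z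
    nlinarith [h1, h2]
  have iw : Integrable (fun z => ww φ z) := by
    have h1 : (fun z => ww φ z) = fun z : E × E => V z.1 z.2 * (1 - φ z) := by
      funext z
      exact (hVw z).symm
    rw [h1]
    exact (hVc.mul (continuous_const.sub
      hφ.smooth.continuous)).integrable_of_hasCompactSupport hVs.mul_right
  have e6 : ∫ z : E × E, V z.1 z.2 * f z ≤ (∫ z, ww φ z) + 2 * δ * ∫ z : E × E, V z.1 z.2 := by
    rw [← integral_const_mul, ← integral_add iw (iV.const_mul _)]
    refine integral_mono iVf (iw.add (iV.const_mul _)) fun z => ?_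
    have h1 := (hF z).2.2
    have h2 := hA.nonneg z.1 z.2
    have h3 := hVw z
    show V z.1 z.2 * f z ≤ ww φ z + 2 * δ * V z.1 z.2
    nlinarith [h1, h2, h3, mul_le_mul_of_nonneg_left h1 h2]
  rw [e4]
  refine e5.trans ?_
  rw [integral_sub iVf iL, e1, sub_zero]
  exact e6

end Pool.Agent.TBG
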