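import Pool.Agent.TBG.Stmts

/-!
# The defect of the truncated scattering function
-/

set_option autoImplicit false

open MeasureTheory Filter Topology
open scoped ContDiff

namespace Pool.Agent.TBG

namespace KPO_

lemma gsq_nonneg (f : E × E → ℝ) (z : E × E) : 0 ≤ gsq f z := by
  unfold gsq
  exact Finset.sum_nonneg fun m _ => Finset.sum_nonneg fun c _ => sq_nonneg _

lemma fd_eq (δ : ℝ) (φ : E × E → ℝ) : fd δ φ = fun z => 1 + (-1) * Td δ (φ z) := by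
  funext z
  unfold fd
  ring

lemma lap_fd (hTDL : Stmt_TDL) (hLPC : Stmt_LPC) (hLSU : Stmt_LSU) (φ : E × E → ℝ) (δ : ℝ) (hφ : Scat φ)
    (hδ : 0 < δ) (z : E × E) :
    Lap (fd δ φ) z = deriv (Td δ) (φ z) * ww φ z - deriv (deriv (Td δ)) (φ z) * gsq φ z := by
  obtain ⟨hcd, -⟩ := hTDL.1 δ hδ
  have hL := hLPC (Td δ) φ Set.univ isOpen_univ hcd.contDiffOn hφ.smooth (fun z => trivial) z
  have h2 := (hLSU.2 (fun z => Td δ (φ z)) 1 (-1) hL.1 z).1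
  rw [fd_eq, h2, hL.2.2.2]
  unfold ww
  ring

end KPO_

open KPO_

theorem kpo_proof (hTDL : Stmt_TDL) (hLPC : Stmt_LPC) (hADM : Stmt_ADM) (hFDJ : Stmt_FDJ) (hLSU : Stmt_LSU) :
    Stmt_KPO := by
  intro φ δ hφ hδ
  obtain ⟨hA, -, -, -, hw, hV, -⟩ := hADM φ hφ
  obtain ⟨-, hd, -, hT, hT2, -⟩ := hTDL.1 δ hδ
  obtain ⟨hJ, hF⟩ := hFDJ φ δ hφ hδ
  have h1 : ∀ z, VV φ z.1 z.2 * fd δ φ z - Lap (fd δ φ) z =
      (1 - deriv (Td δ) (φ z)) * ww φ z + deriv (deriv (Td δ)) (φ z) * gsq φ z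
        + VV φ z.1 z.2 * (φ z - Td δ (φ z)) := by
    intro z
    rw [lap_fd hTDL hLPC hLSU φ δ hφ hδ z]
    have := hV z
    unfold fd
    linear_combination this
  have h2 : ∀ z, 0 ≤ VV φ z.1 z.2 * fd δ φ z - Lap (fd δ φ) z := by
    intro z
    rw [h1 z]
    have e1 : deriv (Td δ) (φ z) ≤ 1 := by
      rw [hd]
      exact Real.smoothTransition.le_one _
    have e2 := mul_nonneg (sub_nonneg.2 e1) (hw z)
    have e3 := mul_nonneg (hT2 (φ z)) (gsq_nonneg φ z)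
    have e4 := mul_nonneg (hA.nonneg z.1 z.2) (sub_nonneg.2 (hT (φ z) (hF z).1).2.1)
    linarith
  refine ⟨h1, h2, ?_⟩
  intro z
  have hVn := hA.nonneg z.1 z.2
  have hle := hφ.le_half z
  have hf1 := (hF z).2.1
  have hfh := hJ.half_le z
  have e1 := gsq_nonneg (fd δ φ) z
  have e2 : 0 ≤ fd δ φ z * (VV φ z.1 z.2 * fd δ φ z - Lap (fd δ φ) z) := mul_nonneg (by linarith) (h2 z)
  have e3 : ww φ z / 2 ≤ VV φ z.1 z.2 * fd δ φ z ^ 2 := by
    have a1 : VV φ z.1 z.2 * (1 - φ z) ^ 2 ≤ VV φ z.1 z.2 * fd δ φ z ^ 2 := by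
      apply mul_le_mul_of_nonneg_left _ hVn
      apply pow_le_pow_left₀ (by linarith) hf1
    have a2 : VV φ z.1 z.2 * (1 - φ z) ^ 2 = ww φ z * (1 - φ z) := by
      rw [← hV z]
      ring
    have a3 : ww φ z * (1 / 2) ≤ ww φ z * (1 - φ z) := mul_le_mul_of_nonneg_left (by linarith) (hw z)
    linarith
  unfold kap
  linarith

end Pool.Agent.TBG
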