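import Pool.Agent.TBG.Stmts

/-!
# Three-body Bose gases (MP_80dc41_mp), module LAM: facts on the logarithmic derivative of the cutoff
-/

set_option autoImplicit false

open MeasureTheory Filter Topology
open scoped ContDiff

namespace Pool.Agent.TBG

namespace LAM_

theorem dv_cont {χ : E → ℝ} (h : ContDiff ℝ ∞ χ) (v : E) : Continuous (fun x => dv v χ x) := by
  unfold dv
  exact (h.continuous_fderiv (by simp)).clm_apply continuous_const

theorem dv_eq {L : ℝ} {χ : E → ℝ} (hχ : Cut L χ) (c : Fin 3) (x : E) :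
    dv (ev c) χ x = χ x * lam χ c x := by
  unfold lam
  by_cases h : χ x = 0
  · have h1 : IsLocalMin χ x := Eventually.of_forall fun y => by
      rw [h]
      exact hχ.nonneg y
    have h2 : dv (ev c) χ x = 0 := by
      unfold dv
      rw [h1.fderiv_eq_zero]
      rfl
    rw [h2, h, zero_mul]
  · rw [mul_div_cancel₀ _ h]

end LAM_

open LAM_ in
theorem lam_proof (hCFD : Stmt_CFD) : Stmt_LAM := by
  intro L χ c hχ
  obtain ⟨-, hint, -⟩ := hCFD L χ hχ
  have hdc : Continuous (fun x => dv (ev c) χ x) := dv_cont hχ.smooth (ev c)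
  have hmeas : Measurable (lam χ c) := by
    unfold lam
    exact hdc.measurable.div hχ.smooth.continuous.measurable
  have hsup : HasCompactSupport (fun x => dv (ev c) χ x) := by
    have h1 := hχ.cpt.fderiv (𝕜 := ℝ)
    exact h1.comp_left (g := fun (A : E →L[ℝ] ℝ) => A (ev c)) rfl
  have h1 : ∀ x, χ x ^ 2 * lam χ c x ^ 2 = dv (ev c) χ x ^ 2 := fun x => by
    rw [dv_eq hχ c x]
    ring
  have h2 : ∀ x, χ x ^ 2 * |lam χ c x| = χ x * |dv (ev c) χ x| := fun x => by
    rw [dv_eq hχ c x, abs_mul, abs_of_nonneg (hχ.nonneg x)]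
    ring
  have hi1 : Integrable (fun x => dv (ev c) χ x ^ 2) := by
    refine (hdc.pow 2).integrable_of_hasCompactSupport ?_
    exact hsup.comp_left (g := fun r : ℝ => r ^ 2) (by simp)
  have hi2 : Integrable (fun x => χ x * |dv (ev c) χ x|) := by
    refine (hχ.smooth.continuous.mul hdc.abs).integrable_of_hasCompactSupport ?_
    exact hχ.cpt.mul_right
  have hvv : 0 < vv χ := hχ.pos
  have hden : Measurable (fun x => ENNReal.ofReal (χ x ^ 2 / vv χ)) :=
    ENNReal.measurable_ofReal.comp ((hχ.smooth.continuous.measurable.pow_const 2).div_const _)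
  have key : ∀ g : E → ℝ, Integrable (fun x => χ x ^ 2 * g x) → Integrable g (nu χ) := by
    intro g hg
    unfold nu
    rw [integrable_withDensity_iff_integrable_smul' hden
      (Eventually.of_forall fun x => ENNReal.ofReal_lt_top)]
    have h3 : (fun x => (ENNReal.ofReal (χ x ^ 2 / vv χ)).toReal • g x) =
        fun x => (vv χ)⁻¹ * (χ x ^ 2 * g x) := by
      funext x
      rw [ENNReal.toReal_ofReal (div_nonneg (sq_nonneg _) hvv.le), smul_eq_mul]
      ring
    rw [h3]
    exact hg.const_mul _
  refine ⟨hmeas, dv_eq hχ c, ?_, ?_, ?_, ?_⟩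
  · refine key _ ?_
    simp only [h1]
    exact hi1
  · refine key _ ?_
    simp only [h2]
    exact hi2
  · rw [hint]
    simp only [h1]
    exact le_refl _
  · rw [hint]
    simp only [h2]
    exact le_refl _

end Pool.Agent.TBG
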