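import Pool.Agent.TBG.Stmts

/-!
# TBG module LAW: the law of one and of three particles
-/

set_option autoImplicit false

open MeasureTheory Filter Topology ProbabilityTheory
open scoped ContDiff ENNReal

namespace Pool.Agent.TBG

theorem law_proof (hCFD : Stmt_CFD) : Stmt_LAW := by
  intro N L χ hcut
  have : IsProbabilityMeasure (nu χ) := (hCFD L χ hcut).1
  have hI : iIndepFun (fun (i : Fin N) (X : Fin N → E) => X i) (PP χ N) := by
    unfold PP
    exact iIndepFun_pi (X := fun (_ : Fin N) (x : E) => x) (fun _ => aemeasurable_id)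
  have h1 : ∀ i : Fin N, Measure.map (fun X : Fin N → E => X i) (PP χ N) = nu χ := fun i =>
    (measurePreserving_eval (fun _ : Fin N => nu χ) i).map_eq
  refine ⟨h1, fun i j k hij hik hjk => ?_⟩
  have hP : IsProbabilityMeasure (PP χ N) := by
    unfold PP
    infer_instance
  have hjk' : IndepFun (fun X : Fin N → E => X j) (fun X : Fin N → E => X k) (PP χ N) :=
    hI.indepFun hjk
  have hi' : IndepFun (fun X : Fin N → E => X i) (fun X : Fin N → E => (X j, X k)) (PP χ N) :=
    (hI.indepFun_prodMk (fun i => measurable_pi_apply i) j k i hij.symm hik.symm).symm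
  have e1 := (indepFun_iff_map_prod_eq_prod_map_map (measurable_pi_apply j).aemeasurable
    (measurable_pi_apply k).aemeasurable).mp hjk'
  have e2 := (indepFun_iff_map_prod_eq_prod_map_map (measurable_pi_apply i).aemeasurable
    ((measurable_pi_apply j).prodMk (measurable_pi_apply k)).aemeasurable).mp hi'
  rw [h1 j, h1 k] at e1
  rw [h1 i] at e2
  rw [e2]
  exact congrArg _ e1

end Pool.Agent.TBG
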