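import Pool.Agent.TBG.Stmts

/-!
# Three-body Bose gases, module LOW: pointwise lower bound
-/

set_option autoImplicit false

open MeasureTheory Filter Topology
open scoped ContDiff

namespace Pool.Agent.TBG

namespace LOW_

theorem sq_eq {N : ℕ} (f : E × E → ℝ) (X : Fin N → E) (i j k : Fin N) :
    (tr f X i j k) ^ 2 = 1 - tr (aa f) X i j k := by
  simp [tr, aa]

theorem aa_mem (f : E × E → ℝ) (hf : Jas f) (z : E × E) : 0 ≤ aa f z ∧ aa f z ≤ 1 := by
  have h1 := hf.half_le z
  have h2 := hf.le_one z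
  constructor
  · unfold aa
    nlinarith
  · unfold aa
    nlinarith [sq_nonneg (f z)]

end LOW_

theorem low_proof (hFTB : Stmt_FTB) (hINS : Stmt_INS) (hWPI : Stmt_WPI) : Stmt_LOW := by
  intro N f X T l hf hl
  obtain ⟨hsym, hF, -, -⟩ := hFTB N f hf
  have hT : T = insert l (T.erase l) := (Finset.insert_erase hl).symm
  have hins := hINS N (fun i j k => (tr f X i j k) ^ 2) (T.erase l) l
    (fun i j k => by simp only [(hsym X i j k).1])
    (fun i j k => by simp only [(hsym X i j k).2.1])
    (Finset.notMem_erase l T)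
  have hF2 : F2 f T X = F2 f (T.erase l) X * ∏ p ∈ prs (T.erase l), (tr f X l p.1 p.2) ^ 2 := by
    unfold F2
    rw [← hins, Finset.insert_erase hl]
  rw [hF2]
  refine mul_le_mul_of_nonneg_left ?_ ((hF (T.erase l)).2.1 X).1.le
  have hw := (hWPI (Fin N × Fin N) (prs (T.erase l)) (fun p => tr (aa f) X l p.1 p.2)
    (fun p => LOW_.aa_mem f hf _)).1
  refine hw.trans (le_of_eq ?_)
  refine Finset.prod_congr rfl (fun p _ => ?_)
  exact (LOW_.sq_eq f X l p.1 p.2).symm

end Pool.Agent.TBG
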