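import Pool.Agent.TBG.Stmts

set_option autoImplicit false

open MeasureTheory Filter Topology
open scoped ContDiff

namespace Pool.Agent.TBG

namespace NBF_

lemma zz_pos (hCFD : Stmt_CFD) (hFTB : Stmt_FTB) (N : ℕ) (L : ℝ) (χ : E → ℝ) (f : E × E → ℝ)
    (hχ : Cut L χ) (hf : Jas f) : 0 < ZZ f χ (Finset.univ : Finset (Fin N)) := by
  haveI hp : IsProbabilityMeasure (nu χ) := (hCFD L χ hχ).1
  haveI hpp : IsProbabilityMeasure (PP χ N) := by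
    unfold PP
    infer_instance
  obtain ⟨hc, hb, _⟩ := (hFTB N f hf).2.1 (Finset.univ : Finset (Fin N))
  have hint : Integrable (F2 f (Finset.univ : Finset (Fin N))) (PP χ N) := by
    refine Integrable.mono' (integrable_const (1 : ℝ)) hc.aestronglyMeasurable ?_
    refine Filter.Eventually.of_forall (fun X => ?_)
    rw [Real.norm_eq_abs, abs_of_pos (hb X).1]
    exact (hb X).2
  have hnn : 0 ≤ F2 f (Finset.univ : Finset (Fin N)) := fun X => (hb X).1.le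
  unfold ZZ
  rw [integral_pos_iff_support_of_nonneg hnn hint]
  have hs : Function.support (F2 f (Finset.univ : Finset (Fin N))) = Set.univ := by
    ext X
    simp only [Function.mem_support, Set.mem_univ, iff_true]
    exact (hb X).1.ne'
  rw [hs, measure_univ]
  exact zero_lt_one

lemma t1 (hCFD : Stmt_CFD) (hETW : Stmt_ETW) (N : ℕ) (L : ℝ) (χ : E → ℝ) (u : E × E → ℝ)
    (hχ : Cut L χ) (hu : CN u) (i j k : Fin N) (hij : i ≠ j) (hik : i ≠ k) (hjk : j ≠ k) :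
    ∫ X, tr u X i j k ∂(PP χ N) ≤ (vv χ)⁻¹ ^ 2 * ∫ z, u z := by
  haveI hp : IsProbabilityMeasure (nu χ) := (hCFD L χ hχ).1
  have h := (hETW N L χ u (fun _ => 1) i j k i hχ hu (fun _ => zero_le_one) measurable_const
    (integrable_const _) hij hik hjk (Or.inl rfl)).2
  simp only [one_mul, integral_const, probReal_univ, smul_eq_mul, mul_one] at h
  exact h

end NBF_

open NBF_ in
theorem nbf_proof (hCFD : Stmt_CFD) (hEUB : Stmt_EUB) (hEXB : Stmt_EXB) (hERR : Stmt_ERR)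
    (hRAT : Stmt_RAT) (hETW : Stmt_ETW) (hEFL : Stmt_EFL) (hEFU : Stmt_EFU) (hESU : Stmt_ESU)
    (hKAF : Stmt_KAF) (hCRD : Stmt_CRD) (hFTB : Stmt_FTB) : Stmt_NBF := by
  intro N L χ f V η R D hN hχ hNB hη0 hη1 hcond hD hDvol hkR haR hDχ
  obtain ⟨hkCN, haCN, _, hGCN, _, _, hAA0, _, _⟩ := hKAF f V hNB
  have hv : 0 < vv χ := hχ.pos
  have h1η : 0 < 1 - η := by linarith
  have hθ1 : 1 ≤ (1 - η)⁻¹ := by
    rw [one_le_inv₀ h1η]; linarith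
  have hvi : 0 ≤ (vv χ)⁻¹ := inv_nonneg.mpr hv.le
  have hα0 : 0 ≤ (vv χ)⁻¹ ^ 2 * ∫ z, aa f z :=
    mul_nonneg (pow_nonneg hvi 2) (integral_nonneg (fun z => haCN.nonneg z))
  have hk0 : 0 ≤ ∫ z, kap f V z := integral_nonneg (fun z => hkCN.nonneg z)
  have hkA0 : 0 ≤ ∫ z, kap f V z * AA f z.1 :=
    integral_nonneg (fun z => mul_nonneg (hkCN.nonneg z) (hAA0 _))
  have hkA20 : 0 ≤ ∫ z, kap f V z * AA f z.1 ^ 2 :=
    integral_nonneg (fun z => mul_nonneg (hkCN.nonneg z) (pow_nonneg (hAA0 _) 2))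
  have ha0 : 0 ≤ ∫ z, aa f z := integral_nonneg (fun z => haCN.nonneg z)
  have hrat : ∀ (S : Finset (Fin N)) (i : Fin N), i ∉ S →
      ZZ f χ S ≤ (1 - η)⁻¹ * ZZ f χ (insert i S) := by
    intro S i hi
    have h := hRAT N L χ f ((vv χ)⁻¹ ^ 2 * ∫ z, aa f z) η hχ hNB.jas
      (fun i j k hij hik hjk => t1 hCFD hETW N L χ (aa f) hχ haCN i j k hij hik hjk)
      hα0 hη0 hη1 hcond S i hi
    rw [inv_mul_eq_div, le_div_iff₀ h1η]
    linarith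
  have hZ : 0 < ZZ f χ (Finset.univ : Finset (Fin N)) := zz_pos hCFD hFTB N L χ f hχ hNB.jas
  have hexb := hEXB N L χ f V (1 - η)⁻¹ ((vv χ)⁻¹ ^ 2 * ∫ z, kap f V z)
    ((vv χ)⁻¹ ^ 4 * (volume D).toReal * ∫ z, kap f V z * AA f z.1)
    ((vv χ)⁻¹ ^ 4 * ∫ z, kap f V z * AA f z.1 ^ 2)
    ((vv χ)⁻¹ ^ 5 * (∫ z, kap f V z * AA f z.1) * ∫ z, aa f z) hχ hNB hθ1
    (mul_nonneg (pow_nonneg hvi 2) hk0)
    (mul_nonneg (mul_nonneg (pow_nonneg hvi 4) ENNReal.toReal_nonneg) hkA0)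
    (mul_nonneg (pow_nonneg hvi 4) hkA20)
    (mul_nonneg (mul_nonneg (pow_nonneg hvi 5) hkA0) ha0) hrat
    (fun i j k hn => by
      simp only [List.nodup_cons, List.mem_cons, List.not_mem_nil, or_false, not_or,
        List.nodup_nil, and_true, not_false_eq_true] at hn
      exact t1 hCFD hETW N L χ (kap f V) hχ hkCN i j k hn.1.1 hn.1.2 hn.2)
    (fun i j k l hn => hEFL N L χ (kap f V) (aa f) R D i j k l hχ hkCN haCN hD hDvol hkR haR hDχ hn)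
    (fun i j k l m hn => hEFU N L χ (kap f V) (aa f) i j k l m hχ hkCN haCN hn)
    (fun i j k l m n hn => hESU N L χ (kap f V) (aa f) i j k l m n hχ hkCN haCN hn)
  obtain ⟨herr1, herr2⟩ := hERR N L χ f (1 - η)⁻¹ hχ hNB.jas hθ1 hGCN hrat
  have heub := hEUB N L χ f V (by omega) hχ hNB
  set Z := ZZ f χ (Finset.univ : Finset (Fin N)) with hZdef
  set B := (1 - η)⁻¹ ^ 3 * ((vv χ)⁻¹ ^ 2 * ∫ z, kap f V z)
        - ((N : ℝ) - 3) * ((vv χ)⁻¹ ^ 4 * (volume D).toReal * ∫ z, kap f V z * AA f z.1)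
        + (N : ℝ) ^ 2 / 2 * (1 - η)⁻¹ ^ 5 * ((vv χ)⁻¹ ^ 4 * ∫ z, kap f V z * AA f z.1 ^ 2)
        + (N : ℝ) ^ 3 / 2 * (1 - η)⁻¹ ^ 6 *
          ((vv χ)⁻¹ ^ 5 * (∫ z, kap f V z * AA f z.1) * ∫ z, aa f z) with hB
  have hcard := hCRD.1 N
  have hs1 : ∑ t ∈ trip (Finset.univ : Finset (Fin N)),
      ∫ X, F2 f Finset.univ X * tr (kk f V) X t.1 t.2.1 t.2.2 ∂(PP χ N) ≤
      (N : ℝ) * (N - 1) * (N - 2) / 6 * (Z * B) := by
    rw [← hcard, ← nsmul_eq_mul]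
    refine Finset.sum_le_card_nsmul _ _ _ (fun t ht => ?_)
    have ht2 := (Finset.mem_filter.mp ht).2
    exact hexb t.1 t.2.1 t.2.2 ht2.1 ht2.2
  have hs2 : ∑ i : Fin N, ∑ c : Fin 3, ∫ X, F2 f Finset.univ X * lam χ c (X i) ^ 2 ∂(PP χ N) ≤
      (N : ℝ) * (Z * ((1 - η)⁻¹ * ((vv χ)⁻¹ * ∑ c, ∫ x, (dv (ev c) χ x) ^ 2))) := by
    have h : ∀ i : Fin N, ∑ c : Fin 3, ∫ X, F2 f Finset.univ X * lam χ c (X i) ^ 2 ∂(PP χ N) ≤
        Z * ((1 - η)⁻¹ * ((vv χ)⁻¹ * ∑ c, ∫ x, (dv (ev c) χ x) ^ 2)) := by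
      intro i
      calc ∑ c : Fin 3, ∫ X, F2 f Finset.univ X * lam χ c (X i) ^ 2 ∂(PP χ N)
          ≤ ∑ c : Fin 3, Z * ((1 - η)⁻¹ * ((vv χ)⁻¹ * ∫ x, (dv (ev c) χ x) ^ 2)) :=
            Finset.sum_le_sum (fun c _ => herr1 i c)
        _ = Z * ((1 - η)⁻¹ * ((vv χ)⁻¹ * ∑ c, ∫ x, (dv (ev c) χ x) ^ 2)) := by
            rw [Finset.mul_sum, Finset.mul_sum, Finset.mul_sum]
    calc ∑ i : Fin N, ∑ c : Fin 3, ∫ X, F2 f Finset.univ X * lam χ c (X i) ^ 2 ∂(PP χ N)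
        ≤ ∑ _i : Fin N, Z * ((1 - η)⁻¹ * ((vv χ)⁻¹ * ∑ c, ∫ x, (dv (ev c) χ x) ^ 2)) :=
          Finset.sum_le_sum (fun i _ => h i)
      _ = _ := by
          rw [Finset.sum_const, Finset.card_univ, Fintype.card_fin, nsmul_eq_mul]
  have hs3 : ∑ t ∈ trip (Finset.univ : Finset (Fin N)), ∑ m : Fin 3, ∑ c : Fin 3,
      ∫ X, F2 f Finset.univ X * (|lam χ c (X (sel t m))| * tr (G1 f) X t.1 t.2.1 t.2.2) ∂(PP χ N) ≤
      (N : ℝ) * (N - 1) * (N - 2) / 6 * (3 * (Z * ((1 - η)⁻¹ ^ 3 *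
        ((vv χ)⁻¹ ^ 3 * (∑ c, ∫ x, χ x * |dv (ev c) χ x|) * ∫ z, G1 f z)))) := by
    rw [← hcard, ← nsmul_eq_mul (Finset.card _)]
    refine Finset.sum_le_card_nsmul _ _ _ (fun t ht => ?_)
    have h : ∀ m : Fin 3, ∑ c : Fin 3, ∫ X, F2 f Finset.univ X *
        (|lam χ c (X (sel t m))| * tr (G1 f) X t.1 t.2.1 t.2.2) ∂(PP χ N) ≤
        Z * ((1 - η)⁻¹ ^ 3 * ((vv χ)⁻¹ ^ 3 * (∑ c, ∫ x, χ x * |dv (ev c) χ x|) * ∫ z, G1 f z)) := by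
      intro m
      calc ∑ c : Fin 3, ∫ X, F2 f Finset.univ X *
            (|lam χ c (X (sel t m))| * tr (G1 f) X t.1 t.2.1 t.2.2) ∂(PP χ N)
          ≤ ∑ c : Fin 3, Z * ((1 - η)⁻¹ ^ 3 *
              ((vv χ)⁻¹ ^ 3 * (∫ x, χ x * |dv (ev c) χ x|) * ∫ z, G1 f z)) :=
            Finset.sum_le_sum (fun c _ => herr2 t m c ht)
        _ = Z * ((1 - η)⁻¹ ^ 3 *
              ((vv χ)⁻¹ ^ 3 * (∑ c, ∫ x, χ x * |dv (ev c) χ x|) * ∫ z, G1 f z)) := by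
            rw [← Finset.mul_sum, ← Finset.mul_sum, ← Finset.sum_mul, ← Finset.mul_sum]
    calc ∑ m : Fin 3, ∑ c : Fin 3, ∫ X, F2 f Finset.univ X *
            (|lam χ c (X (sel t m))| * tr (G1 f) X t.1 t.2.1 t.2.2) ∂(PP χ N)
        ≤ ∑ _m : Fin 3, Z * ((1 - η)⁻¹ ^ 3 *
            ((vv χ)⁻¹ ^ 3 * (∑ c, ∫ x, χ x * |dv (ev c) χ x|) * ∫ z, G1 f z)) :=
          Finset.sum_le_sum (fun m _ => h m)
      _ = _ := by
          rw [Finset.sum_const, Finset.card_univ, Fintype.card_fin, nsmul_eq_mul]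
          norm_num
  have hfin : E0 V N L * Z ≤ ((N : ℝ) * (N - 1) * (N - 2) / 6 *
      (B + 6 * (1 - η)⁻¹ ^ 3 *
        ((vv χ)⁻¹ ^ 3 * (∑ c, ∫ x, χ x * |dv (ev c) χ x|) * ∫ z, G1 f z))
      + N * ((1 - η)⁻¹ * ((vv χ)⁻¹ * ∑ c, ∫ x, (dv (ev c) χ x) ^ 2))) * Z := by
    refine heub.trans ?_
    have h4 := add_le_add (add_le_add hs1 hs2) (mul_le_mul_of_nonneg_left hs3 (zero_le_two (α := ℝ)))
    refine h4.trans (le_of_eq ?_)
    ring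
  exact le_of_mul_le_mul_right hfin hZ

end Pool.Agent.TBG
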