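import Pool.Agent.TBG.Stmts

set_option autoImplicit false

open MeasureTheory Filter Topology
open scoped ContDiff

namespace Pool.Agent.TBG
namespace NBL_

theorem inv3 {η : ℝ} (h0 : 0 ≤ η) (h1 : η ≤ 1 / 8) : (1 - η)⁻¹ ^ 3 ≤ 1 + 4 * η := by
  have hp : 0 < (1 - η) ^ 3 := by have : 0 < 1 - η := by linarith
                                  positivity
  rw [inv_pow, inv_le_iff_one_le_mul₀ hp]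
  have h2 : 0 ≤ 1 / 8 - η := by linarith
  have key : 0 ≤ η * (1 - 9 * η + 11 * η ^ 2 - 4 * η ^ 3) := by
    apply mul_nonneg h0
    nlinarith [mul_nonneg h0 h2, mul_nonneg (mul_nonneg h0 h0) h2]
  nlinarith [key]

theorem inv5 {η : ℝ} (h0 : 0 ≤ η) (h1 : η ≤ 1 / 8) : (1 - η)⁻¹ ^ 5 ≤ 2 := by
  have h2 : (7 / 8 : ℝ) ≤ 1 - η := by linarith
  have h3 : (1 - η)⁻¹ ≤ 8 / 7 := by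
    rw [inv_le_comm₀ (by linarith) (by norm_num)]
    linarith
  have h4 : 0 ≤ (1 - η)⁻¹ := inv_nonneg.mpr (by linarith)
  calc (1 - η)⁻¹ ^ 5 ≤ (8 / 7 : ℝ) ^ 5 := pow_le_pow_left₀ h4 h3 5
    _ ≤ 2 := by norm_num

theorem inv6 {η : ℝ} (h0 : 0 ≤ η) (h1 : η ≤ 1 / 8) : (1 - η)⁻¹ ^ 6 ≤ 4 := by
  have h3 : (1 - η)⁻¹ ≤ 8 / 7 := by
    rw [inv_le_comm₀ (by linarith) (by norm_num)]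
    linarith
  have h4 : 0 ≤ (1 - η)⁻¹ := inv_nonneg.mpr (by linarith)
  calc (1 - η)⁻¹ ^ 6 ≤ (8 / 7 : ℝ) ^ 6 := pow_le_pow_left₀ h4 h3 6
    _ ≤ 4 := by norm_num

/-- the bound for cutoffs -/
noncomputable def HH (ρ η B Γ Γ₂ α ε : ℝ) : ℝ :=
  1 / 6 * ρ ^ 3 * ((1 - η)⁻¹ ^ 3 * ((1 - ε)⁻¹ ^ 6 * B) - ρ * ((1 - ε) ^ 3 * Γ)
    + ρ ^ 2 / 2 * (1 - η)⁻¹ ^ 5 * ((1 - ε)⁻¹ ^ 12 * Γ₂)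
    + ρ ^ 3 / 2 * (1 - η)⁻¹ ^ 6 * ((1 - ε)⁻¹ ^ 15 * Γ * α))

theorem phi_le {ρ η B Γ Γ₂ α ε v : ℝ} (hρ : 0 < ρ) (h0 : 0 ≤ η) (h1 : η ≤ 1 / 8) (hB : 0 ≤ B) (hΓ : 0 ≤ Γ)
    (hΓ₂ : 0 ≤ Γ₂) (hα : 0 ≤ α) (hε0 : 0 < ε) (hε1 : ε < 1) (hv1 : (1 - ε) ^ 3 ≤ v) (hv2 : v ≤ 1) :
    PhiE ρ η B Γ Γ₂ α ε v ≤ HH ρ η B Γ Γ₂ α ε := by
  have hε : 0 < 1 - ε := by linarith
  have hv : 0 < v := lt_of_lt_of_le (by positivity) hv1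
  have hη : 0 < (1 - η)⁻¹ := inv_pos.mpr (by linarith)
  have ht : 0 < (1 - ε)⁻¹ := inv_pos.mpr hε
  have hs0 : 0 < v⁻¹ := inv_pos.mpr hv
  have hs1 : 1 ≤ v⁻¹ := (one_le_inv₀ hv).mpr hv2
  have hst : v⁻¹ ≤ (1 - ε)⁻¹ ^ 3 := by
    rw [inv_pow]
    exact inv_anti₀ (by positivity) hv1
  have p2 : v⁻¹ ^ 2 ≤ (1 - ε)⁻¹ ^ 6 := by
    calc v⁻¹ ^ 2 ≤ ((1 - ε)⁻¹ ^ 3) ^ 2 := pow_le_pow_left₀ hs0.le hst 2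
      _ = _ := by rw [← pow_mul]
  have p4 : v⁻¹ ^ 4 ≤ (1 - ε)⁻¹ ^ 12 := by
    calc v⁻¹ ^ 4 ≤ ((1 - ε)⁻¹ ^ 3) ^ 4 := pow_le_pow_left₀ hs0.le hst 4
      _ = _ := by rw [← pow_mul]
  have p5 : v⁻¹ ^ 5 ≤ (1 - ε)⁻¹ ^ 15 := by
    calc v⁻¹ ^ 5 ≤ ((1 - ε)⁻¹ ^ 3) ^ 5 := pow_le_pow_left₀ hs0.le hst 5
      _ = _ := by rw [← pow_mul]
  have p4' : 1 ≤ v⁻¹ ^ 4 := one_le_pow₀ hs1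
  unfold PhiE HH
  have t1 : (1 - η)⁻¹ ^ 3 * (v⁻¹ ^ 2 * B) ≤ (1 - η)⁻¹ ^ 3 * ((1 - ε)⁻¹ ^ 6 * B) := by gcongr
  have t2 : ρ * ((1 - ε) ^ 3 * Γ) ≤ ρ * (v⁻¹ ^ 4 * (1 - ε) ^ 3 * Γ) := by
    have : 1 * ((1 - ε) ^ 3 * Γ) ≤ v⁻¹ ^ 4 * ((1 - ε) ^ 3 * Γ) := by gcongr
    have h2 : (1 - ε) ^ 3 * Γ ≤ v⁻¹ ^ 4 * (1 - ε) ^ 3 * Γ := by linarith
    exact mul_le_mul_of_nonneg_left h2 hρ.le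
  have t3 : ρ ^ 2 / 2 * (1 - η)⁻¹ ^ 5 * (v⁻¹ ^ 4 * Γ₂) ≤
      ρ ^ 2 / 2 * (1 - η)⁻¹ ^ 5 * ((1 - ε)⁻¹ ^ 12 * Γ₂) := by gcongr
  have t4 : ρ ^ 3 / 2 * (1 - η)⁻¹ ^ 6 * (v⁻¹ ^ 5 * Γ * α) ≤
      ρ ^ 3 / 2 * (1 - η)⁻¹ ^ 6 * ((1 - ε)⁻¹ ^ 15 * Γ * α) := by gcongr
  have h6 : 0 ≤ 1 / 6 * ρ ^ 3 := by positivity
  refine mul_le_mul_of_nonneg_left ?_ h6
  linarith

theorem hh_zero {ρ η B Γ Γ₂ α B' : ℝ} (hρ : 0 < ρ) (h0 : 0 ≤ η) (h1 : η ≤ 1 / 8) (hB : 0 ≤ B) (hΓ : 0 ≤ Γ)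
    (hΓ₂ : 0 ≤ Γ₂) (hη : η = ρ ^ 2 * α)
    (h : 1 / 6 * ρ ^ 3 * ((1 + 4 * η) * B - (1 - 2 * η) * ρ * Γ + ρ ^ 2 * Γ₂) < B') :
    HH ρ η B Γ Γ₂ α 0 < B' := by
  refine lt_of_le_of_lt ?_ h
  unfold HH
  have h6 : 0 ≤ 1 / 6 * ρ ^ 3 := by positivity
  refine mul_le_mul_of_nonneg_left ?_ h6
  have t1 : (1 - η)⁻¹ ^ 3 * B ≤ (1 + 4 * η) * B := mul_le_mul_of_nonneg_right (inv3 h0 h1) hB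
  have t3 : (1 - η)⁻¹ ^ 5 * (ρ ^ 2 / 2 * Γ₂) ≤ 2 * (ρ ^ 2 / 2 * Γ₂) :=
    mul_le_mul_of_nonneg_right (inv5 h0 h1) (by positivity)
  have t4 : (1 - η)⁻¹ ^ 6 * (ρ / 2 * Γ * η) ≤ 4 * (ρ / 2 * Γ * η) :=
    mul_le_mul_of_nonneg_right (inv6 h0 h1) (by positivity)
  have e4 : ρ ^ 3 / 2 * (1 - η)⁻¹ ^ 6 * ((1 - 0)⁻¹ ^ 15 * Γ * α) = (1 - η)⁻¹ ^ 6 * (ρ / 2 * Γ * η) := by
    rw [hη]; norm_num; ring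
  have e1 : (1 - η)⁻¹ ^ 3 * ((1 - 0)⁻¹ ^ 6 * B) = (1 - η)⁻¹ ^ 3 * B := by norm_num
  have e2 : ρ * ((1 - 0) ^ 3 * Γ) = ρ * Γ := by norm_num
  have e3 : ρ ^ 2 / 2 * (1 - η)⁻¹ ^ 5 * ((1 - 0)⁻¹ ^ 12 * Γ₂) = (1 - η)⁻¹ ^ 5 * (ρ ^ 2 / 2 * Γ₂) := by
    norm_num; ring
  rw [e1, e2, e3, e4]
  nlinarith [t1, t3, t4]

theorem hh_cont (ρ η B Γ Γ₂ α : ℝ) : ContinuousAt (HH ρ η B Γ Γ₂ α) 0 := by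
  unfold HH
  fun_prop (disch := norm_num)

end NBL_

open NBL_ in
theorem nbl_proof (h1 : Stmt_NLE) (h2 : Stmt_CUT) (h3 : Stmt_KAF) : Stmt_NBL := by
  intro f V ρ B' hN hρ hα hB
  obtain ⟨hk, ha, -, -, -, -, hA0, -, -⟩ := h3 f V hN
  have hα0 : 0 ≤ ∫ z, aa f z := integral_nonneg ha.nonneg
  have hB0 : 0 ≤ ∫ z, kap f V z := integral_nonneg hk.nonneg
  have hΓ0 : 0 ≤ ∫ z, kap f V z * AA f z.1 := integral_nonneg fun z => mul_nonneg (hk.nonneg z) (hA0 _)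
  have hΓ20 : 0 ≤ ∫ z, kap f V z * AA f z.1 ^ 2 :=
    integral_nonneg fun z => mul_nonneg (hk.nonneg z) (pow_nonneg (hA0 _) 2)
  have hη0 : 0 ≤ ρ ^ 2 * ∫ z, aa f z := by positivity
  have hH0 := hh_zero hρ hη0 hα hB0 hΓ0 hΓ20 rfl hB
  have hHc := hh_cont ρ (ρ ^ 2 * ∫ z, aa f z) (∫ z, kap f V z) (∫ z, kap f V z * AA f z.1)
    (∫ z, kap f V z * AA f z.1 ^ 2) (∫ z, aa f z)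
  have e1 : ∀ᶠ ε in 𝓝[>] (0 : ℝ), HH ρ (ρ ^ 2 * ∫ z, aa f z) (∫ z, kap f V z) (∫ z, kap f V z * AA f z.1)
    (∫ z, kap f V z * AA f z.1 ^ 2) (∫ z, aa f z) ε < B' :=
    nhdsWithin_le_nhds (hHc.tendsto.eventually_lt_const hH0)
  have e2 : ∀ᶠ ε in 𝓝[>] (0 : ℝ), (1 - ε)⁻¹ ^ 6 < 3 / 2 := by
    have hc : ContinuousAt (fun ε : ℝ => (1 - ε)⁻¹ ^ 6) 0 := by fun_prop (disch := norm_num)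
    exact nhdsWithin_le_nhds (hc.tendsto.eventually_lt_const (by norm_num))
  have e3 : ∀ᶠ ε in 𝓝[>] (0 : ℝ), ε ∈ Set.Ioo (0 : ℝ) 1 := Ioo_mem_nhdsGT one_pos
  obtain ⟨ε, hε1, hε2, hε3⟩ := (e1.and (e2.and e3)).exists
  obtain ⟨χ, hχ, hχ1, hv1, hv2⟩ := h2 ε hε3.1 hε3.2
  have hε : 0 < 1 - ε := by linarith [hε3.2]
  have hv : 0 < vv χ := lt_of_lt_of_le (by positivity) hv1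
  have hs0 : 0 < (vv χ)⁻¹ := inv_pos.mpr hv
  have hst : (vv χ)⁻¹ ≤ (1 - ε)⁻¹ ^ 3 := by
    rw [inv_pow]
    exact inv_anti₀ (by positivity) hv1
  have p2 : (vv χ)⁻¹ ^ 2 ≤ (1 - ε)⁻¹ ^ 6 := by
    calc (vv χ)⁻¹ ^ 2 ≤ ((1 - ε)⁻¹ ^ 3) ^ 2 := pow_le_pow_left₀ hs0.le hst 2
      _ = _ := by rw [← pow_mul]
  refine h1 f V ρ (ρ ^ 2 * ∫ z, aa f z) ε B' χ hN hρ hη0 (by linarith) hε3.1 hε3.2 hχ hχ1 ?_ ?_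
  · rcases hα0.eq_or_lt with h | h
    · right; exact h.symm
    · left
      have hη : 0 < ρ ^ 2 * ∫ z, aa f z := by positivity
      have h4 : (vv χ)⁻¹ ^ 2 < 3 / 2 := lt_of_le_of_lt p2 hε2
      have h5 : (49 / 64 : ℝ) ≤ (1 - ρ ^ 2 * ∫ z, aa f z) ^ 2 := by
        have : (7 / 8 : ℝ) ≤ 1 - ρ ^ 2 * ∫ z, aa f z := by linarith
        nlinarith
      calc ρ ^ 2 / 2 * ((vv χ)⁻¹ ^ 2 * ∫ z, aa f z)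
          = (ρ ^ 2 * ∫ z, aa f z) * ((vv χ)⁻¹ ^ 2 / 2) := by ring
        _ < (ρ ^ 2 * ∫ z, aa f z) * (1 - ρ ^ 2 * ∫ z, aa f z) ^ 2 := by
            apply mul_lt_mul_of_pos_left _ hη
            linarith
  · exact lt_of_le_of_lt (phi_le hρ hη0 hα hB0 hΓ0 hΓ20 hα0 hε3.1 hε3.2 hv1 hv2) hε1

end Pool.Agent.TBG
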