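import Pool.Agent.TBG.Stmts

/-!
# Three-body Bose gases (MP_80dc41_mp), module NLE: the limit for a fixed cutoff
-/

set_option autoImplicit false

open MeasureTheory Filter Topology
open scoped ContDiff

namespace Pool.Agent.TBG

namespace NLE_

/-- the bound divided by the volume, as a polynomial in `s = N / L³` and `q = 1 / L` -/
noncomputable def PsiE (g w B Γ Γ₂ α G H J R ε : ℝ) (s q : ℝ) : ℝ :=
  1 / 6 * (s * (s - q ^ 3) * (s - 2 * q ^ 3)) *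
    (g ^ 3 * (w ^ 2 * B) - (s - 3 * q ^ 3) * (w ^ 4 * (1 - ε - 2 * R * q) ^ 3 * Γ)
      + s ^ 2 / 2 * g ^ 5 * (w ^ 4 * Γ₂) + s ^ 3 / 2 * g ^ 6 * (w ^ 5 * Γ * α)
      + 6 * g ^ 3 * (w ^ 3 * (q * H) * G)) + s * (g * (w * (q ^ 2 * J)))

theorem psiE_cont (g w B Γ Γ₂ α G H J R ε : ℝ) :
    Continuous (fun x : ℝ × ℝ => PsiE g w B Γ Γ₂ α G H J R ε x.1 x.2) := by
  unfold PsiE
  fun_prop

theorem psiE_zero (ρ η B Γ Γ₂ α G H J R ε v : ℝ) :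
    PsiE (1 - η)⁻¹ v⁻¹ B Γ Γ₂ α G H J R ε ρ 0 = PhiE ρ η B Γ Γ₂ α ε v := by
  unfold PsiE PhiE
  ring

theorem alg (N q w g B Γ Γ₂ α G H J R ε : ℝ) (hq : q ≠ 0) :
    (N * (N - 1) * (N - 2) / 6 *
      (g ^ 3 * ((q ^ 3 * w) ^ 2 * B)
        - (N - 3) * ((q ^ 3 * w) ^ 4 * (2 * (q⁻¹ * (1 - ε) / 2 - R)) ^ 3 * Γ)
        + N ^ 2 / 2 * g ^ 5 * ((q ^ 3 * w) ^ 4 * Γ₂)
        + N ^ 3 / 2 * g ^ 6 * ((q ^ 3 * w) ^ 5 * Γ * α)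
        + 6 * g ^ 3 * ((q ^ 3 * w) ^ 3 * (q⁻¹ ^ 2 * H) * G))
      + N * (g * ((q ^ 3 * w) * (q⁻¹ * J)))) * q ^ 3 =
    PsiE g w B Γ Γ₂ α G H J R ε (N * q ^ 3) q := by
  have h1 : (q ^ 3 * w) ^ 4 * (2 * (q⁻¹ * (1 - ε) / 2 - R)) ^ 3 = q ^ 9 * w ^ 4 * (1 - ε - 2 * R * q) ^ 3 := by
    have h2 : q * (2 * (q⁻¹ * (1 - ε) / 2 - R)) = 1 - ε - 2 * R * q := by
      field_simp
    rw [← h2]
    ring
  have h3 : (q ^ 3 * w) ^ 3 * (q⁻¹ ^ 2 * H) = q ^ 7 * w ^ 3 * H := by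
    field_simp
  have h4 : q ^ 3 * w * (q⁻¹ * J) = q ^ 2 * w * J := by
    field_simp
  rw [h1, h3, h4]
  unfold PsiE
  ring

theorem supp_bound {u : E × E → ℝ} (hu : CN u) : ∃ R : ℝ, ∀ z, u z ≠ 0 → ‖z‖ ≤ R := by
  obtain ⟨R, hR⟩ := hu.cpt.isCompact.isBounded.subset_closedBall 0
  refine ⟨R, fun z hz => ?_⟩
  have h1 : z ∈ tsupport u := subset_tsupport u hz
  have h2 := hR h1
  rwa [Metric.mem_closedBall, dist_zero_right] at h2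

theorem coord_le (x : E) (c : Fin 3) : |x c| ≤ ‖x‖ := by
  have h := EuclideanSpace.norm_eq x
  have h1 : ‖x c‖ ^ 2 ≤ ∑ i, ‖x i‖ ^ 2 :=
    Finset.single_le_sum (f := fun i => ‖x i‖ ^ 2) (fun i _ => sq_nonneg _) (Finset.mem_univ c)
  rw [h, ← Real.norm_eq_abs]
  exact Real.le_sqrt_of_sq_le h1

theorem dom (χ : E → ℝ) (L ε R : ℝ) (hL : 0 < L)
    (hone : ∀ x : E, (∀ c, |x c| ≤ (1 - ε) / 2) → χ x = 1) :
    ∀ x ∈ {x : E | ∀ c, |x c| ≤ L * (1 - ε) / 2 - R}, ∀ y, ‖y - x‖ ≤ R → χ (L⁻¹ • y) = 1 := by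
  intro x hx y hy
  apply hone
  intro c
  have h1 : |x c| ≤ L * (1 - ε) / 2 - R := hx c
  have h2 : |(y - x) c| ≤ R := (coord_le _ c).trans hy
  have h3 : |y c| ≤ L * (1 - ε) / 2 := by
    have h4 : y c = x c + (y - x) c := by
      simp
    rw [h4]
    calc |x c + (y - x) c| ≤ |x c| + |(y - x) c| := abs_add_le _ _
      _ ≤ L * (1 - ε) / 2 := by linarith
  have h5 : (L⁻¹ • y) c = L⁻¹ * y c := by
    simp
  rw [h5, abs_mul, abs_of_pos (inv_pos.mpr hL)]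
  calc L⁻¹ * |y c| ≤ L⁻¹ * (L * (1 - ε) / 2) := mul_le_mul_of_nonneg_left h3 (inv_pos.mpr hL).le
    _ = (1 - ε) / 2 := by field_simp

end NLE_

open NLE_ in
theorem nle_proof (hNBF : Stmt_NBF) (hSCU : Stmt_SCU) (hVCU : Stmt_VCU) (hTHE : Stmt_THE)
    (hKAF : Stmt_KAF) : Stmt_NLE := by
  intro f V ρ η ε B' χ hN hρ hη0 hη1 hε0 hε1 hcut hone hcond hPhi
  obtain ⟨hck, hca, _, _, _, _, _, _, _⟩ := hKAF f V hN
  obtain ⟨_, hT1, hT2, hT3, hT4⟩ := hTHE ρ hρ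
  obtain ⟨R1, hR1⟩ := supp_bound hck
  obtain ⟨R2, hR2⟩ := supp_bound hca
  obtain ⟨R, hR0, hRk, hRa⟩ : ∃ R : ℝ, 0 ≤ R ∧ (∀ z, kap f V z ≠ 0 → ‖z‖ ≤ R) ∧
      (∀ z, aa f z ≠ 0 → ‖z‖ ≤ R) :=
    ⟨max (max R1 R2) 0, le_max_right _ _,
      fun z hz => (hR1 z hz).trans ((le_max_left _ _).trans (le_max_left _ _)),
      fun z hz => (hR2 z hz).trans ((le_max_right _ _).trans (le_max_left _ _))⟩
  have hε' : 0 < 1 - ε := by linarith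
  have hη' : 0 < 1 - η := by linarith
  have hv : 0 < vv χ := hcut.pos
  have hq : Tendsto (fun p : ℕ × ℝ => p.2⁻¹) (thermo ρ) (𝓝 0) := tendsto_inv_atTop_zero.comp hT2
  have hPsi := ((psiE_cont (1 - η)⁻¹ (vv χ)⁻¹ (∫ z, kap f V z) (∫ z, kap f V z * AA f z.1)
    (∫ z, kap f V z * AA f z.1 ^ 2) (∫ z, aa f z) (∫ z, G1 f z) (∑ c, ∫ x, χ x * |dv (ev c) χ x|)
    (∑ c, ∫ x, (dv (ev c) χ x) ^ 2) R ε).tendsto (ρ, 0)).comp (hT3.prodMk_nhds hq)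
  have hlt : PsiE (1 - η)⁻¹ (vv χ)⁻¹ (∫ z, kap f V z) (∫ z, kap f V z * AA f z.1)
    (∫ z, kap f V z * AA f z.1 ^ 2) (∫ z, aa f z) (∫ z, G1 f z) (∑ c, ∫ x, χ x * |dv (ev c) χ x|)
    (∑ c, ∫ x, (dv (ev c) χ x) ^ 2) R ε ρ 0 < B' := by
    rw [psiE_zero]
    exact hPhi
  have E1 := hPsi.eventually_lt_const hlt
  have E2 := hT1.eventually_ge_atTop 3
  have E3 := hT2.eventually_ge_atTop (2 * R / (1 - ε))
  have E4 : ∀ᶠ p : ℕ × ℝ in thermo ρ,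
      ((p.1 : ℝ) / p.2 ^ 3) ^ 2 / 2 * ((vv χ)⁻¹ ^ 2 * ∫ z, aa f z) ≤ η * (1 - η) ^ 2 := by
    rcases hcond with h | h
    · have hc : Continuous (fun s : ℝ => s ^ 2 / 2 * ((vv χ)⁻¹ ^ 2 * ∫ z, aa f z)) := by fun_prop
      have ht := (hc.tendsto ρ).comp hT3
      have hev := ht.eventually_lt_const h
      filter_upwards [hev] with p hp
      exact le_of_lt hp
    · refine Eventually.of_forall fun p => ?_
      rw [h, mul_zero, mul_zero]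
      positivity
  filter_upwards [E1, E2, E3, E4, hT4] with p h1 h2 h3 h4 h5
  obtain ⟨N, L⟩ := p
  simp only [Function.comp] at h1 h2 h3 h4 h5 ⊢
  obtain ⟨hcL, hvL, hJ, hH⟩ := hSCU L χ h5 hcut
  have hr : 0 ≤ L * (1 - ε) / 2 - R := by
    have := (div_le_iff₀ hε').mp h3
    linarith
  obtain ⟨hDm, hDv⟩ := hVCU _ hr
  have hN3 : 3 ≤ N := by exact_mod_cast h2
  have hL3 : 0 < L ^ 3 := by positivity
  have hL0 : L ≠ 0 := h5.ne'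
  have hinv : (L ^ 3 * vv χ)⁻¹ = L⁻¹ ^ 3 * (vv χ)⁻¹ := by
    rw [mul_inv, inv_pow]
  have hbd := hNBF N L (fun x => χ (L⁻¹ • x)) f V η R {x : E | ∀ c, |x c| ≤ L * (1 - ε) / 2 - R}
    hN3 hcL hN hη0 hη1 (by
      rw [hvL]
      have h6 : (N : ℝ) ^ 2 / 2 * ((L ^ 3 * vv χ)⁻¹ ^ 2 * ∫ z, aa f z) =
          ((N : ℝ) / L ^ 3) ^ 2 / 2 * ((vv χ)⁻¹ ^ 2 * ∫ z, aa f z) := by
        rw [mul_inv, div_eq_mul_inv (N : ℝ) (L ^ 3)]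
        ring
      rw [h6]
      exact h4) hDm (by rw [hDv]; exact ENNReal.ofReal_lt_top) hRk hRa (dom χ L ε R h5 hone)
  have hDr : (volume {x : E | ∀ c, |x c| ≤ L * (1 - ε) / 2 - R}).toReal =
      (2 * (L * (1 - ε) / 2 - R)) ^ 3 := by
    rw [hDv, ENNReal.toReal_ofReal (by positivity)]
  have hJs : ∑ c, ∫ x, (dv (ev c) (fun x => χ (L⁻¹ • x)) x) ^ 2 = L * ∑ c, ∫ x, (dv (ev c) χ x) ^ 2 := by
    rw [Finset.mul_sum]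
    exact Finset.sum_congr rfl fun c _ => hJ c
  have hHs : ∑ c, ∫ x, χ (L⁻¹ • x) * |dv (ev c) (fun x => χ (L⁻¹ • x)) x| =
      L ^ 2 * ∑ c, ∫ x, χ x * |dv (ev c) χ x| := by
    rw [Finset.mul_sum]
    exact Finset.sum_congr rfl fun c _ => hH c
  rw [hvL, hDr, hJs, hHs, hinv] at hbd
  have halg := alg (N : ℝ) L⁻¹ (vv χ)⁻¹ (1 - η)⁻¹ (∫ z, kap f V z) (∫ z, kap f V z * AA f z.1)
    (∫ z, kap f V z * AA f z.1 ^ 2) (∫ z, aa f z) (∫ z, G1 f z) (∑ c, ∫ x, χ x * |dv (ev c) χ x|)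
    (∑ c, ∫ x, (dv (ev c) χ x) ^ 2) R ε (inv_ne_zero hL0)
  rw [inv_inv] at halg
  have hNq : (N : ℝ) / L ^ 3 = (N : ℝ) * L⁻¹ ^ 3 := by
    rw [inv_pow, div_eq_mul_inv]
  have hEq : E0 V N L / L ^ 3 = E0 V N L * L⁻¹ ^ 3 := by
    rw [inv_pow, div_eq_mul_inv]
  rw [hNq, ← halg] at h1
  rw [hEq]
  refine le_trans (mul_le_mul_of_nonneg_right hbd (by positivity)) ?_
  exact h1.le

end Pool.Agent.TBG
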