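import Pool.Agent.TBG.Stmts

/-!
# The radial profile
-/

set_option autoImplicit false

open MeasureTheory Filter Topology
open scoped ContDiff

namespace Pool.Agent.TBG

namespace PSI_

/-- the integrand -/
noncomputable def gg (σ : ℝ) : ℝ := 2 * mm σ / σ ^ 3

lemma mm_contDiff : ContDiff ℝ ∞ mm := by
  unfold mm
  exact Real.smoothTransition.contDiff.comp ((contDiff_const.mul contDiff_id).sub contDiff_const)

lemma mm_zero {s : ℝ} (hs : s ≤ 1 / 2) : mm s = 0 :=
  Real.smoothTransition.zero_of_nonpos (by linarith)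

lemma mm_one {s : ℝ} (hs : 1 ≤ s) : mm s = 1 :=
  Real.smoothTransition.one_of_one_le (by linarith)

lemma mm_nonneg (s : ℝ) : 0 ≤ mm s := Real.smoothTransition.nonneg _

lemma mm_le_one (s : ℝ) : mm s ≤ 1 := Real.smoothTransition.le_one _

lemma mm_mono : Monotone mm := fun a b hab =>
  Real.smoothTransition.monotone (by linarith)

lemma gg_contDiff : ContDiff ℝ ∞ gg := by
  rw [contDiff_iff_contDiffAt]
  intro s
  by_cases hs : s < 1 / 2
  · have : gg =ᶠ[𝓝 s] fun _ => 0 := by
      filter_upwards [Iio_mem_nhds hs] with x hx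
      simp [gg, mm_zero (le_of_lt hx)]
    exact contDiffAt_const.congr_of_eventuallyEq this
  · have hs0 : s ≠ 0 := by
      intro h; apply hs; rw [h]; norm_num
    unfold gg
    exact (contDiffAt_const.mul mm_contDiff.contDiffAt).div (contDiffAt_id.pow 3) (pow_ne_zero 3 hs0)

lemma gg_cont : Continuous gg := gg_contDiff.continuous

lemma psi_hasDerivAt (s : ℝ) : HasDerivAt psi (-(gg s)) s := by
  have h1 : psi = fun s => 1 - ∫ σ in (1 : ℝ)..s, gg σ := by
    funext t
    unfold psi
    rw [intervalIntegral.integral_symm]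
    simp only [gg]
    ring
  rw [h1]
  have h2 : HasDerivAt (fun s => ∫ σ in (1 : ℝ)..s, gg σ) (gg s) s :=
    intervalIntegral.integral_hasDerivAt_right (gg_cont.intervalIntegrable _ _)
      (gg_cont.stronglyMeasurableAtFilter _ _) gg_cont.continuousAt
  simpa using h2.const_sub 1

lemma deriv_psi : deriv psi = fun s => -(gg s) := funext fun s => (psi_hasDerivAt s).deriv

lemma psi_contDiff : ContDiff ℝ ∞ psi := by
  rw [contDiff_infty_iff_deriv]
  refine ⟨fun s => (psi_hasDerivAt s).differentiableAt, ?_⟩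
  rw [deriv_psi]
  exact gg_contDiff.neg

lemma psi_ge {s : ℝ} (hs : 1 ≤ s) : psi s = 1 / s ^ 2 := by
  have h : ∀ x ∈ Set.uIcc s 1, HasDerivAt (fun x : ℝ => -(1 / x ^ 2)) (gg x) x := by
    intro x hx
    rw [Set.uIcc_of_ge hs] at hx
    have hx1 : 1 ≤ x := hx.1
    have hx0 : x ≠ 0 := by positivity
    have h1 : HasDerivAt (fun x : ℝ => x ^ 2) (2 * x) x := by simpa using hasDerivAt_pow 2 x
    have h2 := (h1.inv (pow_ne_zero 2 hx0)).neg
    have h3 : (fun x : ℝ => -(1 / x ^ 2)) = -(fun x : ℝ => x ^ 2)⁻¹ := by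
      funext y; simp
    rw [h3]
    refine h2.congr_deriv ?_
    unfold gg
    rw [mm_one hx1]
    field_simp
  have := intervalIntegral.integral_eq_sub_of_hasDerivAt h (gg_cont.intervalIntegrable _ _)
  unfold psi
  change 1 + ∫ σ in s..1, gg σ = _
  rw [this]
  norm_num

lemma gg_nonneg {σ : ℝ} : 0 ≤ gg σ := by
  unfold gg
  rcases le_total σ (1 / 2) with h | h
  · rw [mm_zero h]; simp
  · have := mm_nonneg σ
    positivity

lemma gg_le {σ : ℝ} (h : 1 / 2 ≤ σ) : gg σ ≤ 2 / σ ^ 3 := by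
  unfold gg
  have := mm_le_one σ
  gcongr
  linarith

lemma psi_anti : Antitone psi := by
  apply antitone_of_deriv_nonpos (fun s => (psi_hasDerivAt s).differentiableAt)
  intro s
  rw [deriv_psi]
  simpa using gg_nonneg

lemma psi_one : psi 1 = 1 := by simp [psi]

lemma psi_half : psi (1 / 2) ≤ 4 := by
  have h : ∀ x ∈ Set.uIcc (1 / 2 : ℝ) 1, HasDerivAt (fun x : ℝ => -(1 / x ^ 2)) (2 / x ^ 3) x := by
    intro x hx
    rw [Set.uIcc_of_le (by norm_num)] at hx
    have hx1 : 1 / 2 ≤ x := hx.1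
    have hx0 : x ≠ 0 := by positivity
    have h1 : HasDerivAt (fun x : ℝ => x ^ 2) (2 * x) x := by simpa using hasDerivAt_pow 2 x
    have h2 := (h1.inv (pow_ne_zero 2 hx0)).neg
    have h3 : (fun x : ℝ => -(1 / x ^ 2)) = -(fun x : ℝ => x ^ 2)⁻¹ := by
      funext y; simp
    rw [h3]
    refine h2.congr_deriv ?_
    field_simp
  have hc : ContinuousOn (fun x : ℝ => 2 / x ^ 3) (Set.uIcc (1 / 2 : ℝ) 1) := by
    apply ContinuousOn.div continuousOn_const (continuousOn_id.pow 3)
    intro x hx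
    rw [Set.uIcc_of_le (by norm_num)] at hx
    have hx1 : 1 / 2 ≤ x := hx.1
    have hx0 : x ≠ 0 := by positivity
    exact pow_ne_zero 3 hx0
  have h1 := intervalIntegral.integral_eq_sub_of_hasDerivAt h hc.intervalIntegrable
  have h2 : ∫ σ in (1 / 2 : ℝ)..1, gg σ ≤ ∫ σ in (1 / 2 : ℝ)..1, 2 / σ ^ 3 := by
    apply intervalIntegral.integral_mono_on (by norm_num) (gg_cont.intervalIntegrable _ _) hc.intervalIntegrable
    intro x hx
    exact gg_le hx.1
  rw [h1] at h2
  unfold psi
  change 1 + ∫ σ in (1 / 2 : ℝ)..1, gg σ ≤ 4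
  norm_num at h2 ⊢
  linarith

lemma psi_low {s : ℝ} (hs : s ≤ 1 / 2) : psi s ≤ 4 := by
  have h1 : psi s = psi (1 / 2) := by
    have hd : ∀ x ∈ Set.uIcc s (1 / 2), HasDerivAt psi (-(gg x)) x := fun x _ => psi_hasDerivAt x
    have h := intervalIntegral.integral_eq_sub_of_hasDerivAt hd (gg_cont.neg.intervalIntegrable _ _)
    have h0 : ∫ x in s..(1 / 2), -(gg x) = ∫ x in s..(1 / 2), (0 : ℝ) := by
      apply intervalIntegral.integral_congr
      intro x hx
      rw [Set.uIcc_of_le hs] at hx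
      simp [gg, mm_zero hx.2]
    rw [h0] at h
    simp at h
    norm_num at h ⊢
    linarith
  rw [h1]
  exact psi_half

lemma psi_le_four (s : ℝ) : psi s ≤ 4 := by
  rcases le_total s (1 / 2) with h | h
  · exact psi_low h
  · exact (psi_anti h).trans psi_half

lemma mm_deriv_nonneg (s : ℝ) : 0 ≤ deriv mm s := mm_mono.deriv_nonneg

lemma mm_deriv_zero {s : ℝ} (hs : s < 1 / 2) : deriv mm s = 0 := by
  have : mm =ᶠ[𝓝 s] fun _ => 0 := by
    filter_upwards [Iio_mem_nhds hs] with x hx
    exact mm_zero (le_of_lt hx)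
  rw [this.deriv_eq]
  simp

lemma mm_deriv_one {s : ℝ} (hs : 1 < s) : deriv mm s = 0 := by
  have : mm =ᶠ[𝓝 s] fun _ => 1 := by
    filter_upwards [Ioi_mem_nhds hs] with x hx
    exact mm_one (le_of_lt hx)
  rw [this.deriv_eq]
  simp

lemma mm_pos : ∃ s, 0 < s ∧ 0 < deriv mm s := by
  obtain ⟨c, hc, h⟩ := exists_deriv_eq_slope mm (show (1 / 2 : ℝ) < 1 by norm_num)
    mm_contDiff.continuous.continuousOn (mm_contDiff.differentiable (by simp)).differentiableOn
  refine ⟨c, by linarith [hc.1], ?_⟩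
  rw [h, mm_one le_rfl, mm_zero le_rfl]
  norm_num

lemma dd (s : ℝ) : 4 * s * deriv (deriv psi) s + 12 * deriv psi s = -(8 * deriv mm s / s ^ 2) := by
  rw [deriv_psi]
  by_cases hs : s < 1 / 2
  · have : (fun s => -(gg s)) =ᶠ[𝓝 s] fun _ => 0 := by
      filter_upwards [Iio_mem_nhds hs] with x hx
      simp [gg, mm_zero (le_of_lt hx)]
    rw [this.deriv_eq, mm_deriv_zero hs]
    simp [gg, mm_zero hs.le]
  · have hs0 : s ≠ 0 := by
      intro h; apply hs; rw [h]; norm_num
    have h1 : HasDerivAt mm (deriv mm s) s :=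
      ((mm_contDiff.differentiable (by simp)) s).hasDerivAt
    have h2 : HasDerivAt (fun x : ℝ => x ^ 3) (3 * s ^ 2) s := by simpa using hasDerivAt_pow 3 s
    have h3 := ((h1.const_mul 2).div h2 (pow_ne_zero 3 hs0)).neg
    have h4 : deriv (fun s => -(gg s)) s = _ := h3.deriv
    rw [h4]
    simp only [gg]
    field_simp
    ring

end PSI_

open PSI_ in
theorem psi_proof : Stmt_PSI := by
  refine ⟨psi_contDiff, fun s => by rw [deriv_psi]; rfl, fun s hs => psi_ge hs, ?_, dd, mm_deriv_nonneg,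
    fun s hs => mm_deriv_one hs, mm_pos, fun s hs => mm_deriv_zero hs⟩
  intro s hs
  refine ⟨?_, ?_, psi_le_four s, ?_⟩
  · rcases le_total s 1 with h | h
    · have h1 : 1 ≤ psi s := by rw [← psi_one]; exact psi_anti h
      nlinarith [mul_nonneg hs hs]
    · rw [psi_ge h]
      have h0 : 0 < s := by linarith
      rw [mul_one_div, le_div_iff₀ (by positivity)]
      nlinarith
  · rcases le_total s 1 with h | h
    · have h1 : psi s ≤ 4 := psi_le_four s
      have h2 : 1 ≤ psi s := by rw [← psi_one]; exact psi_anti h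
      have h3 : (1 + s) ^ 2 ≤ 4 := by nlinarith
      nlinarith [mul_nonneg (sub_nonneg.2 h3) (by linarith : (0:ℝ) ≤ psi s)]
    · rw [psi_ge h]
      have h0 : 0 < s := by linarith
      rw [mul_one_div, div_le_iff₀ (by positivity)]
      nlinarith
  · rw [deriv_psi]
    simp only [abs_neg]
    rcases le_total s (1 / 2) with h | h
    · simp [gg, mm_zero h]
    · rw [abs_of_nonneg gg_nonneg]
      have h0 : 0 < s := by linarith
      have h1 := gg_le h
      calc (1 + s) ^ 3 * gg s ≤ (1 + s) ^ 3 * (2 / s ^ 3) := by gcongr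
        _ ≤ (3 * s) ^ 3 * (2 / s ^ 3) := by
            gcongr
            linarith
        _ = 54 := by field_simp; ring

end Pool.Agent.TBG
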