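import Pool.Agent.TBG.Stmts

/-!
# Three-body Bose gases (MP_80dc41_mp), module RAT: the ratio of normalisations
-/

set_option autoImplicit false

open MeasureTheory Filter Topology
open scoped ContDiff

namespace Pool.Agent.TBG

namespace RAT_

theorem aa01 (f : E × E → ℝ) (hf : Jas f) (z : E × E) : 0 ≤ aa f z ∧ aa f z ≤ 1 := by
  unfold aa
  have h1 := hf.half_le z
  have h2 := hf.le_one z
  constructor <;> nlinarith

theorem cont_aa (f : E × E → ℝ) (hf : Jas f) : Continuous (aa f) := by
  unfold aa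
  exact continuous_const.sub (hf.smooth.continuous.pow 2)

theorem cont_tr (N : ℕ) (u : E × E → ℝ) (hu : Continuous u) (i j k : Fin N) :
    Continuous (fun X : Fin N → E => tr u X i j k) := by
  unfold tr
  exact hu.comp (((continuous_apply i).sub (continuous_apply j)).prodMk
    ((continuous_apply i).sub (continuous_apply k)))

end RAT_

theorem rat_proof (hCFD : Stmt_CFD) (hFTB : Stmt_FTB) (hINS : Stmt_INS) (hWPI : Stmt_WPI)
    (hIND : Stmt_IND) (hCRD : Stmt_CRD) : Stmt_RAT := by
  intro N L χ f α η hχ hf hα hα0 hη0 hη1 hcond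
  have hp : IsProbabilityMeasure (nu χ) := (hCFD L χ hχ).1
  have hP : IsProbabilityMeasure (PP χ N) := by unfold PP; infer_instance
  obtain ⟨hsym, hF, hmono, -⟩ := hFTB N f hf
  have hcaa := RAT_.cont_aa f hf
  have htr : ∀ i j k : Fin N, Continuous (fun X : Fin N → E => tr (aa f) X i j k) :=
    RAT_.cont_tr N (aa f) hcaa
  have htr01 : ∀ (X : Fin N → E) (i j k : Fin N), 0 ≤ tr (aa f) X i j k ∧
      tr (aa f) X i j k ≤ 1 := fun X i j k => RAT_.aa01 f hf _
  have hint : ∀ g : (Fin N → E) → ℝ, Continuous g → (∀ X, 0 ≤ g X ∧ g X ≤ 1) →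
      Integrable g (PP χ N) := by
    intro g hg hb
    refine (integrable_const (1 : ℝ)).mono' hg.aestronglyMeasurable (ae_of_all _ fun X => ?_)
    rw [Real.norm_eq_abs, abs_of_nonneg (hb X).1]
    exact (hb X).2
  have hF01 : ∀ (S : Finset (Fin N)) (X : Fin N → E), 0 ≤ F2 f S X ∧ F2 f S X ≤ 1 :=
    fun S X => ⟨((hF S).2.1 X).1.le, ((hF S).2.1 X).2⟩
  have hZ0 : ∀ T : Finset (Fin N), 0 ≤ ZZ f χ T := fun T =>
    integral_nonneg fun X => (hF01 T X).1
  have h1η : 0 < 1 - η := by linarith
  have hmul01 : ∀ (S : Finset (Fin N)) (i j k : Fin N) (X : Fin N → E),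
      0 ≤ F2 f S X * tr (aa f) X i j k ∧ F2 f S X * tr (aa f) X i j k ≤ 1 := by
    intro S i j k X
    refine ⟨mul_nonneg (hF01 S X).1 (htr01 X i j k).1, ?_⟩
    exact mul_le_one₀ (hF01 S X).2 (htr01 X i j k).1 (htr01 X i j k).2
  have hcm : ∀ (S : Finset (Fin N)) (i j k : Fin N),
      Continuous (fun X : Fin N → E => F2 f S X * tr (aa f) X i j k) := fun S i j k =>
    (hF S).1.mul (htr i j k)
  have key : ∀ (n : ℕ) (S : Finset (Fin N)), S.card = n → ∀ i, i ∉ S →
      (1 - η) * ZZ f χ S ≤ ZZ f χ (insert i S) := by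
    intro n
    induction n using Nat.strong_induction_on with
    | _ n ih =>
      intro S hS i hi
      have hpair : ∀ p ∈ prs S, ∫ X, F2 f S X * tr (aa f) X i p.1 p.2 ∂(PP χ N) ≤
          α * (ZZ f χ S / (1 - η) ^ 2) := by
        intro p hpS
        have hp2 := Finset.mem_filter.1 hpS
        have hp3 := Finset.mem_product.1 hp2.1
        have hne : p.1 ≠ p.2 := ne_of_lt hp2.2
        have hi1 : i ≠ p.1 := fun h => hi (h ▸ hp3.1)
        have hi2 : i ≠ p.2 := fun h => hi (h ▸ hp3.2)
        have hm1 : p.2 ∈ S.erase p.1 := Finset.mem_erase.2 ⟨hne.symm, hp3.2⟩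
        have hc1 : (S.erase p.1).card < S.card := Finset.card_erase_lt_of_mem hp3.1
        have hc2 : ((S.erase p.1).erase p.2).card < (S.erase p.1).card :=
          Finset.card_erase_lt_of_mem hm1
        have hI1 := ih _ (by omega) (S.erase p.1) rfl p.1 (Finset.notMem_erase _ _)
        have hI2 := ih _ (by omega) ((S.erase p.1).erase p.2) rfl p.2 (Finset.notMem_erase _ _)
        rw [Finset.insert_erase hp3.1] at hI1
        rw [Finset.insert_erase hm1] at hI2
        have hle : ZZ f χ ((S.erase p.1).erase p.2) ≤ ZZ f χ S / (1 - η) ^ 2 := by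
          rw [le_div_iff₀ (by positivity)]
          have h3 := mul_le_mul_of_nonneg_left hI2 h1η.le
          linarith
        have hsub : (S.erase p.1).erase p.2 ⊆ S :=
          (Finset.erase_subset _ _).trans (Finset.erase_subset _ _)
        have h4 : ∫ X, F2 f S X * tr (aa f) X i p.1 p.2 ∂(PP χ N) ≤
            ∫ X, F2 f ((S.erase p.1).erase p.2) X * tr (aa f) X i p.1 p.2 ∂(PP χ N) :=
          integral_mono (hint _ (hcm _ _ _ _) (hmul01 _ _ _ _))
            (hint _ (hcm _ _ _ _) (hmul01 _ _ _ _))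
            (fun X => mul_le_mul_of_nonneg_right (hmono _ _ X hsub) (htr01 X _ _ _).1)
        have h5 := hIND N L χ ((S.erase p.1).erase p.2) {i, p.1, p.2}
          (fun X => F2 f ((S.erase p.1).erase p.2) X) (fun X => tr (aa f) X i p.1 p.2) hχ (by
            rw [Finset.disjoint_left]
            intro a ha hb
            rw [Finset.mem_insert, Finset.mem_insert, Finset.mem_singleton] at hb
            rcases hb with hb | hb | hb
            · exact hi (hb ▸ hsub ha)
            · rw [hb] at ha
              exact Finset.notMem_erase _ _ (Finset.mem_of_mem_erase ha)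
            · rw [hb] at ha
              exact Finset.notMem_erase _ _ ha)
          (hF _).1.measurable (htr _ _ _).measurable
          (fun X Y h => (hF _).2.2 X Y h)
          (fun X Y h => by
            unfold tr
            rw [h i (by simp), h p.1 (by simp), h p.2 (by simp)])
        rw [h5] at h4
        have h6 := hα i p.1 p.2 hi1 hi2 hne
        calc ∫ X, F2 f S X * tr (aa f) X i p.1 p.2 ∂(PP χ N)
            ≤ ZZ f χ ((S.erase p.1).erase p.2) * ∫ X, tr (aa f) X i p.1 p.2 ∂(PP χ N) := h4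
          _ ≤ ZZ f χ ((S.erase p.1).erase p.2) * α := mul_le_mul_of_nonneg_left h6 (hZ0 _)
          _ ≤ ZZ f χ S / (1 - η) ^ 2 * α := mul_le_mul_of_nonneg_right hle hα0
          _ = α * (ZZ f χ S / (1 - η) ^ 2) := mul_comm _ _
      have hpt : ∀ X : Fin N → E, F2 f S X - ∑ p ∈ prs S, F2 f S X * tr (aa f) X i p.1 p.2 ≤
          F2 f (insert i S) X := by
        intro X
        have h1 := hINS N (fun i j k => (tr f X i j k) ^ 2) S i
          (fun i j k => by simp only [(hsym X i j k).1]) (fun i j k => by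
            simp only [(hsym X i j k).2.1]) hi
        have h2 := (hWPI (Fin N × Fin N) (prs S) (fun p => tr (aa f) X i p.1 p.2)
          (fun p => htr01 X i p.1 p.2)).1
        have h3 : F2 f (insert i S) X = F2 f S X *
            ∏ p ∈ prs S, (1 - tr (aa f) X i p.1 p.2) := by
          unfold F2
          rw [h1]
          refine congrArg _ (Finset.prod_congr rfl fun p _ => ?_)
          unfold tr aa
          ring
        rw [h3, ← Finset.mul_sum]
        have h4 := mul_le_mul_of_nonneg_left h2 (hF01 S X).1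
        linarith
      have hsumint : Integrable (fun X : Fin N → E => ∑ p ∈ prs S, F2 f S X *
          tr (aa f) X i p.1 p.2) (PP χ N) :=
        integrable_finsetSum _ fun p _ => hint _ (hcm _ _ _ _) (hmul01 _ _ _ _)
      have hFi : ∀ T : Finset (Fin N), Integrable (F2 f T) (PP χ N) := fun T =>
        hint _ (hF T).1 (hF01 T)
      have hI : ZZ f χ S - ∑ p ∈ prs S, ∫ X, F2 f S X * tr (aa f) X i p.1 p.2 ∂(PP χ N) ≤
          ZZ f χ (insert i S) := by
        have h1 := integral_mono ((hFi S).sub hsumint) (hFi (insert i S)) hpt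
        have h2 : ∫ X, (F2 f S - fun X => ∑ p ∈ prs S, F2 f S X * tr (aa f) X i p.1 p.2) X
            ∂(PP χ N) = ZZ f χ S -
            ∑ p ∈ prs S, ∫ X, F2 f S X * tr (aa f) X i p.1 p.2 ∂(PP χ N) := by
          rw [integral_sub' (hFi S) hsumint, integral_finsetSum _ fun p _ =>
            hint _ (hcm _ _ _ _) (hmul01 _ _ _ _)]
          rfl
        rw [h2] at h1
        exact h1
      have hcard := hCRD.2 N S
      have hsum : ∑ p ∈ prs S, ∫ X, F2 f S X * tr (aa f) X i p.1 p.2 ∂(PP χ N) ≤
          η * ZZ f χ S := by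
        have hq : 0 ≤ α * (ZZ f χ S / (1 - η) ^ 2) :=
          mul_nonneg hα0 (div_nonneg (hZ0 S) (by positivity))
        calc ∑ p ∈ prs S, ∫ X, F2 f S X * tr (aa f) X i p.1 p.2 ∂(PP χ N)
            ≤ ∑ p ∈ prs S, α * (ZZ f χ S / (1 - η) ^ 2) := Finset.sum_le_sum hpair
          _ = ((prs S).card : ℝ) * (α * (ZZ f χ S / (1 - η) ^ 2)) := by
            rw [Finset.sum_const, nsmul_eq_mul]
          _ ≤ (N : ℝ) ^ 2 / 2 * (α * (ZZ f χ S / (1 - η) ^ 2)) :=
            mul_le_mul_of_nonneg_right hcard hq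
          _ = (N : ℝ) ^ 2 / 2 * α * (ZZ f χ S / (1 - η) ^ 2) := by ring
          _ ≤ η * (1 - η) ^ 2 * (ZZ f χ S / (1 - η) ^ 2) :=
            mul_le_mul_of_nonneg_right hcond (div_nonneg (hZ0 S) (by positivity))
          _ = η * ZZ f χ S := by
            have : (1 - η) ^ 2 ≠ 0 := by positivity
            field_simp
      linarith
  intro S i hi
  exact key S.card S rfl i hi

end Pool.Agent.TBG
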