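import Pool.Agent.TBG.Stmts

/-!
# Scaling of cutoffs
-/

set_option autoImplicit false

open MeasureTheory Filter Topology
open scoped ContDiff

namespace Pool.Agent.TBG

namespace SCU_

lemma dv_scale (L : ℝ) (χ : E → ℝ) (hχ : ContDiff ℝ ∞ χ) (v x : E) :
    dv v (fun x => χ (L⁻¹ • x)) x = L⁻¹ * dv v χ (L⁻¹ • x) := by
  unfold dv
  have h1 : HasFDerivAt (fun x : E => L⁻¹ • x) (L⁻¹ • ContinuousLinearMap.id ℝ E) x :=
    (hasFDerivAt_id x).const_smul L⁻¹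
  have h2 : HasFDerivAt χ (fderiv ℝ χ (L⁻¹ • x)) (L⁻¹ • x) :=
    ((hχ.differentiable (by simp)) (L⁻¹ • x)).hasFDerivAt
  have h3 := h2.comp x h1
  have h4 : fderiv ℝ (fun x => χ (L⁻¹ • x)) x = (fderiv ℝ χ (L⁻¹ • x)).comp (L⁻¹ • ContinuousLinearMap.id ℝ E) :=
    h3.fderiv
  rw [h4]
  simp

lemma int_scale (L : ℝ) (hL : 0 < L) (g : E → ℝ) : ∫ x : E, g (L⁻¹ • x) = L ^ 3 * ∫ x, g x := by
  rw [Measure.integral_comp_inv_smul]
  have : Module.finrank ℝ E = 3 := by simp [E]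
  rw [this, abs_of_pos (pow_pos hL 3), smul_eq_mul]

end SCU_

open SCU_

theorem scu_proof : Stmt_SCU := by
  intro L χ hL hχ
  have hL0 : L ≠ 0 := hL.ne'
  have hvv : vv (fun x => χ (L⁻¹ • x)) = L ^ 3 * vv χ := by
    unfold vv
    exact int_scale L hL (fun x => χ x ^ 2)
  refine ⟨⟨?_, ?_, ?_, ?_, ?_, ?_⟩, hvv, ?_, ?_⟩
  · exact hχ.smooth.comp (contDiff_const_smul L⁻¹)
  · intro x; exact hχ.nonneg _
  · intro x; exact hχ.le_one _
  · exact hχ.cpt.comp_smul (inv_ne_zero hL0)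
  · intro x hx c
    have h1 : L⁻¹ • x ∈ tsupport χ :=
      tsupport_comp_subset_preimage χ (f := fun x : E => L⁻¹ • x) (continuous_const_smul L⁻¹) hx
    have h2 := hχ.supp _ h1 c
    have h3 : (L⁻¹ • x) c = L⁻¹ * x c := by simp
    rw [h3, abs_mul, abs_of_pos (inv_pos.mpr hL)] at h2
    rw [inv_mul_lt_iff₀ hL] at h2
    linarith
  · have h1 := hvv
    unfold vv at h1
    rw [h1]
    exact mul_pos (pow_pos hL 3) hχ.pos
  · intro c
    have h1 : ∀ x : E, (dv (ev c) (fun x => χ (L⁻¹ • x)) x) ^ 2 =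
        (fun y => L⁻¹ ^ 2 * (dv (ev c) χ y) ^ 2) (L⁻¹ • x) := by
      intro x
      rw [dv_scale L χ hχ.smooth]
      ring
    rw [integral_congr_ae (Eventually.of_forall h1),
      int_scale L hL (fun y => L⁻¹ ^ 2 * (dv (ev c) χ y) ^ 2), integral_const_mul]
    field_simp
  · intro c
    have h1 : ∀ x : E, χ (L⁻¹ • x) * |dv (ev c) (fun x => χ (L⁻¹ • x)) x| =
        (fun y => L⁻¹ * (χ y * |dv (ev c) χ y|)) (L⁻¹ • x) := by
      intro x
      rw [dv_scale L χ hχ.smooth, abs_mul, abs_of_pos (inv_pos.mpr hL)]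
      ring
    rw [integral_congr_ae (Eventually.of_forall h1),
      int_scale L hL (fun y => L⁻¹ * (χ y * |dv (ev c) χ y|)), integral_const_mul]
    field_simp

end Pool.Agent.TBG
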