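import Pool.Agent.TBG.Stmts

set_option autoImplicit false

open MeasureTheory Filter Topology
open scoped ContDiff

namespace Pool.Agent.TBG

namespace TDL_

/-- the integrand -/
noncomputable def gg (δ v : ℝ) : ℝ := Real.smoothTransition (v / δ - 1)

theorem gg_contDiff (δ : ℝ) : ContDiff ℝ ∞ (gg δ) := by
  unfold gg
  exact Real.smoothTransition.contDiff.comp ((contDiff_id.div_const δ).sub contDiff_const)

theorem gg_cont (δ : ℝ) : Continuous (gg δ) := (gg_contDiff δ).continuous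

theorem gg_nonneg (δ v : ℝ) : 0 ≤ gg δ v := Real.smoothTransition.nonneg _

theorem gg_le_one (δ v : ℝ) : gg δ v ≤ 1 := Real.smoothTransition.le_one _

theorem gg_zero {δ v : ℝ} (hδ : 0 < δ) (h : v ≤ δ) : gg δ v = 0 := by
  apply Real.smoothTransition.zero_of_nonpos
  have : v / δ ≤ 1 := (div_le_one hδ).2 h
  linarith

theorem gg_one {δ v : ℝ} (hδ : 0 < δ) (h : 2 * δ ≤ v) : gg δ v = 1 := by
  apply Real.smoothTransition.one_of_one_le
  have : 2 ≤ v / δ := (le_div_iff₀ hδ).2 h
  linarith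

theorem gg_mono {δ : ℝ} (hδ : 0 < δ) : Monotone (gg δ) := by
  intro a b hab
  apply Real.smoothTransition.monotone
  have : a / δ ≤ b / δ := div_le_div_of_nonneg_right hab hδ.le
  linarith

theorem Td_hasDeriv (δ u : ℝ) : HasDerivAt (Td δ) (gg δ u) u := by
  unfold Td
  exact intervalIntegral.integral_hasDerivAt_right ((gg_cont δ).intervalIntegrable _ _)
    ((gg_cont δ).stronglyMeasurableAtFilter _ _) (gg_cont δ).continuousAt

theorem Td_deriv (δ : ℝ) : deriv (Td δ) = gg δ := funext fun u => (Td_hasDeriv δ u).deriv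

theorem Td_contDiff (δ : ℝ) : ContDiff ℝ ∞ (Td δ) := by
  rw [contDiff_infty_iff_deriv]
  refine ⟨fun u => (Td_hasDeriv δ u).differentiableAt, ?_⟩
  rw [Td_deriv]
  exact gg_contDiff δ

theorem Td_zero {δ u : ℝ} (hδ : 0 < δ) (h : u ≤ δ) : Td δ u = 0 := by
  unfold Td
  rw [intervalIntegral.integral_congr (g := fun _ => (0 : ℝ)) ?_]
  · simp
  intro v hv
  have hv2 : v ≤ max 0 u := (Set.mem_uIcc.1 hv).elim (fun h => h.2.trans (le_max_right _ _))
    (fun h => h.2.trans (le_max_left _ _))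
  exact gg_zero hδ (hv2.trans (max_le hδ.le h))

theorem Td_bounds {δ u : ℝ} (hδ : 0 < δ) (hu : 0 ≤ u) :
    0 ≤ Td δ u ∧ Td δ u ≤ u ∧ u - 2 * δ ≤ Td δ u := by
  have h0 : 0 ≤ Td δ u := by
    unfold Td
    exact intervalIntegral.integral_nonneg hu fun v _ => gg_nonneg δ v
  have h1 : Td δ u ≤ u := by
    have : Td δ u ≤ ∫ _ in (0 : ℝ)..u, (1 : ℝ) := by
      unfold Td
      exact intervalIntegral.integral_mono_on hu ((gg_cont δ).intervalIntegrable _ _)
        (by simp) fun v _ => gg_le_one δ v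
    simpa using this
  refine ⟨h0, h1, ?_⟩
  rcases le_total u (2 * δ) with h | h
  · linarith
  have h2 : Td δ u = (∫ v in (0 : ℝ)..(2 * δ), gg δ v) + ∫ v in (2 * δ)..u, gg δ v := by
    unfold Td
    exact (intervalIntegral.integral_add_adjacent_intervals
      ((gg_cont δ).intervalIntegrable _ _) ((gg_cont δ).intervalIntegrable _ _)).symm
  have h3 : ∫ v in (2 * δ)..u, gg δ v = u - 2 * δ := by
    rw [intervalIntegral.integral_congr (g := fun _ => (1 : ℝ)) ?_]
    · simp
    intro v hv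
    rw [Set.uIcc_of_le h] at hv
    exact gg_one hδ hv.1
  have h4 : 0 ≤ ∫ v in (0 : ℝ)..(2 * δ), gg δ v :=
    intervalIntegral.integral_nonneg (by linarith) fun v _ => gg_nonneg δ v
  linarith

theorem gg_deriv_nonneg {δ : ℝ} (hδ : 0 < δ) (u : ℝ) : 0 ≤ deriv (gg δ) u :=
  (gg_mono hδ).deriv_nonneg

theorem gg_deriv_zero {δ u : ℝ} (hδ : 0 < δ) (h : u < δ ∨ 2 * δ < u) : deriv (gg δ) u = 0 := by
  rcases h with h | h
  · have e : gg δ =ᶠ[𝓝 u] fun _ => (0 : ℝ) := by
      filter_upwards [Iio_mem_nhds h] with v hv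
      exact gg_zero hδ (le_of_lt hv)
    rw [e.deriv_eq]; simp
  · have e : gg δ =ᶠ[𝓝 u] fun _ => (1 : ℝ) := by
      filter_upwards [Ioi_mem_nhds h] with v hv
      exact gg_one hδ (le_of_lt hv)
    rw [e.deriv_eq]; simp

theorem gg_deriv {δ : ℝ} (hδ : 0 < δ) (u : ℝ) :
    δ * deriv (gg δ) u = deriv Real.smoothTransition (u / δ - 1) := by
  have h1 : HasDerivAt Real.smoothTransition (deriv Real.smoothTransition (u / δ - 1)) (u / δ - 1) :=
    ((Real.smoothTransition.contDiff (n := ⊤)).differentiable (by simp) _).hasDerivAt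
  have h2 : HasDerivAt (fun v : ℝ => v / δ - 1) (1 / δ) u := ((hasDerivAt_id u).div_const δ).sub_const 1
  have h3 := h1.comp u h2
  have h4 : deriv (gg δ) u = deriv Real.smoothTransition (u / δ - 1) * (1 / δ) := h3.deriv
  rw [h4]
  field_simp

theorem smooth_bdd : ∃ C : ℝ, ∀ t : ℝ, deriv Real.smoothTransition t ≤ C := by
  have hc : Continuous (deriv Real.smoothTransition) :=
    (Real.smoothTransition.contDiff (n := ⊤)).continuous_deriv (by simp)
  obtain ⟨x, _, hx⟩ := (isCompact_Icc (a := (0 : ℝ)) (b := 1)).exists_isMaxOn ⟨0, by simp⟩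
    hc.continuousOn
  refine ⟨max (deriv Real.smoothTransition x) 0, fun t => ?_⟩
  by_cases ht : t ∈ Set.Icc (0 : ℝ) 1
  · exact (hx ht).trans (le_max_left _ _)
  · have : deriv Real.smoothTransition t = 0 := by
      by_cases h0 : t < 0
      · have e : Real.smoothTransition =ᶠ[𝓝 t] fun _ => (0 : ℝ) := by
          filter_upwards [Iio_mem_nhds h0] with v hv
          exact Real.smoothTransition.zero_of_nonpos (le_of_lt hv)
        rw [e.deriv_eq]; simp
      · have h1 : 1 < t := by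
          by_contra h
          exact ht ⟨not_lt.1 h0, not_lt.1 h⟩
        have e : Real.smoothTransition =ᶠ[𝓝 t] fun _ => (1 : ℝ) := by
          filter_upwards [Ioi_mem_nhds h1] with v hv
          exact Real.smoothTransition.one_of_one_le (le_of_lt hv)
        rw [e.deriv_eq]; simp
    rw [this]
    exact le_max_right _ _

end TDL_

open TDL_ in
theorem TDL_proof : Stmt_TDL := by
  refine ⟨fun δ hδ => ⟨Td_contDiff δ, fun u => by rw [Td_deriv]; rfl, fun u hu => Td_zero hδ hu,
    fun u hu => Td_bounds hδ hu, fun u => ?_, fun u hu => ?_⟩, ?_⟩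
  · rw [Td_deriv]; exact gg_deriv_nonneg hδ u
  · rw [Td_deriv]; exact gg_deriv_zero hδ hu
  · obtain ⟨C, hC⟩ := smooth_bdd
    refine ⟨C, fun δ hδ u => ?_⟩
    rw [Td_deriv, gg_deriv hδ]
    exact hC _

end Pool.Agent.TBG
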