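import Pool.Agent.TBG.Stmts

/-!
# Module THE: the filter of the thermodynamic limit
-/

set_option autoImplicit false

open MeasureTheory Filter Topology
open scoped ContDiff

namespace Pool.Agent.TBG

namespace THE_

theorem pos (ρ : ℝ) : ∀ᶠ p in thermo ρ, 0 < p.2 := by
  have h : thermo ρ ≤ 𝓟 {p : ℕ × ℝ | 0 < p.2} := inf_le_right
  exact h (mem_principal_self _)

theorem fst (ρ : ℝ) : Tendsto (fun p : ℕ × ℝ => (p.1 : ℝ)) (thermo ρ) atTop := by
  have h : thermo ρ ≤ comap Prod.fst atTop := inf_le_left.trans inf_le_left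
  exact tendsto_natCast_atTop_atTop.comp (tendsto_comap.mono_left h)

theorem rat (ρ : ℝ) : Tendsto (fun p : ℕ × ℝ => (p.1 : ℝ) / p.2 ^ 3) (thermo ρ) (𝓝 ρ) := by
  have h : thermo ρ ≤ comap (fun p : ℕ × ℝ => (p.1 : ℝ) / p.2 ^ 3) (𝓝 ρ) :=
    inf_le_left.trans inf_le_right
  exact tendsto_comap.mono_left h

theorem snd (ρ : ℝ) (hρ : 0 < ρ) : Tendsto (fun p : ℕ × ℝ => p.2) (thermo ρ) atTop := by
  have h1 : Tendsto (fun p : ℕ × ℝ => (p.1 : ℝ) * ((p.1 : ℝ) / p.2 ^ 3)⁻¹) (thermo ρ) atTop :=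
    (fst ρ).atTop_mul_pos (inv_pos.2 hρ) ((rat ρ).inv₀ hρ.ne')
  rw [tendsto_atTop]
  intro b
  have h2 := h1.eventually (eventually_ge_atTop (max b 1 ^ 3))
  have h3 := (fst ρ).eventually (eventually_gt_atTop (0 : ℝ))
  filter_upwards [h2, h3, pos ρ] with p hp2 hp3 hp4
  have h5 : (p.1 : ℝ) * ((p.1 : ℝ) / p.2 ^ 3)⁻¹ = p.2 ^ 3 := by
    rw [inv_div]
    field_simp
  rw [h5] at hp2
  by_contra hlt
  rw [not_le] at hlt
  have h6 : p.2 < max b 1 := lt_of_lt_of_le hlt (le_max_left _ _)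
  have h7 : p.2 ^ 3 < max b 1 ^ 3 := pow_lt_pow_left₀ h6 hp4.le (by norm_num)
  exact absurd hp2 (not_le.2 h7)

theorem neBot (ρ : ℝ) (hρ : 0 < ρ) : (thermo ρ).NeBot := by
  have hev : ∀ᶠ N : ℕ in atTop, 0 < ((N : ℝ) / ρ) ^ ((1 : ℝ) / 3) := by
    filter_upwards [eventually_gt_atTop 0] with N hN
    have : (0 : ℝ) < N := by exact_mod_cast hN
    positivity
  have hT : Tendsto (fun N : ℕ => ((N, ((N : ℝ) / ρ) ^ ((1 : ℝ) / 3)) : ℕ × ℝ)) atTop
      (thermo ρ) := by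
    unfold thermo
    refine tendsto_inf.2 ⟨tendsto_inf.2 ⟨tendsto_comap_iff.2 ?_, tendsto_comap_iff.2 ?_⟩,
      tendsto_principal.2 ?_⟩
    · exact tendsto_id
    · refine Tendsto.congr' ?_ tendsto_const_nhds
      filter_upwards [eventually_gt_atTop 0] with N hN
      have hN' : (0 : ℝ) < N := by exact_mod_cast hN
      have h1 : (((N : ℝ) / ρ) ^ ((1 : ℝ) / 3)) ^ 3 = (N : ℝ) / ρ := by
        rw [← Real.rpow_natCast, ← Real.rpow_mul (by positivity)]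
        norm_num
      simp only [Function.comp]
      rw [h1]
      field_simp
    · exact hev
  exact hT.neBot

end THE_

theorem the_proof : Stmt_THE := by
  intro ρ hρ
  exact ⟨THE_.neBot ρ hρ, THE_.fst ρ, THE_.snd ρ hρ, THE_.rat ρ, THE_.pos ρ⟩

end Pool.Agent.TBG
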