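import Pool.Agent.TBG.Stmts

/-!
# Three-body Bose gases (MP_80dc41_mp): module TRI, upper bound of the ground state energy by a real trial function
-/

set_option autoImplicit false

open MeasureTheory Filter Topology
open scoped ContDiff

namespace Pool.Agent.TBG

namespace TRI_

theorem pot_nonneg {N : ℕ} {V : E → E → ℝ} (hV : Admissible V) (X : Fin N → E) : 0 ≤ pot V X := by
  unfold pot
  refine Finset.sum_nonneg fun i _ => Finset.sum_nonneg fun j _ => Finset.sum_nonneg fun k _ => ?_
  split_ifs
  · exact hV.nonneg _ _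
  · exact le_rfl

theorem energy_nonneg {N : ℕ} {V : E → E → ℝ} (hV : Admissible V) (L : ℝ) (Ψ : (Fin N → E) → ℂ)
    (G : Fin N → Fin 3 → (Fin N → E) → ℂ) : 0 ≤ energy V N L Ψ G := by
  unfold energy
  refine integral_nonneg fun X => ?_
  exact add_nonneg (Finset.sum_nonneg fun i _ => Finset.sum_nonneg fun c _ => by positivity)
    (mul_nonneg (pot_nonneg hV X) (by positivity))

theorem dv_zero {N : ℕ} {Ψ : (Fin N → E) → ℝ} {X : Fin N → E} (h : X ∉ tsupport Ψ) (v : Fin N → E) :
    dv v Ψ X = 0 := by
  unfold dv
  have : X ∉ tsupport (fderiv ℝ Ψ) := fun h' => h (tsupport_fderiv_subset ℝ h')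
  have h2 : fderiv ℝ Ψ X = 0 := image_eq_zero_of_notMem_tsupport this
  simp [h2]

end TRI_

open TRI_ in
/-- upper bound of the ground state energy by a real smooth trial function -/
theorem tri_proof (hIBP : Stmt_IBP) : Stmt_TRI := by
  intro N L V Ψ hV hΨ hc hsub hsym hI
  set I : ℝ := ∫ X, Ψ X ^ 2 with hIdef
  set s : ℝ := (Real.sqrt I)⁻¹ with hs
  have hs2 : s ^ 2 * I = 1 := by
    rw [hs, inv_pow, Real.sq_sqrt hI.le]
    exact inv_mul_cancel₀ hI.ne'
  have hz : ∀ X, X ∉ box N L → Ψ X = 0 := fun X hX =>
    image_eq_zero_of_notMem_tsupport (fun h => hX (hsub h))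
  have hdz : ∀ X, X ∉ box N L → ∀ v, dv v Ψ X = 0 := fun X hX v =>
    dv_zero (fun h => hX (hsub h)) v
  have hcd : ∀ v, Continuous (fun X => dv v Ψ X) := fun v =>
    (hΨ.continuous_fderiv (by simp)).clm_apply continuous_const
  have hcs : ∀ v, HasCompactSupport (fun X => dv v Ψ X) := fun v => hc.fderiv_apply (𝕜 := ℝ) v
  set Φ : (Fin N → E) → ℂ := fun X => ((Ψ X * s : ℝ) : ℂ) with hΦ
  set G : Fin N → Fin 3 → (Fin N → E) → ℂ := fun i c X => ((dv (dir i c) Ψ X * s : ℝ) : ℂ) with hG
  have htrial : IsTrial N L Φ G := by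
    refine ⟨?_, ?_, ?_, ?_, ?_⟩
    · refine MemLp.restrict _ ?_
      refine Continuous.memLp_of_hasCompactSupport ?_ ?_
      · exact Complex.continuous_ofReal.comp (hΨ.continuous.mul continuous_const)
      · exact (hc.mul_right (f' := fun _ => s)).comp_left (g := fun x : ℝ => (x : ℂ)) (by simp)
    · intro i c
      refine MemLp.restrict _ ?_
      refine Continuous.memLp_of_hasCompactSupport ?_ ?_
      · exact Complex.continuous_ofReal.comp ((hcd _).mul continuous_const)
      · exact ((hcs (dir i c)).mul_right (f' := fun _ => s)).comp_left (g := fun x : ℝ => (x : ℂ)) (by simp)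
    · intro i c η hη hηc _
      rw [setIntegral_eq_integral_of_forall_compl_eq_zero, setIntegral_eq_integral_of_forall_compl_eq_zero]
      · have hib := (hIBP (Fin N → E) volume Ψ η (dir i c) (hΨ.of_le (by simp)) (hη.of_le (by simp)) hc).2
        have e1 : ∀ X : Fin N → E, Φ X * ((fderiv ℝ η X (dir i c) : ℝ) : ℂ) =
            ((s * (Ψ X * dv (dir i c) η X) : ℝ) : ℂ) := by
          intro X
          simp only [hΦ, dv]
          push_cast
          ring
        have e2 : ∀ X : Fin N → E, G i c X * ((η X : ℝ) : ℂ) =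
            ((s * (dv (dir i c) Ψ X * η X) : ℝ) : ℂ) := by
          intro X
          simp only [hG]
          push_cast
          ring
        simp only [e1, e2]
        rw [integral_complex_ofReal, integral_complex_ofReal, integral_const_mul, integral_const_mul, hib]
        push_cast
        ring
      · intro X hX
        simp only [hG, hdz X hX, zero_mul, Complex.ofReal_zero]
      · intro X hX
        simp only [hΦ, hz X hX, zero_mul, Complex.ofReal_zero]
    · intro σ
      refine Eventually.of_forall fun X => ?_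
      simp only [hΦ, hsym σ X]
    · rw [setIntegral_eq_integral_of_forall_compl_eq_zero]
      · have e : ∀ X : Fin N → E, ‖Φ X‖ ^ 2 = s ^ 2 * Ψ X ^ 2 := by
          intro X
          simp only [hΦ, Complex.norm_real, Real.norm_eq_abs, sq_abs]
          ring
        simp only [e]
        rw [integral_const_mul]
        exact hs2
      · intro X hX
        simp [hΦ, hz X hX]
  have hen : energy V N L Φ G = s ^ 2 * enR V Ψ := by
    unfold energy enR
    rw [setIntegral_eq_integral_of_forall_compl_eq_zero]
    · rw [← integral_const_mul]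
      refine integral_congr_ae (Eventually.of_forall fun X => ?_)
      simp only [hΦ, hG, Complex.norm_real, Real.norm_eq_abs, sq_abs]
      rw [mul_add, Finset.mul_sum]
      congr 1
      · refine Finset.sum_congr rfl fun i _ => ?_
        rw [Finset.mul_sum]
        refine Finset.sum_congr rfl fun c _ => ?_
        ring
      · ring
    · intro X hX
      simp [hΦ, hG, hz X hX, hdz X hX]
  have hle : E0 V N L ≤ energy V N L Φ G := by
    refine csInf_le ⟨0, ?_⟩ ⟨Φ, G, htrial, rfl⟩
    rintro e ⟨Ψ', G', _, rfl⟩
    exact energy_nonneg hV L Ψ' G'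
  calc E0 V N L * I ≤ energy V N L Φ G * I := mul_le_mul_of_nonneg_right hle hI.le
    _ = (s ^ 2 * I) * enR V Ψ := by rw [hen]; ring
    _ = enR V Ψ := by rw [hs2, one_mul]

end Pool.Agent.TBG
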