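import Pool.Agent.TBG.Stmts

/-! # VCU: measure of the cube -/

set_option autoImplicit false

open MeasureTheory Filter Topology

namespace Pool.Agent.TBG

namespace VCU_

theorem preim (r : ℝ) : (MeasurableEquiv.toLp 2 (Fin 3 → ℝ)) ⁻¹' {x : E | ∀ c, |x c| ≤ r}
    = Set.pi Set.univ (fun _ : Fin 3 => Set.Icc (-r) r) := by
  ext x
  constructor
  · intro h c _
    exact abs_le.mp (h c)
  · intro h c
    exact abs_le.mpr (h c (Set.mem_univ c))

end VCU_

open VCU_ in
theorem VCU_proof : Stmt_VCU := by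
  intro r hr
  have hm : MeasurableSet {x : E | ∀ c, |x c| ≤ r} := by
    have h : MeasurableSet ((MeasurableEquiv.toLp 2 (Fin 3 → ℝ)) ⁻¹' {x : E | ∀ c, |x c| ≤ r}) := by
      rw [preim]
      exact MeasurableSet.univ_pi (fun _ => measurableSet_Icc)
    exact (MeasurableEquiv.measurableSet_preimage _).mp h
  refine ⟨hm, ?_⟩
  have hp := (EuclideanSpace.volume_preserving_symm_measurableEquiv_toLp (Fin 3)).symm
  have h1 := hp.measure_preimage hm.nullMeasurableSet
  rw [← h1]
  have h2 : (MeasurableEquiv.toLp 2 (Fin 3 → ℝ)).symm.symm ⁻¹' {x : E | ∀ c, |x c| ≤ r}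
    = Set.pi Set.univ (fun _ : Fin 3 => Set.Icc (-r) r) := preim r
  rw [h2, volume_pi_pi]
  simp only [Real.volume_Icc, Finset.prod_const, Finset.card_univ, Fintype.card_fin]
  rw [← ENNReal.ofReal_pow (by linarith)]
  congr 1
  ring

end Pool.Agent.TBG
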