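import Pool.Agent.TBG.Stmts

/-!
# TBG, module WPI: the first two Bonferroni inequalities
-/

set_option autoImplicit false

open MeasureTheory Filter Topology
open scoped ContDiff

namespace Pool.Agent.TBG

theorem wpi_proof : Stmt_WPI := by
  intro ι _ s a ha
  have hD : ∀ t : Finset ι, ∑ i ∈ t, ∑ j ∈ t.erase i, a i * a j =
      (∑ i ∈ t, a i) ^ 2 - ∑ i ∈ t, a i ^ 2 := by
    intro t
    have h1 : ∀ i ∈ t, ∑ j ∈ t.erase i, a i * a j = a i * (∑ j ∈ t, a j) - a i ^ 2 := by
      intro i hi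
      rw [← Finset.mul_sum, Finset.sum_erase_eq_sub hi]
      ring
    rw [Finset.sum_congr rfl h1, Finset.sum_sub_distrib, ← Finset.sum_mul]
    ring
  rw [hD]
  have hP : ∀ t : Finset ι, 0 ≤ ∏ i ∈ t, (1 - a i) := fun t =>
    Finset.prod_nonneg fun i _ => sub_nonneg.2 (ha i).2
  have hS : ∀ t : Finset ι, 0 ≤ ∑ i ∈ t, a i := fun t => Finset.sum_nonneg fun i _ => (ha i).1
  induction s using Finset.induction_on with
  | empty => simp
  | insert b s hb ih =>
    obtain ⟨ih1, ih2⟩ := ih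
    rw [Finset.prod_insert hb, Finset.sum_insert hb, Finset.sum_insert hb]
    obtain ⟨h0, h1⟩ := ha b
    have h2 := hS s
    have h3 := hP s
    constructor
    · nlinarith [mul_nonneg h0 h2, mul_nonneg (sub_nonneg.2 h1) (sub_nonneg.2 ih1)]
    · nlinarith [mul_nonneg h0 (sub_nonneg.2 ih1)]

end Pool.Agent.TBG
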