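import Pool.Agent.TBG.IBP
import Pool.Agent.TBG.IMS
import Pool.Agent.TBG.LPC
import Pool.Agent.TBG.LTR
import Pool.Agent.TBG.LSU
import Pool.Agent.TBG.GRD
import Pool.Agent.TBG.INT
import Pool.Agent.TBG.INS
import Pool.Agent.TBG.INP
import Pool.Agent.TBG.CRD
import Pool.Agent.TBG.PRM
import Pool.Agent.TBG.WPI
import Pool.Agent.TBG.FTB
import Pool.Agent.TBG.GAI
import Pool.Agent.TBG.LOW
import Pool.Agent.TBG.CFD
import Pool.Agent.TBG.IND
import Pool.Agent.TBG.OUT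
import Pool.Agent.TBG.LAW
import Pool.Agent.TBG.ETW
import Pool.Agent.TBG.EFL
import Pool.Agent.TBG.EFU
import Pool.Agent.TBG.ESU
import Pool.Agent.TBG.RAT
import Pool.Agent.TBG.KAF
import Pool.Agent.TBG.EXB
import Pool.Agent.TBG.LAM
import Pool.Agent.TBG.ERR
import Pool.Agent.TBG.DTR
import Pool.Agent.TBG.DUX
import Pool.Agent.TBG.DCC
import Pool.Agent.TBG.ENG
import Pool.Agent.TBG.TRI
import Pool.Agent.TBG.EUB
import Pool.Agent.TBG.NBF
import Pool.Agent.TBG.CUT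
import Pool.Agent.TBG.SCU
import Pool.Agent.TBG.VCU
import Pool.Agent.TBG.THE
import Pool.Agent.TBG.NLE
import Pool.Agent.TBG.NBL
import Pool.Agent.TBG.TDL
import Pool.Agent.TBG.FDJ
import Pool.Agent.TBG.ADM
import Pool.Agent.TBG.KPO
import Pool.Agent.TBG.KIN
import Pool.Agent.TBG.BUP
import Pool.Agent.TBG.BLD
import Pool.Agent.TBG.BER
import Pool.Agent.TBG.BME
import Pool.Agent.TBG.DIN
import Pool.Agent.TBG.ABD
import Pool.Agent.TBG.GLI
import Pool.Agent.TBG.GAS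
import Pool.Agent.TBG.PSI
import Pool.Agent.TBG.QFO
import Pool.Agent.TBG.HHB
import Pool.Agent.TBG.FAS
import Pool.Agent.TBG.FAM
import Pool.Agent.TBG.FAW
import Pool.Agent.TBG.FAG
import Pool.Agent.TBG.SCL
import Pool.Agent.TBG.EXI
import Pool.Agent.TBG.CONC
import Pool.Agent.TBG.FIN

/-!
# Three-body Bose gases (MP_80dc41_mp): assembly
-/

set_option autoImplicit false

namespace Pool.Agent.TBG

theorem q_ibp : Stmt_IBP := ibp_proof
theorem q_ims : Stmt_IMS := ims_proof q_ibp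
theorem q_lpc : Stmt_LPC := lpc_proof
theorem q_ltr : Stmt_LTR := LTR_proof
theorem q_lsu : Stmt_LSU := lsu_proof
theorem q_grd : Stmt_GRD := grd_proof q_ibp
theorem q_int : Stmt_INT := int_proof
theorem q_ins : Stmt_INS := ins_proof
theorem q_inp : Stmt_INP := inp_proof
theorem q_crd : Stmt_CRD := crd_proof
theorem q_prm : Stmt_PRM := prm_proof
theorem q_wpi : Stmt_WPI := wpi_proof
theorem q_ftb : Stmt_FTB := ftb_proof
theorem q_gai : Stmt_GAI := gai_proof q_ftb q_ins q_inp q_wpi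
theorem q_low : Stmt_LOW := low_proof q_ftb q_ins q_wpi
theorem q_cfd : Stmt_CFD := cfd_proof
theorem q_ind : Stmt_IND := ind_proof q_cfd
theorem q_out : Stmt_OUT := out_proof q_cfd
theorem q_law : Stmt_LAW := law_proof q_cfd
theorem q_etw : Stmt_ETW := etw_proof q_cfd q_law
theorem q_efl : Stmt_EFL := efl_proof q_cfd q_out q_law
theorem q_efu : Stmt_EFU := efu_proof q_cfd q_out q_law q_etw
theorem q_esu : Stmt_ESU := esu_proof q_cfd q_out q_law
theorem q_rat : Stmt_RAT := rat_proof q_cfd q_ftb q_ins q_wpi q_ind q_crd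
theorem q_kaf : Stmt_KAF := kaf_proof q_lpc
theorem q_exb : Stmt_EXB := exb_proof q_cfd q_ftb q_gai q_low q_ind q_crd q_kaf
theorem q_lam : Stmt_LAM := lam_proof q_cfd
theorem q_err : Stmt_ERR := err_proof q_cfd q_ftb q_ind q_law q_etw q_lam
theorem q_dtr : Stmt_DTR := dtr_proof
theorem q_dux : Stmt_DUX := dux_proof q_dtr q_lpc
theorem q_dcc : Stmt_DCC := dcc_proof q_lam
theorem q_eng : Stmt_ENG := eng_proof q_ims q_dux q_dcc q_kaf q_ftb
theorem q_tri : Stmt_TRI := tri_proof q_ibp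
theorem q_eub : Stmt_EUB := eub_proof q_eng q_tri q_cfd q_dux q_dcc q_ftb q_kaf q_etw q_lam q_law q_prm
theorem q_nbf : Stmt_NBF := nbf_proof q_cfd q_eub q_exb q_err q_rat q_etw q_efl q_efu q_esu q_kaf q_crd q_ftb
theorem q_vcu : Stmt_VCU := VCU_proof
theorem q_cut : Stmt_CUT := cut_proof q_vcu
theorem q_scu : Stmt_SCU := scu_proof
theorem q_the : Stmt_THE := the_proof
theorem q_nle : Stmt_NLE := nle_proof q_nbf q_scu q_vcu q_the q_kaf
theorem q_nbl : Stmt_NBL := nbl_proof q_nle q_cut q_kaf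
theorem q_tdl : Stmt_TDL := TDL_proof
theorem q_fdj : Stmt_FDJ := fdj_proof q_tdl
theorem q_adm : Stmt_ADM := adm_proof q_ltr
theorem q_kpo : Stmt_KPO := kpo_proof q_tdl q_lpc q_adm q_fdj q_lsu
theorem q_kin : Stmt_KIN := kin_proof q_ibp q_fdj q_adm q_kpo q_kaf
theorem q_bup : Stmt_BUP := bup_proof q_grd q_fdj q_adm q_kin q_lsu
theorem q_bld : Stmt_BLD := bld_proof q_grd q_fdj q_adm q_kpo q_kin q_lsu
theorem q_ber : Stmt_BER := ber_proof q_tdl q_kpo q_adm q_int q_fdj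
theorem q_bme : Stmt_BME := bme_proof q_bup q_bld q_ber q_adm q_grd
theorem q_din : Stmt_DIN := din_proof q_tdl q_fdj q_int
theorem q_abd : Stmt_ABD := abd_proof q_fdj q_int
theorem q_gli : Stmt_GLI := gli_proof q_tdl q_fdj q_adm q_kpo q_kaf q_int
theorem q_gas : Stmt_GAS := gas_proof q_nbl q_fdj q_adm q_kpo q_kin q_din q_abd q_gli q_kaf
theorem q_psi : Stmt_PSI := psi_proof
theorem q_qfo : Stmt_QFO := qfo_proof
theorem q_hhb : Stmt_HHB := hhb_proof q_lpc q_psi q_qfo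
theorem q_fas : Stmt_FAS := fas_proof q_hhb q_qfo
theorem q_fam : Stmt_FAM := fam_proof q_hhb q_fas q_ltr q_lsu q_qfo
theorem q_faw : Stmt_FAW := faw_proof q_hhb q_ltr q_lsu
theorem q_fag : Stmt_FAG := fag_proof q_hhb q_fas q_fam q_faw q_qfo q_int
theorem q_scl : Stmt_SCL := scl_proof q_ltr
theorem q_exi : Stmt_EXI := exi_proof q_fam q_faw q_fag q_scl q_hhb
theorem q_con : Stmt_CON := con_proof q_the
theorem main : MainStatement := fin_proof q_con q_exi q_gas q_bme q_adm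

end Pool.Agent.TBG
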