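import Pool.Agent.TBG.Stmts

set_option autoImplicit false

open MeasureTheory Filter Topology
open scoped ContDiff

namespace Pool.Agent.TBG

namespace CUT_

/-- closed cube -/
def cube (r : ℝ) : Set E := {x : E | ∀ c, |x c| ≤ r}

theorem coord_cont (c : Fin 3) : Continuous fun x : E => |x c| :=
  continuous_abs.comp (PiLp.continuous_apply 2 _ c)

theorem cube_closed (r : ℝ) : IsClosed (cube r) := by
  have : cube r = ⋂ c, {x : E | |x c| ≤ r} := by
    ext x; simp [cube]
  rw [this]
  exact isClosed_iInter fun c => isClosed_le (coord_cont c) continuous_const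

theorem cube_compact {r : ℝ} (hr : r ≤ 1 / 2) : IsCompact (cube r) := by
  refine Metric.isCompact_of_isClosed_isBounded (cube_closed r) ?_
  refine (Metric.isBounded_closedBall (x := (0 : E)) (r := 1)).subset ?_
  intro x hx
  rw [mem_closedBall_zero_iff]
  have h1 : ‖x‖ ^ 2 ≤ 1 := by
    rw [EuclideanSpace.norm_sq_eq, Fin.sum_univ_three]
    have h2 : ∀ c, ‖x c‖ ^ 2 ≤ 1 / 4 := by
      intro c
      have h3 : ‖x c‖ ≤ 1 / 2 := (hx c).trans hr
      have h4 := norm_nonneg (x c)
      nlinarith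
    linarith [h2 0, h2 1, h2 2]
  nlinarith [norm_nonneg x]

theorem ocube_open (r : ℝ) : IsOpen {x : E | ∀ c, |x c| < r} := by
  have : {x : E | ∀ c, |x c| < r} = ⋂ c, {x : E | |x c| < r} := by
    ext x; simp
  rw [this]
  exact isOpen_iInter_of_finite fun c => isOpen_lt (coord_cont c) continuous_const

end CUT_

theorem cut_proof (h1 : Stmt_VCU) : Stmt_CUT := by
  intro ε hε hε1
  have hKU : CUT_.cube ((1 - ε) / 2) ⊆ {x : E | ∀ c, |x c| < (1 - ε / 2) / 2} := by
    intro x hx c
    exact lt_of_le_of_lt (hx c) (by linarith)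
  obtain ⟨f, f_diff, f_range, f_supp, f_one⟩ :=
    exists_contMDiff_support_eq_eq_one_iff (n := ⊤) (modelWithCornersSelf ℝ E)
      (CUT_.ocube_open ((1 - ε / 2) / 2)) (CUT_.cube_closed ((1 - ε) / 2)) hKU
  have hf0 : ∀ x, 0 ≤ f x := fun x => (f_range (Set.mem_range_self x)).1
  have hf1 : ∀ x, f x ≤ 1 := fun x => (f_range (Set.mem_range_self x)).2
  have hts : tsupport f ⊆ CUT_.cube ((1 - ε / 2) / 2) := by
    refine closure_minimal ?_ (CUT_.cube_closed _)
    rw [f_supp]
    intro x hx c
    exact (hx c).le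
  have hcs : HasCompactSupport f :=
    (CUT_.cube_compact (by linarith)).of_isClosed_subset (isClosed_tsupport f) hts
  have hsm : ContDiff ℝ ∞ f := contMDiff_iff_contDiff.1 f_diff
  have hint : Integrable (fun x => f x ^ 2) := by
    refine (hsm.continuous.pow 2).integrable_of_hasCompactSupport ?_
    exact hcs.comp_left (g := fun t : ℝ => t ^ 2) (by norm_num)
  have hvol : ∀ r : ℝ, 0 ≤ r → ∫ x, (CUT_.cube r).indicator (fun _ => (1 : ℝ)) x = (2 * r) ^ 3 := by
    intro r hr
    obtain ⟨hm, hv⟩ := h1 r hr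
    rw [integral_indicator (show MeasurableSet (CUT_.cube r) from hm)]
    rw [setIntegral_const, smul_eq_mul, mul_one, Measure.real]
    have : volume (CUT_.cube r) = ENNReal.ofReal ((2 * r) ^ 3) := hv
    rw [this, ENNReal.toReal_ofReal (by positivity)]
  have hindint : ∀ r : ℝ, 0 ≤ r → Integrable ((CUT_.cube r).indicator (fun _ => (1 : ℝ))) := by
    intro r hr
    obtain ⟨hm, hv⟩ := h1 r hr
    refine (integrable_indicator_iff (show MeasurableSet (CUT_.cube r) from hm)).2 ?_
    refine integrableOn_const ?_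
    have : volume (CUT_.cube r) = ENNReal.ofReal ((2 * r) ^ 3) := hv
    rw [this]
    exact ENNReal.ofReal_ne_top
  have hlow : (1 - ε) ^ 3 ≤ vv f := by
    have h2 := hvol ((1 - ε) / 2) (by linarith)
    rw [show 2 * ((1 - ε) / 2) = 1 - ε by ring] at h2
    rw [← h2]
    refine integral_mono (hindint _ (by linarith)) hint ?_
    intro x
    by_cases hx : x ∈ CUT_.cube ((1 - ε) / 2)
    · show (CUT_.cube ((1 - ε) / 2)).indicator (fun _ => (1 : ℝ)) x ≤ f x ^ 2
      rw [Set.indicator_of_mem hx, (f_one x).1 hx]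
      norm_num
    · show (CUT_.cube ((1 - ε) / 2)).indicator (fun _ => (1 : ℝ)) x ≤ f x ^ 2
      rw [Set.indicator_of_notMem hx]
      positivity
  have hup : vv f ≤ 1 := by
    have h2 := hvol (1 / 2) (by norm_num)
    have h3 : ((2 : ℝ) * (1 / 2)) ^ 3 = 1 := by norm_num
    rw [h3] at h2
    rw [← h2]
    refine integral_mono hint (hindint _ (by norm_num)) ?_
    intro x
    show f x ^ 2 ≤ (CUT_.cube (1 / 2)).indicator (fun _ => (1 : ℝ)) x
    by_cases hx : x ∈ CUT_.cube (1 / 2)
    · rw [Set.indicator_of_mem hx]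
      nlinarith [hf0 x, hf1 x]
    · rw [Set.indicator_of_notMem hx]
      have : f x = 0 := by
        by_contra hne
        refine hx fun c => ?_
        have h4 : x ∈ tsupport f := subset_tsupport f hne
        have h5 := hts h4 c
        linarith
      rw [this]; norm_num
  refine ⟨f, ⟨hsm, hf0, hf1, hcs, ?_, ?_⟩, fun x hx => (f_one x).1 hx, hlow, hup⟩
  · intro x hx c
    have h5 := hts hx c
    linarith
  · have h6 : 0 < (1 - ε) ^ 3 := pow_pos (by linarith) 3
    exact lt_of_lt_of_le h6 hlow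

end Pool.Agent.TBG
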