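import Mathlib

/-!
# Three-body Bose gases (MP_80dc41_mp): definitions of the problem
-/

set_option autoImplicit false

open MeasureTheory Filter Topology
open scoped ContDiff

namespace Pool.Agent.TBG

/-- `ℝ³` -/
abbrev E : Type := EuclideanSpace ℝ (Fin 3)

/-- the basis vectors of `ℝ³` -/
noncomputable def ev (c : Fin 3) : E := EuclideanSpace.single c (1 : ℝ)

/-- admissible potentials: bounded, compactly supported, nonnegative, with the three-body symmetry -/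
structure Admissible (V : E → E → ℝ) : Prop where
  meas : Measurable (fun z : E × E => V z.1 z.2)
  nonneg : ∀ x y, 0 ≤ V x y
  bdd : ∃ C : ℝ, ∀ x y, V x y ≤ C
  supp : ∃ R : ℝ, ∀ x y, R < ‖x‖ ∨ R < ‖y‖ → V x y = 0
  symm : ∀ x y, V x y = V y x
  tri : ∀ x y z, V (x - y) (x - z) = V (y - x) (y - z) ∧ V (y - x) (y - z) = V (z - y) (z - x)

/-! ## the modified scattering energy -/

/-- `g` is the weak gradient of `φ` on `ℝ⁶ = ℝ³ × ℝ³` -/
structure WeakGrad (φ : E × E → ℝ) (g : E × E → E × E) : Prop where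
  loc : LocallyIntegrable φ
  locg : LocallyIntegrable g
  byParts : ∀ η : E × E → ℝ, ContDiff ℝ ∞ η → HasCompactSupport η → ∀ v : E × E,
    ∫ z, φ z * fderiv ℝ η z v = - ∫ z, (inner ℝ (g z).1 v.1 + inner ℝ (g z).2 v.2) * η z

/-- the class `Ḣ¹(ℝ⁶)`: `φ ∈ L³(ℝ⁶)` (the Sobolev exponent) with weak gradient `g ∈ L²(ℝ⁶)` -/
structure HDot (φ : E × E → ℝ) (g : E × E → E × E) : Prop where
  memL3 : MemLp φ 3
  gradL2 : MemLp g 2
  weak : WeakGrad φ g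

/-- `2 |M v|²` for `M = (1/2 (2 1; 1 2))^(1/2)`: `|M v|² = ⟨v, M² v⟩ = |v₁|² + v₁·v₂ + |v₂|²` -/
noncomputable def quadM (v : E × E) : ℝ := 2 * (‖v.1‖ ^ 2 + inner ℝ v.1 v.2 + ‖v.2‖ ^ 2)

/-- the functional of the scattering energy -/
noncomputable def scatE (V : E → E → ℝ) (φ : E × E → ℝ) (g : E × E → E × E) : ℝ :=
  ∫ z, (quadM (g z) + V z.1 z.2 * |1 - φ z| ^ 2)

/-- the modified scattering energy `b_M(V)` -/
noncomputable def bM (V : E → E → ℝ) : ℝ :=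
  sInf {e : ℝ | ∃ (φ : E × E → ℝ) (g : E × E → E × E), HDot φ g ∧ e = scatE V φ g}

/-! ## the many-body problem -/

/-- the cube `[-L/2, L/2]³` to the power `N` (open; the boundary has measure 0) -/
def box (N : ℕ) (L : ℝ) : Set (Fin N → E) := {X | ∀ i c, |X i c| < L / 2}

/-- direction of the coordinate `c` of the particle `i` -/
noncomputable def dir {N : ℕ} (i : Fin N) (c : Fin 3) : Fin N → E := Pi.single i (ev c)

/-- the interaction energy `∑_{i<j<k} V(x_i - x_j, x_i - x_k)` -/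
noncomputable def pot {N : ℕ} (V : E → E → ℝ) (X : Fin N → E) : ℝ :=
  ∑ i, ∑ j, ∑ k, if i < j ∧ j < k then V (X i - X j) (X i - X k) else 0

/-- normalised elements `Ψ` of the form domain of `H_{N,L}` on `L²_s(Ω^N)`: symmetric elements of the Sobolev
space `H¹(Ω^N)`, with weak gradient `G` -/
structure IsTrial (N : ℕ) (L : ℝ) (Ψ : (Fin N → E) → ℂ) (G : Fin N → Fin 3 → (Fin N → E) → ℂ) : Prop where
  memL2 : MemLp Ψ 2 (volume.restrict (box N L))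
  gradL2 : ∀ i c, MemLp (G i c) 2 (volume.restrict (box N L))
  weak : ∀ i c, ∀ η : (Fin N → E) → ℝ, ContDiff ℝ ∞ η → HasCompactSupport η → tsupport η ⊆ box N L →
    ∫ X in box N L, Ψ X * ((fderiv ℝ η X (dir i c) : ℝ) : ℂ) = - ∫ X in box N L, G i c X * ((η X : ℝ) : ℂ)
  symm : ∀ σ : Equiv.Perm (Fin N), ∀ᵐ X ∂(volume.restrict (box N L)), Ψ (fun i => X (σ i)) = Ψ X
  norm : ∫ X in box N L, ‖Ψ X‖ ^ 2 = 1

/-- the quadratic form of `H_{N,L}` (Neumann boundary conditions) -/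
noncomputable def energy (V : E → E → ℝ) (N : ℕ) (L : ℝ) (Ψ : (Fin N → E) → ℂ)
    (G : Fin N → Fin 3 → (Fin N → E) → ℂ) : ℝ :=
  ∫ X in box N L, (∑ i, ∑ c, ‖G i c X‖ ^ 2 + pot V X * ‖Ψ X‖ ^ 2)

/-- the ground state energy of `H_{N,L}` -/
noncomputable def E0 (V : E → E → ℝ) (N : ℕ) (L : ℝ) : ℝ :=
  sInf {e : ℝ | ∃ (Ψ : (Fin N → E) → ℂ) (G : Fin N → Fin 3 → (Fin N → E) → ℂ),
    IsTrial N L Ψ G ∧ e = energy V N L Ψ G}

/-- the filter `N → ∞`, `N / L³ → ρ` on the pairs `(N, L)` -/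
noncomputable def thermo (ρ : ℝ) : Filter (ℕ × ℝ) :=
  comap Prod.fst atTop ⊓ comap (fun p : ℕ × ℝ => (p.1 : ℝ) / p.2 ^ 3) (𝓝 ρ) ⊓ 𝓟 {p | 0 < p.2}

/-- `e` is the ground state energy per unit volume at density `ρ` in the thermodynamic limit -/
def IsE3B (V : E → E → ℝ) (ρ e : ℝ) : Prop :=
  Tendsto (fun p : ℕ × ℝ => E0 V p.1 p.2 / p.2 ^ 3) (thermo ρ) (𝓝 e)

/-- the expansion `e_{3B}(ρ) = (1/6) ρ³ b_M(V) (1 + C ρ + o(ρ))` as `ρ → 0` holds with the constant `C` -/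
def HasExpansion (V : E → E → ℝ) (C : ℝ) : Prop :=
  ∃ e : ℝ → ℝ, (∀ ρ, 0 < ρ → IsE3B V ρ (e ρ)) ∧
    Tendsto (fun ρ : ℝ => (e ρ / (1 / 6 * ρ ^ 3 * bM V) - 1) / ρ) (𝓝[>] 0) (𝓝 C)

/-- the claim -/
def MainStatement : Prop :=
  -- upper bound of the energy with an arbitrarily negative coefficient of second order
  (∀ b K : ℝ, 0 < b → ∃ V : E → E → ℝ, Admissible V ∧ bM V = b ∧ ∃ ρ₀ : ℝ, 0 < ρ₀ ∧ ∀ ρ, 0 < ρ → ρ < ρ₀ →
    ∀ᶠ p in thermo ρ, E0 V p.1 p.2 / p.2 ^ 3 ≤ 1 / 6 * ρ ^ 3 * b * (1 - K * ρ)) ∧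
  -- hence the constant of second order is not bounded below on the potentials with `b_M(V) = b`
  (∀ b K : ℝ, 0 < b → ∃ V : E → E → ℝ, Admissible V ∧ bM V = b ∧ ∀ C, HasExpansion V C → C ≤ -K) ∧
  -- no universal expansion
  (¬ ∃ c : ℝ → ℝ, ∀ V : E → E → ℝ, Admissible V → 0 < bM V → HasExpansion V (c (bM V))) ∧
  -- if the expansion holds for all admissible potentials, then its constant is not a function of `b_M(V)`,
  -- at each value of `b_M(V)`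
  ((∀ V : E → E → ℝ, Admissible V → 0 < bM V → ∃ C, HasExpansion V C) →
    ∀ b : ℝ, 0 < b → ∃ (V₁ V₂ : E → E → ℝ) (C₁ C₂ : ℝ), Admissible V₁ ∧ Admissible V₂ ∧ bM V₁ = b ∧ bM V₂ = b ∧
      HasExpansion V₁ C₁ ∧ HasExpansion V₂ C₂ ∧ C₁ ≠ C₂)

end Pool.Agent.TBG
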