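import Pool.Agent.TBG.Stmts

/-!
# Three-body Bose gases: the energy of the gas with potential `VV φ`
-/

set_option autoImplicit false

open MeasureTheory Filter Topology
open scoped ContDiff

namespace Pool.Agent.TBG

namespace GAS_

theorem arith (ρ b Δ γ K η B Γ Γ₂ A W ε₁ t : ℝ) (hρ : 0 < ρ) (hρ1 : ρ ≤ 1) (hb : 0 ≤ b) (hΔ : γ - K = Δ) (hΔ0 : 0 < Δ)
    (hη0 : 0 ≤ η) (hη : η ≤ ρ * t) (ht : t * (4 * (b + 1) + 2 * |γ|) ≤ Δ / 4) (hη8 : η ≤ 1 / 8)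
    (hB : B ≤ b + 2 * (ε₁ * ρ) * W) (hε : 2 * ε₁ * W ≤ Δ / 4) (hB1 : B ≤ b + 1)
    (hΓ : γ ≤ Γ) (hΓ₂ : Γ₂ ≤ A ^ 2 * B) (hA : ρ * (A ^ 2 * (b + 1)) ≤ Δ / 8) (ht0 : 0 ≤ t) :
    (1 + 4 * η) * B - (1 - 2 * η) * ρ * Γ + ρ ^ 2 * Γ₂ < b - K * ρ := by
  have h1 : (1 - 2 * η) * ρ * γ ≤ (1 - 2 * η) * ρ * Γ :=
    mul_le_mul_of_nonneg_left hΓ (mul_nonneg (by linarith) hρ.le)
  have h2 : ρ ^ 2 * Γ₂ ≤ ρ * (Δ / 8) := by
    calc ρ ^ 2 * Γ₂ ≤ ρ ^ 2 * (A ^ 2 * (b + 1)) :=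
          mul_le_mul_of_nonneg_left (hΓ₂.trans (mul_le_mul_of_nonneg_left hB1 (sq_nonneg _))) (sq_nonneg _)
      _ = ρ * (ρ * (A ^ 2 * (b + 1))) := by ring
      _ ≤ ρ * (Δ / 8) := mul_le_mul_of_nonneg_left hA hρ.le
  have h3 : 4 * η * B ≤ ρ * (t * (4 * (b + 1))) := by
    calc 4 * η * B ≤ 4 * η * (b + 1) := mul_le_mul_of_nonneg_left hB1 (by positivity)
      _ ≤ 4 * (ρ * t) * (b + 1) := mul_le_mul_of_nonneg_right (by linarith) (by linarith)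
      _ = _ := by ring
  have h4 : 2 * η * ρ * γ ≤ ρ * (t * (2 * |γ|)) := by
    calc 2 * η * ρ * γ ≤ 2 * η * ρ * |γ| := mul_le_mul_of_nonneg_left (le_abs_self _) (by positivity)
      _ ≤ 2 * (ρ * t) * 1 * |γ| := by
          apply mul_le_mul_of_nonneg_right _ (abs_nonneg _)
          apply mul_le_mul (by linarith) hρ1 hρ.le (by positivity)
      _ = _ := by ring
  have h5 : 2 * (ε₁ * ρ) * W ≤ ρ * (Δ / 4) := by
    calc 2 * (ε₁ * ρ) * W = ρ * (2 * ε₁ * W) := by ring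
      _ ≤ ρ * (Δ / 4) := mul_le_mul_of_nonneg_left hε hρ.le
  have h6 : ρ * (t * (4 * (b + 1))) + ρ * (t * (2 * |γ|)) ≤ ρ * (Δ / 4) := by
    calc _ = ρ * (t * (4 * (b + 1) + 2 * |γ|)) := by ring
      _ ≤ _ := mul_le_mul_of_nonneg_left ht hρ.le
  have h7 : 0 < ρ * Δ := mul_pos hρ hΔ0
  have h8 : ρ * γ = ρ * K + ρ * Δ := by rw [← hΔ]; ring
  nlinarith [h1, h2, h3, h4, h5, h6, h7, h8]

end GAS_

open GAS_ in
theorem gas_proof (h1 : Stmt_NBL) (h2 : Stmt_FDJ) (h3 : Stmt_ADM) (h4 : Stmt_KPO) (h5 : Stmt_KIN) (h6 : Stmt_DIN)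
    (h7 : Stmt_ABD) (h8 : Stmt_GLI) (h9 : Stmt_KAF) : Stmt_GAS := by
  intro φ hφ K hK
  obtain ⟨hadm, hcont, hwc, hws, hw0, hVw, hVs⟩ := h3 φ hφ
  set b : ℝ := ∫ z, ww φ z with hbdef
  set W : ℝ := ∫ z : E × E, VV φ z.1 z.2 with hWdef
  have hb : 0 ≤ b := integral_nonneg hw0
  have hW : 0 ≤ W := integral_nonneg (fun z => hadm.nonneg z.1 z.2)
  set γ : ℝ := (K + gam φ) / 2 with hγ
  set Δ : ℝ := γ - K with hΔ
  have hΔ0 : 0 < Δ := by rw [hΔ, hγ]; linarith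
  have hγ2 : γ < gam φ := by rw [hγ]; linarith
  have hNBH : ∀ δ, 0 < δ → NBH (fd δ φ) (VV φ) := fun δ hδ =>
    ⟨(h2 φ δ hφ hδ).1, hadm, hcont, fun z => le_trans (by have := hw0 z; positivity) ((h4 φ δ hφ hδ).2.2 z)⟩
  obtain ⟨A₀, hA₀⟩ := h7 φ hφ
  set A : ℝ := max A₀ 0 with hA
  set ε₁ : ℝ := Δ / (8 * (W + 1)) with hε₁
  have hε₁0 : 0 < ε₁ := by positivity
  have hεW : 2 * ε₁ * W ≤ Δ / 4 := by
    rw [hε₁]
    have : 2 * (Δ / (8 * (W + 1))) * W = Δ / 4 * (W / (W + 1)) := by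
      field_simp; ring
    rw [this]
    have h' : W / (W + 1) ≤ 1 := by rw [div_le_one (by linarith)]; linarith
    nlinarith
  set Q : ℝ := 4 * (b + 1) + 2 * |γ| with hQ
  have hQ0 : 0 < Q := by have := abs_nonneg γ; rw [hQ]; linarith
  set t : ℝ := Δ / 4 / Q with ht
  have ht0 : 0 < t := by positivity
  have htQ : t * Q ≤ Δ / 4 := by rw [ht, div_mul_cancel₀ _ hQ0.ne']
  -- eventual conditions
  have e1 : ∀ᶠ δ in 𝓝[>] (0 : ℝ), δ * ∫ z, aa (fd δ φ) z < ε₁ * t :=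
    (h6 φ hφ).eventually_lt_const (by positivity)
  have e2 := h8 φ hφ γ hγ2
  have e3 := e1.and e2
  rw [eventually_nhdsWithin_iff, Metric.eventually_nhds_iff] at e3
  obtain ⟨δ₀, hδ₀, e3⟩ := e3
  set ρ₀ : ℝ := min (min 1 (δ₀ / ε₁)) (min (min (Δ / (8 * (A ^ 2 * (b + 1) + 1))) (1 / (8 * t)))
    (1 / (2 * ε₁ * (W + 1)))) with hρ₀
  have hρ₀0 : 0 < ρ₀ := by
    rw [hρ₀]
    have : 0 < A ^ 2 * (b + 1) + 1 := by positivity
    refine lt_min (lt_min one_pos (by positivity)) (lt_min (lt_min (by positivity) (by positivity)) (by positivity))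
  refine ⟨ρ₀, hρ₀0, fun ρ hρ hρ' => ?_⟩
  have r1 : ρ ≤ 1 := (hρ'.le.trans (min_le_left _ _)).trans (min_le_left _ _)
  have r2 : ρ < δ₀ / ε₁ := lt_of_lt_of_le hρ' ((min_le_left _ _).trans (min_le_right _ _))
  have r3 : ρ ≤ Δ / (8 * (A ^ 2 * (b + 1) + 1)) :=
    hρ'.le.trans ((min_le_right _ _).trans ((min_le_left _ _).trans (min_le_left _ _)))
  have r4 : ρ ≤ 1 / (8 * t) :=
    hρ'.le.trans ((min_le_right _ _).trans ((min_le_left _ _).trans (min_le_right _ _)))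
  have r5 : ρ ≤ 1 / (2 * ε₁ * (W + 1)) := hρ'.le.trans ((min_le_right _ _).trans (min_le_right _ _))
  set δ : ℝ := ε₁ * ρ with hδ
  have hδ0 : 0 < δ := by positivity
  have hδδ : δ < δ₀ := by
    rw [lt_div_iff₀ hε₁0] at r2
    rw [hδ]; linarith
  obtain ⟨f1, f2⟩ := e3 (y := δ) (by rw [Real.dist_eq, sub_zero, abs_of_pos hδ0]; exact hδδ) hδ0
  have hN := hNBH δ hδ0
  obtain ⟨k1, k2, k3, k4, k5, k6, k7, k8, k9⟩ := h9 _ _ hN
  set f := fd δ φ with hf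
  set α : ℝ := ∫ z, aa f z with hα
  have hα0 : 0 ≤ α := integral_nonneg k2.nonneg
  set η : ℝ := ρ ^ 2 * α with hη
  have hη0 : 0 ≤ η := by positivity
  have hηt : η ≤ ρ * t := by
    have : ρ * (δ * α) ≤ ρ * (ε₁ * t) := mul_le_mul_of_nonneg_left f1.le hρ.le
    have h' : ε₁ * (ρ ^ 2 * α) ≤ ε₁ * (ρ * t) := by
      calc ε₁ * (ρ ^ 2 * α) = ρ * (δ * α) := by rw [hδ]; ring
        _ ≤ ρ * (ε₁ * t) := this
        _ = _ := by ring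
    exact le_of_mul_le_mul_left h' hε₁0
  have hη8 : η ≤ 1 / 8 := by
    refine hηt.trans ?_
    rw [le_div_iff₀ (by positivity)] at r4
    linarith
  set B : ℝ := ∫ z, kap f (VV φ) z with hB
  have hB0 : 0 ≤ B := integral_nonneg k1.nonneg
  have hBle : B ≤ b + 2 * (ε₁ * ρ) * W := (h5 φ δ hφ hδ0).2
  have hB1 : B ≤ b + 1 := by
    rw [le_div_iff₀ (by positivity)] at r5
    have : 2 * (ε₁ * ρ) * W ≤ 1 := by nlinarith [mul_pos hε₁0 hρ]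
    linarith
  set Γ : ℝ := ∫ z : E × E, kap f (VV φ) z * AA f z.1 with hΓ
  set Γ₂ : ℝ := ∫ z : E × E, kap f (VV φ) z * AA f z.1 ^ 2 with hΓ₂
  have hAf : ∀ x, AA f x ≤ A := fun x => (hA₀ δ hδ0 x).trans (le_max_left _ _)
  have hΓ₂le : Γ₂ ≤ A ^ 2 * B := by
    rw [hΓ₂, hB, ← integral_const_mul]
    apply integral_mono
    · exact (k1.cont.mul ((k6.comp continuous_fst).pow 2)).integrable_of_hasCompactSupport k1.cpt.mul_right
    · exact (k1.cont.integrable_of_hasCompactSupport k1.cpt).const_mul _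
    · intro z
      have h' : AA f z.1 ^ 2 ≤ A ^ 2 := pow_le_pow_left₀ (k7 z.1) (hAf z.1) 2
      calc kap f (VV φ) z * AA f z.1 ^ 2 ≤ kap f (VV φ) z * A ^ 2 := mul_le_mul_of_nonneg_left h' (k1.nonneg z)
        _ = _ := by ring
  have hA' : ρ * (A ^ 2 * (b + 1)) ≤ Δ / 8 := by
    have hp : 0 < A ^ 2 * (b + 1) + 1 := by positivity
    rw [le_div_iff₀ (by positivity)] at r3
    nlinarith
  have key := arith ρ b Δ γ K η B Γ Γ₂ A W ε₁ t hρ r1 hb hΔ.symm hΔ0 hη0 hηt htQ hη8 hBle hεW hB1 f2 hΓ₂le hA' ht0.le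
  apply h1 f (VV φ) ρ _ hN hρ hη8
  apply mul_lt_mul_of_pos_left key (by positivity)

end Pool.Agent.TBG
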