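import Pool.Agent.TBG.Stmts

/-!
# Three-body Bose gases (MP_80dc41_mp): integrating out one variable
-/

set_option autoImplicit false

open MeasureTheory Filter Topology
open scoped ContDiff

namespace Pool.Agent.TBG

namespace OUT_

/-- replacing the coordinate `l` by an independent copy preserves the product measure -/
theorem mp {N : ℕ} (μ : Measure E) [IsProbabilityMeasure μ] (l : Fin N) :
    MeasurePreserving (fun q : (Fin N → E) × E => Function.update q.1 l q.2)
      ((Measure.pi (fun _ => μ)).prod μ) (Measure.pi (fun _ => μ)) := by
  have hmeas : Measurable (fun q : (Fin N → E) × E => Function.update q.1 l q.2) := by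
    refine measurable_pi_lambda _ (fun i => ?_)
    by_cases h : i = l
    · subst h
      simp only [Function.update_self]
      exact measurable_snd
    · simp only [Function.update_of_ne h]
      exact (measurable_pi_apply i).comp measurable_fst
  refine ⟨hmeas, ?_⟩
  symm
  refine Measure.pi_eq (fun s hs => ?_)
  rw [Measure.map_apply hmeas (MeasurableSet.univ_pi hs)]
  have hset : (fun q : (Fin N → E) × E => Function.update q.1 l q.2) ⁻¹' (Set.univ.pi s) =
      (Set.univ.pi (Function.update s l Set.univ)) ×ˢ (s l) := by
    ext ⟨X, y⟩
    simp only [Set.mem_preimage, Set.mem_pi, Set.mem_univ, true_implies, Set.mem_prod]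
    constructor
    · intro h
      refine ⟨fun i => ?_, ?_⟩
      · by_cases hi : i = l
        · subst hi
          simp
        · have := h i
          rw [Function.update_of_ne hi] at this
          rw [Function.update_of_ne hi]
          exact this
      · have := h l
        rwa [Function.update_self] at this
    · rintro ⟨h1, h2⟩ i
      by_cases hi : i = l
      · subst hi
        rw [Function.update_self]
        exact h2
      · have := h1 i
        rw [Function.update_of_ne hi] at this
        rw [Function.update_of_ne hi]
        exact this
  rw [hset, Measure.prod_prod, Measure.pi_pi]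
  rw [← Finset.mul_prod_erase Finset.univ (fun i => μ (Function.update s l Set.univ i)) (Finset.mem_univ l),
    ← Finset.mul_prod_erase Finset.univ (fun i => μ (s i)) (Finset.mem_univ l)]
  rw [Function.update_self, measure_univ, one_mul, mul_comm]
  congr 1
  refine Finset.prod_congr rfl (fun i hi => ?_)
  rw [Function.update_of_ne (Finset.ne_of_mem_erase hi)]

end OUT_

theorem out_proof (h1 : Stmt_CFD) : Stmt_OUT := by
  intro N L χ S l G hχ hl hG hC hS
  have : IsProbabilityMeasure (nu χ) := (h1 L χ hχ).1
  obtain ⟨C, hC⟩ := hC
  unfold PP
  have hmp := OUT_.mp (N := N) (nu χ) l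
  have hGl : Measurable (fun X : Fin N → E => G X (X l)) :=
    hG.comp (measurable_id.prodMk (measurable_pi_apply l))
  have e1 : ∫ X, G X (X l) ∂(Measure.pi (fun _ : Fin N => nu χ)) =
      ∫ q : (Fin N → E) × E, G (Function.update q.1 l q.2) (Function.update q.1 l q.2 l)
        ∂((Measure.pi (fun _ : Fin N => nu χ)).prod (nu χ)) := by
    rw [← hmp.map_eq, integral_map hmp.measurable.aemeasurable hGl.aestronglyMeasurable, hmp.map_eq]
  have e2 : ∀ q : (Fin N → E) × E, G (Function.update q.1 l q.2) (Function.update q.1 l q.2 l) = G q.1 q.2 := by
    intro q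
    rw [Function.update_self]
    refine hS _ _ _ (fun i hi => ?_)
    have : i ≠ l := fun h => hl (h ▸ hi)
    rw [Function.update_of_ne this]
  rw [e1]
  simp only [e2]
  have hint : Integrable (fun q : (Fin N → E) × E => G q.1 q.2)
      ((Measure.pi (fun _ : Fin N => nu χ)).prod (nu χ)) := by
    refine Integrable.of_bound hG.aestronglyMeasurable C (ae_of_all _ (fun q => ?_))
    rw [Real.norm_eq_abs]
    exact hC _ _
  exact integral_prod _ hint

end Pool.Agent.TBG
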