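import Pool.Agent.TBG.Def

/-!
# Three-body Bose gases (MP_80dc41_mp): auxiliary definitions and statements of the modules
-/

set_option autoImplicit false

open MeasureTheory Filter Topology
open scoped ContDiff

namespace Pool.Agent.TBG

/-! ## derivatives -/

/-- directional derivative -/
noncomputable def dv {W : Type} [NormedAddCommGroup W] [NormedSpace ℝ W] (v : W) (f : W → ℝ) (x : W) : ℝ :=
  fderiv ℝ f x v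

/-- the direction in `ℝ⁶` in which `(x₁ - x₂, x₁ - x₃)` moves when the particle `m` moves in direction `c` -/
noncomputable def dr (m c : Fin 3) : E × E :=
  if m = 0 then (ev c, ev c) else if m = 1 then (-ev c, 0) else (0, -ev c)

/-- `∑_i |∇_i f|²` in the three particle variables -/
noncomputable def gsq (f : E × E → ℝ) (z : E × E) : ℝ := ∑ m, ∑ c, (dv (dr m c) f z) ^ 2

/-- `∑_i Δ_i f` in the three particle variables -/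
noncomputable def Lap (f : E × E → ℝ) (z : E × E) : ℝ := ∑ m, ∑ c, dv (dr m c) (dv (dr m c) f) z

/-- `∑ |∂ f|` -/
noncomputable def G1 (f : E × E → ℝ) (z : E × E) : ℝ := ∑ m, ∑ c, |dv (dr m c) f z|

/-! ## the Jastrow function -/

/-- Jastrow factors -/
structure Jas (f : E × E → ℝ) : Prop where
  smooth : ContDiff ℝ ∞ f
  sy1 : ∀ x y, f (x, y) = f (y, x)
  sy2 : ∀ x y, f (x, y) = f (-x, y - x)
  half_le : ∀ z, 1 / 2 ≤ f z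
  le_one : ∀ z, f z ≤ 1
  supp : ∃ R : ℝ, ∀ z, R < ‖z‖ → f z = 1

/-- `1 - f²` -/
noncomputable def aa (f : E × E → ℝ) (z : E × E) : ℝ := 1 - f z ^ 2

/-- `A(x) = ∫ (1 - f(x,y)²) dy` -/
noncomputable def AA (f : E × E → ℝ) (x : E) : ℝ := ∫ y : E, aa f (x, y)

/-- `κ = (|∇f|² + V f² + f (V f - L f)) / 2` -/
noncomputable def kap (f : E × E → ℝ) (V : E → E → ℝ) (z : E × E) : ℝ :=
  (gsq f z + V z.1 z.2 * f z ^ 2 + f z * (V z.1 z.2 * f z - Lap f z)) / 2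

/-- `k = κ / f² = V - L (log f) / 2` -/
noncomputable def kk (f : E × E → ℝ) (V : E → E → ℝ) (z : E × E) : ℝ := kap f V z / f z ^ 2

/-- hypotheses of the many-body part -/
structure NBH (f : E × E → ℝ) (V : E → E → ℝ) : Prop where
  jas : Jas f
  adm : Admissible V
  cont : Continuous (fun z : E × E => V z.1 z.2)
  kap_nonneg : ∀ z, 0 ≤ kap f V z

/-- continuous, compactly supported, nonnegative -/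
structure CN (u : E × E → ℝ) : Prop where
  cont : Continuous u
  cpt : HasCompactSupport u
  nonneg : ∀ z, 0 ≤ u z

/-- smooth cutoff supported in the open cube -/
structure Cut (L : ℝ) (χ : E → ℝ) : Prop where
  smooth : ContDiff ℝ ∞ χ
  nonneg : ∀ x, 0 ≤ χ x
  le_one : ∀ x, χ x ≤ 1
  cpt : HasCompactSupport χ
  supp : ∀ x ∈ tsupport χ, ∀ c, |x c| < L / 2
  pos : 0 < ∫ x, χ x ^ 2

/-- the value of a function of the triple `(i, j, k)` -/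
def tr {N : ℕ} (u : E × E → ℝ) (X : Fin N → E) (i j k : Fin N) : ℝ := u (X i - X j, X i - X k)

/-- the sorted triples of elements of `S` -/
def trip {N : ℕ} (S : Finset (Fin N)) : Finset (Fin N × Fin N × Fin N) :=
  (S ×ˢ S ×ˢ S).filter (fun t => t.1 < t.2.1 ∧ t.2.1 < t.2.2)

/-- the sorted pairs of elements of `S` -/
def prs {N : ℕ} (S : Finset (Fin N)) : Finset (Fin N × Fin N) :=
  (S ×ˢ S).filter (fun t => t.1 < t.2)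

/-- element `m` of a triple -/
def sel {N : ℕ} (t : Fin N × Fin N × Fin N) (m : Fin 3) : Fin N :=
  if m = 0 then t.1 else if m = 1 then t.2.1 else t.2.2

/-- `∏ f²` over the triples of `S` -/
noncomputable def F2 {N : ℕ} (f : E × E → ℝ) (S : Finset (Fin N)) (X : Fin N → E) : ℝ :=
  ∏ t ∈ trip S, (tr f X t.1 t.2.1 t.2.2) ^ 2

/-- `∑ log f` over all triples -/
noncomputable def UU {N : ℕ} (f : E × E → ℝ) (X : Fin N → E) : ℝ :=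
  ∑ t ∈ trip (Finset.univ : Finset (Fin N)), Real.log (tr f X t.1 t.2.1 t.2.2)

/-- `∏ χ(x_i)` -/
noncomputable def CC {N : ℕ} (χ : E → ℝ) (X : Fin N → E) : ℝ := ∏ i, χ (X i)

/-- the trial function -/
noncomputable def Psi0 {N : ℕ} (χ : E → ℝ) (f : E × E → ℝ) (X : Fin N → E) : ℝ := CC χ X * Real.exp (UU f X)

/-- `∫ χ²` -/
noncomputable def vv (χ : E → ℝ) : ℝ := ∫ x, χ x ^ 2

/-- the probability measure `χ² dx / ∫ χ²` -/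
noncomputable def nu (χ : E → ℝ) : Measure E := volume.withDensity (fun x => ENNReal.ofReal (χ x ^ 2 / vv χ))

/-- its power -/
noncomputable def PP (χ : E → ℝ) (N : ℕ) : Measure (Fin N → E) := Measure.pi (fun _ => nu χ)

/-- `E[∏ f²]` over the triples of `S` -/
noncomputable def ZZ {N : ℕ} (f : E × E → ℝ) (χ : E → ℝ) (S : Finset (Fin N)) : ℝ := ∫ X, F2 f S X ∂(PP χ N)

/-- `∂_c χ / χ` -/
noncomputable def lam (χ : E → ℝ) (c : Fin 3) (x : E) : ℝ := dv (ev c) χ x / χ x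

/-! ## general statements -/

/-- integration by parts -/
def Stmt_IBP : Prop := ∀ (W : Type) [NormedAddCommGroup W] [NormedSpace ℝ W] [FiniteDimensional ℝ W]
  [MeasurableSpace W] [BorelSpace W] (μ : Measure W) [μ.IsAddHaarMeasure] (f g : W → ℝ) (v : W),
  ContDiff ℝ 1 f → ContDiff ℝ 1 g → HasCompactSupport f →
  (∫ x, dv v f x ∂μ = 0) ∧ (∫ x, f x * dv v g x ∂μ = - ∫ x, dv v f x * g x ∂μ)

/-- kinetic energy of `C e^U` -/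
def Stmt_IMS : Prop := ∀ (W : Type) [NormedAddCommGroup W] [NormedSpace ℝ W] [FiniteDimensional ℝ W]
  [MeasurableSpace W] [BorelSpace W] (μ : Measure W) [μ.IsAddHaarMeasure] (C U : W → ℝ) (v : W),
  ContDiff ℝ ∞ C → ContDiff ℝ ∞ U → HasCompactSupport C →
  ∫ x, (dv v (fun y => C y * Real.exp (U y)) x) ^ 2 ∂μ =
    ∫ x, Real.exp (2 * U x) * ((dv v C x) ^ 2 + C x * dv v C x * dv v U x
      - 1 / 2 * C x ^ 2 * dv v (dv v U) x) ∂μ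

/-- chain rules -/
def Stmt_LPC : Prop := ∀ (T : ℝ → ℝ) (φ : E × E → ℝ) (I : Set ℝ), IsOpen I → ContDiffOn ℝ ∞ T I → ContDiff ℝ ∞ φ →
  (∀ z, φ z ∈ I) → ∀ z, ContDiff ℝ ∞ (fun z => T (φ z)) ∧
  (∀ v, dv v (fun z => T (φ z)) z = deriv T (φ z) * dv v φ z) ∧
  gsq (fun z => T (φ z)) z = deriv T (φ z) ^ 2 * gsq φ z ∧
  Lap (fun z => T (φ z)) z = deriv T (φ z) * Lap φ z + deriv (deriv T) (φ z) * gsq φ z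

/-- translations, scalings, permutations of the particles -/
def Stmt_LTR : Prop := ∀ φ : E × E → ℝ, ContDiff ℝ ∞ φ →
  (∀ c z : E × E, Lap (fun z => φ (z - c)) z = Lap φ (z - c) ∧ gsq (fun z => φ (z - c)) z = gsq φ (z - c)) ∧
  (∀ (r : ℝ) (z : E × E), Lap (fun z => φ (r • z)) z = r ^ 2 * Lap φ (r • z) ∧
    gsq (fun z => φ (r • z)) z = r ^ 2 * gsq φ (r • z)) ∧
  (∀ z : E × E, Lap (fun z => φ (z.2, z.1)) z = Lap φ (z.2, z.1) ∧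
    gsq (fun z => φ (z.2, z.1)) z = gsq φ (z.2, z.1)) ∧
  (∀ z : E × E, Lap (fun z => φ (-z.1, z.2 - z.1)) z = Lap φ (-z.1, z.2 - z.1) ∧
    gsq (fun z => φ (-z.1, z.2 - z.1)) z = gsq φ (-z.1, z.2 - z.1))

/-- sums and multiples -/
def Stmt_LSU : Prop := (∀ (ι : Type) (s : Finset ι) (φ : ι → E × E → ℝ), (∀ j, ContDiff ℝ ∞ (φ j)) → ∀ z,
    Lap (fun z => ∑ j ∈ s, φ j z) z = ∑ j ∈ s, Lap (φ j) z ∧
    gsq (fun z => ∑ j ∈ s, φ j z) z ≤ (s.card : ℝ) * ∑ j ∈ s, gsq (φ j) z) ∧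
  (∀ (φ : E × E → ℝ) (a b : ℝ), ContDiff ℝ ∞ φ → ∀ z, Lap (fun z => a + b * φ z) z = b * Lap φ z ∧
    gsq (fun z => a + b * φ z) z = b ^ 2 * gsq φ z)

/-- the gradient of a smooth function on `ℝ⁶` -/
noncomputable def gr (h : E × E → ℝ) (z : E × E) : E × E :=
  (∑ c, dv (ev c, (0 : E)) h z • ev c, ∑ c, dv ((0 : E), ev c) h z • ev c)

/-- smooth compactly supported functions are in `Ḣ¹` -/
def Stmt_GRD : Prop := (∀ v : E × E, quadM v =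
    ∑ m, ∑ c, (inner ℝ v.1 (dr m c).1 + inner ℝ v.2 (dr m c).2) ^ 2) ∧
  (∀ h : E × E → ℝ, ContDiff ℝ ∞ h → (∀ z v, dv v h z = inner ℝ (gr h z).1 v.1 + inner ℝ (gr h z).2 v.2) ∧
    (∀ z, quadM (gr h z) = gsq h z) ∧ (HasCompactSupport h → HDot h (gr h)))

/-- integrability of powers -/
def Stmt_INT : Prop := Integrable (fun z : E × E => ((1 + ‖z‖) ^ 8)⁻¹) ∧ Integrable (fun y : E => ((1 + ‖y‖) ^ 4)⁻¹) ∧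
  MemLp (fun z : E × E => ((1 + ‖z‖) ^ 6)⁻¹) (3 / 2 : ENNReal) ∧ (3 : ENNReal)⁻¹ + (3 / 2 : ENNReal)⁻¹ = 1

/-! ## combinatorics of triples -/

def Stmt_INS : Prop := ∀ (N : ℕ) (g : Fin N → Fin N → Fin N → ℝ) (S : Finset (Fin N)) (a : Fin N),
  (∀ i j k, g i j k = g i k j) → (∀ i j k, g i j k = g j i k) → a ∉ S →
  ∏ t ∈ trip (insert a S), g t.1 t.2.1 t.2.2 =
    (∏ t ∈ trip S, g t.1 t.2.1 t.2.2) * ∏ p ∈ prs S, g a p.1 p.2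

def Stmt_INP : Prop := ∀ (N : ℕ) (g : Fin N → Fin N → ℝ) (S : Finset (Fin N)) (a : Fin N),
  (∀ i j, g i j = g j i) → a ∉ S →
  ∏ t ∈ prs (insert a S), g t.1 t.2 = (∏ t ∈ prs S, g t.1 t.2) * ∏ l ∈ S, g a l

def Stmt_CRD : Prop := (∀ N : ℕ, ((trip (Finset.univ : Finset (Fin N))).card : ℝ) = (N : ℝ) * (N - 1) * (N - 2) / 6) ∧
  (∀ (N : ℕ) (S : Finset (Fin N)), ((prs S).card : ℝ) ≤ (N : ℝ) ^ 2 / 2)

/-- sums over sorted triples of a symmetric function are invariant under permutations -/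
def Stmt_PRM : Prop := ∀ (N : ℕ) (g : Fin N → Fin N → Fin N → ℝ) (σ : Equiv.Perm (Fin N)),
  (∀ i j k, g i j k = g i k j) → (∀ i j k, g i j k = g j i k) →
  ∑ t ∈ trip (Finset.univ : Finset (Fin N)), g (σ t.1) (σ t.2.1) (σ t.2.2) =
    ∑ t ∈ trip (Finset.univ : Finset (Fin N)), g t.1 t.2.1 t.2.2

def Stmt_WPI : Prop := ∀ (ι : Type) [DecidableEq ι] (s : Finset ι) (a : ι → ℝ), (∀ i, 0 ≤ a i ∧ a i ≤ 1) →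
  1 - ∑ i ∈ s, a i ≤ ∏ i ∈ s, (1 - a i) ∧
  ∏ i ∈ s, (1 - a i) ≤ 1 - ∑ i ∈ s, a i + 1 / 2 * ∑ i ∈ s, ∑ j ∈ s.erase i, a i * a j

/-- basic properties of `F2` -/
def Stmt_FTB : Prop := ∀ (N : ℕ) (f : E × E → ℝ), Jas f →
  (∀ (X : Fin N → E) (i j k : Fin N), tr f X i j k = tr f X i k j ∧ tr f X i j k = tr f X j i k ∧
    tr (aa f) X i j k = tr (aa f) X i k j ∧ tr (aa f) X i j k = tr (aa f) X j i k) ∧
  (∀ (S : Finset (Fin N)), Continuous (F2 f S) ∧ (∀ X, 0 < F2 f S X ∧ F2 f S X ≤ 1) ∧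
    (∀ X Y : Fin N → E, (∀ i ∈ S, X i = Y i) → F2 f S X = F2 f S Y)) ∧
  (∀ (S T : Finset (Fin N)) (X : Fin N → E), S ⊆ T → F2 f T X ≤ F2 f S X) ∧
  (∀ X : Fin N → E, Real.exp (UU f X) ^ 2 = F2 f Finset.univ X)

/-- pointwise gain -/
def Stmt_GAI : Prop := ∀ (N : ℕ) (f : E × E → ℝ) (V : E → E → ℝ) (X : Fin N → E) (i j k : Fin N)
  (T : Finset (Fin N)), NBH f V → i < j → j < k → T = ((Finset.univ.erase i).erase j).erase k →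
  F2 f Finset.univ X * tr (kk f V) X i j k ≤ F2 f T X * tr (kap f V) X i j k *
    (1 - ∑ l ∈ T, tr (aa f) X i j l + 1 / 2 * ∑ l ∈ T, ∑ m ∈ T.erase l, tr (aa f) X i j l * tr (aa f) X i j m)

/-- pointwise lower bound -/
def Stmt_LOW : Prop := ∀ (N : ℕ) (f : E × E → ℝ) (X : Fin N → E) (T : Finset (Fin N)) (l : Fin N), Jas f → l ∈ T →
  F2 f (T.erase l) X * (1 - ∑ p ∈ prs (T.erase l), tr (aa f) X l p.1 p.2) ≤ F2 f T X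

/-! ## probability -/

/-- the measure -/
def Stmt_CFD : Prop := ∀ (L : ℝ) (χ : E → ℝ), Cut L χ → IsProbabilityMeasure (nu χ) ∧
  (∀ g : E → ℝ, ∫ x, g x ∂(nu χ) = (vv χ)⁻¹ * ∫ x, χ x ^ 2 * g x) ∧
  (∀ (N : ℕ) (h : (Fin N → E) → ℝ), ∫ X, CC χ X ^ 2 * h X = vv χ ^ N * ∫ X, h X ∂(PP χ N))

/-- independence -/
def Stmt_IND : Prop := ∀ (N : ℕ) (L : ℝ) (χ : E → ℝ) (S T : Finset (Fin N)) (u w : (Fin N → E) → ℝ), Cut L χ →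
  Disjoint S T → Measurable u → Measurable w → (∀ X Y : Fin N → E, (∀ i ∈ S, X i = Y i) → u X = u Y) →
  (∀ X Y : Fin N → E, (∀ i ∈ T, X i = Y i) → w X = w Y) →
  ∫ X, u X * w X ∂(PP χ N) = (∫ X, u X ∂(PP χ N)) * ∫ X, w X ∂(PP χ N)

/-- integrating out one variable -/
def Stmt_OUT : Prop := ∀ (N : ℕ) (L : ℝ) (χ : E → ℝ) (S : Finset (Fin N)) (l : Fin N) (G : (Fin N → E) → E → ℝ),
  Cut L χ → l ∉ S → Measurable (fun q : (Fin N → E) × E => G q.1 q.2) → (∃ C : ℝ, ∀ X y, |G X y| ≤ C) →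
  (∀ (X Y : Fin N → E) (y : E), (∀ i ∈ S, X i = Y i) → G X y = G Y y) →
  ∫ X, G X (X l) ∂(PP χ N) = ∫ X, (∫ y, G X y ∂(nu χ)) ∂(PP χ N)

/-- the law of one and of three particles -/
def Stmt_LAW : Prop := ∀ (N : ℕ) (L : ℝ) (χ : E → ℝ), Cut L χ →
  (∀ i : Fin N, Measure.map (fun X : Fin N → E => X i) (PP χ N) = nu χ) ∧
  (∀ i j k : Fin N, i ≠ j → i ≠ k → j ≠ k →
    Measure.map (fun X : Fin N → E => (X i, X j, X k)) (PP χ N) = (nu χ).prod ((nu χ).prod (nu χ)))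

/-- expectation of a function of a triple with a weight at one of its particles -/
def Stmt_ETW : Prop := ∀ (N : ℕ) (L : ℝ) (χ : E → ℝ) (u : E × E → ℝ) (w : E → ℝ) (i j k p : Fin N), Cut L χ → CN u →
  (∀ x, 0 ≤ w x) → Measurable w → Integrable w (nu χ) → i ≠ j → i ≠ k → j ≠ k → (p = i ∨ p = j ∨ p = k) →
  Integrable (fun X : Fin N → E => w (X p) * tr u X i j k) (PP χ N) ∧
  ∫ X, w (X p) * tr u X i j k ∂(PP χ N) ≤ (vv χ)⁻¹ ^ 2 * (∫ x, w x ∂(nu χ)) * ∫ z, u z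

def Stmt_EFL : Prop := ∀ (N : ℕ) (L : ℝ) (χ : E → ℝ) (κ a : E × E → ℝ) (R : ℝ) (D : Set E) (i j k l : Fin N),
  Cut L χ → CN κ → CN a → MeasurableSet D → volume D < ⊤ → (∀ z, κ z ≠ 0 → ‖z‖ ≤ R) → (∀ z, a z ≠ 0 → ‖z‖ ≤ R) →
  (∀ x ∈ D, ∀ y, ‖y - x‖ ≤ R → χ y = 1) → ([i, j, k, l] : List (Fin N)).Nodup →
  (vv χ)⁻¹ ^ 4 * (volume D).toReal * (∫ z : E × E, κ z * ∫ y : E, a (z.1, y)) ≤
    ∫ X, tr κ X i j k * tr a X i j l ∂(PP χ N)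

def Stmt_EFU : Prop := ∀ (N : ℕ) (L : ℝ) (χ : E → ℝ) (κ a : E × E → ℝ) (i j k l m : Fin N),
  Cut L χ → CN κ → CN a → ([i, j, k, l, m] : List (Fin N)).Nodup →
  ∫ X, tr κ X i j k * tr a X i j l * tr a X i j m ∂(PP χ N) ≤
    (vv χ)⁻¹ ^ 4 * ∫ z : E × E, κ z * (∫ y : E, a (z.1, y)) ^ 2

def Stmt_ESU : Prop := ∀ (N : ℕ) (L : ℝ) (χ : E → ℝ) (κ a : E × E → ℝ) (i j k l m n : Fin N),
  Cut L χ → CN κ → CN a → ([i, j, k, l, m, n] : List (Fin N)).Nodup →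
  ∫ X, tr κ X i j k * tr a X i j l * tr a X l m n ∂(PP χ N) ≤
    (vv χ)⁻¹ ^ 5 * (∫ z : E × E, κ z * ∫ y : E, a (z.1, y)) * ∫ z, a z

/-- the ratio of normalisations -/
def Stmt_RAT : Prop := ∀ (N : ℕ) (L : ℝ) (χ : E → ℝ) (f : E × E → ℝ) (α η : ℝ), Cut L χ → Jas f →
  (∀ i j k : Fin N, i ≠ j → i ≠ k → j ≠ k → ∫ X, tr (aa f) X i j k ∂(PP χ N) ≤ α) → 0 ≤ α → 0 ≤ η → η < 1 →
  (N : ℝ) ^ 2 / 2 * α ≤ η * (1 - η) ^ 2 →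
  ∀ (S : Finset (Fin N)) (i : Fin N), i ∉ S → (1 - η) * ZZ f χ S ≤ ZZ f χ (insert i S)

/-- facts on `κ`, `a`, `A` -/
def Stmt_KAF : Prop := ∀ (f : E × E → ℝ) (V : E → E → ℝ), NBH f V →
  CN (kap f V) ∧ CN (aa f) ∧ CN (kk f V) ∧ CN (G1 f) ∧ (∀ z, aa f z ≤ 1) ∧ Continuous (AA f) ∧ (∀ x, 0 ≤ AA f x) ∧
  (∃ C, ∀ x, AA f x ≤ C) ∧ Lap (fun z => Real.log (f z)) = (fun z => 2 * (V z.1 z.2 - kk f V z))

/-- the expectation of the energy of a triple -/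
def Stmt_EXB : Prop := ∀ (N : ℕ) (L : ℝ) (χ : E → ℝ) (f : E × E → ℝ) (V : E → E → ℝ) (θ K1 K2 K3 K4 : ℝ),
  Cut L χ → NBH f V → 1 ≤ θ → 0 ≤ K1 → 0 ≤ K2 → 0 ≤ K3 → 0 ≤ K4 →
  (∀ (S : Finset (Fin N)) (i : Fin N), i ∉ S → ZZ f χ S ≤ θ * ZZ f χ (insert i S)) →
  (∀ i j k : Fin N, ([i, j, k] : List (Fin N)).Nodup → ∫ X, tr (kap f V) X i j k ∂(PP χ N) ≤ K1) →
  (∀ i j k l : Fin N, ([i, j, k, l] : List (Fin N)).Nodup →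
    K2 ≤ ∫ X, tr (kap f V) X i j k * tr (aa f) X i j l ∂(PP χ N)) →
  (∀ i j k l m : Fin N, ([i, j, k, l, m] : List (Fin N)).Nodup →
    ∫ X, tr (kap f V) X i j k * tr (aa f) X i j l * tr (aa f) X i j m ∂(PP χ N) ≤ K3) →
  (∀ i j k l m n : Fin N, ([i, j, k, l, m, n] : List (Fin N)).Nodup →
    ∫ X, tr (kap f V) X i j k * tr (aa f) X i j l * tr (aa f) X l m n ∂(PP χ N) ≤ K4) →
  ∀ i j k : Fin N, i < j → j < k →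
    ∫ X, F2 f Finset.univ X * tr (kk f V) X i j k ∂(PP χ N) ≤
      ZZ f χ (Finset.univ : Finset (Fin N)) * (θ ^ 3 * K1 - ((N : ℝ) - 3) * K2 + (N : ℝ) ^ 2 / 2 * θ ^ 5 * K3
        + (N : ℝ) ^ 3 / 2 * θ ^ 6 * K4)

/-- facts on `∂χ/χ` -/
def Stmt_LAM : Prop := ∀ (L : ℝ) (χ : E → ℝ) (c : Fin 3), Cut L χ → Measurable (lam χ c) ∧
  (∀ x, dv (ev c) χ x = χ x * lam χ c x) ∧
  Integrable (fun x => lam χ c x ^ 2) (nu χ) ∧ Integrable (fun x => |lam χ c x|) (nu χ) ∧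
  ∫ x, lam χ c x ^ 2 ∂(nu χ) ≤ (vv χ)⁻¹ * ∫ x, (dv (ev c) χ x) ^ 2 ∧
  ∫ x, |lam χ c x| ∂(nu χ) ≤ (vv χ)⁻¹ * ∫ x, χ x * |dv (ev c) χ x|

/-- the errors of the localisation -/
def Stmt_ERR : Prop := ∀ (N : ℕ) (L : ℝ) (χ : E → ℝ) (f : E × E → ℝ) (θ : ℝ), Cut L χ → Jas f → 1 ≤ θ →
  CN (G1 f) → (∀ (S : Finset (Fin N)) (i : Fin N), i ∉ S → ZZ f χ S ≤ θ * ZZ f χ (insert i S)) →
  (∀ (i : Fin N) (c : Fin 3), ∫ X, F2 f Finset.univ X * lam χ c (X i) ^ 2 ∂(PP χ N) ≤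
    ZZ f χ (Finset.univ : Finset (Fin N)) * (θ * ((vv χ)⁻¹ * ∫ x, (dv (ev c) χ x) ^ 2))) ∧
  (∀ (t : Fin N × Fin N × Fin N) (m c : Fin 3), t ∈ trip (Finset.univ : Finset (Fin N)) →
    ∫ X, F2 f Finset.univ X * (|lam χ c (X (sel t m))| * tr (G1 f) X t.1 t.2.1 t.2.2) ∂(PP χ N) ≤
    ZZ f χ (Finset.univ : Finset (Fin N)) *
      (θ ^ 3 * ((vv χ)⁻¹ ^ 3 * (∫ x, χ x * |dv (ev c) χ x|) * ∫ z, G1 f z)))

/-! ## the trial function -/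

/-- derivatives of a function of a triple -/
def Stmt_DTR : Prop := ∀ (N : ℕ) (u : E × E → ℝ) (t : Fin N × Fin N × Fin N) (i : Fin N) (c : Fin 3), ContDiff ℝ ∞ u →
  t.1 ≠ t.2.1 → t.1 ≠ t.2.2 → t.2.1 ≠ t.2.2 →
  ContDiff ℝ ∞ (fun X : Fin N → E => tr u X t.1 t.2.1 t.2.2) ∧
  dv (dir i c) (fun X : Fin N → E => tr u X t.1 t.2.1 t.2.2) =
    (fun X => ∑ m : Fin 3, if sel t m = i then tr (dv (dr m c) u) X t.1 t.2.1 t.2.2 else 0)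

/-- derivatives of `U` -/
def Stmt_DUX : Prop := ∀ (N : ℕ) (f : E × E → ℝ), Jas f → ContDiff ℝ ∞ (UU (N := N) f) ∧
  (∀ (X : Fin N → E) (i : Fin N) (c : Fin 3), |dv (dir i c) (UU f) X| ≤
    2 * ∑ t ∈ trip (Finset.univ : Finset (Fin N)), ∑ m : Fin 3,
      if sel t m = i then tr (G1 f) X t.1 t.2.1 t.2.2 else 0) ∧
  (∀ X : Fin N → E, ∑ i, ∑ c, dv (dir i c) (dv (dir i c) (UU f)) X =
    ∑ t ∈ trip (Finset.univ : Finset (Fin N)), tr (Lap (fun z => Real.log (f z))) X t.1 t.2.1 t.2.2)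

/-- derivatives of `C` -/
def Stmt_DCC : Prop := ∀ (N : ℕ) (L : ℝ) (χ : E → ℝ), Cut L χ → 0 < N → ContDiff ℝ ∞ (CC (N := N) χ) ∧
  HasCompactSupport (CC (N := N) χ) ∧ tsupport (CC (N := N) χ) ⊆ box N L ∧
  (∀ (X : Fin N → E) (i : Fin N) (c : Fin 3), dv (dir i c) (CC χ) X = CC χ X * lam χ c (X i))

/-- kinetic energy plus potential energy of a real function -/
noncomputable def enR {N : ℕ} (V : E → E → ℝ) (Ψ : (Fin N → E) → ℝ) : ℝ :=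
  ∫ X, (∑ i, ∑ c, (dv (dir i c) Ψ X) ^ 2 + pot V X * Ψ X ^ 2)

/-- the energy of the trial function -/
def Stmt_ENG : Prop := ∀ (N : ℕ) (L : ℝ) (χ : E → ℝ) (f : E × E → ℝ) (V : E → E → ℝ), 0 < N → Cut L χ → NBH f V →
  enR V (Psi0 (N := N) χ f) = ∫ X, CC χ X ^ 2 * (F2 f Finset.univ X *
    (∑ t ∈ trip (Finset.univ : Finset (Fin N)), tr (kk f V) X t.1 t.2.1 t.2.2
      + ∑ i, ∑ c, (lam χ c (X i) ^ 2 + lam χ c (X i) * dv (dir i c) (UU f) X)))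

/-- upper bound of the ground state energy by a real smooth trial function -/
def Stmt_TRI : Prop := ∀ (N : ℕ) (L : ℝ) (V : E → E → ℝ) (Ψ : (Fin N → E) → ℝ), Admissible V → ContDiff ℝ ∞ Ψ →
  HasCompactSupport Ψ → tsupport Ψ ⊆ box N L → (∀ (σ : Equiv.Perm (Fin N)) (X), Ψ (fun i => X (σ i)) = Ψ X) →
  0 < ∫ X, Ψ X ^ 2 → E0 V N L * (∫ X, Ψ X ^ 2) ≤ enR V Ψ

/-- upper bound of the ground state energy by expectations -/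
def Stmt_EUB : Prop := ∀ (N : ℕ) (L : ℝ) (χ : E → ℝ) (f : E × E → ℝ) (V : E → E → ℝ), 0 < N → Cut L χ → NBH f V →
  E0 V N L * ZZ f χ (Finset.univ : Finset (Fin N)) ≤
    ∑ t ∈ trip (Finset.univ : Finset (Fin N)),
      ∫ X, F2 f Finset.univ X * tr (kk f V) X t.1 t.2.1 t.2.2 ∂(PP χ N) +
    ∑ i : Fin N, ∑ c : Fin 3, ∫ X, F2 f Finset.univ X * lam χ c (X i) ^ 2 ∂(PP χ N) +
    2 * ∑ t ∈ trip (Finset.univ : Finset (Fin N)), ∑ m : Fin 3, ∑ c : Fin 3,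
      ∫ X, F2 f Finset.univ X * (|lam χ c (X (sel t m))| * tr (G1 f) X t.1 t.2.1 t.2.2) ∂(PP χ N)

/-- the bound for finite `N` -/
def Stmt_NBF : Prop := ∀ (N : ℕ) (L : ℝ) (χ : E → ℝ) (f : E × E → ℝ) (V : E → E → ℝ) (η R : ℝ) (D : Set E),
  3 ≤ N → Cut L χ → NBH f V → 0 ≤ η → η < 1 →
  (N : ℝ) ^ 2 / 2 * ((vv χ)⁻¹ ^ 2 * ∫ z, aa f z) ≤ η * (1 - η) ^ 2 →
  MeasurableSet D → volume D < ⊤ → (∀ z, kap f V z ≠ 0 → ‖z‖ ≤ R) → (∀ z, aa f z ≠ 0 → ‖z‖ ≤ R) →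
  (∀ x ∈ D, ∀ y, ‖y - x‖ ≤ R → χ y = 1) →
  E0 V N L ≤ (N : ℝ) * (N - 1) * (N - 2) / 6 *
      ((1 - η)⁻¹ ^ 3 * ((vv χ)⁻¹ ^ 2 * ∫ z, kap f V z)
        - ((N : ℝ) - 3) * ((vv χ)⁻¹ ^ 4 * (volume D).toReal * ∫ z, kap f V z * AA f z.1)
        + (N : ℝ) ^ 2 / 2 * (1 - η)⁻¹ ^ 5 * ((vv χ)⁻¹ ^ 4 * ∫ z, kap f V z * AA f z.1 ^ 2)
        + (N : ℝ) ^ 3 / 2 * (1 - η)⁻¹ ^ 6 * ((vv χ)⁻¹ ^ 5 * (∫ z, kap f V z * AA f z.1) * ∫ z, aa f z)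
        + 6 * (1 - η)⁻¹ ^ 3 * ((vv χ)⁻¹ ^ 3 * (∑ c, ∫ x, χ x * |dv (ev c) χ x|) * ∫ z, G1 f z))
    + N * ((1 - η)⁻¹ * ((vv χ)⁻¹ * ∑ c, ∫ x, (dv (ev c) χ x) ^ 2))

/-! ## the limit -/

/-- existence of cutoffs -/
def Stmt_CUT : Prop := ∀ ε : ℝ, 0 < ε → ε < 1 → ∃ χ : E → ℝ, Cut 1 χ ∧ (∀ x : E, (∀ c, |x c| ≤ (1 - ε) / 2) → χ x = 1) ∧
  (1 - ε) ^ 3 ≤ vv χ ∧ vv χ ≤ 1

/-- scaling of cutoffs -/
def Stmt_SCU : Prop := ∀ (L : ℝ) (χ : E → ℝ), 0 < L → Cut 1 χ → Cut L (fun x => χ (L⁻¹ • x)) ∧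
  vv (fun x => χ (L⁻¹ • x)) = L ^ 3 * vv χ ∧
  (∀ c, ∫ x, (dv (ev c) (fun x => χ (L⁻¹ • x)) x) ^ 2 = L * ∫ x, (dv (ev c) χ x) ^ 2) ∧
  (∀ c, ∫ x, χ (L⁻¹ • x) * |dv (ev c) (fun x => χ (L⁻¹ • x)) x| = L ^ 2 * ∫ x, χ x * |dv (ev c) χ x|)

/-- volume of cubes -/
def Stmt_VCU : Prop := ∀ r : ℝ, 0 ≤ r → MeasurableSet {x : E | ∀ c, |x c| ≤ r} ∧
  volume {x : E | ∀ c, |x c| ≤ r} = ENNReal.ofReal ((2 * r) ^ 3)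

/-- the filter -/
def Stmt_THE : Prop := ∀ ρ : ℝ, 0 < ρ → (thermo ρ).NeBot ∧ Tendsto (fun p : ℕ × ℝ => (p.1 : ℝ)) (thermo ρ) atTop ∧
  Tendsto (fun p : ℕ × ℝ => p.2) (thermo ρ) atTop ∧
  Tendsto (fun p : ℕ × ℝ => (p.1 : ℝ) / p.2 ^ 3) (thermo ρ) (𝓝 ρ) ∧ (∀ᶠ p in thermo ρ, 0 < p.2)

/-- the limit of the bound of `NBF` -/
noncomputable def PhiE (ρ η B Γ Γ₂ α ε v : ℝ) : ℝ :=
  1 / 6 * ρ ^ 3 * ((1 - η)⁻¹ ^ 3 * (v⁻¹ ^ 2 * B) - ρ * (v⁻¹ ^ 4 * (1 - ε) ^ 3 * Γ)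
    + ρ ^ 2 / 2 * (1 - η)⁻¹ ^ 5 * (v⁻¹ ^ 4 * Γ₂) + ρ ^ 3 / 2 * (1 - η)⁻¹ ^ 6 * (v⁻¹ ^ 5 * Γ * α))

/-- the limit for a fixed cutoff -/
def Stmt_NLE : Prop := ∀ (f : E × E → ℝ) (V : E → E → ℝ) (ρ η ε B' : ℝ) (χ : E → ℝ), NBH f V → 0 < ρ → 0 ≤ η → η < 1 →
  0 < ε → ε < 1 → Cut 1 χ → (∀ x : E, (∀ c, |x c| ≤ (1 - ε) / 2) → χ x = 1) →
  (ρ ^ 2 / 2 * ((vv χ)⁻¹ ^ 2 * ∫ z, aa f z) < η * (1 - η) ^ 2 ∨ ∫ z, aa f z = 0) →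
  PhiE ρ η (∫ z, kap f V z) (∫ z, kap f V z * AA f z.1) (∫ z, kap f V z * AA f z.1 ^ 2) (∫ z, aa f z) ε (vv χ) < B' →
  ∀ᶠ p in thermo ρ, E0 V p.1 p.2 / p.2 ^ 3 ≤ B'

/-- the many-body theorem -/
def Stmt_NBL : Prop := ∀ (f : E × E → ℝ) (V : E → E → ℝ) (ρ B' : ℝ), NBH f V → 0 < ρ →
  ρ ^ 2 * (∫ z, aa f z) ≤ 1 / 8 →
  1 / 6 * ρ ^ 3 * ((1 + 4 * (ρ ^ 2 * ∫ z, aa f z)) * (∫ z, kap f V z)
    - (1 - 2 * (ρ ^ 2 * ∫ z, aa f z)) * ρ * (∫ z, kap f V z * AA f z.1)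
    + ρ ^ 2 * ∫ z, kap f V z * AA f z.1 ^ 2) < B' →
  ∀ᶠ p in thermo ρ, E0 V p.1 p.2 / p.2 ^ 3 ≤ B'

/-! ## scattering -/

/-- scattering functions -/
structure Scat (φ : E × E → ℝ) : Prop where
  smooth : ContDiff ℝ ∞ φ
  sy1 : ∀ x y, φ (x, y) = φ (y, x)
  sy2 : ∀ x y, φ (x, y) = φ (-x, y - x)
  le_half : ∀ z, φ z ≤ 1 / 2
  low : ∃ c : ℝ, 0 < c ∧ ∀ z, c ≤ (1 + ‖z‖) ^ 4 * φ z
  upp : ∃ C : ℝ, ∀ z, (1 + ‖z‖) ^ 4 * φ z ≤ C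
  grad : ∃ C : ℝ, ∀ z, (1 + ‖z‖) ^ 10 * gsq φ z ≤ C
  sup : ∀ z, Lap φ z ≤ 0
  supp : ∃ R : ℝ, ∀ z, R < ‖z‖ → Lap φ z = 0

/-- the charge -/
noncomputable def ww (φ : E × E → ℝ) (z : E × E) : ℝ := - Lap φ z

/-- the potential -/
noncomputable def VV (φ : E × E → ℝ) (x y : E) : ℝ := ww φ (x, y) / (1 - φ (x, y))

/-- the gain -/
noncomputable def gam (φ : E × E → ℝ) : ℝ := 1 / 4 * ∫ z : E × E, ww φ z * ∫ y : E, φ (z.1, y)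

/-- truncation -/
noncomputable def Td (δ u : ℝ) : ℝ := ∫ v in (0 : ℝ)..u, Real.smoothTransition (v / δ - 1)

/-- the Jastrow factor of `φ` -/
noncomputable def fd (δ : ℝ) (φ : E × E → ℝ) (z : E × E) : ℝ := 1 - Td δ (φ z)

def Stmt_TDL : Prop := (∀ δ : ℝ, 0 < δ → ContDiff ℝ ∞ (Td δ) ∧
    (∀ u, deriv (Td δ) u = Real.smoothTransition (u / δ - 1)) ∧ (∀ u, u ≤ δ → Td δ u = 0) ∧
    (∀ u, 0 ≤ u → 0 ≤ Td δ u ∧ Td δ u ≤ u ∧ u - 2 * δ ≤ Td δ u) ∧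
    (∀ u, 0 ≤ deriv (deriv (Td δ)) u) ∧ (∀ u, u < δ ∨ 2 * δ < u → deriv (deriv (Td δ)) u = 0)) ∧
  ∃ C : ℝ, ∀ δ : ℝ, 0 < δ → ∀ u, δ * deriv (deriv (Td δ)) u ≤ C

def Stmt_FDJ : Prop := ∀ (φ : E × E → ℝ) (δ : ℝ), Scat φ → 0 < δ → Jas (fd δ φ) ∧
  (∀ z, 0 ≤ φ z ∧ 1 - φ z ≤ fd δ φ z ∧ fd δ φ z ≤ 1 - φ z + 2 * δ)

def Stmt_ADM : Prop := ∀ φ : E × E → ℝ, Scat φ → Admissible (VV φ) ∧ Continuous (fun z : E × E => VV φ z.1 z.2) ∧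
  Continuous (ww φ) ∧ HasCompactSupport (ww φ) ∧ (∀ z, 0 ≤ ww φ z) ∧
  (∀ z : E × E, VV φ z.1 z.2 * (1 - φ z) = ww φ z) ∧ HasCompactSupport (fun z : E × E => VV φ z.1 z.2)

/-- the defect `g = V f - L f` and `κ` -/
def Stmt_KPO : Prop := ∀ (φ : E × E → ℝ) (δ : ℝ), Scat φ → 0 < δ →
  (∀ z, VV φ z.1 z.2 * fd δ φ z - Lap (fd δ φ) z =
    (1 - deriv (Td δ) (φ z)) * ww φ z + deriv (deriv (Td δ)) (φ z) * gsq φ z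
      + VV φ z.1 z.2 * (φ z - Td δ (φ z))) ∧
  (∀ z, 0 ≤ VV φ z.1 z.2 * fd δ φ z - Lap (fd δ φ) z) ∧ (∀ z, ww φ z / 4 ≤ kap (fd δ φ) (VV φ) z)

/-- the mass of `κ` -/
def Stmt_KIN : Prop := ∀ (φ : E × E → ℝ) (δ : ℝ), Scat φ → 0 < δ →
  ∫ z, kap (fd δ φ) (VV φ) z = ∫ z, (gsq (fd δ φ) z + VV φ z.1 z.2 * fd δ φ z ^ 2) ∧
  ∫ z, kap (fd δ φ) (VV φ) z ≤ (∫ z, ww φ z) + 2 * δ * ∫ z : E × E, VV φ z.1 z.2

def Stmt_BUP : Prop := ∀ φ : E × E → ℝ, Scat φ → bM (VV φ) ≤ ∫ z, ww φ z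

/-- energy of a function of `Ḣ¹` -/
def Stmt_BLD : Prop := ∀ (φ : E × E → ℝ) (δ : ℝ) (ζ : E × E → ℝ) (g : E × E → E × E), Scat φ → 0 < δ → HDot ζ g →
  Integrable (fun z => |ζ z| * (VV φ z.1 z.2 * fd δ φ z - Lap (fd δ φ) z)) ∧
  (∫ z, ww φ z) - 2 * δ * (∫ z : E × E, VV φ z.1 z.2) -
    2 * (∫ z, |ζ z| * (VV φ z.1 z.2 * fd δ φ z - Lap (fd δ φ) z)) ≤ scatE (VV φ) ζ g

/-- the error tends to 0 -/
def Stmt_BER : Prop := ∀ (φ : E × E → ℝ) (ζ : E × E → ℝ), Scat φ → MemLp ζ 3 →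
  Tendsto (fun δ : ℝ => ∫ z, |ζ z| * (VV φ z.1 z.2 * fd δ φ z - Lap (fd δ φ) z)) (𝓝[>] 0) (𝓝 0)

def Stmt_BME : Prop := ∀ φ : E × E → ℝ, Scat φ → bM (VV φ) = ∫ z, ww φ z

def Stmt_DIN : Prop := ∀ φ : E × E → ℝ, Scat φ → Tendsto (fun δ : ℝ => δ * ∫ z, aa (fd δ φ) z) (𝓝[>] 0) (𝓝 0)

def Stmt_ABD : Prop := ∀ φ : E × E → ℝ, Scat φ → ∃ A : ℝ, ∀ δ : ℝ, 0 < δ → ∀ x, AA (fd δ φ) x ≤ A

def Stmt_GLI : Prop := ∀ φ : E × E → ℝ, Scat φ → ∀ γ : ℝ, γ < gam φ →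
  ∀ᶠ δ in 𝓝[>] (0 : ℝ), γ ≤ ∫ z : E × E, kap (fd δ φ) (VV φ) z * AA (fd δ φ) z.1

/-- the energy of the gas with potential `VV φ` -/
def Stmt_GAS : Prop := ∀ φ : E × E → ℝ, Scat φ → ∀ K : ℝ, K < gam φ → ∃ ρ₀ : ℝ, 0 < ρ₀ ∧ ∀ ρ, 0 < ρ → ρ < ρ₀ →
  ∀ᶠ p in thermo ρ, E0 (VV φ) p.1 p.2 / p.2 ^ 3 ≤ 1 / 6 * ρ ^ 3 * ((∫ z, ww φ z) - K * ρ)

/-! ## the family -/

/-- `m(s)`: the charge inside -/
noncomputable def mm (s : ℝ) : ℝ := Real.smoothTransition (2 * s - 1)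

/-- the radial profile: `ψ(s) = 1/s²` for `s ≥ 1`, constant for `s ≤ 1/2` -/
noncomputable def psi (s : ℝ) : ℝ := 1 + ∫ σ in s..1, 2 * mm σ / σ ^ 3

/-- the quadratic form `(|x|² + |y|² + |x-y|²)/3 = ∑ |x_i - x̄|²` -/
noncomputable def QQ (z : E × E) : ℝ := (‖z.1‖ ^ 2 + ‖z.2‖ ^ 2 + ‖z.1 - z.2‖ ^ 2) / 3

noncomputable def hh (z : E × E) : ℝ := psi (QQ z)

def Stmt_PSI : Prop := ContDiff ℝ ∞ psi ∧ (∀ s, deriv psi s = -(2 * mm s / s ^ 3)) ∧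
  (∀ s, 1 ≤ s → psi s = 1 / s ^ 2) ∧ (∀ s, 0 ≤ s → 1 ≤ (1 + s) ^ 2 * psi s ∧ (1 + s) ^ 2 * psi s ≤ 16 ∧ psi s ≤ 4 ∧
    (1 + s) ^ 3 * |deriv psi s| ≤ 54) ∧
  (∀ s, 4 * s * deriv (deriv psi) s + 12 * deriv psi s = -(8 * deriv mm s / s ^ 2)) ∧
  (∀ s, 0 ≤ deriv mm s) ∧ (∀ s, 1 < s → deriv mm s = 0) ∧ (∃ s, 0 < s ∧ 0 < deriv mm s) ∧ (∀ s, s < 1 / 2 → deriv mm s = 0)

def Stmt_QFO : Prop := ContDiff ℝ ∞ QQ ∧ (∀ z, gsq QQ z = 4 * QQ z) ∧ (∀ z, Lap QQ z = 12) ∧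
  (∀ z, 0 ≤ QQ z ∧ QQ z ≤ 2 * ‖z‖ ^ 2 ∧ ‖z‖ ^ 2 ≤ 3 * QQ z) ∧
  (∀ x y, QQ (x, y) = QQ (y, x) ∧ QQ (x, y) = QQ (-x, y - x)) ∧
  (∀ x y : E, ‖x‖ ^ 2 ≤ 3 * QQ (x, y) ∧ ‖y‖ ^ 2 ≤ 3 * QQ (x, y) ∧ ‖x - y‖ ^ 2 ≤ 3 * QQ (x, y))

/-- properties of a bump -/
structure Bump (h : E × E → ℝ) : Prop where
  smooth : ContDiff ℝ ∞ h
  sy1 : ∀ x y, h (x, y) = h (y, x)
  sy2 : ∀ x y, h (x, y) = h (-x, y - x)
  le4 : ∀ z, h z ≤ 4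
  dec : ∀ z, 1 ≤ QQ z → h z ≤ 1 / QQ z ^ 2
  low : ∃ c : ℝ, 0 < c ∧ ∀ z, c ≤ (1 + ‖z‖) ^ 4 * h z
  upp : ∃ C : ℝ, ∀ z, (1 + ‖z‖) ^ 4 * h z ≤ C
  grad : ∃ C : ℝ, ∀ z, (1 + ‖z‖) ^ 10 * gsq h z ≤ C
  sup : ∀ z, Lap h z ≤ 0
  supp : ∀ z, 1 < QQ z → Lap h z = 0
  cont : Continuous (ww h)
  cpt : HasCompactSupport (ww h)
  pos : 0 < ∫ z, ww h z

def Stmt_HHB : Prop := Bump hh

/-- the far points -/
noncomputable def YY (m j : ℕ) : E := ((12 * (m + 1) : ℝ) * (j : ℝ)) • ev 0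

/-- the family -/
noncomputable def fam (m : ℕ) (z : E × E) : ℝ :=
  1 / 30 * ∑ j ∈ Finset.range m, (hh (z - (0, -YY m j)) + hh (z - (-YY m j, 0)) + hh (z - (YY m j, YY m j)))

def Stmt_FAS : Prop := ∀ m : ℕ, 0 < m → ∀ z, fam m z ≤ 1 / 2

def Stmt_FAM : Prop := ∀ m : ℕ, 0 < m → Scat (fam m)

def Stmt_FAW : Prop := ∀ m : ℕ, (∀ z, ww (fam m) z = 1 / 30 * ∑ j ∈ Finset.range m,
    (ww hh (z - (0, -YY m j)) + ww hh (z - (-YY m j, 0)) + ww hh (z - (YY m j, YY m j)))) ∧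
  ∫ z, ww (fam m) z = (m : ℝ) / 10 * ∫ z, ww hh z

def Stmt_FAG : Prop := ∃ c : ℝ, 0 < c ∧ ∀ m : ℕ, 0 < m → c * (m : ℝ) ^ 2 ≤ gam (fam m)

def Stmt_SCL : Prop := ∀ (φ : E × E → ℝ) (r : ℝ), 0 < r → Scat φ → Scat (fun z => φ (r⁻¹ • z)) ∧
  ∫ z, ww (fun z => φ (r⁻¹ • z)) z = r ^ 4 * ∫ z, ww φ z ∧ gam (fun z => φ (r⁻¹ • z)) = r ^ 7 * gam φ

def Stmt_EXI : Prop := ∀ b K : ℝ, 0 < b → ∃ φ : E × E → ℝ, Scat φ ∧ ∫ z, ww φ z = b ∧ K < gam φ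

/-- consequences for the expansion -/
def Stmt_CON : Prop :=
  (∀ b K : ℝ, 0 < b → ∃ V : E → E → ℝ, Admissible V ∧ bM V = b ∧ ∃ ρ₀ : ℝ, 0 < ρ₀ ∧ ∀ ρ, 0 < ρ → ρ < ρ₀ →
    ∀ᶠ p in thermo ρ, E0 V p.1 p.2 / p.2 ^ 3 ≤ 1 / 6 * ρ ^ 3 * b * (1 - K * ρ)) → MainStatement

end Pool.Agent.TBG
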